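import Pool.Agent.Lib.MP_3fbd41_lc.Earring

/-!
# Geometry of the harmonic archipelago
-/

namespace Pool.Agent.MP3fbd41

open Filter Topology unitInterval

/-- radii of the circles -/
noncomputable def omh (j : ℕ) : ℝ := 1 / ((j : ℝ) + 1)

theorem omh_pos (j : ℕ) : 0 < omh j := by unfold omh; positivity

theorem cen_omh : Cen omh := by
  refine ⟨fun j => (omh_pos j).ne', ?_, ?_⟩
  · intro i j h
    unfold omh at h
    have h1 : ((i : ℝ) + 1) ≠ 0 := by positivity
    have h2 : ((j : ℝ) + 1) ≠ 0 := by positivity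
    rw [div_eq_div_iff h1 h2] at h
    have : (i : ℝ) = j := by linarith
    exact_mod_cast this
  · exact tendsto_one_div_add_atTop_nhds_zero_nat

theorem two_omh (j : ℕ) : 1 / (2 * omh j) = ((j : ℝ) + 1) / 2 := by
  unfold omh
  have : ((j : ℝ) + 1) ≠ 0 := by positivity
  field_simp

theorem ball_sub {c a : ℂ} {r b : ℝ} (hr : 0 < r) (h : ∀ z : ℂ, ‖z - c‖ ≤ r → ‖z - a‖ ≤ b) :
    ‖c - a‖ + r ≤ b := by
  by_cases hca : c - a = 0
  · have := h (c + r) (by simp [abs_of_pos hr])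
    rw [show c + (r : ℂ) - a = (c - a) + r by ring, hca, zero_add, Complex.norm_real,
      Real.norm_eq_abs, abs_of_pos hr] at this
    rw [hca, norm_zero]
    linarith
  · have hn : 0 < ‖c - a‖ := norm_pos_iff.2 hca
    have h1 := h (c + (r / ‖c - a‖ : ℝ) * (c - a)) (by
      rw [add_sub_cancel_left, norm_mul, Complex.norm_real, Real.norm_eq_abs,
        abs_of_pos (by positivity)]
      field_simp
      exact le_rfl)
    have e : c + (r / ‖c - a‖ : ℝ) * (c - a) - a = ((1 + r / ‖c - a‖ : ℝ) : ℂ) * (c - a) := by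
      push_cast
      ring
    rw [e, norm_mul, Complex.norm_real, Real.norm_eq_abs, abs_of_pos (by positivity)] at h1
    have e2 : (1 + r / ‖c - a‖) * ‖c - a‖ = ‖c - a‖ + r := by field_simp
    linarith

theorem ball_excl {c a : ℂ} {r b : ℝ} (hr : 0 < r) (hb : 0 < b)
    (h : ∀ z : ℂ, ‖z - c‖ ≤ r → b ≤ ‖z - a‖) : b + r ≤ ‖c - a‖ := by
  by_cases hca : ‖c - a‖ ≤ r
  · have := h a (by rw [norm_sub_rev]; exact hca)
    rw [sub_self, norm_zero] at this
    linarith
  · push Not at hca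
    have hn : 0 < ‖c - a‖ := hr.trans hca
    have h1 := h (c - (r / ‖c - a‖ : ℝ) * (c - a)) (by
      rw [sub_sub_cancel_left, norm_neg, norm_mul, Complex.norm_real, Real.norm_eq_abs,
        abs_of_pos (by positivity)]
      field_simp
      exact le_rfl)
    have e : c - (r / ‖c - a‖ : ℝ) * (c - a) - a = ((1 - r / ‖c - a‖ : ℝ) : ℂ) * (c - a) := by
      push_cast
      ring
    have h2 : 0 ≤ 1 - r / ‖c - a‖ := by
      rw [sub_nonneg, div_le_one hn]
      exact hca.le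
    rw [e, norm_mul, Complex.norm_real, Real.norm_eq_abs, abs_of_nonneg h2] at h1
    have e2 : (1 - r / ‖c - a‖) * ‖c - a‖ = ‖c - a‖ - r := by field_simp
    linarith

theorem disk_lt_xx {z : ℂ} (hz : z ≠ 0) {a : ℝ} (ha : 0 < a) :
    ‖z - a‖ < a ↔ 1 / (2 * a) < xx z := by
  rw [← sq_lt_sq₀ (norm_nonneg _) ha.le, norm_sub_real_sq, xx_eq,
    div_lt_div_iff₀ (by linarith) (normSq_pos' hz)]
  constructor <;> intro h <;> linarith

theorem lt_disk_xx {z : ℂ} (hz : z ≠ 0) {a : ℝ} (ha : 0 < a) :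
    a < ‖z - a‖ ↔ xx z < 1 / (2 * a) := by
  rw [← not_le, ← not_le, disk_iff_xx hz ha]

theorem le_disk_xx {z : ℂ} (hz : z ≠ 0) {a : ℝ} (ha : 0 < a) :
    a ≤ ‖z - a‖ ↔ xx z ≤ 1 / (2 * a) := by
  rw [← not_lt, ← not_lt, disk_lt_xx hz ha]

variable (D : Disks)

/-- centres, with indices from `0` -/
noncomputable def cc (i : ℕ) : ℂ := D.centre (i + 1)

/-- radii, with indices from `0` -/
noncomputable def rr (i : ℕ) : ℝ := D.radius (i + 1)

theorem rr_pos (i : ℕ) : 0 < rr D i := D.radius_pos (i + 1) (by omega)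

theorem cc_in (i : ℕ) : ‖cc D i - omh i‖ + rr D i ≤ omh i := by
  apply ball_sub (rr_pos D i)
  intro z hz
  have := (D.between (i + 1) (by omega) z hz).1
  unfold omh
  push_cast at this ⊢
  exact this

theorem cc_out (i : ℕ) : omh (i + 1) + rr D i ≤ ‖cc D i - omh (i + 1)‖ := by
  apply ball_excl (rr_pos D i) (omh_pos _)
  intro z hz
  have := (D.between (i + 1) (by omega) z hz).2
  unfold omh
  push_cast at this ⊢
  exact this

theorem rr_lt (i : ℕ) : rr D i < ‖cc D i‖ := by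
  by_contra hcon
  push Not at hcon
  have h1 := cc_in D i
  have h2 := cc_out D i
  set a := omh i with ha
  set b := omh (i + 1) with hb
  have ha0 : 0 < a := omh_pos i
  have hb0 : 0 < b := omh_pos (i + 1)
  set c := cc D i with hc
  set r := rr D i with hr
  have hr0 : 0 < r := rr_pos D i
  have h3 : ‖c - a‖ ≤ a - r := by linarith
  have h3' : ‖c - a‖ ^ 2 ≤ (a - r) ^ 2 := by
    have := norm_nonneg (c - a)
    apply sq_le_sq' <;> linarith
  have h4 : ‖c‖ ^ 2 ≤ r ^ 2 := by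
    have := norm_nonneg c
    apply sq_le_sq' <;> linarith
  have h5 : (b + r) ^ 2 ≤ ‖c - b‖ ^ 2 := by
    apply sq_le_sq' <;> linarith
  rw [norm_sub_real_sq] at h3' h5
  rw [norm_sq'] at h4
  have h6 : c.re ≤ -r := by
    have : b * (c.re + r) ≤ 0 := by nlinarith
    by_contra hcon
    push Not at hcon
    have : 0 < b * (c.re + r) := mul_pos hb0 (by linarith)
    linarith
  have h7 : r ≤ a := by
    have := norm_nonneg (c - a)
    linarith
  have h8 : a * c.re ≤ -(a * r) := by nlinarith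
  have h9 : r ^ 2 ≤ a * r := by nlinarith
  have h10 : 0 < a * r := mul_pos ha0 hr0
  nlinarith [sq_nonneg c.re, sq_nonneg c.im]

theorem cc_ne (i : ℕ) : cc D i ≠ 0 := by
  intro h
  have := rr_lt D i
  rw [h, norm_zero] at this
  have := rr_pos D i
  linarith

/-- real part of the inverse of the centre -/
noncomputable def XX (i : ℕ) : ℝ := xx (cc D i)

theorem XX_gt (i : ℕ) : ((i : ℝ) + 1) / 2 < XX D i := by
  have h1 := cc_in D i
  have h2 := rr_pos D i
  rw [← two_omh]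
  exact (disk_lt_xx (cc_ne D i) (omh_pos i)).1 (by linarith)

theorem XX_lt (i : ℕ) : XX D i < ((i : ℝ) + 2) / 2 := by
  have h1 := cc_out D i
  have h2 := rr_pos D i
  have h3 := (lt_disk_xx (cc_ne D i) (omh_pos (i + 1))).1 (by linarith)
  rw [two_omh] at h3
  push_cast at h3
  unfold XX
  linarith

/-- the height function of the `i`-th hill -/
noncomputable def hh (i : ℕ) (z : ℂ) : ℝ := max 0 (1 - ‖z - cc D i‖ / rr D i)

theorem continuous_hh (i : ℕ) : Continuous (hh D i) := by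
  unfold hh
  fun_prop

theorem hh_nonneg (i : ℕ) (z : ℂ) : 0 ≤ hh D i z := le_max_left _ _

theorem hh_eq_zero {i : ℕ} {z : ℂ} (h : rr D i ≤ ‖z - cc D i‖) : hh D i z = 0 := by
  unfold hh
  apply max_eq_left
  have := (one_le_div (rr_pos D i)).2 h
  linarith

theorem hh_eq {i : ℕ} {z : ℂ} (h : ‖z - cc D i‖ ≤ rr D i) :
    hh D i z = 1 - ‖z - cc D i‖ / rr D i := by
  unfold hh
  apply max_eq_right
  have := (div_le_one (rr_pos D i)).2 h
  linarith

theorem hh_zero (i : ℕ) : hh D i 0 = 0 := by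
  apply hh_eq_zero
  rw [zero_sub, norm_neg]
  exact (rr_lt D i).le

theorem region_of_lt {i : ℕ} {z : ℂ} (h : ‖z - cc D i‖ < rr D i) :
    z ≠ 0 ∧ ((i : ℝ) + 1) / 2 < xx z ∧ xx z < ((i : ℝ) + 2) / 2 := by
  have hz : z ≠ 0 := by
    rintro rfl
    rw [zero_sub, norm_neg] at h
    have := rr_lt D i
    linarith
  refine ⟨hz, ?_, ?_⟩
  · rw [← two_omh]
    refine (disk_lt_xx hz (omh_pos i)).1 ?_
    have h1 := cc_in D i
    have h2 : ‖z - omh i‖ ≤ ‖z - cc D i‖ + ‖cc D i - omh i‖ := by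
      have := norm_add_le (z - cc D i) (cc D i - omh i)
      simpa using this
    linarith
  · have h1 := cc_out D i
    have h2 : ‖cc D i - omh (i + 1)‖ ≤ ‖z - cc D i‖ + ‖z - omh (i + 1)‖ := by
      have := norm_add_le (cc D i - z) (z - omh (i + 1))
      rw [norm_sub_rev (cc D i) z] at this
      simpa using this
    have h3 := (lt_disk_xx hz (omh_pos (i + 1))).1 (by linarith)
    rw [two_omh] at h3
    push_cast at h3
    linarith

theorem region_of_le {i : ℕ} {z : ℂ} (h : ‖z - cc D i‖ ≤ rr D i) :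
    z ≠ 0 ∧ ((i : ℝ) + 1) / 2 ≤ xx z ∧ xx z ≤ ((i : ℝ) + 2) / 2 := by
  have hz : z ≠ 0 := by
    rintro rfl
    rw [zero_sub, norm_neg] at h
    have := rr_lt D i
    linarith
  refine ⟨hz, ?_, ?_⟩
  · rw [← two_omh]
    refine (disk_iff_xx hz (omh_pos i)).1 ?_
    have h1 := cc_in D i
    have h2 : ‖z - omh i‖ ≤ ‖z - cc D i‖ + ‖cc D i - omh i‖ := by
      have := norm_add_le (z - cc D i) (cc D i - omh i)
      simpa using this
    linarith
  · have h1 := cc_out D i
    have h2 : ‖cc D i - omh (i + 1)‖ ≤ ‖z - cc D i‖ + ‖z - omh (i + 1)‖ := by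
      have := norm_add_le (cc D i - z) (z - omh (i + 1))
      rw [norm_sub_rev (cc D i) z] at this
      simpa using this
    have h3 := (le_disk_xx hz (omh_pos (i + 1))).1 (by linarith)
    rw [two_omh] at h3
    push_cast at h3
    linarith

theorem hh_eq_zero_of {i : ℕ} {z : ℂ} (h : xx z ≤ ((i : ℝ) + 1) / 2 ∨ ((i : ℝ) + 2) / 2 ≤ xx z) :
    hh D i z = 0 := by
  apply hh_eq_zero
  by_contra hcon
  push Not at hcon
  have := region_of_lt D hcon
  rcases h with h | h
  · linarith [this.2.1]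
  · linarith [this.2.2]

/-- index of the region -/
noncomputable def idx (z : ℂ) : ℕ := ⌊2 * xx z⌋₊ - 1

/-- the height function of the archipelago -/
noncomputable def hgt (z : ℂ) : ℝ := hh D (idx z) z

theorem idx_spec {z : ℂ} (h : 1 / 2 ≤ xx z) :
    ((idx z : ℝ) + 1) / 2 ≤ xx z ∧ xx z < ((idx z : ℝ) + 2) / 2 := by
  have h1 : 1 ≤ ⌊2 * xx z⌋₊ := by
    rw [Nat.one_le_floor_iff]
    linarith
  have h2 : ((idx z : ℕ) : ℝ) = (⌊2 * xx z⌋₊ : ℝ) - 1 := by
    unfold idx
    rw [Nat.cast_sub h1]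
    simp
  have h3 := Nat.floor_le (show 0 ≤ 2 * xx z by linarith)
  have h4 := Nat.lt_floor_add_one (2 * xx z)
  constructor
  · rw [h2]; linarith
  · rw [h2]; linarith

theorem idx_eq {z : ℂ} {i : ℕ} (h1 : ((i : ℝ) + 1) / 2 ≤ xx z) (h2 : xx z < ((i : ℝ) + 2) / 2) :
    idx z = i := by
  have : ⌊2 * xx z⌋₊ = i + 1 := by
    rw [Nat.floor_eq_iff (by
      have : (0:ℝ) ≤ i := Nat.cast_nonneg i
      linarith)]
    push_cast
    constructor <;> linarith
  unfold idx
  rw [this]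
  rfl

theorem idx_eq' {z : ℂ} {i : ℕ} (h1 : xx z = ((i : ℝ) + 2) / 2) : idx z = i + 1 := by
  apply idx_eq <;> push_cast <;> linarith

theorem hgt_eq {z : ℂ} {i : ℕ} (h1 : ((i : ℝ) + 1) / 2 ≤ xx z) (h2 : xx z ≤ ((i : ℝ) + 2) / 2) :
    hgt D z = hh D i z := by
  unfold hgt
  rcases lt_or_eq_of_le h2 with h | h
  · rw [idx_eq h1 h]
  · rw [idx_eq' h, hh_eq_zero_of D (Or.inr h.ge), hh_eq_zero_of]
    left
    push_cast
    linarith

theorem hgt_zero : hgt D 0 = 0 := by
  unfold hgt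
  exact hh_zero D _

theorem hgt_nonneg (z : ℂ) : 0 ≤ hgt D z := hh_nonneg D _ _

theorem mem_unit_iff {z : ℂ} (hz : z ≠ 0) : ‖z - 1‖ ≤ 1 ↔ 1 / 2 ≤ xx z := by
  have := disk_iff_xx hz one_pos
  rw [mul_one] at this
  exact_mod_cast this

theorem mem_arch (p : ℂ × ℝ) : p ∈ archipelago D ↔ ‖p.1 - 1‖ ≤ 1 ∧ p.2 = hgt D p.1 := by
  constructor
  · rintro (⟨h1, h2, h3⟩ | ⟨n, hn, h1, h2⟩)
    · refine ⟨h1, ?_⟩
      rw [h3]
      exact (hh_eq_zero D (h2 (idx p.1 + 1) (by omega))).symm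
    · obtain ⟨i, rfl⟩ : ∃ i, n = i + 1 := ⟨n - 1, by omega⟩
      obtain ⟨hz, r1, r2⟩ := region_of_le D (i := i) h1
      refine ⟨?_, ?_⟩
      · rw [mem_unit_iff hz]
        have : (0:ℝ) ≤ i := Nat.cast_nonneg i
        linarith
      · rw [hgt_eq D r1 r2, hh_eq D h1, h2]
        rfl
  · rintro ⟨h1, h2⟩
    by_cases h : ∃ i, ‖p.1 - cc D i‖ < rr D i
    · right
      obtain ⟨i, hi⟩ := h
      obtain ⟨-, r1, r2⟩ := region_of_lt D hi
      refine ⟨i + 1, by omega, hi.le, ?_⟩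
      rw [h2, hgt_eq D r1.le r2.le, hh_eq D hi.le]
      rfl
    · left
      push Not at h
      refine ⟨h1, ?_, ?_⟩
      · intro n hn
        obtain ⟨i, rfl⟩ : ∃ i, n = i + 1 := ⟨n - 1, by omega⟩
        exact h i
      · rw [h2]
        exact hh_eq_zero D (h _)

/-- formula for the height in the outer region -/
theorem hgt_sum {k : ℕ} {z : ℂ} (h1 : 1 / 2 ≤ xx z) (h2 : xx z ≤ ((k : ℝ) + 1) / 2) :
    hgt D z = ∑ i ∈ Finset.range k, hh D i z := by
  obtain ⟨a1, a2⟩ := idx_spec h1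
  have hother : ∀ i, i ≠ idx z → hh D i z = 0 := by
    intro i hi
    apply hh_eq_zero_of
    rcases lt_or_gt_of_ne hi with h | h
    · right
      have : (i : ℝ) + 1 ≤ idx z := by exact_mod_cast h
      linarith
    · left
      have : (idx z : ℝ) + 1 ≤ i := by exact_mod_cast h
      linarith
  by_cases hk : idx z < k
  · rw [Finset.sum_eq_single (idx z) (fun i _ hi => hother i hi)
      (fun h => absurd (Finset.mem_range.2 hk) h)]
    rfl
  · rw [Finset.sum_eq_zero (fun i hi => hother i (by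
      have := Finset.mem_range.1 hi
      omega))]
    show hh D (idx z) z = 0
    apply hh_eq_zero_of
    left
    have : (k : ℝ) ≤ idx z := by exact_mod_cast (not_lt.1 hk)
    linarith

end Pool.Agent.MP3fbd41
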