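import Pool.Agent.Lib.MP_3fbd41_lc.ArchMove

/-!
# Continuity of the deformation
-/

namespace Pool.Agent.MP3fbd41

open Filter Topology unitInterval

variable (D : Disks)

theorem ne_of_xx {z : ℂ} (h : 1 / 2 ≤ xx z) : z ≠ 0 := by
  rintro rfl
  unfold xx at h
  simp at h
  norm_num at h

theorem Fo_inv {k : ℕ} {z : ℂ} (hz : z ≠ 0) (τ : ℝ) :
    (Fo k z τ)⁻¹ = z⁻¹ + ((τ * (((k : ℝ) + 1) / 2 - xx z) : ℝ) : ℂ) := by
  unfold Fo
  rw [inv_div]
  field_simp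

theorem xx_Fo {k : ℕ} {z : ℂ} (hz : z ≠ 0) (τ : ℝ) :
    xx (Fo k z τ) = xx z + τ * (((k : ℝ) + 1) / 2 - xx z) := by
  have h : xx (Fo k z τ) = ((Fo k z τ)⁻¹).re := rfl
  rw [h, Fo_inv hz, Complex.add_re, Complex.ofReal_re]
  rfl

theorem xx_Fo_mem {k : ℕ} {z : ℂ} (hz : z ≠ 0) (h2 : xx z ≤ ((k : ℝ) + 1) / 2) {τ : ℝ}
    (t0 : 0 ≤ τ) (t1 : τ ≤ 1) :
    xx z ≤ xx (Fo k z τ) ∧ xx (Fo k z τ) ≤ ((k : ℝ) + 1) / 2 := by
  rw [xx_Fo hz]
  constructor <;> nlinarith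

theorem Fo_den {k : ℕ} {z : ℂ} (h1 : 1 / 2 ≤ xx z) (h2 : xx z ≤ ((k : ℝ) + 1) / 2)
    {τ : ℝ} (t0 : 0 ≤ τ) :
    1 + ((τ * (((k : ℝ) + 1) / 2 - xx z) : ℝ) : ℂ) * z ≠ 0 := by
  intro hcon
  have hz := ne_of_xx h1
  have e : z⁻¹ + ((τ * (((k : ℝ) + 1) / 2 - xx z) : ℝ) : ℂ) = 0 := by
    have : z⁻¹ + ((τ * (((k : ℝ) + 1) / 2 - xx z) : ℝ) : ℂ)
      = z⁻¹ * (1 + ((τ * (((k : ℝ) + 1) / 2 - xx z) : ℝ) : ℂ) * z) := by
      field_simp
    rw [this, hcon, mul_zero]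
  have h3 := congrArg Complex.re e
  rw [Complex.add_re, Complex.ofReal_re, Complex.zero_re] at h3
  have h4 : xx z = (z⁻¹).re := rfl
  rw [← h4] at h3
  have : 0 ≤ τ * (((k : ℝ) + 1) / 2 - xx z) := mul_nonneg t0 (by linarith)
  linarith

theorem norm_Fo_le {k : ℕ} {z : ℂ} (h1 : 1 / 2 ≤ xx z) (h2 : xx z ≤ ((k : ℝ) + 1) / 2)
    {τ : ℝ} (t0 : 0 ≤ τ) : ‖Fo k z τ‖ ≤ ‖z‖ := by
  have hz := ne_of_xx h1
  have hne : Fo k z τ ≠ 0 := div_ne_zero hz (Fo_den h1 h2 t0)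
  have h3 : ‖z⁻¹‖ ≤ ‖(Fo k z τ)⁻¹‖ := by
    rw [Fo_inv hz, ← sq_le_sq₀ (norm_nonneg _) (norm_nonneg _), norm_sq', norm_sq', Complex.add_re,
      Complex.add_im, Complex.ofReal_re, Complex.ofReal_im]
    have h4 : xx z = (z⁻¹).re := rfl
    rw [← h4]
    have : 0 ≤ τ * (((k : ℝ) + 1) / 2 - xx z) := mul_nonneg t0 (by linarith)
    nlinarith
  rw [norm_inv, norm_inv] at h3
  exact (inv_le_inv₀ (norm_pos_iff.2 hz) (norm_pos_iff.2 hne)).1 h3

theorem norm_Fi_le_small {i : ℕ} {z : ℂ} (h1 : ((i : ℝ) + 1) / 2 ≤ xx z)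
    (h2 : xx z ≤ ((i : ℝ) + 2) / 2) {τ : ℝ} (t0 : 0 ≤ τ) (t1 : τ ≤ 1)
    (hs : ‖(cc D i)⁻¹‖ * ‖z‖ < 1 / 2) : ‖Fi D i z τ‖ ≤ 2 * ‖z‖ := by
  obtain ⟨m0, m1⟩ := mu_bounds D h1 h2
  obtain ⟨n0, n1⟩ := mt_bounds D h1 h2 t0 t1
  unfold Fi
  set m := mt D i z τ with hm
  have hm0 : 0 ≤ m := m0.trans n0
  have h3 : ‖(1 - (m : ℂ)) * (cc D i)⁻¹ * z‖ ≤ 1 / 2 := by
    have e : (1 - (m : ℂ)) = ((1 - m : ℝ) : ℂ) := by push_cast; ring
    rw [mul_assoc, norm_mul, norm_mul, e, Complex.norm_real, Real.norm_eq_abs,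
      abs_of_nonneg (by linarith)]
    have := mul_nonneg (norm_nonneg ((cc D i)⁻¹)) (norm_nonneg z)
    nlinarith
  have h4 : 1 / 2 ≤ ‖1 - (1 - (m : ℂ)) * (cc D i)⁻¹ * z‖ := by
    have := norm_sub_norm_le (1:ℂ) ((1 - (m : ℂ)) * (cc D i)⁻¹ * z)
    rw [norm_one] at this
    linarith
  rw [norm_div, norm_mul, Complex.norm_real, Real.norm_eq_abs, abs_of_nonneg hm0,
    div_le_iff₀ (by linarith)]
  have := norm_nonneg z
  nlinarith

/-- domain of the deformation -/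
def S0 (k : ℕ) : Set (ℂ × ℝ) :=
  {q | 1 / 2 ≤ xx q.1 ∧ (∀ i, k ≤ i → q.1 ≠ cc D i) ∧ 0 ≤ q.2 ∧ q.2 ≤ 1}

theorem continuousOn_xx : ContinuousOn xx {z | z ≠ 0} := fun _ hz =>
  (continuousAt_xx hz).continuousWithinAt

/-- the pieces -/
def TT (k : ℕ) : ℕ → Set ℝ
  | 0 => Set.Iic (((k : ℝ) + 1) / 2)
  | n + 1 => Set.Icc (((k + n : ℕ) : ℝ) / 2 + 1 / 2) (((k + n : ℕ) : ℝ) / 2 + 1)

theorem locallyFinite_TT (k : ℕ) : LocallyFinite (TT k) := by
  intro x
  refine ⟨Set.Iio (x + 1), Iio_mem_nhds (by linarith), ?_⟩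
  obtain ⟨N, hN⟩ := exists_nat_ge (2 * x + 2)
  refine (Set.finite_le_nat N).subset ?_
  rintro b ⟨y, hy1, hy2⟩
  show b ≤ N
  by_contra hcon
  push Not at hcon
  obtain ⟨n, rfl⟩ : ∃ n, b = n + 1 := ⟨b - 1, by omega⟩
  have h1 := hy1.1
  have h2 : y < x + 1 := hy2
  push_cast at h1
  have h3 : (N : ℝ) ≤ n := by exact_mod_cast (show N ≤ n by omega)
  have h4 : (0:ℝ) ≤ k := Nat.cast_nonneg k
  linarith

theorem isClosed_TT (k n : ℕ) : IsClosed (TT k n) := by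
  cases n with
  | zero => exact isClosed_Iic
  | succ n => exact isClosed_Icc

theorem cover_TT (k : ℕ) (x : ℝ) (hx : 1 / 2 ≤ x) : ∃ n, x ∈ TT k n := by
  by_cases h : x ≤ ((k : ℝ) + 1) / 2
  · exact ⟨0, h⟩
  · push Not at h
    have h0 : (0:ℝ) ≤ 2 * x := by linarith
    have h3 := Nat.floor_le h0
    have h4 := Nat.lt_floor_add_one (2 * x)
    have h5 : k + 1 ≤ ⌊2 * x⌋₊ := by
      apply Nat.le_floor
      push_cast
      linarith
    refine ⟨⌊2 * x⌋₊ - (k + 1) + 1, ?_⟩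
    have e : ((k + (⌊2 * x⌋₊ - (k + 1)) : ℕ) : ℝ) = (⌊2 * x⌋₊ : ℝ) - 1 := by
      have : k + (⌊2 * x⌋₊ - (k + 1)) = ⌊2 * x⌋₊ - 1 := by omega
      rw [this, Nat.cast_sub (by omega)]
      simp
    show x ∈ Set.Icc (((k + (⌊2 * x⌋₊ - (k + 1)) : ℕ) : ℝ) / 2 + 1 / 2)
      (((k + (⌊2 * x⌋₊ - (k + 1)) : ℕ) : ℝ) / 2 + 1)
    rw [e]
    constructor <;> linarith

theorem continuous_xx_S0 (k : ℕ) : Continuous (fun q : S0 D k => xx q.1.1) := by
  have h : ∀ q : S0 D k, q.1.1 ≠ 0 := fun q => ne_of_xx q.2.1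
  exact continuousOn_xx.comp_continuous (by fun_prop) h

theorem continuous_mu_S0 (k i : ℕ) : Continuous (fun q : S0 D k => mu D i q.1.1) := by
  have := continuous_xx_S0 D k
  unfold mu
  exact ((continuous_const.sub this).div_const _).max ((this.sub continuous_const).div_const _)

theorem continuous_mt_S0 (k i : ℕ) : Continuous (fun q : S0 D k => mt D i q.1.1 q.1.2) := by
  have := continuous_mu_S0 D k i
  unfold mt
  fun_prop

/-- moved point with its height -/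
noncomputable def PH (k : ℕ) (z : ℂ) (τ : ℝ) : ℂ × ℝ := (PP D k z τ, hgt D (PP D k z τ))

theorem PH_out {k : ℕ} {z : ℂ} (h1 : 1 / 2 ≤ xx z) (h2 : xx z ≤ ((k : ℝ) + 1) / 2) {τ : ℝ}
    (t0 : 0 ≤ τ) (t1 : τ ≤ 1) :
    PH D k z τ = (Fo k z τ, ∑ i ∈ Finset.range k, hh D i (Fo k z τ)) := by
  have hz := ne_of_xx h1
  unfold PH
  rw [PP_out D hz h2]
  obtain ⟨a1, a2⟩ := xx_Fo_mem hz h2 t0 t1
  rw [hgt_sum D (h1.trans a1) a2]

theorem PH_in {k i : ℕ} {z : ℂ} (hk : k ≤ i) (h1 : ((i : ℝ) + 1) / 2 ≤ xx z)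
    (h2 : xx z ≤ ((i : ℝ) + 2) / 2) {τ : ℝ} (t0 : 0 ≤ τ) (t1 : τ ≤ 1) :
    PH D k z τ = (Fi D i z τ, hh D i (Fi D i z τ)) := by
  have hi : (0:ℝ) ≤ i := Nat.cast_nonneg i
  have hz : z ≠ 0 := ne_of_xx (by linarith)
  unfold PH
  rw [PP_in D hz hk h1 h2]
  by_cases hm : mt D i z τ = 0
  · rw [Fi_eq_zero D hm, hgt_zero, hh_zero]
  · obtain ⟨a1, a2⟩ := xx_Fi_mem D hz h1 h2 t0 t1 hm
    rw [hgt_eq D a1 a2]

theorem continuous_PH_S0 (k : ℕ) : Continuous (fun q : S0 D k => PH D k q.1.1 q.1.2) := by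
  have hx := continuous_xx_S0 D k
  refine ((locallyFinite_TT k).preimage_continuous hx).continuous ?_
    (fun i => (isClosed_TT k i).preimage hx) ?_
  · rw [Set.eq_univ_iff_forall]
    intro q
    obtain ⟨n, hn⟩ := cover_TT k _ q.2.1
    exact Set.mem_iUnion.2 ⟨n, hn⟩
  · intro n
    have hz1 : Continuous (fun q : S0 D k => q.1.1) := by fun_prop
    have ht1 : Continuous (fun q : S0 D k => q.1.2) := by fun_prop
    cases n with
    | zero =>
      have hF : ContinuousOn (fun q : S0 D k => Fo k q.1.1 q.1.2)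
          ((fun q : S0 D k => xx q.1.1) ⁻¹' (TT k 0)) := by
        unfold Fo
        refine ContinuousOn.div hz1.continuousOn ?_ ?_
        · apply Continuous.continuousOn
          exact continuous_const.add ((Complex.continuous_ofReal.comp
            (ht1.mul (continuous_const.sub hx))).mul hz1)
        · intro q hq
          exact Fo_den q.2.1 hq q.2.2.2.1
      have hG : ContinuousOn (fun q : S0 D k => ((Fo k q.1.1 q.1.2,
          ∑ i ∈ Finset.range k, hh D i (Fo k q.1.1 q.1.2)) : ℂ × ℝ))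
          ((fun q : S0 D k => xx q.1.1) ⁻¹' (TT k 0)) := by
        refine hF.prodMk ?_
        apply continuousOn_finsetSum
        intro i _
        exact (continuous_hh D i).comp_continuousOn hF
      refine hG.congr (fun q hq => ?_)
      exact PH_out D q.2.1 hq q.2.2.2.1 q.2.2.2.2
    | succ n =>
      have hreg : ∀ q : S0 D k, q ∈ ((fun q : S0 D k => xx q.1.1) ⁻¹' (TT k (n + 1))) →
          (((k + n : ℕ) : ℝ) + 1) / 2 ≤ xx q.1.1 ∧ xx q.1.1 ≤ (((k + n : ℕ) : ℝ) + 2) / 2 := by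
        intro q hq
        have h1 := hq.1
        have h2 := hq.2
        constructor
        · refine le_trans (le_of_eq ?_) h1
          ring
        · refine h2.trans (le_of_eq ?_)
          ring
      have hm := continuous_mt_S0 D k (k + n)
      have hF : ContinuousOn (fun q : S0 D k => Fi D (k + n) q.1.1 q.1.2)
          ((fun q : S0 D k => xx q.1.1) ⁻¹' (TT k (n + 1))) := by
        unfold Fi
        refine ContinuousOn.div ?_ ?_ ?_
        · exact ((Complex.continuous_ofReal.comp hm).mul hz1).continuousOn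
        · apply Continuous.continuousOn
          exact continuous_const.sub (((continuous_const.sub
            (Complex.continuous_ofReal.comp hm)).mul continuous_const).mul hz1)
        · intro q hq
          obtain ⟨h1, h2⟩ := hreg q hq
          exact Fi_den D (ne_of_xx q.2.1) (q.2.2.1 _ (by omega)) h1 h2 q.2.2.2.1 q.2.2.2.2
      have hG : ContinuousOn (fun q : S0 D k => ((Fi D (k + n) q.1.1 q.1.2,
          hh D (k + n) (Fi D (k + n) q.1.1 q.1.2)) : ℂ × ℝ))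
          ((fun q : S0 D k => xx q.1.1) ⁻¹' (TT k (n + 1))) :=
        hF.prodMk ((continuous_hh D _).comp_continuousOn hF)
      refine hG.congr (fun q hq => ?_)
      obtain ⟨h1, h2⟩ := hreg q hq
      exact PH_in D (by omega) h1 h2 q.2.2.2.1 q.2.2.2.2

theorem continuousOn_PH_S0 (k : ℕ) :
    ContinuousOn (fun q : ℂ × ℝ => PH D k q.1 q.2) (S0 D k) :=
  continuousOn_iff_continuous_domRestrict.2 (continuous_PH_S0 D k)

/-- the level sets `U_k` -/
def Uk (k : ℕ) : Set (ℂ × ℝ) := {p | p.2 < 1 ∨ (p.1 ≠ 0 ∧ xx p.1 < ((k : ℝ) + 1) / 2)}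

theorem isOpen_Uk (k : ℕ) : IsOpen (Uk k) := by
  have h1 : IsOpen {p : ℂ × ℝ | p.2 < 1} := isOpen_lt continuous_snd continuous_const
  have h2 : IsOpen {p : ℂ × ℝ | p.1 ≠ 0 ∧ xx p.1 < ((k : ℝ) + 1) / 2} := by
    have h3 : IsOpen {p : ℂ × ℝ | p.1 ≠ 0} := isOpen_ne.preimage continuous_fst
    have h4 : ContinuousOn (fun p : ℂ × ℝ => xx p.1) {p : ℂ × ℝ | p.1 ≠ 0} :=
      continuousOn_xx.comp continuous_fst.continuousOn (fun p hp => hp)
    exact h4.isOpen_inter_preimage h3 isOpen_Iio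
  exact h1.union h2

theorem hgt_cc (i : ℕ) : hgt D (cc D i) = 1 := by
  have h1 := XX_gt D i
  have h2 := XX_lt D i
  rw [hgt_eq D h1.le h2.le, hh_eq D (by rw [sub_self, norm_zero]; exact (rr_pos D i).le)]
  simp

theorem ne_cc_of_mem {k : ℕ} {p : ℂ × ℝ} (hp : p ∈ archipelago D) (hU : p ∈ Uk k) {i : ℕ}
    (hi : k ≤ i) : p.1 ≠ cc D i := by
  intro h
  rw [mem_arch] at hp
  rcases hU with h1 | ⟨-, h1⟩
  · rw [hp.2, h, hgt_cc] at h1
    linarith
  · have h2 := XX_gt D i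
    have h3 : (k : ℝ) ≤ i := by exact_mod_cast hi
    rw [h] at h1
    have h4 : XX D i = xx (cc D i) := rfl
    linarith

theorem continuousOn_PH (k : ℕ) :
    ContinuousOn (fun q : (ℂ × ℝ) × ℝ => PH D k q.1.1 q.2)
      ((archipelago D ∩ Uk k) ×ˢ Set.Icc (0:ℝ) 1) := by
  rintro ⟨p, τ⟩ ⟨⟨hpA, hpU⟩, hτ⟩
  by_cases hp0 : p.1 = 0
  · -- continuity at the origin
    have hp2 : p.2 = 0 := by
      have := ((mem_arch D p).1 hpA).2
      rw [hp0, hgt_zero] at this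
      exact this
    have hval : PH D k p.1 τ = (0, 0) := by
      unfold PH
      rw [hp0, PP_zero, hgt_zero]
    rw [ContinuousWithinAt, hval, Metric.tendsto_nhds]
    intro ε hε
    obtain ⟨N, hN⟩ := exists_nat_gt (2 / ε)
    have c1 : ∀ᶠ q : (ℂ × ℝ) × ℝ in 𝓝 (p, τ), ∀ i ∈ Finset.range N,
        ‖(cc D i)⁻¹‖ * ‖q.1.1‖ < 1 / 2 := by
      rw [Filter.eventually_all_finset]
      intro i _
      have : ContinuousAt (fun q : (ℂ × ℝ) × ℝ => ‖(cc D i)⁻¹‖ * ‖q.1.1‖) (p, τ) := by fun_prop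
      apply this.eventually_lt_const
      show ‖(cc D i)⁻¹‖ * ‖p.1‖ < 1 / 2
      rw [hp0]
      simp
    have c2 : ∀ᶠ q : (ℂ × ℝ) × ℝ in 𝓝 (p, τ), 2 * ‖q.1.1‖ < ε := by
      have : ContinuousAt (fun q : (ℂ × ℝ) × ℝ => 2 * ‖q.1.1‖) (p, τ) := by fun_prop
      apply this.eventually_lt_const
      show 2 * ‖p.1‖ < ε
      rw [hp0]
      simpa using hε
    have c3 : ∀ᶠ q : (ℂ × ℝ) × ℝ in 𝓝 (p, τ), q.1.2 < ε := by
      have : ContinuousAt (fun q : (ℂ × ℝ) × ℝ => q.1.2) (p, τ) := by fun_prop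
      apply this.eventually_lt_const
      show p.2 < ε
      rw [hp2]
      exact hε
    obtain ⟨δ, hδ, hs⟩ : ∃ δ > 0, ∀ y : ℂ, ‖y‖ < δ → ∑ i ∈ Finset.range k, hh D i y < ε := by
      have : ContinuousAt (fun y : ℂ => ∑ i ∈ Finset.range k, hh D i y) 0 :=
        (continuous_finsetSum _ (fun i _ => continuous_hh D i)).continuousAt
      have h0 : ∑ i ∈ Finset.range k, hh D i 0 = 0 :=
        Finset.sum_eq_zero (fun i _ => hh_zero D i)
      have h1 := this.eventually_lt_const (u := ε) (by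
        show ∑ i ∈ Finset.range k, hh D i 0 < ε
        rw [h0]; exact hε)
      obtain ⟨δ, hδ, h2⟩ := Metric.eventually_nhds_iff.1 h1
      refine ⟨δ, hδ, fun y hy => h2 ?_⟩
      rwa [dist_zero_right]
    have c4 : ∀ᶠ q : (ℂ × ℝ) × ℝ in 𝓝 (p, τ), ‖q.1.1‖ < δ := by
      have : ContinuousAt (fun q : (ℂ × ℝ) × ℝ => ‖q.1.1‖) (p, τ) := by fun_prop
      apply this.eventually_lt_const
      show ‖p.1‖ < δ
      rw [hp0]
      simpa using hδ
    filter_upwards [nhdsWithin_le_nhds c1, nhdsWithin_le_nhds c2, nhdsWithin_le_nhds c3,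
      nhdsWithin_le_nhds c4, self_mem_nhdsWithin] with q d1 d2 d3 d4 hq
    obtain ⟨⟨hqA, hqU⟩, hqt⟩ := hq
    obtain ⟨hq1, hq2⟩ := (mem_arch D q.1).1 hqA
    by_cases hz : q.1.1 = 0
    · have : PH D k q.1.1 q.2 = (0, 0) := by
        unfold PH
        rw [hz, PP_zero, hgt_zero]
      rw [this, dist_self]
      exact hε
    have hx := (mem_unit_iff hz).1 hq1
    have hne := norm_nonneg q.1.1
    by_cases hout : xx q.1.1 ≤ ((k : ℝ) + 1) / 2
    · rw [PH_out D hx hout hqt.1 hqt.2, Prod.dist_eq]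
      have hn := norm_Fo_le hx hout hqt.1
      apply max_lt
      · show dist (Fo k q.1.1 q.2) 0 < ε
        rw [dist_zero_right]
        linarith
      · show dist (∑ i ∈ Finset.range k, hh D i (Fo k q.1.1 q.2)) 0 < ε
        rw [dist_zero_right, Real.norm_eq_abs,
          abs_of_nonneg (Finset.sum_nonneg (fun i _ => hh_nonneg D i _))]
        exact hs _ (by linarith)
    · push Not at hout
      obtain ⟨a1, a2⟩ := idx_spec hx
      set i := idx q.1.1 with hi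
      have hki : k ≤ i := by
        have : (k : ℝ) < i + 1 := by linarith
        have : k < i + 1 := by exact_mod_cast this
        omega
      have hcne := ne_cc_of_mem D hqA hqU hki
      rw [PH_in D hki a1 a2.le hqt.1 hqt.2, Prod.dist_eq]
      apply max_lt
      · show dist (Fi D i q.1.1 q.2) 0 < ε
        rw [dist_zero_right]
        by_cases hiN : i < N
        · have := norm_Fi_le_small D a1 a2.le hqt.1 hqt.2 (d1 i (Finset.mem_range.2 hiN))
          linarith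
        · by_cases hm : mt D i q.1.1 q.2 = 0
          · rw [Fi_eq_zero D hm, norm_zero]; exact hε
          · obtain ⟨b1, b2⟩ := xx_Fi_mem D hz a1 a2.le hqt.1 hqt.2 hm
            have hip : (0:ℝ) < ((i : ℝ) + 1) / 2 := by positivity
            refine lt_of_le_of_lt (norm_le_of_xx hip b1) ?_
            have h5 : (N : ℝ) ≤ i := by exact_mod_cast (not_lt.1 hiN)
            rw [inv_lt_comm₀ hip hε]
            have h6 : 2 / ε < (i : ℝ) + 1 := by linarith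
            have h7 : ε⁻¹ = 2 / ε / 2 := by field_simp
            rw [h7]
            linarith
      · show dist (hh D i (Fi D i q.1.1 q.2)) 0 < ε
        rw [dist_zero_right, Real.norm_eq_abs, abs_of_nonneg (hh_nonneg D i _)]
        have h8 := hh_Fi_le D hz hcne a1 a2.le hqt.1 hqt.2
        rw [← hgt_eq D a1 a2.le, ← hq2] at h8
        linarith
  · -- away from the origin
    have hx := (mem_unit_iff hp0).1 ((mem_arch D p).1 hpA).1
    have hS : (p.1, τ) ∈ S0 D k := ⟨hx, fun i hi => ne_cc_of_mem D hpA hpU hi, hτ.1, hτ.2⟩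
    have h1 := continuousOn_PH_S0 D k (p.1, τ) hS
    have h2 : ContinuousWithinAt (fun q : (ℂ × ℝ) × ℝ => (q.1.1, q.2))
        ((archipelago D ∩ Uk k) ×ˢ Set.Icc (0:ℝ) 1 ∩ {q | q.1.1 ≠ 0}) (p, τ) := by
      apply Continuous.continuousWithinAt
      fun_prop
    have h3 := ContinuousWithinAt.comp (g := fun q : ℂ × ℝ => PH D k q.1 q.2)
      (f := fun q : (ℂ × ℝ) × ℝ => (q.1.1, q.2)) (x := (p, τ)) h1 h2 (by
        rintro q ⟨⟨⟨hqA, hqU⟩, hqt⟩, hq0⟩
        exact ⟨(mem_unit_iff hq0).1 ((mem_arch D q.1).1 hqA).1,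
          fun i hi => ne_cc_of_mem D hqA hqU hi, hqt.1, hqt.2⟩)
    refine h3.mono_of_mem_nhdsWithin ?_
    refine inter_mem self_mem_nhdsWithin (nhdsWithin_le_nhds ?_)
    exact (isOpen_ne.preimage (continuous_fst.comp continuous_fst)).mem_nhds hp0

end Pool.Agent.MP3fbd41
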