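import Mathlib

/-!
# Definitions for `MP_3fbd41_lc`

The Hawaiian earring, the harmonic archipelago, the Griffiths space, the homotopy relation of
loops, and Borel reducibility.
-/

namespace Pool.Agent.MP3fbd41

/-- The Hawaiian earring: the union of the circles `C_n` of centre `1/n` and radius `1/n`,
`n ≥ 1`, in the plane (identified with `ℂ`). -/
def earring : Set ℂ := {z | ∃ n : ℕ, 1 ≤ n ∧ ‖z - 1 / (n : ℂ)‖ = 1 / (n : ℝ)}

/-- A choice, for every `n ≥ 1`, of a closed disk (of positive radius) lying between the circles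
`C_n` and `C_{n+1}`: it is contained in the closed disk bounded by `C_n` and does not meet the
open disk bounded by `C_{n+1}`. -/
structure Disks where
  /-- the centre of the `n`-th disk -/
  centre : ℕ → ℂ
  /-- the radius of the `n`-th disk -/
  radius : ℕ → ℝ
  radius_pos : ∀ n, 1 ≤ n → 0 < radius n
  between : ∀ n, 1 ≤ n → ∀ z : ℂ, ‖z - centre n‖ ≤ radius n →
    ‖z - 1 / (n : ℂ)‖ ≤ 1 / (n : ℝ) ∧ 1 / ((n : ℝ) + 1) ≤ ‖z - 1 / ((n : ℂ) + 1)‖

/-- The harmonic archipelago, for a given choice of the disks, as a subset of `ℂ × ℝ = ℝ³`: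
the disk `‖z - 1‖ ≤ 1`, in which every chosen disk is replaced by the cone of height `1` over
its boundary circle. -/
def archipelago (D : Disks) : Set (ℂ × ℝ) :=
  {p | (‖p.1 - 1‖ ≤ 1 ∧ (∀ n, 1 ≤ n → D.radius n ≤ ‖p.1 - D.centre n‖) ∧ p.2 = 0) ∨
    ∃ n, 1 ≤ n ∧ ‖p.1 - D.centre n‖ ≤ D.radius n ∧ p.2 = 1 - ‖p.1 - D.centre n‖ / D.radius n}

/-- The Griffiths space as a subset of `ℂ × ℝ = ℝ³`: the cone over the earring with apex
`(0, 1)`, together with its image under the point reflection `p ↦ -p`; the two cones only share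
the wedge point of the earring. -/
def griffiths : Set (ℂ × ℝ) :=
  {p | ∃ z ∈ earring, ∃ t : ℝ, 0 ≤ t ∧ t ≤ 1 ∧
    (p = ((1 - (t : ℂ)) * z, t) ∨ p = (-((1 - (t : ℂ)) * z), -t))}

/-- Borel reducibility of binary relations on topological spaces. -/
def BorelReducible {A B : Type*} [TopologicalSpace A] [TopologicalSpace B]
    (E : A → A → Prop) (F : B → B → Prop) : Prop :=
  ∃ h : A → B, @Measurable A B (borel A) (borel B) h ∧ ∀ a a', E a a' ↔ F (h a) (h a')

/-- Borel bireducibility. -/
def BorelBireducible {A B : Type*} [TopologicalSpace A] [TopologicalSpace B]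
    (E : A → A → Prop) (F : B → B → Prop) : Prop :=
  BorelReducible E F ∧ BorelReducible F E

/-- The relation `∼_X`: homotopy relative to the base point on the space of loops of `X` at `x`
(`Path x x`, with the compact-open topology). -/
def LoopHomotopy {X : Type*} [TopologicalSpace X] (x : X) : Path x x → Path x x → Prop :=
  fun f g => f.Homotopic g

/-- The relation `E_1` on `(2^ω)^ω`. -/
def E1 (x y : ℕ → ℕ → Bool) : Prop := ∃ N, ∀ n, N ≤ n → x n = y n

theorem BorelReducible.trans {A B C : Type*} [TopologicalSpace A] [TopologicalSpace B]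
    [TopologicalSpace C] {E : A → A → Prop} {F : B → B → Prop} {G : C → C → Prop}
    (h : BorelReducible E F) (h' : BorelReducible F G) : BorelReducible E G := by
  obtain ⟨f, hf, h1⟩ := h
  obtain ⟨g, hg, h2⟩ := h'
  refine ⟨g ∘ f, ?_, fun a a' => (h1 a a').trans (h2 _ _)⟩
  exact @Measurable.comp A B C (borel A) (borel B) (borel C) g f hg hf

end Pool.Agent.MP3fbd41
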