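import Pool.Agent.Lib.MP_3fbd41_lc.Meas
import Pool.Agent.Lib.MP_3fbd41_lc.Defs

/-!
# Coding into `E_1`
-/

namespace Pool.Agent.MP3fbd41

open Filter Topology unitInterval

theorem measurable_to_cantor {Y : Type*} [MeasurableSpace Y] {h : Y → ℕ → ℕ → Bool}
    (hh : ∀ k n, MS (fun y => h y k n)) : @Measurable Y (ℕ → ℕ → Bool) _ (borel _) h := by
  have e : borel (ℕ → ℕ → Bool) = (inferInstance : MeasurableSpace (ℕ → ℕ → Bool)) :=
    (BorelSpace.measurable_eq (α := ℕ → ℕ → Bool)).symm
  rw [e, measurable_pi_iff]
  intro k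
  rw [measurable_pi_iff]
  intro n
  intro A _
  exact (hh k n).preimage A

/-- Reduction to `E_1`. -/
theorem reducible_E1 {Y S : Type*} [TopologicalSpace Y] [Countable S] (R : Y → Y → Prop)
    (v : ℕ → ℕ → Y → S) (hv : ∀ k m, @MS Y (borel Y) S (v k m))
    (hR : ∀ y y', R y y' ↔ ∀ᶠ k in atTop, ∀ m, v k m y = v k m y') :
    BorelReducible R E1 := by
  letI : MeasurableSpace Y := borel Y
  obtain ⟨e, he⟩ := exists_injective_nat S
  let h : Y → ℕ → ℕ → Bool := fun y k n => decide (e (v k n.unpair.1 y) = n.unpair.2)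
  have key : ∀ k y y', (h y k = h y' k ↔ ∀ m, v k m y = v k m y') := by
    intro k y y'
    constructor
    · intro heq m
      have h1 := congrFun heq (Nat.pair m (e (v k m y)))
      have h2 : h y k (Nat.pair m (e (v k m y))) = true := by
        show decide _ = true
        simp
      rw [h2] at h1
      have h3 : e (v k m y') = e (v k m y) := by
        have h4 : decide (e (v k (Nat.pair m (e (v k m y))).unpair.1 y')
          = (Nat.pair m (e (v k m y))).unpair.2) = true := h1.symm
        simpa using h4
      exact (he h3).symm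
    · intro heq
      funext n
      show decide _ = decide _
      rw [heq]
  refine ⟨h, ?_, ?_⟩
  · apply measurable_to_cantor
    intro k n
    exact (hv k n.unpair.1).comp (fun s => decide (e s = n.unpair.2))
  · intro y y'
    rw [hR, E1, eventually_atTop]
    constructor
    · rintro ⟨N, hN⟩
      exact ⟨N, fun n hn => (key n y y').2 (hN n hn)⟩
    · rintro ⟨N, hN⟩
      exact ⟨N, fun n hn => (key n y y').1 (hN n hn)⟩

end Pool.Agent.MP3fbd41
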