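import Pool.Agent.Lib.MP_3fbd41_lc.Loops

/-!
# From infinite words to homotopy classes of loops
-/

namespace Pool.Agent.MP3fbd41

open Filter Topology unitInterval

/-- loop in `EM` spelling a coherent word -/
noncomputable def rzp {V : ℕ → List (ℕ × Bool)} (hV : Coh V) : Path eb eb where
  toFun t := ⟨rz V t, (ePath_rz hV).pt t⟩
  continuous_toFun := by
    rw [continuous_em_iff]
    intro j
    exact ((ePath_rz hV).uc j).continuous.comp continuous_subtype_val
  source' := by
    apply Subtype.ext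
    funext j
    exact rz_zero hV j
  target' := by
    apply Subtype.ext
    funext j
    exact rz_one hV j

theorem rzp_apply {V : ℕ → List (ℕ × Bool)} (hV : Coh V) (t : I) (j : ℕ) :
    (rzp hV t).1 j = rz V t j := rfl

theorem hI_rzp {V : ℕ → List (ℕ × Bool)} (hV : Coh V) : hI (rzp hV) = elt V := by
  funext m
  rw [elt, ← hm_rz hV m]
  unfold hI hm
  have := hol_reparam ((ePath_rz hV).exists_prim m)
    ((ePath_pr (rzp hV).continuous).exists_prim m) (s := 0) (t := 1) le_rfl zero_le_one
    (φ := fun u => u) (L := 1) zero_le_one (by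
      intro u v _ _ _ _
      rw [one_mul])
    (fun u hu _ => hu)
    (by
      intro u hu hu'
      funext j
      show (rzp hV (pr u)).1 j = rz V u j
      rw [rzp_apply, pr_val hu hu'])
  exact this

section
variable {X : Type*} [TopologicalSpace X] {sg : EM → X} (hsg : Continuous sg)

/-- homotopy class of the loop spelling `V` -/
noncomputable def kap {V : ℕ → List (ℕ × Bool)} (hV : Coh V) :
    Path.Homotopic.Quotient (sg eb) (sg eb) :=
  Path.Homotopic.Quotient.mk ((rzp hV).map hsg)

theorem kap_eq {V : ℕ → List (ℕ × Bool)} (hV : Coh V) (γ : Path eb eb) (h : hI γ = elt V) :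
    Path.Homotopic.Quotient.mk (γ.map hsg) = kap hsg hV := by
  apply Path.Homotopic.Quotient.eq.2
  refine em_shape sg γ (rzp hV) ?_ _ _ (fun t => rfl) (fun t => rfl)
  intro m
  rw [h, hI_rzp]

theorem kap_congr {V V' : ℕ → List (ℕ × Bool)} (hV : Coh V) (hV' : Coh V') (h : elt V = elt V') :
    kap hsg hV = kap hsg hV' :=
  kap_eq hsg hV' (rzp hV) (by rw [hI_rzp, h])

theorem kap_append {V V' : ℕ → List (ℕ × Bool)} (hV : Coh V) (hV' : Coh V') :
    kap hsg (hV.append hV') = (kap hsg hV).trans (kap hsg hV') := by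
  have h := kap_eq hsg (hV.append hV') ((rzp hV).trans (rzp hV')) (by
    funext m
    rw [hI_trans, hI_rzp, hI_rzp, elt_append]
    rfl)
  rw [← h, Path.map_trans]
  rfl

/-- monochromatic words give trivial loops -/
def PureKill : Prop := ∀ (V : ℕ → List (ℕ × Bool)) (hV : Coh V),
  (∃ c, ∀ m, ∀ a ∈ V m, col a = c) → kap hsg hV = Path.Homotopic.Quotient.refl _

/-- a class of loops as an element of the fundamental group -/
def toG {X : Type*} [TopologicalSpace X] {x : X} (q : Path.Homotopic.Quotient x x) :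
    FundamentalGroup X x := q

theorem toG_trans {X : Type*} [TopologicalSpace X] {x : X} (p q : Path.Homotopic.Quotient x x) :
    toG (p.trans q) = toG q * toG p := rfl

theorem toG_refl {X : Type*} [TopologicalSpace X] {x : X} :
    toG (Path.Homotopic.Quotient.refl x) = 1 := rfl

open Classical in
theorem kap_Dl (hk : PureKill hsg) (k : ℕ) {V : ℕ → List (ℕ × Bool)} (hV : Coh V) :
    kap hsg (Dl_coh k hV) = kap hsg hV := by
  let κ : (ℕ → List (ℕ × Bool)) → FundamentalGroup X (sg eb) := fun V =>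
    if h : Coh V then (toG (kap hsg h))⁻¹ else 1
  have hκ : ∀ {V : ℕ → List (ℕ × Bool)} (hV : Coh V), κ V = (toG (kap hsg hV))⁻¹ := by
    intro V hV
    show dite _ _ _ = _
    rw [dif_pos hV]
  have key := map_Dl κ (by
    intro X Z hX hZ
    rw [hκ hX, hκ hZ, hκ (hX.append hZ), kap_append hsg hX hZ, toG_trans, mul_inv_rev]) (by
    intro X hX hc
    rw [hκ hX, hk X hX hc, toG_refl]
    exact inv_one) k hV
  rw [hκ hV, hκ (Dl_coh k hV)] at key
  have key2 : toG (kap hsg (Dl_coh k hV)) = toG (kap hsg hV) := inv_injective key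
  exact key2

open Classical in
/-- homotopy class attached to a tame sequence -/
noncomputable def kbar (w : ℕ → FreeGroup ℕ) : Path.Homotopic.Quotient (sg eb) (sg eb) :=
  if h : ∃ W : ℕ → List (ℕ × Bool), Coh W ∧ elt W = w then kap hsg h.choose_spec.1
  else Path.Homotopic.Quotient.refl _

theorem kbar_elt {V : ℕ → List (ℕ × Bool)} (hV : Coh V) : kbar hsg (elt V) = kap hsg hV := by
  have hex : ∃ W : ℕ → List (ℕ × Bool), Coh W ∧ elt W = elt V := ⟨V, hV, rfl⟩
  unfold kbar
  rw [dif_pos hex]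
  exact kap_congr hsg _ _ hex.choose_spec.2

theorem Tame.exists_word {w : ℕ → FreeGroup ℕ} (hw : Tame w) : ∃ W, Coh W ∧ elt W = w := by
  obtain ⟨W, hW⟩ := hw.exists_red
  exact ⟨W, hW.coh, hW.elt hw⟩

theorem kbar_mul {a b : ℕ → FreeGroup ℕ} (ha : Tame a) (hb : Tame b) :
    kbar hsg (a * b) = (kbar hsg a).trans (kbar hsg b) := by
  obtain ⟨A, hA, rfl⟩ := ha.exists_word
  obtain ⟨B, hB, rfl⟩ := hb.exists_word
  rw [← elt_append, kbar_elt hsg (hA.append hB), kbar_elt hsg hA, kbar_elt hsg hB,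
    kap_append hsg hA hB]

theorem kbar_one : kbar hsg 1 = Path.Homotopic.Quotient.refl _ := by
  have h1 := kbar_mul hsg Tame.one Tame.one
  rw [mul_one] at h1
  have h2 : toG (kbar hsg 1) = toG (kbar hsg 1) * toG (kbar hsg 1) := by
    rw [← toG_trans, ← h1]
  exact (left_eq_mul.1 h2)

theorem kbar_hI (γ : Path eb eb) : kbar hsg (hI γ) = Path.Homotopic.Quotient.mk (γ.map hsg) := by
  obtain ⟨W, hW, hWe⟩ := (tame_hI γ.continuous).exists_word
  rw [← hWe, kbar_elt hsg hW]
  exact (kap_eq hsg hW γ hWe.symm).symm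

theorem kbar_DD (hk : PureKill hsg) (k : ℕ) {w : ℕ → FreeGroup ℕ} (hw : Tame w) :
    kbar hsg (DD k w) = kbar hsg w := by
  obtain ⟨W, hW⟩ := hw.exists_red
  rw [DD_eq k hw hW, kbar_elt hsg (Dl_coh k hW.coh), kap_Dl hsg hk k hW.coh,
    ← kbar_elt hsg hW.coh, hW.elt hw]

end

end Pool.Agent.MP3fbd41
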