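import Pool.Agent.Lib.MP_3fbd41_lc.ArchCont
import Pool.Agent.Lib.MP_3fbd41_lc.Code
import Pool.Agent.Lib.MP_3fbd41_lc.Kappa

/-!
# Loops of the archipelago
-/

namespace Pool.Agent.MP3fbd41

open Filter Topology unitInterval

variable (D : Disks)

theorem zero_mem_arch : ((0, 0) : ℂ × ℝ) ∈ archipelago D := by
  rw [mem_arch]
  refine ⟨by simp, ?_⟩
  exact (hgt_zero D).symm

/-- the base point of the archipelago -/
def oA : archipelago D := ⟨(0, 0), zero_mem_arch D⟩

theorem circ_mem_arch {z : ℂ} (hz : z ∈ Sw omh) : hgt D z = 0 ∧ ‖z - 1‖ ≤ 1 := by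
  by_cases h0 : z = 0
  · subst h0
    exact ⟨hgt_zero D, by simp⟩
  · obtain ⟨j, hj⟩ := hz
    rw [circ_iff_xx h0 (omh_pos j).ne', two_omh] at hj
    have hjp : (0:ℝ) ≤ j := Nat.cast_nonneg j
    refine ⟨?_, ?_⟩
    · rw [hgt_eq D (i := j) hj.ge (by linarith), hh_eq_zero_of D (Or.inl hj.le)]
    · rw [mem_unit_iff h0, hj]
      linarith

/-- the section of the archipelago -/
noncomputable def sgA (x : EM) : archipelago D :=
  ⟨(sw omh x, 0), by
    obtain ⟨h1, h2⟩ := circ_mem_arch D (sw_mem x)
    rw [mem_arch]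
    exact ⟨h2, h1.symm⟩⟩

theorem continuous_sgA : Continuous (sgA D) := by
  apply Continuous.subtype_mk
  exact (continuous_sw cen_omh).prodMk continuous_const

theorem sgA_eb : sgA D eb = oA D := by
  apply Subtype.ext
  show (sw omh eb, (0:ℝ)) = (0, 0)
  rw [sw_eb]

theorem PP_end_mem {k : ℕ} {p : ℂ × ℝ} (hp : p ∈ archipelago D) :
    PP D k p.1 1 ∈ Sw omh := by
  by_cases h0 : p.1 = 0
  · rw [h0, PP_zero]
    exact ⟨0, by simp⟩
  have hx := (mem_unit_iff h0).1 ((mem_arch D p).1 hp).1
  by_cases hout : xx p.1 ≤ ((k : ℝ) + 1) / 2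
  · rw [PP_out D h0 hout]
    have hne : Fo k p.1 1 ≠ 0 := div_ne_zero h0 (Fo_den hx hout zero_le_one)
    refine ⟨k, ?_⟩
    rw [circ_iff_xx hne (omh_pos k).ne', two_omh, xx_Fo h0]
    ring
  · push Not at hout
    obtain ⟨a1, a2⟩ := idx_spec hx
    set i := idx p.1 with hi
    have hki : k ≤ i := by
      have : (k : ℝ) < i + 1 := by linarith
      have : k < i + 1 := by exact_mod_cast this
      omega
    rw [PP_in D h0 hki a1 a2.le]
    by_cases hm : mt D i p.1 1 = 0
    · rw [Fi_eq_zero D hm]
      exact ⟨0, by simp⟩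
    · by_cases hF : Fi D i p.1 1 = 0
      · rw [hF]
        exact ⟨0, by simp⟩
      rcases xx_Fi_end D h0 hm with h | h
      · refine ⟨i, ?_⟩
        rw [circ_iff_xx hF (omh_pos i).ne', two_omh, h]
      · refine ⟨i + 1, ?_⟩
        rw [circ_iff_xx hF (omh_pos _).ne', two_omh, h]
        push_cast
        ring

theorem PH_mem {k : ℕ} {p : ℂ × ℝ} (hp : p ∈ archipelago D) {τ : ℝ} (t0 : 0 ≤ τ) (t1 : τ ≤ 1) :
    PH D k p.1 τ ∈ archipelago D := by
  rw [mem_arch]
  refine ⟨?_, rfl⟩
  show ‖PP D k p.1 τ - 1‖ ≤ 1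
  by_cases hP : PP D k p.1 τ = 0
  · rw [hP]
    simp
  have h0 : p.1 ≠ 0 := by
    intro h0
    rw [h0, PP_zero] at hP
    exact hP rfl
  rw [mem_unit_iff hP]
  have hx := (mem_unit_iff h0).1 ((mem_arch D p).1 hp).1
  by_cases hout : xx p.1 ≤ ((k : ℝ) + 1) / 2
  · rw [PP_out D h0 hout]
    exact hx.trans (xx_Fo_mem h0 hout t0 t1).1
  · push Not at hout
    obtain ⟨a1, a2⟩ := idx_spec hx
    set i := idx p.1 with hi
    have hki : k ≤ i := by
      have : (k : ℝ) < i + 1 := by linarith
      have : k < i + 1 := by exact_mod_cast this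
      omega
    rw [PP_in D h0 hki a1 a2.le] at hP ⊢
    by_cases hm : mt D i p.1 τ = 0
    · exact absurd (Fi_eq_zero D hm) hP
    · have := (xx_Fi_mem D h0 a1 a2.le t0 t1 hm).1
      have hi0 : (0:ℝ) ≤ i := Nat.cast_nonneg i
      linarith

/-- the retraction at level `k` -/
noncomputable def rA (k : ℕ) (p : archipelago D) : EM := re' cen_omh (PP D k p.1.1 1)

theorem rA_base (k : ℕ) : rA D k (oA D) = eb := by
  unfold rA
  show re' cen_omh (PP D k 0 1) = eb
  rw [PP_zero, EM.ext_iff']
  intro j
  exact rw_zero omh j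

theorem sgA_rA (k : ℕ) (p : archipelago D) : (sgA D (rA D k p)).1 = PH D k p.1.1 1 := by
  show (sw omh (rA D k p), (0:ℝ)) = PH D k p.1.1 1
  have h := PP_end_mem D (k := k) p.2
  unfold rA PH
  rw [sw_re cen_omh h, (circ_mem_arch D h).1]

/-- the open sets `U_k` in the archipelago -/
def UA (k : ℕ) : Set (archipelago D) := {p | p.1 ∈ Uk k}

theorem isOpen_UA (k : ℕ) : IsOpen (UA D k) := (isOpen_Uk k).preimage continuous_subtype_val

theorem UA_mono {k l : ℕ} (h : k ≤ l) : UA D k ⊆ UA D l := by
  intro p hp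
  rcases hp with h1 | ⟨h1, h2⟩
  · exact Or.inl h1
  · refine Or.inr ⟨h1, h2.trans_le ?_⟩
    have : (k : ℝ) ≤ l := by exact_mod_cast h
    linarith

theorem exists_UA (p : archipelago D) : ∃ k, p ∈ UA D k := by
  by_cases h0 : p.1.1 = 0
  · refine ⟨0, Or.inl ?_⟩
    rw [((mem_arch D p.1).1 p.2).2, h0, hgt_zero]
    exact one_pos
  · obtain ⟨k, hk⟩ := exists_nat_gt (2 * xx p.1.1)
    refine ⟨k, Or.inr ⟨h0, ?_⟩⟩
    linarith

theorem exists_UA_compact {K : Set (archipelago D)} (hK : IsCompact K) :
    ∃ k0, ∀ k, k0 ≤ k → K ⊆ UA D k := by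
  obtain ⟨k0, hk0⟩ := hK.elim_directed_cover (UA D) (isOpen_UA D)
    (fun p _ => Set.mem_iUnion.2 (exists_UA D p))
    (directed_of_isDirected_le (fun _ _ h => UA_mono D h))
  exact ⟨k0, fun k hk => hk0.trans (UA_mono D hk)⟩

/-- the deformation on the archipelago -/
noncomputable def PA (k : ℕ) (q : archipelago D × I) : archipelago D :=
  ⟨PH D k q.1.1.1 q.2, PH_mem D q.1.2 q.2.2.1 q.2.2.2⟩

theorem continuousOn_PA (k : ℕ) :
    ContinuousOn (PA D k) {q | q.1 ∈ UA D k} := by
  rw [IsInducing.subtypeVal.continuousOn_iff]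
  have h1 : ContinuousOn (fun q : archipelago D × I => ((q.1.1, (q.2 : ℝ)) : (ℂ × ℝ) × ℝ))
      {q | q.1 ∈ UA D k} := by
    apply Continuous.continuousOn
    fun_prop
  exact (continuousOn_PH D k).comp h1 (fun q hq => ⟨⟨q.1.2, hq⟩, q.2.2⟩)

theorem PA_zero (k : ℕ) (p : archipelago D) : PA D k (p, 0) = p := by
  apply Subtype.ext
  show PH D k p.1.1 0 = p.1
  unfold PH
  rw [PP_time_zero, ← ((mem_arch D p.1).1 p.2).2]

theorem PA_one (k : ℕ) (p : archipelago D) : PA D k (p, 1) = sgA D (rA D k p) := by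
  apply Subtype.ext
  rw [sgA_rA]
  rfl

theorem PA_base (k : ℕ) (τ : I) : PA D k (oA D, τ) = oA D := by
  apply Subtype.ext
  show PH D k 0 τ = (0, 0)
  unfold PH
  rw [PP_zero, hgt_zero]

theorem continuousOn_rA (k : ℕ) : ContinuousOn (rA D k) (UA D k) := by
  have h1 : ContinuousOn (fun p : archipelago D => (PA D k (p, 1)).1.1) (UA D k) := by
    have h2 : ContinuousOn (fun p : archipelago D => PA D k (p, 1)) (UA D k) :=
      (continuousOn_PA D k).comp (Continuous.continuousOn (by fun_prop)) (fun p hp => hp)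
    exact (continuous_fst.comp continuous_subtype_val).comp_continuousOn h2
  exact (continuousOn_re cen_omh).comp h1 (fun p _ => PP_end_mem D p.2)

open Classical in
/-- the loop of `EM` attached to a loop of the archipelago -/
noncomputable def gA (k : ℕ) (f : Path (oA D) (oA D)) : Path eb eb :=
  if h : ∀ t, f t ∈ UA D k then
    { toFun := fun t => rA D k (f t)
      continuous_toFun := (continuousOn_rA D k).comp_continuous f.continuous h
      source' := by rw [f.source]; exact rA_base D k
      target' := by rw [f.target]; exact rA_base D k }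
  else Path.refl eb

theorem gA_apply {k : ℕ} {f : Path (oA D) (oA D)} (h : ∀ t, f t ∈ UA D k) (t : I) :
    gA D k f t = rA D k (f t) := by
  unfold gA
  rw [dif_pos h]
  rfl

/-- the image loop in the archipelago -/
noncomputable def mA (γ : Path eb eb) : Path (oA D) (oA D) :=
  (γ.map (continuous_sgA D)).cast (sgA_eb D).symm (sgA_eb D).symm

theorem mA_apply (γ : Path eb eb) (t : I) : mA D γ t = sgA D (γ t) := rfl

theorem homotopic_gA {k : ℕ} {f : Path (oA D) (oA D)} (h : ∀ t, f t ∈ UA D k) :
    f.Homotopic (mA D (gA D k f)) := by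
  refine ⟨{ toFun := fun q => PA D k (f q.2, q.1)
            continuous_toFun := ?_
            map_zero_left := ?_
            map_one_left := ?_
            prop' := ?_ }⟩
  · exact (continuousOn_PA D k).comp_continuous (by fun_prop) (fun q => h q.2)
  · intro t
    exact PA_zero D k (f t)
  · intro t
    show PA D k (f t, 1) = mA D (gA D k f) t
    rw [PA_one, mA_apply, gA_apply D h]
  · intro s t ht
    rcases ht with rfl | ht
    · show PA D k (f 0, s) = f 0
      rw [f.source, PA_base]
    · rw [Set.mem_singleton_iff] at ht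
      subst ht
      show PA D k (f 1, s) = f 1
      rw [f.target, PA_base]

/-- homotopy of loops of the archipelago -/
theorem arch_iff (f g : Path (oA D) (oA D)) :
    f.Homotopic g ↔ ∀ᶠ k in atTop, (∀ t, f t ∈ UA D k) ∧ (∀ t, g t ∈ UA D k) ∧
      ∀ m, hI (gA D k f) m = hI (gA D k g) m := by
  constructor
  · rintro ⟨H⟩
    obtain ⟨k0, hk0⟩ := exists_UA_compact D (isCompact_range H.continuous)
    filter_upwards [eventually_ge_atTop k0] with k hk
    have hU : ∀ q, H q ∈ UA D k := fun q => hk0 k hk ⟨q, rfl⟩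
    have hf : ∀ t, f t ∈ UA D k := fun t => by
      have := hU (0, t)
      rwa [H.apply_zero] at this
    have hg : ∀ t, g t ∈ UA D k := fun t => by
      have := hU (1, t)
      rwa [H.apply_one] at this
    refine ⟨hf, hg, fun m => ?_⟩
    have hc : Continuous (fun p : I × I => rA D k (H (p.2, p.1))) :=
      (continuousOn_rA D k).comp_continuous (H.continuous.comp (by fun_prop)) (fun p => hU _)
    have := hI_homotopy (K := fun u v => rA D k (H (v, u))) hc (x := eb) (y := eb)
      (fun v => by
        show rA D k (H (v, 0)) = eb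
        rw [H.source, rA_base])
      (fun v => by
        show rA D k (H (v, 1)) = eb
        rw [H.target, rA_base]) m
    rw [hI_congr (K := gA D k f) (K' := fun u => rA D k (H (0, u))),
      hI_congr (K := gA D k g) (K' := fun u => rA D k (H (1, u)))]
    · exact this
    · intro v
      rw [gA_apply D hg, H.apply_one]
      rfl
    · intro v
      rw [gA_apply D hf, H.apply_zero]
      rfl
  · intro h
    obtain ⟨k, hf, hg, hm⟩ := h.exists
    refine (homotopic_gA D hf).trans (Path.Homotopic.trans ?_ (homotopic_gA D hg).symm)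
    exact em_shape (sgA D) (gA D k f) (gA D k g) hm _ _ (fun t => rfl) (fun t => rfl)

open Classical in
/-- the code of a loop -/
noncomputable def vA (k m : ℕ) (f : Path (oA D) (oA D)) : Option (FreeGroup ℕ) :=
  if ∀ t, f t ∈ UA D k then some (hI (gA D k f) m) else none

theorem isOpen_mapsTo (k : ℕ) : IsOpen {f : Path (oA D) (oA D) | ∀ t, f t ∈ UA D k} := by
  have h1 : IsOpen {f : C(I, archipelago D) | Set.MapsTo f Set.univ (UA D k)} :=
    ContinuousMap.isOpen_setOfPred_mapsTo isCompact_univ (isOpen_UA D k)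
  have h2 : Continuous (fun f : Path (oA D) (oA D) => f.toContinuousMap) :=
    continuous_induced_dom
  have h3 := h1.preimage h2
  convert h3 using 1
  ext f
  constructor
  · intro h t _
    exact h t
  · intro h t
    exact h (Set.mem_univ t)

open Classical in
theorem ms_vA (k m : ℕ) : @MS (Path (oA D) (oA D)) (borel _) _ (vA D k m) := by
  letI : MeasurableSpace (Path (oA D) (oA D)) := borel _
  haveI : BorelSpace (Path (oA D) (oA D)) := ⟨rfl⟩
  have hopen := (isOpen_mapsTo D k).measurableSet
  have h1 : MS (fun f : Path (oA D) (oA D) => hI (gA D k f) m) := by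
    apply ms_hI (fun f => (gA D k f).continuous)
    intro t j
    have e : (fun f : Path (oA D) (oA D) => (gA D k f t).1 j) = fun f =>
        if (∀ t, f t ∈ UA D k) then (if f t ∈ UA D k then (rA D k (f t)).1 j else 1) else 1 := by
      funext f
      by_cases h : ∀ t, f t ∈ UA D k
      · rw [if_pos h, if_pos (h t), gA_apply D h]
      · rw [if_neg h]
        unfold gA
        rw [dif_neg h]
        rfl
    rw [e]
    refine Measurable.ite hopen ?_ measurable_const
    have h2 : Measurable (fun p : archipelago D => if p ∈ UA D k then (rA D k p).1 j else 1) := by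
      have h3 : ContinuousOn (fun p : archipelago D => (rA D k p).1 j) (UA D k) :=
        (continuous_coord j).comp_continuousOn (continuousOn_rA D k)
      exact h3.measurable_piecewise continuousOn_const (isOpen_UA D k).measurableSet
    have h4 : Measurable (fun f : Path (oA D) (oA D) => f t) :=
      (continuous_eval_const t).measurable
    exact h2.comp h4
  have h5 := h1.comp₂ (ms_of_set hopen) (fun g b => if b = true then some g else none)
  have e : vA D k m = fun f : Path (oA D) (oA D) =>
      (if (decide (f ∈ {f : Path (oA D) (oA D) | ∀ t, f t ∈ UA D k}) : Bool) = true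
        then some (hI (gA D k f) m) else none) := by
    funext f
    unfold vA
    by_cases h : ∀ t, f t ∈ UA D k
    · rw [if_pos h, if_pos]
      simpa using h
    · rw [if_neg h, if_neg]
      simpa using h
  rw [e]
  exact h5

theorem arch_reducible : BorelReducible (LoopHomotopy (oA D)) E1 := by
  refine reducible_E1 _ (vA D) (ms_vA D) ?_
  intro f g
  have hev : ∀ᶠ k in atTop, (∀ t, f t ∈ UA D k) ∧ (∀ t, g t ∈ UA D k) := by
    obtain ⟨k0, hk0⟩ := exists_UA_compact D (isCompact_range f.continuous)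
    obtain ⟨k1, hk1⟩ := exists_UA_compact D (isCompact_range g.continuous)
    filter_upwards [eventually_ge_atTop k0, eventually_ge_atTop k1] with k h0 h1
    exact ⟨fun t => hk0 k h0 ⟨t, rfl⟩, fun t => hk1 k h1 ⟨t, rfl⟩⟩
  show f.Homotopic g ↔ _
  rw [arch_iff]
  constructor
  · intro h
    filter_upwards [h] with k hk m
    unfold vA
    rw [if_pos hk.1, if_pos hk.2.1, hk.2.2 m]
  · intro h
    filter_upwards [h, hev] with k hk hk2
    refine ⟨hk2.1, hk2.2, fun m => ?_⟩
    have := hk m
    unfold vA at this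
    rw [if_pos hk2.1, if_pos hk2.2] at this
    exact Option.some.inj this

end Pool.Agent.MP3fbd41
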