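import Pool.Agent.Lib.MP_3fbd41_lc.Arch

/-!
# The deformation of the archipelago minus the far tips
-/

namespace Pool.Agent.MP3fbd41

open Filter Topology unitInterval

variable (D : Disks)

/-- relative distance to the abscissa of the tip -/
noncomputable def mu (i : ℕ) (z : ℂ) : ℝ :=
  max ((XX D i - xx z) / (XX D i - ((i : ℝ) + 1) / 2)) ((xx z - XX D i) / (((i : ℝ) + 2) / 2 - XX D i))

/-- the parameter at time `τ` -/
noncomputable def mt (i : ℕ) (z : ℂ) (τ : ℝ) : ℝ := 1 - τ + τ * mu D i z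

/-- inner move -/
noncomputable def Fi (i : ℕ) (z : ℂ) (τ : ℝ) : ℂ :=
  (mt D i z τ : ℂ) * z / (1 - (1 - (mt D i z τ : ℂ)) * (cc D i)⁻¹ * z)

/-- outer move -/
noncomputable def Fo (k : ℕ) (z : ℂ) (τ : ℝ) : ℂ :=
  z / (1 + ((τ * (((k : ℝ) + 1) / 2 - xx z) : ℝ) : ℂ) * z)

open Classical in
/-- the move at level `k` -/
noncomputable def PP (k : ℕ) (z : ℂ) (τ : ℝ) : ℂ :=
  if z = 0 then 0 else if xx z ≤ ((k : ℝ) + 1) / 2 then Fo k z τ else Fi D (idx z) z τ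

theorem mu_bounds {i : ℕ} {z : ℂ} (h1 : ((i : ℝ) + 1) / 2 ≤ xx z) (h2 : xx z ≤ ((i : ℝ) + 2) / 2) :
    0 ≤ mu D i z ∧ mu D i z ≤ 1 := by
  have g1 := XX_gt D i
  have g2 := XX_lt D i
  have d1 : 0 < XX D i - ((i : ℝ) + 1) / 2 := by linarith
  have d2 : 0 < ((i : ℝ) + 2) / 2 - XX D i := by linarith
  unfold mu
  constructor
  · rcases le_total (xx z) (XX D i) with h | h
    · exact le_max_of_le_left (div_nonneg (by linarith) d1.le)
    · exact le_max_of_le_right (div_nonneg (by linarith) d2.le)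
  · apply max_le
    · rw [div_le_one d1]; linarith
    · rw [div_le_one d2]; linarith

theorem mu_ge {i : ℕ} {z : ℂ} :
    XX D i - xx z ≤ mu D i z * (XX D i - ((i : ℝ) + 1) / 2) ∧
    xx z - XX D i ≤ mu D i z * (((i : ℝ) + 2) / 2 - XX D i) := by
  have g1 := XX_gt D i
  have g2 := XX_lt D i
  have d1 : 0 < XX D i - ((i : ℝ) + 1) / 2 := by linarith
  have d2 : 0 < ((i : ℝ) + 2) / 2 - XX D i := by linarith
  constructor
  · rw [← div_le_iff₀ d1]; exact le_max_left _ _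
  · rw [← div_le_iff₀ d2]; exact le_max_right _ _

theorem mu_eq_left {i : ℕ} {z : ℂ} (h : xx z ≤ XX D i) :
    XX D i - xx z = mu D i z * (XX D i - ((i : ℝ) + 1) / 2) := by
  have g1 := XX_gt D i
  have g2 := XX_lt D i
  have d1 : 0 < XX D i - ((i : ℝ) + 1) / 2 := by linarith
  have d2 : 0 < ((i : ℝ) + 2) / 2 - XX D i := by linarith
  unfold mu
  rw [max_eq_left, div_mul_cancel₀ _ d1.ne']
  exact (div_nonpos_of_nonpos_of_nonneg (by linarith) d2.le).trans (div_nonneg (by linarith) d1.le)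

theorem mu_eq_right {i : ℕ} {z : ℂ} (h : XX D i ≤ xx z) :
    xx z - XX D i = mu D i z * (((i : ℝ) + 2) / 2 - XX D i) := by
  have g1 := XX_gt D i
  have g2 := XX_lt D i
  have d1 : 0 < XX D i - ((i : ℝ) + 1) / 2 := by linarith
  have d2 : 0 < ((i : ℝ) + 2) / 2 - XX D i := by linarith
  unfold mu
  rw [max_eq_right, div_mul_cancel₀ _ d2.ne']
  exact (div_nonpos_of_nonpos_of_nonneg (by linarith) d1.le).trans (div_nonneg (by linarith) d2.le)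

theorem mu_left_end {i : ℕ} {z : ℂ} (h : xx z = ((i : ℝ) + 1) / 2) : mu D i z = 1 := by
  have g1 := XX_gt D i
  have d1 : XX D i - ((i : ℝ) + 1) / 2 ≠ 0 := by
    have : 0 < XX D i - ((i : ℝ) + 1) / 2 := by linarith
    exact this.ne'
  have := mu_eq_left D (i := i) (z := z) (by linarith)
  rw [h] at this
  have h2 : (mu D i z - 1) * (XX D i - ((i : ℝ) + 1) / 2) = 0 := by linear_combination -this
  rcases mul_eq_zero.1 h2 with h3 | h3
  · linarith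
  · exact absurd h3 d1

theorem mu_right_end {i : ℕ} {z : ℂ} (h : xx z = ((i : ℝ) + 2) / 2) : mu D i z = 1 := by
  have g2 := XX_lt D i
  have d1 : ((i : ℝ) + 2) / 2 - XX D i ≠ 0 := by
    have : 0 < ((i : ℝ) + 2) / 2 - XX D i := by linarith
    exact this.ne'
  have := mu_eq_right D (i := i) (z := z) (by linarith)
  rw [h] at this
  have h2 : (mu D i z - 1) * (((i : ℝ) + 2) / 2 - XX D i) = 0 := by linear_combination -this
  rcases mul_eq_zero.1 h2 with h3 | h3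
  · linarith
  · exact absurd h3 d1

theorem Fi_of_mu_one {i : ℕ} {z : ℂ} (h : mu D i z = 1) (τ : ℝ) : Fi D i z τ = z := by
  unfold Fi mt
  rw [h]
  simp

theorem Fi_zero (i : ℕ) (z : ℂ) : Fi D i z 0 = z := by
  unfold Fi mt
  simp

theorem Fo_zero (k : ℕ) (z : ℂ) : Fo k z 0 = z := by
  unfold Fo
  simp

theorem PP_zero (k : ℕ) (τ : ℝ) : PP D k 0 τ = 0 := by
  unfold PP
  rw [if_pos rfl]

theorem PP_out {k : ℕ} {z : ℂ} (hz : z ≠ 0) (h : xx z ≤ ((k : ℝ) + 1) / 2) (τ : ℝ) :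
    PP D k z τ = Fo k z τ := by
  unfold PP
  rw [if_neg hz, if_pos h]

theorem PP_in {k i : ℕ} {z : ℂ} (hz : z ≠ 0) (hk : k ≤ i) (h1 : ((i : ℝ) + 1) / 2 ≤ xx z)
    (h2 : xx z ≤ ((i : ℝ) + 2) / 2) (τ : ℝ) : PP D k z τ = Fi D i z τ := by
  have hk' : (k : ℝ) ≤ i := by exact_mod_cast hk
  by_cases hx : xx z ≤ ((k : ℝ) + 1) / 2
  · rw [PP_out D hz hx, Fi_of_mu_one D (mu_left_end D (by linarith))]
    unfold Fo
    rw [show ((k : ℝ) + 1) / 2 - xx z = 0 by linarith]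
    simp
  · unfold PP
    rw [if_neg hz, if_neg hx]
    rcases lt_or_eq_of_le h2 with h | h
    · rw [idx_eq h1 h]
    · rw [idx_eq' h, Fi_of_mu_one D (mu_right_end D h), Fi_of_mu_one D (mu_left_end D ?_)]
      rw [h]
      push_cast
      ring

theorem PP_time_zero {k : ℕ} {z : ℂ} : PP D k z 0 = z := by
  by_cases hz : z = 0
  · rw [hz, PP_zero]
  · unfold PP
    rw [if_neg hz]
    split_ifs
    · exact Fo_zero _ _
    · exact Fi_zero _ _ _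

theorem mt_bounds {i : ℕ} {z : ℂ} (h1 : ((i : ℝ) + 1) / 2 ≤ xx z) (h2 : xx z ≤ ((i : ℝ) + 2) / 2)
    {τ : ℝ} (t0 : 0 ≤ τ) (t1 : τ ≤ 1) : mu D i z ≤ mt D i z τ ∧ mt D i z τ ≤ 1 := by
  obtain ⟨m0, m1⟩ := mu_bounds D h1 h2
  unfold mt
  constructor <;> nlinarith

/-- the inverse of the inner move -/
theorem Fi_den {i : ℕ} {z : ℂ} (hz : z ≠ 0) (hc : z ≠ cc D i) (h1 : ((i : ℝ) + 1) / 2 ≤ xx z)
    (h2 : xx z ≤ ((i : ℝ) + 2) / 2) {τ : ℝ} (t0 : 0 ≤ τ) (t1 : τ ≤ 1) :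
    1 - (1 - (mt D i z τ : ℂ)) * (cc D i)⁻¹ * z ≠ 0 := by
  intro hcon
  obtain ⟨m0, m1⟩ := mu_bounds D h1 h2
  obtain ⟨n0, n1⟩ := mt_bounds D h1 h2 t0 t1
  have e : z⁻¹ = (1 - (mt D i z τ : ℂ)) * (cc D i)⁻¹ := by
    have : 1 = (1 - (mt D i z τ : ℂ)) * (cc D i)⁻¹ * z := by linear_combination hcon
    field_simp
    field_simp at this
    linear_combination this
  have e2 : xx z = (1 - mt D i z τ) * XX D i := by
    have h3 := congrArg Complex.re e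
    have h4 : (1 - (mt D i z τ : ℂ)) * (cc D i)⁻¹ = ((1 - mt D i z τ : ℝ) : ℂ) * (cc D i)⁻¹ := by
      push_cast; ring
    rw [h4, Complex.re_ofReal_mul] at h3
    exact h3
  have g1 := XX_gt D i
  have hi : (0:ℝ) ≤ i := Nat.cast_nonneg i
  have h5 := (mu_ge D (i := i) (z := z)).1
  have h6 : mt D i z τ * (((i : ℝ) + 1) / 2) ≤ 0 := by nlinarith
  have h7 : mt D i z τ = 0 := by nlinarith
  rw [h7] at e
  apply hc
  have : z⁻¹ = (cc D i)⁻¹ := by rw [e]; simp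
  exact inv_injective this

theorem Fi_inv {i : ℕ} {z : ℂ} (hz : z ≠ 0) {τ : ℝ} (hm : mt D i z τ ≠ 0) :
    (Fi D i z τ)⁻¹ = (z⁻¹ - ((1 - mt D i z τ : ℝ) : ℂ) * (cc D i)⁻¹) * (((mt D i z τ)⁻¹ : ℝ) : ℂ) := by
  unfold Fi
  have hm' : (mt D i z τ : ℂ) ≠ 0 := by exact_mod_cast hm
  have hc := cc_ne D i
  push_cast
  rw [inv_div]
  field_simp

theorem xx_Fi {i : ℕ} {z : ℂ} (hz : z ≠ 0) {τ : ℝ} (hm : mt D i z τ ≠ 0) :
    xx (Fi D i z τ) = (xx z - (1 - mt D i z τ) * XX D i) * (mt D i z τ)⁻¹ := by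
  unfold xx
  rw [Fi_inv D hz hm, Complex.re_mul_ofReal, Complex.sub_re, Complex.re_ofReal_mul]
  rfl

theorem Fi_eq_zero {i : ℕ} {z : ℂ} {τ : ℝ} (hm : mt D i z τ = 0) : Fi D i z τ = 0 := by
  unfold Fi
  rw [hm]
  simp

theorem Fi_ne_zero {i : ℕ} {z : ℂ} (hz : z ≠ 0) (hc : z ≠ cc D i)
    (h1 : ((i : ℝ) + 1) / 2 ≤ xx z)
    (h2 : xx z ≤ ((i : ℝ) + 2) / 2) {τ : ℝ} (t0 : 0 ≤ τ) (t1 : τ ≤ 1) (hm : mt D i z τ ≠ 0) :
    Fi D i z τ ≠ 0 := by
  unfold Fi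
  have hm' : (mt D i z τ : ℂ) ≠ 0 := by exact_mod_cast hm
  exact div_ne_zero (mul_ne_zero hm' hz) (Fi_den D hz hc h1 h2 t0 t1)

theorem xx_Fi_mem {i : ℕ} {z : ℂ} (hz : z ≠ 0) (h1 : ((i : ℝ) + 1) / 2 ≤ xx z)
    (h2 : xx z ≤ ((i : ℝ) + 2) / 2) {τ : ℝ} (t0 : 0 ≤ τ) (t1 : τ ≤ 1) (hm : mt D i z τ ≠ 0) :
    ((i : ℝ) + 1) / 2 ≤ xx (Fi D i z τ) ∧ xx (Fi D i z τ) ≤ ((i : ℝ) + 2) / 2 := by
  obtain ⟨m0, m1⟩ := mu_bounds D h1 h2
  obtain ⟨n0, n1⟩ := mt_bounds D h1 h2 t0 t1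
  have hmp : 0 < mt D i z τ := lt_of_le_of_ne (m0.trans n0) (Ne.symm hm)
  have g1 := XX_gt D i
  have g2 := XX_lt D i
  obtain ⟨h5, h6⟩ := mu_ge D (i := i) (z := z)
  rw [xx_Fi D hz hm]
  constructor
  · rw [← div_eq_mul_inv, le_div_iff₀ hmp]
    nlinarith
  · rw [← div_eq_mul_inv, div_le_iff₀ hmp]
    nlinarith

theorem xx_Fi_end {i : ℕ} {z : ℂ} (hz : z ≠ 0)
    (hm : mt D i z 1 ≠ 0) :
    xx (Fi D i z 1) = ((i : ℝ) + 1) / 2 ∨ xx (Fi D i z 1) = ((i : ℝ) + 2) / 2 := by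
  have e : mt D i z 1 = mu D i z := by unfold mt; ring
  rw [xx_Fi D hz hm, e]
  rw [e] at hm
  rcases le_total (xx z) (XX D i) with h | h
  · left
    have h5 := mu_eq_left D h
    field_simp
    linarith
  · right
    have h5 := mu_eq_right D h
    field_simp
    linarith

theorem norm_le_of_xx {z : ℂ} {a : ℝ} (ha : 0 < a) (h : a ≤ xx z) : ‖z‖ ≤ a⁻¹ := by
  have h1 : xx z ≤ ‖z⁻¹‖ := (le_abs_self _).trans (Complex.abs_re_le_norm _)
  rw [norm_inv] at h1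
  have h2 : a ≤ ‖z‖⁻¹ := h.trans h1
  have h3 : 0 < ‖z‖⁻¹ := lt_of_lt_of_le ha h2
  have h4 : 0 < ‖z‖ := inv_pos.1 h3
  rw [le_inv_comm₀ h4 ha]
  exact h2

/-- the height does not increase -/
theorem height_key {ζ : ℂ} {s : ℝ} (hs0 : 0 ≤ s) (hs1 : s ≤ 1) (hd : 1 - s * ζ ≠ 0) :
    min 1 ‖1 - ζ‖ ≤ ‖1 - ζ‖ / ‖1 - s * ζ‖ := by
  have hdp : 0 < ‖1 - s * ζ‖ := norm_pos_iff.2 hd
  rw [le_div_iff₀ hdp]
  by_cases h : ‖1 - s * ζ‖ ≤ 1
  · have := norm_nonneg (1 - ζ)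
    have h2 : min 1 ‖1 - ζ‖ ≤ ‖1 - ζ‖ := min_le_right _ _
    have h3 : 0 ≤ min 1 ‖1 - ζ‖ := le_min zero_le_one this
    nlinarith
  · push Not at h
    have e1 : ‖1 - s * ζ‖ ^ 2 = 1 - 2 * s * ζ.re + s ^ 2 * (ζ.re ^ 2 + ζ.im ^ 2) := by
      rw [norm_sq']
      simp
      ring
    have e2 : ‖1 - ζ‖ ^ 2 = 1 - 2 * ζ.re + (ζ.re ^ 2 + ζ.im ^ 2) := by
      rw [norm_sq']
      simp
      ring
    set N := ζ.re ^ 2 + ζ.im ^ 2 with hN
    have hN0 : 0 ≤ N := by positivity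
    have h1 : 1 < ‖1 - s * ζ‖ ^ 2 := by nlinarith
    rw [e1] at h1
    have hs : 0 < s := by
      rcases hs0.eq_or_lt with h0 | h0
      · rw [← h0] at h1; norm_num at h1
      · exact h0
    have h4 : 2 * ζ.re < s * N := by
      by_contra hcon
      push Not at hcon
      nlinarith
    have h5 : ‖1 - s * ζ‖ ^ 2 ≤ ‖1 - ζ‖ ^ 2 := by
      rw [e1, e2]
      have : 0 ≤ (1 - s) * ((1 + s) * N - 2 * ζ.re) := by
        apply mul_nonneg (by linarith)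
        nlinarith
      nlinarith
    have h6 : ‖1 - s * ζ‖ ≤ ‖1 - ζ‖ := by
      rwa [sq_le_sq₀ (norm_nonneg _) (norm_nonneg _)] at h5
    have h7 : min 1 ‖1 - ζ‖ ≤ 1 := min_le_left _ _
    nlinarith

theorem hh_Fi_le {i : ℕ} {z : ℂ} (hz : z ≠ 0) (hc : z ≠ cc D i) (h1 : ((i : ℝ) + 1) / 2 ≤ xx z)
    (h2 : xx z ≤ ((i : ℝ) + 2) / 2) {τ : ℝ} (t0 : 0 ≤ τ) (t1 : τ ≤ 1) :
    hh D i (Fi D i z τ) ≤ hh D i z := by
  obtain ⟨m0, m1⟩ := mu_bounds D h1 h2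
  obtain ⟨n0, n1⟩ := mt_bounds D h1 h2 t0 t1
  have hden := Fi_den D hz hc h1 h2 t0 t1
  have hcn := cc_ne D i
  set m := mt D i z τ with hm
  set ζ := (cc D i)⁻¹ * z with hζ
  have hd : 1 - ((1 - m : ℝ) : ℂ) * ζ ≠ 0 := by
    intro hcon
    apply hden
    rw [← hcon, hζ]
    push_cast
    ring
  have key := height_key (s := 1 - m) (by linarith) (by linarith [m0.trans n0]) hd
  have e1 : ‖z - cc D i‖ = ‖cc D i‖ * ‖1 - ζ‖ := by
    rw [← norm_mul, hζ, norm_sub_rev]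
    congr 1
    field_simp
  have e2 : ‖Fi D i z τ - cc D i‖ = ‖cc D i‖ * (‖1 - ζ‖ / ‖1 - ((1 - m : ℝ) : ℂ) * ζ‖) := by
    rw [← norm_div, ← norm_mul, norm_sub_rev]
    congr 1
    have : Fi D i z τ = (m : ℂ) * z / (1 - ((1 - m : ℝ) : ℂ) * ζ) := by
      unfold Fi
      rw [← hm, hζ]
      congr 2
      push_cast
      ring
    rw [this]
    set d := 1 - ((1 - m : ℝ) : ℂ) * ζ with hdd
    have e3 : cc D i * ζ = z := by rw [hζ]; field_simp
    have e4 : cc D i * d = cc D i - (1 - m) * z := by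
      rw [hdd, mul_sub, mul_one, ← mul_assoc, mul_comm (cc D i) ((1 - m : ℝ) : ℂ), mul_assoc, e3]
      push_cast
      ring
    rw [← mul_div_assoc, eq_div_iff hd, sub_mul, div_mul_cancel₀ _ hd, e4, mul_sub, e3]
    ring
  by_cases hb : ‖z - cc D i‖ ≤ rr D i
  · -- then the distance increases
    have h3 : ‖z - cc D i‖ ≤ ‖Fi D i z τ - cc D i‖ ∨ rr D i ≤ ‖Fi D i z τ - cc D i‖ := by
      rcases min_le_iff.1 key with h | h
      · right
        rw [e2]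
        have := (rr_lt D i).le
        have := norm_nonneg (cc D i)
        nlinarith
      · left
        rw [e1, e2]
        exact mul_le_mul_of_nonneg_left h (norm_nonneg _)
    rcases h3 with h3 | h3
    · unfold hh
      apply max_le_max le_rfl
      have := rr_pos D i
      gcongr
    · rw [hh_eq_zero D h3]
      exact hh_nonneg D _ _
  · push Not at hb
    rw [hh_eq_zero D (i := i) (z := Fi D i z τ)]
    · exact hh_nonneg D _ _
    · rcases min_le_iff.1 key with h | h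
      · rw [e2]
        have := (rr_lt D i).le
        have := norm_nonneg (cc D i)
        nlinarith
      · rw [e2]
        rw [e1] at hb
        have := mul_le_mul_of_nonneg_left h (norm_nonneg (cc D i))
        linarith

end Pool.Agent.MP3fbd41
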