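import Pool.Agent.Lib.MP_3fbd41_lc.E1Arch

/-!
# Base points, and the final assembly
-/

namespace Pool.Agent.MP3fbd41

open Filter Topology unitInterval

/-- change of the base point -/
theorem loop_base {X : Type*} [TopologicalSpace X] {x y : X} (γ : Path x y) :
    BorelReducible (LoopHomotopy x) (LoopHomotopy y) := by
  refine borelReducible_of_continuous (fun f => γ.symm.trans (f.trans γ)) ?_ ?_
  · exact Path.continuous_trans.comp (continuous_const.prodMk
      (Path.continuous_trans.comp (continuous_id.prodMk continuous_const)))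
  · intro f g
    show f.Homotopic g ↔ (γ.symm.trans (f.trans γ)).Homotopic (γ.symm.trans (g.trans γ))
    rw [← Path.Homotopic.Quotient.eq, ← Path.Homotopic.Quotient.eq,
      Path.Homotopic.Quotient.mk_trans, Path.Homotopic.Quotient.mk_trans,
      Path.Homotopic.Quotient.mk_trans, Path.Homotopic.Quotient.mk_trans]
    constructor
    · intro h
      rw [h]
    · intro h
      have key : ∀ q : Path.Homotopic.Quotient x x,
          (Path.Homotopic.Quotient.mk γ).trans
            (((Path.Homotopic.Quotient.mk γ.symm).trans (q.trans (Path.Homotopic.Quotient.mk γ))).trans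
              (Path.Homotopic.Quotient.mk γ.symm)) = q := by
        intro q
        rw [Path.Homotopic.Quotient.mk_symm, Path.Homotopic.Quotient.trans_assoc,
          ← Path.Homotopic.Quotient.trans_assoc, Path.Homotopic.Quotient.trans_symm,
          Path.Homotopic.Quotient.refl_trans, Path.Homotopic.Quotient.trans_assoc,
          Path.Homotopic.Quotient.trans_symm, Path.Homotopic.Quotient.trans_refl]
      have h1 := congrArg (fun q => (Path.Homotopic.Quotient.mk γ).trans
        (q.trans (Path.Homotopic.Quotient.mk γ.symm))) h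
      simp only [key] at h1
      exact h1

theorem griff_joined (p : GG) : Nonempty (Path oG p) := ⟨dp p⟩

theorem arch_joined (D : Disks) (p : archipelago D) : Nonempty (Path (oA D) p) := by
  obtain ⟨k, hk⟩ := exists_UA D p
  let α : Path p (sgA D (rA D k p)) :=
    { toFun := fun t => PA D k (p, t)
      continuous_toFun := (continuousOn_PA D k).comp_continuous (by fun_prop) (fun t => hk)
      source' := PA_zero D k p
      target' := PA_one D k p }
  let β : Path (sgA D eb) (sgA D (rA D k p)) :=
    { toFun := fun t => sgA D (pw (rA D k p) t)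
      continuous_toFun := (continuous_sgA D).comp (continuous_pw _)
      source' := by
        show sgA D (pw (rA D k p) ((0 : I) : ℝ)) = _
        rw [Set.Icc.coe_zero, pw_zero]
      target' := by
        show sgA D (pw (rA D k p) ((1 : I) : ℝ)) = _
        rw [Set.Icc.coe_one, pw_one] }
  exact ⟨(β.trans α.symm).cast (sgA_eb D).symm rfl⟩

theorem nonempty_disks : Nonempty Disks := by
  refine ⟨{ centre := fun n => ((1 / (n : ℝ) + 1 / ((n : ℝ) + 1) : ℝ) : ℂ)
            radius := fun n => 1 / (n : ℝ) - 1 / ((n : ℝ) + 1)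
            radius_pos := ?_
            between := ?_ }⟩
  · intro n hn
    have h : (0:ℝ) < n := by exact_mod_cast hn
    have : 1 / ((n : ℝ) + 1) < 1 / (n : ℝ) := one_div_lt_one_div_of_lt h (by linarith)
    linarith
  · intro n hn z hz
    constructor
    · have h1 : ‖z - 1 / (n : ℂ)‖ ≤ ‖z - ((1 / (n : ℝ) + 1 / ((n : ℝ) + 1) : ℝ) : ℂ)‖
          + ‖(((1 / ((n : ℝ) + 1) : ℝ)) : ℂ)‖ := by
        have := norm_add_le (z - ((1 / (n : ℝ) + 1 / ((n : ℝ) + 1) : ℝ) : ℂ))
          (((1 / ((n : ℝ) + 1) : ℝ)) : ℂ)
        refine le_trans (le_of_eq ?_) this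
        congr 1
        push_cast
        ring
      have h2 : ‖(((1 / ((n : ℝ) + 1) : ℝ)) : ℂ)‖ = 1 / ((n : ℝ) + 1) := by
        rw [Complex.norm_real, Real.norm_eq_abs, abs_of_pos (by positivity)]
      rw [h2] at h1
      linarith
    · have h1 : ‖(((1 / (n : ℝ) : ℝ)) : ℂ)‖ ≤ ‖z - ((1 / (n : ℝ) + 1 / ((n : ℝ) + 1) : ℝ) : ℂ)‖
          + ‖z - 1 / ((n : ℂ) + 1)‖ := by
        have := norm_add_le (((1 / (n : ℝ) + 1 / ((n : ℝ) + 1) : ℝ) : ℂ) - z)
          (z - 1 / ((n : ℂ) + 1))
        rw [norm_sub_rev] at this
        refine le_trans (le_of_eq ?_) this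
        congr 1
        push_cast
        ring
      have hn0 : (0:ℝ) < n := by exact_mod_cast hn
      have h2 : ‖(((1 / (n : ℝ) : ℝ)) : ℂ)‖ = 1 / (n : ℝ) := by
        rw [Complex.norm_real, Real.norm_eq_abs, abs_of_pos (by positivity)]
      rw [h2] at h1
      linarith

theorem arch_E1 (D : Disks) (x : archipelago D) : BorelBireducible (LoopHomotopy x) E1 := by
  obtain ⟨γ⟩ := arch_joined D x
  exact ⟨(loop_base γ.symm).trans (arch_reducible D), (E1_arch D).trans (loop_base γ)⟩

theorem griff_E1 (y : griffiths) : BorelBireducible (LoopHomotopy y) E1 := by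
  obtain ⟨γ⟩ := griff_joined y
  exact ⟨(loop_base γ.symm).trans griff_reducible, E1_griff.trans (loop_base γ)⟩

theorem arch_griff (D : Disks) (x : archipelago D) (y : griffiths) :
    BorelBireducible (LoopHomotopy x) (LoopHomotopy y) :=
  ⟨(arch_E1 D x).1.trans (griff_E1 y).2, (griff_E1 y).1.trans (arch_E1 D x).2⟩

end Pool.Agent.MP3fbd41
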