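import Mathlib

/-!
# Deleting monochromatic blocks containing small letters
-/

namespace Pool.Agent.MP3fbd41

/-- colour of a letter: parity of the index -/
def col (a : ℕ × Bool) : ℕ := a.1 % 2

/-- the initial part of colour `c` contains a letter of index below `k` -/
def hb (k c : ℕ) : List (ℕ × Bool) → Prop
  | [] => False
  | a :: L => col a = c ∧ (a.1 < k ∨ hb k c L)

theorem hb_nil (k c : ℕ) : hb k c [] ↔ False := Iff.rfl
theorem hb_cons (k c : ℕ) (a : ℕ × Bool) (L : List (ℕ × Bool)) :
    hb k c (a :: L) ↔ col a = c ∧ (a.1 < k ∨ hb k c L) := Iff.rfl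

/-- small letters of a list -/
def sm (k : ℕ) (L : List (ℕ × Bool)) : List (ℕ × Bool) := L.filter (fun x => x.1 < k)

theorem sm_append (k : ℕ) (L L' : List (ℕ × Bool)) : sm k (L ++ L') = sm k L ++ sm k L' := by
  simp [sm]
theorem sm_nil (k : ℕ) : sm k [] = [] := rfl
theorem sm_cons_lt {k : ℕ} {a : ℕ × Bool} (h : a.1 < k) (L : List (ℕ × Bool)) :
    sm k (a :: L) = a :: sm k L := by simp [sm, h]
theorem sm_cons_ge {k : ℕ} {a : ℕ × Bool} (h : ¬ a.1 < k) (L : List (ℕ × Bool)) :
    sm k (a :: L) = sm k L := by simp [sm, h]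
theorem sm_sm {i j : ℕ} (h : i ≤ j) (L : List (ℕ × Bool)) : sm i (sm j L) = sm i L := by
  simp only [sm, List.filter_filter]
  congr 1
  funext x
  by_cases h1 : x.1 < i
  · simp [h1, show x.1 < j by omega]
  · simp [h1]
theorem sm_sublist (k : ℕ) (L : List (ℕ × Bool)) : (sm k L).Sublist L := List.filter_sublist
theorem mem_sm {k : ℕ} {L : List (ℕ × Bool)} {a : ℕ × Bool} : a ∈ sm k L ↔ a ∈ L ∧ a.1 < k := by
  simp [sm]
theorem sm_mono {k : ℕ} {L L' : List (ℕ × Bool)} (h : L.Sublist L') :
    (sm k L).Sublist (sm k L') := h.filter _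
theorem sm_reverse (k : ℕ) (L : List (ℕ × Bool)) : sm k L.reverse = (sm k L).reverse := by
  simp [sm]
theorem sm_eq_nil {k : ℕ} {L : List (ℕ × Bool)} : sm k L = [] ↔ ∀ a ∈ L, k ≤ a.1 := by
  simp [sm]

/-- sublist with the same small letters -/
def SubS (k : ℕ) (L L' : List (ℕ × Bool)) : Prop := L.Sublist L' ∧ sm k L = sm k L'

theorem SubS.refl (k : ℕ) (L : List (ℕ × Bool)) : SubS k L L := ⟨List.Sublist.refl _, rfl⟩

theorem SubS.cons_inv {k : ℕ} {x : ℕ × Bool} {L L' : List (ℕ × Bool)} (h1 : L.Sublist L')
    (h2 : sm k L = sm k (x :: L')) : ¬ x.1 < k ∧ SubS k L L' := by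
  have h3 := (sm_mono (k := k) h1).length_le
  by_cases hx : x.1 < k
  · rw [h2, sm_cons_lt hx] at h3
    simp at h3
  · refine ⟨hx, h1, ?_⟩
    rw [h2, sm_cons_ge hx]

theorem SubS.cons_cons_inv {k : ℕ} {x : ℕ × Bool} {L L' : List (ℕ × Bool)} (h1 : L.Sublist L')
    (h2 : sm k (x :: L) = sm k (x :: L')) : SubS k L L' := by
  refine ⟨h1, ?_⟩
  by_cases hx : x.1 < k
  · rw [sm_cons_lt hx, sm_cons_lt hx] at h2
    exact (List.cons.inj h2).2
  · rwa [sm_cons_ge hx, sm_cons_ge hx] at h2

theorem SubS.cons {k : ℕ} {x : ℕ × Bool} {L L' : List (ℕ × Bool)} (h : SubS k L L') :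
    SubS k (x :: L) (x :: L') := by
  refine ⟨h.1.cons_cons x, ?_⟩
  by_cases hx : x.1 < k
  · rw [sm_cons_lt hx, sm_cons_lt hx, h.2]
  · rw [sm_cons_ge hx, sm_cons_ge hx, h.2]

theorem SubS.cons_right {k : ℕ} {x : ℕ × Bool} {L L' : List (ℕ × Bool)} (h : SubS k L L')
    (hx : ¬ x.1 < k) : SubS k L (x :: L') := by
  refine ⟨h.1.trans (List.sublist_cons_self _ _), ?_⟩
  rw [sm_cons_ge hx, h.2]

theorem SubS.append {k : ℕ} {L L' M M' : List (ℕ × Bool)} (h : SubS k L L') (h' : SubS k M M') :
    SubS k (L ++ M) (L' ++ M') := by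
  refine ⟨h.1.append h'.1, ?_⟩
  rw [sm_append, sm_append, h.2, h'.2]

theorem hb_of_subS {k c : ℕ} {L L' : List (ℕ × Bool)} (h : SubS k L L') (hL : hb k c L') :
    hb k c L := by
  obtain ⟨h1, h2⟩ := h
  revert h2 hL
  induction h1 with
  | slnil => intro hL _; exact hL
  | @cons l₁ l₂ a h ih =>
    intro hL h2
    obtain ⟨ha, hs⟩ := SubS.cons_inv h h2
    rw [hb_cons] at hL
    rcases hL with ⟨-, hL | hL⟩
    · exact absurd hL ha
    · exact ih hL hs.2
  | @cons_cons l₁ l₂ a h ih =>
    intro hL h2
    have hs := SubS.cons_cons_inv h h2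
    rw [hb_cons] at hL ⊢
    refine ⟨hL.1, ?_⟩
    rcases hL with ⟨-, hL | hL⟩
    · exact Or.inl hL
    · exact Or.inr (ih hL hs.2)

open Classical in
/-- letters of `L` which are large and whose monochromatic block (in the context
`A.reverse ++ L ++ B`) contains no small letter -/
noncomputable def delC (k : ℕ) : List (ℕ × Bool) → List (ℕ × Bool) → List (ℕ × Bool) →
    List (ℕ × Bool)
  | _, [], _ => []
  | A, x :: L, B => (if k ≤ x.1 ∧ ¬ hb k (col x) A ∧ ¬ hb k (col x) (L ++ B) then [x] else []) ++
      delC k (x :: A) L B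

open Classical in
theorem delC_cons (k : ℕ) (A : List (ℕ × Bool)) (x : ℕ × Bool) (L B : List (ℕ × Bool)) :
    delC k A (x :: L) B = (if k ≤ x.1 ∧ ¬ hb k (col x) A ∧ ¬ hb k (col x) (L ++ B) then [x] else [])
      ++ delC k (x :: A) L B := by
  rw [delC]

theorem delC_nil (k : ℕ) (A B : List (ℕ × Bool)) : delC k A [] B = [] := by
  rw [delC]

theorem delC_sublist (k : ℕ) (A L B : List (ℕ × Bool)) : (delC k A L B).Sublist L := by
  induction L generalizing A with
  | nil => simp [delC_nil]
  | cons x L ih =>
    rw [delC_cons]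
    split_ifs
    · exact (ih _).cons_cons x
    · simpa using (ih _).trans (List.sublist_cons_self _ _)

theorem delC_append (k : ℕ) (A L M B : List (ℕ × Bool)) :
    delC k A (L ++ M) B = delC k A L (M ++ B) ++ delC k (L.reverse ++ A) M B := by
  induction L generalizing A with
  | nil => simp [delC_nil]
  | cons x L ih =>
    rw [List.cons_append, delC_cons, delC_cons, ih, List.append_assoc L M B]
    simp

open Classical in
theorem delC_reverse (k : ℕ) (A L B : List (ℕ × Bool)) :
    (delC k A L B).reverse = delC k B L.reverse A := by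
  induction L generalizing A with
  | nil => simp [delC_nil]
  | cons x L ih =>
    rw [delC_cons, List.reverse_append, ih, List.reverse_cons, delC_append, delC_cons, delC_nil,
      List.append_nil]
    congr 1
    simp only [List.reverse_reverse, List.nil_append]
    have : (k ≤ x.1 ∧ ¬hb k (col x) A ∧ ¬hb k (col x) (L ++ B)) ↔
        (k ≤ x.1 ∧ ¬hb k (col x) (L ++ B) ∧ ¬hb k (col x) A) := by tauto
    rw [if_congr this rfl rfl]
    split_ifs <;> simp

theorem hb_map {k c : ℕ} {f : ℕ × Bool → ℕ × Bool} (hf : ∀ x, (f x).1 = x.1)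
    (L : List (ℕ × Bool)) : hb k c (L.map f) ↔ hb k c L := by
  induction L with
  | nil => simp
  | cons x L ih =>
    rw [List.map_cons, hb_cons, hb_cons, ih]
    simp [col, hf]

open Classical in
theorem delC_map (k : ℕ) {f : ℕ × Bool → ℕ × Bool} (hf : ∀ x, (f x).1 = x.1)
    (A L B : List (ℕ × Bool)) :
    delC k (A.map f) (L.map f) (B.map f) = (delC k A L B).map f := by
  induction L generalizing A with
  | nil => simp [delC_nil]
  | cons x L ih =>
    have h1 := ih (x :: A)
    rw [List.map_cons] at h1
    rw [List.map_cons, delC_cons, delC_cons, h1, List.map_append, ← List.map_append]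
    have e : col (f x) = col x := by simp [col, hf]
    rw [e, hf, hb_map hf, hb_map hf]
    split_ifs <;> simp

/-- monotonicity of the deletion -/
theorem delC_mono {k : ℕ} {A A' L L' B B' : List (ℕ × Bool)} (hA : SubS k A A') (hL : SubS k L L')
    (hB : SubS k B B') : (delC k A L B).Sublist (delC k A' L' B') := by
  obtain ⟨h1, h2⟩ := hL
  induction h1 generalizing A A' with
  | slnil => simp [delC_nil]
  | @cons l₁ l₂ a h ih =>
    obtain ⟨ha, hs⟩ := SubS.cons_inv h h2
    rw [delC_cons]
    exact (ih (hA.cons_right ha) hs.2).trans (List.sublist_append_right _ _)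
  | @cons_cons l₁ l₂ a h ih =>
    have hs := SubS.cons_cons_inv h h2
    rw [delC_cons, delC_cons]
    apply List.Sublist.append _ (ih hA.cons hs.2)
    by_cases hk : k ≤ a.1 ∧ ¬ hb k (col a) A ∧ ¬ hb k (col a) (l₁ ++ B)
    · rw [if_pos hk, if_pos]
      exact ⟨hk.1, fun hc => hk.2.1 (hb_of_subS hA hc),
        fun hc => hk.2.2 (hb_of_subS (hs.append hB) hc)⟩
    · rw [if_neg hk]
      exact List.nil_sublist _

/-- the deletion -/
noncomputable def del (k : ℕ) (L : List (ℕ × Bool)) : List (ℕ × Bool) := delC k [] L []

theorem del_sublist (k : ℕ) (L : List (ℕ × Bool)) : (del k L).Sublist L := delC_sublist _ _ _ _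

theorem del_mono {k : ℕ} {L L' : List (ℕ × Bool)} (h : SubS k L L') :
    (del k L).Sublist (del k L') := delC_mono (SubS.refl _ _) h (SubS.refl _ _)

theorem del_reverse (k : ℕ) (L : List (ℕ × Bool)) : del k L.reverse = (del k L).reverse :=
  (delC_reverse k [] L []).symm

theorem del_invRev (k : ℕ) (L : List (ℕ × Bool)) :
    del k (FreeGroup.invRev L) = FreeGroup.invRev (del k L) := by
  unfold FreeGroup.invRev
  rw [del_reverse]
  congr 1
  exact delC_map k (f := fun g => (g.1, !g.2)) (fun x => rfl) [] L []

theorem del_of_large {k : ℕ} {L : List (ℕ × Bool)} (h : sm k L = []) : del k L = L := by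
  rw [sm_eq_nil] at h
  have hhb : ∀ c (M : List (ℕ × Bool)), (∀ a ∈ M, k ≤ a.1) → ¬ hb k c M := by
    intro c M
    induction M with
    | nil => intro _ h; exact h
    | cons x M ih =>
      intro hM h
      rw [hb_cons] at h
      rcases h.2 with h | h
      · have := hM x List.mem_cons_self
        omega
      · exact ih (fun a ha => hM a (List.mem_cons_of_mem _ ha)) h
  have key : ∀ A L : List (ℕ × Bool), (∀ a ∈ A, k ≤ a.1) → (∀ a ∈ L, k ≤ a.1) →
      delC k A L [] = L := by
    intro A L
    induction L generalizing A with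
    | nil => intros; simp [delC_nil]
    | cons x L ih =>
      intro hA hL
      have hx := hL x List.mem_cons_self
      have hL' : ∀ a ∈ L, k ≤ a.1 := fun a ha => hL a (List.mem_cons_of_mem _ ha)
      rw [delC_cons, if_pos ⟨hx, hhb _ _ hA, hhb _ _ (by simpa using hL')⟩, ih (x :: A) ?_ hL']
      · simp
      · intro a ha
        rcases List.mem_cons.1 ha with rfl | ha
        · exact hx
        · exact hA a ha
  exact key [] L (by simp) h

/-- the left context matters only through `hb` -/
theorem delC_congr_left {k : ℕ} {A A' : List (ℕ × Bool)} (L B : List (ℕ × Bool))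
    (h : ∀ c, hb k c A ↔ hb k c A') : delC k A L B = delC k A' L B := by
  induction L generalizing A A' with
  | nil => simp [delC_nil]
  | cons x L ih =>
    rw [delC_cons, delC_cons, h, ih (A := x :: A) (A' := x :: A')]
    intro c
    rw [hb_cons, hb_cons, h]

/-- context beyond a list with two colours is irrelevant -/
theorem hb_append_of {k c : ℕ} {P A : List (ℕ × Bool)} (h : ∃ a ∈ P, col a ≠ c) :
    hb k c (P ++ A) ↔ hb k c P := by
  induction P with
  | nil =>
    obtain ⟨a, ha, -⟩ := h
    simp at ha
  | cons x P ih =>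
    rw [List.cons_append, hb_cons, hb_cons]
    by_cases hx : col x = c
    · have h' : ∃ a ∈ P, col a ≠ c := by
        obtain ⟨a, ha, hac⟩ := h
        rcases List.mem_cons.1 ha with rfl | ha
        · exact absurd hx hac
        · exact ⟨a, ha, hac⟩
      rw [ih h']
    · simp [hx]

/-- if the left context is monochromatic on its visible part and the list starts with
another colour, the rest of the context is irrelevant -/
theorem delC_ctx' {k : ℕ} {P A : List (ℕ × Bool)} {c : ℕ} (hP : P ≠ []) (hc : ∀ a ∈ P, col a = c)
    (L B : List (ℕ × Bool)) (hL : ∀ a, L.head? = some a → col a ≠ c) :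
    delC k (P ++ A) L B = delC k P L B := by
  cases L with
  | nil => simp [delC_nil]
  | cons x L =>
    have hx : col x ≠ c := hL x rfl
    obtain ⟨p, hp⟩ := List.exists_mem_of_ne_nil P hP
    rw [delC_cons, delC_cons]
    have e1 : hb k (col x) (P ++ A) ↔ hb k (col x) P :=
      hb_append_of ⟨p, hp, by rw [hc p hp]; exact Ne.symm hx⟩
    have e2 : delC k (x :: (P ++ A)) L B = delC k (x :: P) L B := by
      apply delC_congr_left
      intro d
      rw [hb_cons, hb_cons]
      by_cases hd : col x = d
      · subst hd
        rw [e1]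
      · simp [hd]
    rw [e1, e2]

/-- initial part of colour `c` -/
def tw (c : ℕ) (L : List (ℕ × Bool)) : List (ℕ × Bool) := L.takeWhile (fun a => col a = c)
/-- the rest -/
def dw (c : ℕ) (L : List (ℕ × Bool)) : List (ℕ × Bool) := L.dropWhile (fun a => col a = c)

theorem tw_append_dw (c : ℕ) (L : List (ℕ × Bool)) : tw c L ++ dw c L = L :=
  List.takeWhile_append_dropWhile

theorem mem_tw {c : ℕ} {L : List (ℕ × Bool)} {a : ℕ × Bool} (h : a ∈ tw c L) : col a = c := by
  have := List.mem_takeWhile_imp h
  simpa using this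

theorem head_dw {c : ℕ} {L : List (ℕ × Bool)} {a : ℕ × Bool} (h : (dw c L).head? = some a) :
    col a ≠ c := by
  have := List.head?_dropWhile_not (fun a => decide (col a = c)) L
  unfold dw at h
  rw [h] at this
  simpa using this

theorem hb_iff_tw {k c : ℕ} (L : List (ℕ × Bool)) : hb k c L ↔ ∃ a ∈ tw c L, a.1 < k := by
  induction L with
  | nil => simp [hb_nil, tw]
  | cons x L ih =>
    rw [hb_cons, ih]
    unfold tw
    by_cases hx : col x = c
    · simp [hx]
    · simp [hx]

/-- a monochromatic list with a small letter is deleted -/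
theorem delC_mono_nil {k c : ℕ} {R : List (ℕ × Bool)} (hc : ∀ a ∈ R, col a = c)
    (A B : List (ℕ × Bool)) (h : hb k c A ∨ (∃ a ∈ R, a.1 < k) ∨ hb k c B) :
    delC k A R B = [] := by
  induction R generalizing A with
  | nil => simp [delC_nil]
  | cons x R ih =>
    have hx := hc x List.mem_cons_self
    have hc' : ∀ a ∈ R, col a = c := fun a ha => hc a (List.mem_cons_of_mem _ ha)
    rw [delC_cons, ih hc' (x :: A) ?_, if_neg ?_]
    · simp
    · rw [hx]
      rintro ⟨h1, h2, h3⟩
      rcases h with h | h | h
      · exact h2 h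
      · obtain ⟨a, ha, hak⟩ := h
        rcases List.mem_cons.1 ha with rfl | ha
        · omega
        · apply h3
          have gen : ∀ M : List (ℕ × Bool), (∀ a ∈ M, col a = c) → a ∈ M → hb k c (M ++ B) := by
            intro M
            induction M with
            | nil => intro _ h; simp at h
            | cons y M ihM =>
              intro hM haM
              rw [List.cons_append, hb_cons]
              refine ⟨hM y List.mem_cons_self, ?_⟩
              rcases List.mem_cons.1 haM with rfl | haM
              · exact Or.inl hak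
              · exact Or.inr (ihM (fun b hb => hM b (List.mem_cons_of_mem _ hb)) haM)
          exact gen R hc' ha
      · apply h3
        have gen : ∀ M : List (ℕ × Bool), (∀ a ∈ M, col a = c) → hb k c (M ++ B) := by
          intro M
          induction M with
          | nil => intro _; simpa using h
          | cons y M ihM =>
            intro hM
            rw [List.cons_append, hb_cons]
            exact ⟨hM y List.mem_cons_self, Or.inr (ihM (fun b hb => hM b (List.mem_cons_of_mem _ hb)))⟩
        exact gen R hc'
    · rcases h with h | h | h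
      · left
        rw [hb_cons]
        exact ⟨hx, Or.inr h⟩
      · obtain ⟨a, ha, hak⟩ := h
        rcases List.mem_cons.1 ha with rfl | ha
        · left
          rw [hb_cons]
          exact ⟨hx, Or.inl hak⟩
        · right; left
          exact ⟨a, ha, hak⟩
      · right; right; exact h

/-- the first block of a list -/
def fr : List (ℕ × Bool) → List (ℕ × Bool)
  | [] => []
  | x :: L => tw (col x) (x :: L)

/-- changing the left context does not matter for letters below `j` if the first block contains a
small letter or no letter below `j` -/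
theorem sm_delC_left {k j : ℕ} (A L B : List (ℕ × Bool))
    (h : (∃ a ∈ fr L, a.1 < k) ∨ (∀ a ∈ fr L, j ≤ a.1)) :
    sm j (delC k A L B) = sm j (delC k [] L B) := by
  cases L with
  | nil => simp [delC_nil]
  | cons x L =>
    set c := col x with hcdef
    set R := tw c (x :: L) with hR
    set Z := dw c (x :: L) with hZ
    have e : x :: L = R ++ Z := (tw_append_dw c (x :: L)).symm
    have hRne : R ≠ [] := by
      rw [hR]; unfold tw; simp [hcdef]
    have hfr : fr (x :: L) = R := rfl
    rw [hfr] at h
    rw [e, delC_append, delC_append, sm_append, sm_append]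
    have h1 : delC k (R.reverse ++ A) Z B = delC k (R.reverse ++ []) Z B := by
      rw [List.append_nil]
      apply delC_ctx' (c := c)
      · simpa using hRne
      · intro a ha
        rw [List.mem_reverse] at ha
        exact mem_tw ha
      · intro a ha
        exact head_dw ha
    rw [h1]
    congr 1
    rcases h with h | h
    · rw [delC_mono_nil (fun a ha => mem_tw ha) A (Z ++ B) (Or.inr (Or.inl h)),
        delC_mono_nil (fun a ha => mem_tw ha) [] (Z ++ B) (Or.inr (Or.inl h))]
    · have gen : ∀ A, sm j (delC k A R (Z ++ B)) = [] := by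
        intro A
        rw [sm_eq_nil]
        intro a ha
        exact h a ((delC_sublist _ _ _ _).subset ha)
      rw [gen, gen]

theorem sm_delC_right {k j : ℕ} (A L B : List (ℕ × Bool))
    (h : (∃ a ∈ fr L.reverse, a.1 < k) ∨ (∀ a ∈ fr L.reverse, j ≤ a.1)) :
    sm j (delC k A L B) = sm j (delC k A L []) := by
  have h1 := sm_delC_left (k := k) (j := j) B L.reverse A h
  rw [← delC_reverse, ← delC_reverse, sm_reverse, sm_reverse] at h1
  exact List.reverse_injective h1

/-- variant: only the block of colour `c` matters when the context has colour `c` -/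
theorem sm_delC_left' {k j c : ℕ} (A L B : List (ℕ × Bool)) (hA : ∀ a, A.head? = some a → col a = c)
    (h : ∀ a ∈ tw c L, j ≤ a.1) :
    sm j (delC k A L B) = sm j (delC k [] L B) := by
  cases L with
  | nil => simp [delC_nil]
  | cons x L =>
    by_cases hx : col x = c
    · apply sm_delC_left
      right
      have : fr (x :: L) = tw c (x :: L) := by
        show tw (col x) (x :: L) = _
        rw [hx]
      rw [this]
      exact h
    · congr 1
      cases A with
      | nil => rfl
      | cons a A =>
        have ha : col a = c := hA a rfl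
        rw [delC_cons, delC_cons]
        have e1 : hb k (col x) (a :: A) ↔ hb k (col x) [] := by
          rw [hb_cons, hb_nil, ha]
          simp [Ne.symm hx]
        have e2 : delC k (x :: a :: A) L B = delC k [x] L B := by
          apply delC_congr_left
          intro d
          rw [hb_cons, hb_cons, hb_cons, hb_nil, ha]
          by_cases hd : col x = d
          · subst hd
            simp [Ne.symm hx]
          · simp [hd]
        rw [e1, e2]

end Pool.Agent.MP3fbd41
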