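import Pool.Agent.Lib.MP_3fbd41_lc.E1Griff
import Pool.Agent.Lib.MP_3fbd41_lc.ArchHom

/-!
# `E_1` reduces to the homotopy relation of the archipelago
-/

namespace Pool.Agent.MP3fbd41

open Filter Topology unitInterval

/-- standard loop of one letter -/
noncomputable def Lt (a : ℕ × Bool) : Path eb eb where
  toFun t := ⟨pathL (fun _ => 1) [a] t, (ePath_pathL (fun _ => one_pos) [a]).pt t⟩
  continuous_toFun := by
    rw [continuous_em_iff]
    intro j
    exact ((ePath_pathL (fun _ => one_pos) [a]).uc j).continuous.comp continuous_subtype_val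
  source' := by
    apply Subtype.ext
    funext j
    show ee (phi (fun _ => 1) j [a] ((0 : I) : ℝ)) = 1
    rw [phi_nonpos (t := ((0 : I) : ℝ)) (fun _ => one_pos) j [a] (by simp), ee_zero]
  target' := by
    apply Subtype.ext
    funext j
    show ee (phi (fun _ => 1) j [a] ((1 : I) : ℝ)) = 1
    rw [phi_cons, phi_nil, add_zero]
    have h1 : cl (((1 : I) : ℝ) / (1:ℝ)) = 1 := by
      apply cl_of_ge
      simp
    rw [h1]
    split_ifs
    · have := ee_int 1
      simpa using this
    · have := ee_int (-1)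
      simpa using this
    · exact ee_zero

/-- the moving coordinate -/
noncomputable def et (b : Bool) (t : ℝ) : ℂ := ee (if b then cl t else -cl t)

theorem Lt_apply (a : ℕ × Bool) (t : I) (j : ℕ) :
    (Lt a t).1 j = if a.1 = j then et a.2 t else 1 := by
  show ee (phi (fun _ => 1) j [a] (t : ℝ)) = _
  rw [phi_cons, phi_nil, add_zero, div_one]
  unfold et
  split_ifs <;> first | rfl | exact ee_zero

theorem hI_Lt (a : ℕ × Bool) : hI (Lt a) = elt (sing a) := by
  funext m
  have h0 := hm_pathL (w := fun _ => (1:ℝ)) (fun _ => one_pos) [a] (T := 1)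
    (by rw [wt_cons]; simp [wt]) m
  show hI (Lt a) m = FreeGroup.mk (sm m [a])
  rw [← h0]
  unfold hI hm
  have := hol_reparam ((ePath_pathL (w := fun _ => (1:ℝ)) (fun _ => one_pos) [a]).exists_prim m)
    ((ePath_pr (Lt a).continuous).exists_prim m) (s := 0) (t := 1) le_rfl zero_le_one
    (φ := fun u => u) (L := 1) zero_le_one (by
      intro u v _ _ _ _
      rw [one_mul])
    (fun u hu _ => hu)
    (by
      intro u hu hu'
      funext j
      show pathL (fun _ => 1) [a] ((pr u : I) : ℝ) j = pathL (fun _ => 1) [a] u j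
      rw [pr_val hu hu'])
  exact this

variable (D : Disks)

theorem kap_Lt (a : ℕ × Bool) : Path.Homotopic.Quotient.mk ((Lt a).map (continuous_sgA D))
    = kap (continuous_sgA D) (sing_coh a) := kap_eq _ _ _ (hI_Lt a)

/-- intermediate radius -/
noncomputable def rho' (s : ℕ) (τ : ℝ) : ℝ := (1 - τ) * omh s + τ * omh (s + 1)

theorem omh_succ_le (s : ℕ) : omh (s + 1) ≤ omh s := by
  unfold omh
  push_cast
  apply one_div_le_one_div_of_le <;> linarith [(Nat.cast_nonneg s : (0:ℝ) ≤ s)]

theorem rho'_bounds (s : ℕ) {τ : ℝ} (t0 : 0 ≤ τ) (t1 : τ ≤ 1) :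
    omh (s + 1) ≤ rho' s τ ∧ rho' s τ ≤ omh s := by
  have h := omh_succ_le s
  unfold rho'
  constructor <;> nlinarith

theorem move_mem (s : ℕ) {τ : ℝ} (t0 : 0 ≤ τ) (t1 : τ ≤ 1) {e : ℂ} (he : ‖e‖ = 1) :
    ((((rho' s τ : ℝ) : ℂ) * (1 - e), hh D s (((rho' s τ : ℝ) : ℂ) * (1 - e))) : ℂ × ℝ)
      ∈ archipelago D := by
  obtain ⟨r1, r2⟩ := rho'_bounds s t0 t1
  have hp := omh_pos (s + 1)
  have hrp : 0 < rho' s τ := lt_of_lt_of_le hp r1
  set z := ((rho' s τ : ℝ) : ℂ) * (1 - e) with hz
  rw [mem_arch]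
  by_cases h0 : z = 0
  · refine ⟨?_, ?_⟩
    · show ‖z - 1‖ ≤ 1
      rw [h0]; simp
    · show hh D s z = hgt D z
      rw [h0, hh_zero, hgt_zero]
  · have hc : ‖z - rho' s τ‖ = |rho' s τ| := by
      rw [hz, show ((rho' s τ : ℝ) : ℂ) * (1 - e) - (rho' s τ : ℝ) = -(((rho' s τ : ℝ) : ℂ) * e) by ring,
        norm_neg, norm_mul, he, mul_one, Complex.norm_real, Real.norm_eq_abs]
    rw [circ_iff_xx h0 hrp.ne'] at hc
    have h1 : 1 / (2 * omh s) ≤ xx z := by
      rw [hc]
      apply one_div_le_one_div_of_le <;> linarith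
    have h2 : xx z ≤ 1 / (2 * omh (s + 1)) := by
      rw [hc]
      apply one_div_le_one_div_of_le <;> linarith
    rw [two_omh] at h1 h2
    push_cast at h2
    have hs : (0:ℝ) ≤ s := Nat.cast_nonneg s
    refine ⟨?_, ?_⟩
    · rw [mem_unit_iff h0]
      linarith
    · exact (hgt_eq D h1 (by linarith)).symm

theorem sgA_Lt (a : ℕ × Bool) (t : I) :
    (sgA D (Lt a t)).1 = (((omh a.1 : ℝ) : ℂ) * (1 - et a.2 t), (0:ℝ)) := by
  show (sw omh (Lt a t), (0:ℝ)) = _
  congr 1
  by_cases h : et a.2 t = 1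
  · rw [sw_base, h]
    · simp
    · intro j
      rw [Lt_apply, h]
      simp
  · have h1 : (Lt a t).1 a.1 = et a.2 t := by
      rw [Lt_apply, if_pos rfl]
    rw [sw_of (j := a.1) (by rw [h1]; exact h), h1]

theorem hh_circ_zero (s : ℕ) {e : ℂ} (he : ‖e‖ = 1) {j : ℕ} (hj : j = s ∨ j = s + 1) :
    hh D s (((omh j : ℝ) : ℂ) * (1 - e)) = 0 := by
  by_cases h0 : ((omh j : ℝ) : ℂ) * (1 - e) = 0
  · rw [h0, hh_zero]
  · have hc : ‖((omh j : ℝ) : ℂ) * (1 - e) - omh j‖ = |omh j| := by
      rw [show ((omh j : ℝ) : ℂ) * (1 - e) - (omh j : ℝ) = -(((omh j : ℝ) : ℂ) * e) by ring,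
        norm_neg, norm_mul, he, mul_one, Complex.norm_real, Real.norm_eq_abs]
    rw [circ_iff_xx h0 (omh_pos j).ne', two_omh] at hc
    apply hh_eq_zero_of
    rcases hj with rfl | rfl
    · exact Or.inl hc.le
    · right
      rw [hc]
      push_cast
      linarith

theorem norm_et (b : Bool) (t : ℝ) : ‖et b t‖ = 1 := norm_ee _

theorem continuous_et (b : Bool) : Continuous (et b) := by
  have h : Continuous cl := by
    unfold cl
    fun_prop
  unfold et
  cases b
  · exact continuous_ee.comp h.neg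
  · exact continuous_ee.comp h

theorem Lt_homotopic (s : ℕ) (b : Bool) :
    ((Lt (s, b)).map (continuous_sgA D)).Homotopic ((Lt (s + 1, b)).map (continuous_sgA D)) := by
  have hbase : sgA D eb = oA D := sgA_eb D
  refine ⟨{ toFun := fun q => ⟨(((rho' s q.1 : ℝ) : ℂ) * (1 - et b q.2),
              hh D s (((rho' s q.1 : ℝ) : ℂ) * (1 - et b q.2))), move_mem D s q.1.2.1 q.1.2.2 (norm_et b _)⟩
            continuous_toFun := ?_
            map_zero_left := ?_
            map_one_left := ?_
            prop' := ?_ }⟩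
  · apply Continuous.subtype_mk
    have h1 : Continuous (fun q : I × I => ((rho' s q.1 : ℝ) : ℂ) * (1 - et b q.2)) := by
      unfold rho'
      have := continuous_et b
      fun_prop
    exact h1.prodMk ((continuous_hh D s).comp h1)
  · intro t
    apply Subtype.ext
    show _ = (sgA D (Lt (s, b) t)).1
    rw [sgA_Lt]
    show (((rho' s ((0 : I) : ℝ) : ℝ) : ℂ) * (1 - et b t), hh D s (((rho' s ((0 : I) : ℝ) : ℝ) : ℂ) * (1 - et b t)))
      = (((omh s : ℝ) : ℂ) * (1 - et b t), (0:ℝ))
    have e : rho' s ((0 : I) : ℝ) = omh s := by unfold rho'; simp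
    rw [e, hh_circ_zero D s (norm_et b _) (Or.inl rfl)]
  · intro t
    apply Subtype.ext
    show _ = (sgA D (Lt (s + 1, b) t)).1
    rw [sgA_Lt]
    show (((rho' s ((1 : I) : ℝ) : ℝ) : ℂ) * (1 - et b t), hh D s (((rho' s ((1 : I) : ℝ) : ℝ) : ℂ) * (1 - et b t)))
      = (((omh (s + 1) : ℝ) : ℂ) * (1 - et b t), (0:ℝ))
    have e : rho' s ((1 : I) : ℝ) = omh (s + 1) := by unfold rho'; simp
    rw [e, hh_circ_zero D s (norm_et b _) (Or.inr rfl)]
  · intro τ t ht
    have key : et b t = 1 ∧ (Lt (s, b)) t = eb := by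
      rcases ht with rfl | ht
      · refine ⟨?_, (Lt (s, b)).source⟩
        unfold et
        rw [show ((0 : I) : ℝ) = 0 from rfl, cl_of_nonpos le_rfl]
        cases b <;> simp [ee_zero]
      · rw [Set.mem_singleton_iff] at ht
        subst ht
        refine ⟨?_, (Lt (s, b)).target⟩
        unfold et
        rw [show ((1 : I) : ℝ) = 1 from rfl, cl_of_ge le_rfl]
        cases b
        · have := ee_int (-1)
          simpa using this
        · have := ee_int 1
          simpa using this
    apply Subtype.ext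
    show (((rho' s τ : ℝ) : ℂ) * (1 - et b t), hh D s (((rho' s τ : ℝ) : ℂ) * (1 - et b t)))
      = (sgA D (Lt (s, b) t)).1
    rw [key.1, key.2, hbase]
    show _ = ((0:ℂ), (0:ℝ))
    rw [sub_self, mul_zero, hh_zero]

theorem kap_sing_succ (s : ℕ) (b : Bool) :
    kap (continuous_sgA D) (sing_coh (s, b)) = kap (continuous_sgA D) (sing_coh (s + 1, b)) := by
  rw [← kap_Lt, ← kap_Lt]
  exact Path.Homotopic.Quotient.eq.2 (Lt_homotopic D s b)

theorem kap_conj {X : Type*} [TopologicalSpace X] {sg : EM → X} (hsg : Continuous sg)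
    {V U : ℕ → List (ℕ × Bool)} (hV : Coh V) (hU : Coh U)
    (h : kap hsg hU = Path.Homotopic.Quotient.refl _) :
    kap hsg ((hV.append hU).append hV.invRev) = Path.Homotopic.Quotient.refl _ := by
  rw [kap_append hsg (hV.append hU) hV.invRev, kap_append hsg hV hU, h,
    Path.Homotopic.Quotient.trans_refl, ← kap_append hsg hV hV.invRev]
  rw [← kbar_elt hsg (hV.append hV.invRev), elt_append, elt_invRev, mul_inv_cancel, kbar_one]

theorem sing_invRev (s : ℕ) (m : ℕ) : sing (s, false) m = FreeGroup.invRev (sing (s, true) m) := by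
  unfold sing
  by_cases h : s < m
  · rw [sm_cons_lt (a := (s, false)) h, sm_cons_lt (a := (s, true)) h, sm_nil]
    rfl
  · rw [sm_cons_ge (a := (s, false)) h, sm_cons_ge (a := (s, true)) h, sm_nil]
    rfl

/-- the trivial centre -/
def ctr (s m : ℕ) : List (ℕ × Bool) := sing (s, true) m ++ sing (s + 1, false) m

theorem ctr_coh (s : ℕ) : Coh (ctr s) := (sing_coh _).append (sing_coh _)

theorem kap_ctr (s : ℕ) : kap (continuous_sgA D) (ctr_coh s) = Path.Homotopic.Quotient.refl _ := by
  rw [show kap (continuous_sgA D) (ctr_coh s) = kap (continuous_sgA D)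
    ((sing_coh (s, true)).append (sing_coh (s + 1, false))) from rfl,
    kap_append _ (sing_coh _) (sing_coh _), kap_sing_succ D s true,
    ← kap_append _ (sing_coh (s + 1, true)) (sing_coh (s + 1, false)),
    ← kbar_elt _ ((sing_coh (s + 1, true)).append (sing_coh (s + 1, false)))]
  have : (fun m => sing (s + 1, true) m ++ sing (s + 1, false) m)
      = fun m => sing (s + 1, true) m ++ FreeGroup.invRev (sing (s + 1, true) m) := by
    funext m
    rw [sing_invRev]
  rw [this, elt_append, elt_invRev, mul_inv_cancel, kbar_one]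

/-- letters carrying the bits -/
def hx (x : ℕ → ℕ → Bool) (n i : ℕ) : ℕ × Bool := (3 * Nat.pair n i, x n i)

/-- index of the centre -/
def cs (n : ℕ) : ℕ := 3 * Nat.pair n 0 + 1

/-- the blocks -/
def XH (x : ℕ → ℕ → Bool) (n m : ℕ) : List (ℕ × Bool) :=
  (om (hx x n) m ++ ctr (cs n) m) ++ FreeGroup.invRev (om (hx x n) m)

/-- the word -/
def VH (x : ℕ → ℕ → Bool) : ℕ → List (ℕ × Bool) := TP' (XH x) 0

theorem hx_le (x : ℕ → ℕ → Bool) (n i : ℕ) : i ≤ (hx x n i).1 := by
  show i ≤ 3 * Nat.pair n i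
  have := Nat.right_le_pair n i
  omega

theorem hx_le' (x : ℕ → ℕ → Bool) (n i : ℕ) : n ≤ (hx x n i).1 := by
  show n ≤ 3 * Nat.pair n i
  have := Nat.left_le_pair n i
  omega

theorem cs_le (n : ℕ) : n ≤ cs n := by
  unfold cs
  have := Nat.left_le_pair n 0
  omega

theorem XH_coh (x : ℕ → ℕ → Bool) (n : ℕ) : Coh (XH x n) :=
  ((om_coh (hx_le x n)).append (ctr_coh (cs n))).append (om_coh (hx_le x n)).invRev

theorem mem_XH {x : ℕ → ℕ → Bool} {n m : ℕ} {b : ℕ × Bool} (h : b ∈ XH x n m) :
    ((∃ i, b.1 = (hx x n i).1) ∨ b.1 = cs n ∨ b.1 = cs n + 1) ∧ b.1 < m := by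
  rw [XH, List.mem_append, List.mem_append, ctr, List.mem_append] at h
  rcases h with (h | h | h) | h
  · obtain ⟨⟨i, rfl⟩, h2⟩ := mem_om h
    exact ⟨Or.inl ⟨i, rfl⟩, h2⟩
  · obtain ⟨rfl, h2⟩ := mem_sing h
    exact ⟨Or.inr (Or.inl rfl), h2⟩
  · obtain ⟨rfl, h2⟩ := mem_sing h
    exact ⟨Or.inr (Or.inr rfl), h2⟩
  · rw [FreeGroup.invRev, List.mem_reverse, List.mem_map] at h
    obtain ⟨c, hc, rfl⟩ := h
    obtain ⟨⟨i, rfl⟩, h2⟩ := mem_om hc
    exact ⟨Or.inl ⟨i, rfl⟩, h2⟩

theorem XH_nil (x : ℕ → ℕ → Bool) (n m : ℕ) (h : m ≤ n) : XH x n m = [] := by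
  rw [List.eq_nil_iff_forall_not_mem]
  intro b hb
  obtain ⟨h1 | h1 | h1, h2⟩ := mem_XH hb
  · obtain ⟨i, h1⟩ := h1
    have := hx_le' x n i
    omega
  · have := cs_le n
    omega
  · have := cs_le n
    omega

theorem VH_coh (x : ℕ → ℕ → Bool) : Coh (VH x) := TP_coh (XH_nil x) (XH_coh x) 0

theorem kap_XH (x : ℕ → ℕ → Bool) (n : ℕ) :
    kap (continuous_sgA D) (XH_coh x n) = Path.Homotopic.Quotient.refl _ :=
  kap_conj (continuous_sgA D) (om_coh (hx_le x n)) (ctr_coh (cs n)) (kap_ctr D (cs n))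

theorem VH_sound {x x' : ℕ → ℕ → Bool} (h : E1 x x') :
    kap (continuous_sgA D) (VH_coh x) = kap (continuous_sgA D) (VH_coh x') := by
  obtain ⟨N, hN⟩ := h
  have e1 := kap_TP (continuous_sgA D) (XH_nil x) (XH_coh x) (kap_XH D x) N
  have e2 := kap_TP (continuous_sgA D) (XH_nil x') (XH_coh x') (kap_XH D x') N
  have e3 : kap (continuous_sgA D) (TP_coh (XH_nil x) (XH_coh x) N)
      = kap (continuous_sgA D) (TP_coh (XH_nil x') (XH_coh x') N) := by
    apply kap_ext
    apply TP_congr
    intro n hn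
    funext m
    unfold XH
    have : hx x n = hx x' n := by
      funext i
      unfold hx
      rw [hN n hn]
    rw [this]
  exact e1.trans (e3.trans e2.symm)

theorem map_fst_invRev (L : List (ℕ × Bool)) :
    (FreeGroup.invRev L).map Prod.fst = (L.map Prod.fst).reverse := by
  rw [FreeGroup.invRev, List.map_reverse, List.map_map]
  rfl

theorem XH_skel (x x' : ℕ → ℕ → Bool) (n m : ℕ) :
    (XH x n m).map Prod.fst = (XH x' n m).map Prod.fst := by
  unfold XH om
  rw [List.map_append, List.map_append, List.map_append, List.map_append, map_fst_invRev,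
    map_fst_invRev, map_fst_sm, map_fst_sm, List.map_map, List.map_map]
  rfl

theorem VH_loc (x : ℕ → ℕ → Bool) (m : ℕ) : ∀ᶠ x' in 𝓝 x, VH x' m = VH x m := by
  filter_upwards [eventually_bits x m] with x' hx'
  unfold VH TP'
  apply flatMap_congr'
  intro n hn
  have hn' : n < m := by
    have := List.mem_range'_1.1 hn
    omega
  have e : om (hx x' n) m = om (hx x n) m := by
    unfold om
    congr 1
    apply List.map_congr_left
    intro i hi
    unfold hx
    rw [hx' n i hn' (List.mem_range.1 hi)]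
  unfold XH
  rw [e]

theorem hx_inj {x : ℕ → ℕ → Bool} {n n' i i' : ℕ} (h : (hx x n i).1 = (hx x n' i').1) :
    n = n' ∧ i = i' := by
  have h1 : 3 * Nat.pair n i = 3 * Nat.pair n' i' := h
  have h2 : Nat.pair n i = Nat.pair n' i' := by omega
  exact Nat.pair_eq_pair.1 h2

theorem hx_cs {x : ℕ → ℕ → Bool} {n n' i : ℕ} (h : (hx x n i).1 = cs n') : False := by
  have h1 : 3 * Nat.pair n i = 3 * Nat.pair n' 0 + 1 := h
  omega

theorem hx_cs' {x : ℕ → ℕ → Bool} {n n' i : ℕ} (h : (hx x n i).1 = cs n' + 1) : False := by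
  have h1 : 3 * Nat.pair n i = 3 * Nat.pair n' 0 + 1 + 1 := h
  omega

theorem cs_inj {n n' : ℕ} (h : cs n = cs n') : n = n' := by
  have h1 : 3 * Nat.pair n 0 + 1 = 3 * Nat.pair n' 0 + 1 := h
  have h2 : Nat.pair n 0 = Nat.pair n' 0 := by omega
  exact (Nat.pair_eq_pair.1 h2).1

theorem cs_cs {n n' : ℕ} (h : cs n + 1 = cs n') : False := by
  have h1 : 3 * Nat.pair n 0 + 1 + 1 = 3 * Nat.pair n' 0 + 1 := h
  omega

/-- the relevant letters -/
theorem VH_filter (x : ℕ → ℕ → Bool) (n i : ℕ) {m : ℕ} (h1 : cs n < m) (h2 : (hx x n i).1 < m)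
    (h3 : i < m) (h4 : n < m) :
    (VH x m).filter (fun a => decide (a.1 = (hx x n i).1 ∨ a.1 = cs n))
      = [((hx x n i).1, x n i), (cs n, true), ((hx x n i).1, !x n i)] := by
  set p : ℕ × Bool → Bool := fun a => decide (a.1 = (hx x n i).1 ∨ a.1 = cs n) with hp
  have hom : (om (hx x n) m).filter p = [hx x n i] := by
    rw [om, sm, List.filter_filter]
    rw [← filter_map_single (p := p) (f := hx x n) h3 (by simp [hp])
      (by
        intro i' hi'
        rw [hp, decide_eq_false_iff_not]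
        rintro (hcon | hcon)
        · exact hi' (hx_inj hcon).2
        · exact hx_cs hcon)]
    apply List.filter_congr
    intro a _
    by_cases ha : a.1 = (hx x n i).1 ∨ a.1 = cs n
    · have : a.1 < m := by omega
      simp [hp, this]
    · simp [hp, ha]
  have hinv : (FreeGroup.invRev (om (hx x n) m)).filter p = FreeGroup.invRev [hx x n i] := by
    rw [← hom, FreeGroup.invRev, FreeGroup.invRev, List.filter_reverse, List.filter_map]
    rfl
  unfold VH TP'
  rw [Nat.sub_zero, filter_flatMap_single h4]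
  · unfold XH ctr
    rw [List.filter_append, List.filter_append, List.filter_append, hom, hinv]
    have e1 : sing (cs n, true) m = [(cs n, true)] := by
      unfold sing
      rw [sm_cons_lt (a := (cs n, true)) h1, sm_nil]
    have e2 : (sing (cs n + 1, false) m).filter p = [] := by
      apply filter_nil_of_sublist (sm_sublist _ _)
      intro a ha
      rw [List.mem_singleton] at ha
      subst ha
      rw [hp, decide_eq_false_iff_not]
      rintro (hcon | hcon)
      · exact hx_cs' hcon.symm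
      · have hcon' : cs n + 1 = cs n := hcon
        omega
    rw [e1, e2]
    have e3 : [(cs n, true)].filter p = [(cs n, true)] := by
      rw [List.filter_cons_of_pos]
      · rfl
      · simp [hp]
    rw [e3]
    rfl
  · intro l hl
    apply filter_nil_of_sublist (List.Sublist.refl _)
    intro a ha
    rw [hp, decide_eq_false_iff_not]
    obtain ⟨h5 | h5 | h5, -⟩ := mem_XH ha
    · obtain ⟨i', h5⟩ := h5
      rintro (hcon | hcon)
      · exact hl (hx_inj (x := x) (h5.symm.trans hcon)).1
      · exact hx_cs (x := x) (h5.symm.trans hcon)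
    · rintro (hcon | hcon)
      · exact hx_cs (x := x) (hcon.symm.trans h5)
      · exact hl (cs_inj (h5.symm.trans hcon))
    · rintro (hcon | hcon)
      · exact hx_cs' (x := x) (hcon.symm.trans h5)
      · exact cs_cs (h5.symm.trans hcon)

theorem rA_sgA {k : ℕ} (x : EM) {j : ℕ} (hj : k < j) : (rA D k (sgA D x)).1 j = x.1 j := by
  unfold rA
  show (re' cen_omh (PP D k (sw omh x) 1)).1 j = x.1 j
  by_cases hx : ∃ i, x.1 i ≠ 1
  · obtain ⟨i, hi⟩ := hx
    have hz : sw omh x ≠ 0 := by
      rw [sw_of hi]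
      apply mul_ne_zero
      · exact_mod_cast (omh_pos i).ne'
      · intro hcon
        apply hi
        linear_combination -hcon
    have hc : ‖sw omh x - omh i‖ = |omh i| := by
      rw [sw_of hi]
      exact sw_circ x i
    have hxx := (circ_iff_xx hz (omh_pos i).ne').1 hc
    rw [two_omh] at hxx
    have hi0 : (0:ℝ) ≤ i := Nat.cast_nonneg i
    by_cases hik : i ≤ k
    · have hik' : (i : ℝ) ≤ k := by exact_mod_cast hik
      have hle : xx (sw omh x) ≤ ((k : ℝ) + 1) / 2 := by rw [hxx]; linarith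
      rw [PP_out D hz hle]
      have hne : Fo k (sw omh x) 1 ≠ 0 :=
        div_ne_zero hz (Fo_den (by rw [hxx]; linarith) hle zero_le_one)
      have hk : ‖Fo k (sw omh x) 1 - omh k‖ = |omh k| := by
        rw [circ_iff_xx hne (omh_pos k).ne', two_omh, xx_Fo hz]
        ring
      rw [x.2.eq_one hi (by omega)]
      show rw' omh _ j = 1
      unfold rw'
      rw [if_neg]
      intro hcon
      have := cen_omh.disj hne hk hcon
      omega
    · push Not at hik
      have hik' : (k : ℝ) ≤ i := by exact_mod_cast hik.le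
      rw [PP_in D hz hik.le hxx.ge (by linarith), Fi_of_mu_one D (mu_left_end D hxx), re_sw]
  · push Not at hx
    rw [sw_base hx, PP_zero, hx j]
    exact rw_zero omh j

/-- the cocycle of the letters above `k` -/
noncomputable def cK (k m : ℕ) (x y : ℕ → ℂ) : FreeGroup ℕ :=
  lp m (fun j => if k < j then cr (x j) (y j) else 0)

theorem er_cK (k m : ℕ) (x y : ℕ → ℂ) : er (fun j => k < j) (cM m x y) = cK k m x y :=
  er_lp (fun j => k < j) m _

theorem er_rA {k m : ℕ} (γ : Path eb eb) (h : ∀ t, mA D γ t ∈ UA D k) :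
    er (fun j => k < j) (hI (gA D k (mA D γ)) m) = er (fun j => k < j) (hI γ m) := by
  have e1 := map_hol (er (fun j => k < j)) (c' := cK k m)
    ((ePath_pr (gA D k (mA D γ)).continuous).exists_prim m)
    (fun s t _ _ => er_cK k m _ _) (s := 0) (t := 1) le_rfl zero_le_one
  have e2 := map_hol (er (fun j => k < j)) (c' := cK k m)
    ((ePath_pr γ.continuous).exists_prim m)
    (fun s t _ _ => er_cK k m _ _) (s := 0) (t := 1) le_rfl zero_le_one
  show er (fun j => k < j) (hol _ _ 0 1) = er (fun j => k < j) (hol _ _ 0 1)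
  rw [e1, e2]
  -- the two cocycles take the same values along the two paths
  obtain ⟨g1, δ1, hδ1, hg1⟩ := (ePath_pr (gA D k (mA D γ)).continuous).exists_prim m
  have p1 := hg1.map (er (fun j => k < j)) (c' := cK k m) (fun s t _ _ => er_cK k m _ _)
  have p3 : Prim (cK k m) (fun t => (γ (pr t)).1) (fun t => er (fun j => k < j) (g1 t)) δ1 := by
    intro s t hs ht hst
    have h1 := p1 s t hs ht hst
    simp only at h1 ⊢
    rw [h1]
    congr 1
    apply lp_congr
    intro j _
    by_cases hj : k < j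
    · rw [if_pos hj, if_pos hj, gA_apply D h, gA_apply D h, mA_apply, mA_apply, rA_sgA D _ hj,
        rA_sgA D _ hj]
    · rw [if_neg hj, if_neg hj]
  rw [hol_eq hδ1 p1 le_rfl zero_le_one, hol_eq hδ1 p3 le_rfl zero_le_one]

theorem mk_triple_inj {e s : ℕ} (hes : e ≠ s) {b b' : Bool}
    (h : FreeGroup.mk [(e, b), (s, true), (e, !b)] = FreeGroup.mk [(e, b'), (s, true), (e, !b')]) :
    b = b' := by
  have hred : ∀ b : Bool, FreeGroup.IsReduced [(e, b), (s, true), (e, !b)] := by
    intro b
    unfold FreeGroup.IsReduced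
    simp [hes, Ne.symm hes]
  have h1 := congrArg FreeGroup.toWord h
  rw [FreeGroup.toWord_mk, FreeGroup.toWord_mk, (hred b).reduce_eq, (hred b').reduce_eq] at h1
  simp at h1
  exact h1

theorem VH_complete {x x' : ℕ → ℕ → Bool}
    (h : (mA D (rzp (VH_coh x))).Homotopic (mA D (rzp (VH_coh x')))) : E1 x x' := by
  obtain ⟨k, h1, h2, h3⟩ := ((arch_iff D _ _).1 h).exists
  refine ⟨k + 1, fun n hn => ?_⟩
  funext i
  set e := (hx x n i).1 with he
  have hek : k < e := by
    have := hx_le' x n i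
    omega
  have hsk : k < cs n := by
    have := cs_le n
    omega
  set m := e + cs n + i + n + 1 with hm
  have key := h3 m
  have k1 := congrArg (er (fun j => k < j)) key
  rw [er_rA D _ h1, er_rA D _ h2, hI_rzp, hI_rzp, elt, elt, er_mk, er_mk] at k1
  have k2 := congrArg (er (fun j => j = e ∨ j = cs n)) k1
  rw [er_mk, er_mk, List.filter_filter, List.filter_filter] at k2
  have hf : ∀ L : List (ℕ × Bool), L.filter (fun a => decide (a.1 = e ∨ a.1 = cs n) && decide (k < a.1))
      = L.filter (fun a => decide (a.1 = e ∨ a.1 = cs n)) := by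
    intro L
    apply List.filter_congr
    intro a _
    by_cases ha : a.1 = e ∨ a.1 = cs n
    · have : k < a.1 := by omega
      simp [ha, this]
    · simp [ha]
  rw [hf, hf, VH_filter x n i (by omega) (by omega) (by omega) (by omega)] at k2
  have k3 := VH_filter x' n i (m := m) (by omega) (by
    show (hx x n i).1 < m
    omega) (by omega) (by omega)
  have ee' : (hx x' n i).1 = e := rfl
  rw [ee'] at k3
  rw [k3] at k2
  exact mk_triple_inj (fun hcon => hx_cs (x := x) hcon) k2

theorem cast_homotopic {X : Type*} [TopologicalSpace X] {a b : X} (h : a = b) (p q : Path b b) :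
    (p.cast h h).Homotopic (q.cast h h) ↔ p.Homotopic q := by
  subst h
  rfl

theorem E1_arch : BorelReducible E1 (LoopHomotopy (oA D)) := by
  refine borelReducible_of_continuous (fun x => mA D (rzp (VH_coh x))) ?_ ?_
  · have h1 := continuous_rzp VH_coh (fun x x' m => by
      unfold VH TP'
      exact map_flatMap_congr (fun n => XH_skel x x' n m)) VH_loc
    apply Path.continuous_uncurry_iff.1
    exact (continuous_sgA D).comp (Path.continuous_uncurry_iff.2 h1)
  · intro x x'
    constructor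
    · intro h
      exact (cast_homotopic (sgA_eb D).symm _ _).2 (Path.Homotopic.Quotient.eq.1 (VH_sound D h))
    · intro h
      exact VH_complete D h

end Pool.Agent.MP3fbd41
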