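import Pool.Agent.Lib.MP_3fbd41_lc.GriffMain
import Pool.Agent.Lib.MP_3fbd41_lc.Code

/-!
# Borel reduction of the homotopy relation of the Griffiths space to `E_1`
-/

namespace Pool.Agent.MP3fbd41

open Filter Topology unitInterval

theorem exists_AG {a b : GG} (f : Path a b) : ∃ N, 0 < N ∧ AG (FF f) N := by
  have hH : Continuous (fun p : I × I => f p.1) := f.continuous.comp continuous_fst
  obtain ⟨N, hN, h, -, -⟩ := PN_homotopy (H := fun u _ => f u) hH (x := a) (y := b)
    (fun _ => f.source) (fun _ => f.target)
  exact ⟨N, hN, h⟩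

open Classical in
/-- number of pieces -/
noncomputable def nf {a b : GG} (f : Path a b) : ℕ := Nat.find (exists_AG f)

open Classical in
theorem nf_spec {a b : GG} (f : Path a b) : 0 < nf f ∧ AG (FF f) (nf f) := Nat.find_spec (exists_AG f)

/-- the sequence attached to a path -/
noncomputable def PhiF {a b : GG} (f : Path a b) : ℕ → FreeGroup ℕ := PhiN f (nf f)

theorem pd_apply (a : ℕ → ℕ → FreeGroup ℕ) (N n : ℕ) : pd a N n = pd (fun i => a i n) N := by
  induction N with
  | zero => rfl
  | succ N ih =>
    rw [pd, pd, ← ih]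
    rfl

theorem DD_eventually (k j : ℕ) {w : ℕ → FreeGroup ℕ} (hw : Tame w) :
    ∀ᶠ m in atTop, FreeGroup.mk (sm j (del k (w m).toWord)) = DD k w j := by
  obtain ⟨W, h⟩ := hw.exists_red
  rw [DD_eq k hw h]
  obtain ⟨i, hi1, hi2⟩ := ((Dl_conv k h.coh j).and (eventually_ge_atTop k)).exists
  filter_upwards [Dl_conv k h.coh j, h i, h k, eventually_ge_atTop k] with m e1 e2 e3 e4
  have hWm : (w m).toWord.Sublist (W m) := by
    have : w m = FreeGroup.mk (W m) := (congrFun (h.elt hw) m).symm
    rw [this, FreeGroup.toWord_mk]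
    exact FreeGroup.Red.sublist FreeGroup.reduce.red
  have s1 : SubS k (W i) (w m).toWord := by
    refine ⟨?_, ?_⟩
    · rw [← e2]; exact sm_sublist _ _
    · rw [h.coh k i hi2, e3]
  have s2 : SubS k (w m).toWord (W m) := ⟨hWm, by rw [e3, h.coh k m e4]⟩
  have t1 := sm_mono (k := j) (del_mono s1)
  have t2 := sm_mono (k := j) (del_mono s2)
  rw [e1] at t2
  rw [hi1] at t1
  show FreeGroup.mk (sm j (del k (w m).toWord)) = FreeGroup.mk (Dl k W j)
  rw [t2.antisymm t1]

section
variable {a b : GG}

theorem isOpen_pieces (s t : ℝ) {U : Set GG} (hU : IsOpen U) :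
    IsOpen {f : Path a b | ∀ v, pc (FF f) s t v ∈ U} := by
  let φ : I → I := fun v => pr (s + (t - s) * v)
  have hφ : Continuous φ := continuous_pr.comp (by fun_prop)
  have h1 : IsOpen {f : C(I, GG) | Set.MapsTo f (Set.range φ) U} :=
    ContinuousMap.isOpen_setOfPred_mapsTo (isCompact_range hφ) hU
  have h2 : Continuous (fun f : Path a b => f.toContinuousMap) := continuous_induced_dom
  have h3 := h1.preimage h2
  convert h3 using 1
  ext f
  constructor
  · rintro h _ ⟨v, rfl⟩
    exact h v
  · intro h v
    exact h ⟨v, rfl⟩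

attribute [local instance] Classical.propDecidable

noncomputable local instance instMeasPath : MeasurableSpace (Path a b) := borel _
local instance instBorelPath : BorelSpace (Path a b) := ⟨rfl⟩

theorem measurable_rg_coord (j : ℕ) :
    Measurable (fun p : GG => if p ∈ OG then (rg p).1 j else 1) := by
  have h3 : ContinuousOn (fun p : GG => (rg p).1 j) OG :=
    (continuous_coord j).comp_continuousOn continuousOn_rg
  exact h3.measurable_piecewise continuousOn_const isOpen_OG.measurableSet

theorem ms_eI (s t : ℝ) (n : ℕ) : MS (fun f : Path a b => eI (pc (FF f) s t) n) := by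
  have hopen := (isOpen_pieces (a := a) (b := b) s t isOpen_OG).measurableSet
  let K : Path a b → I → EM := fun f v =>
    if ∀ v, pc (FF f) s t v ∈ OG then rg (pc (FF f) s t v) else eb
  have hK : ∀ f, Continuous (K f) := by
    intro f
    by_cases h : ∀ v, pc (FF f) s t v ∈ OG
    · have : K f = fun v => rg (pc (FF f) s t v) := by
        funext v
        exact if_pos h
      rw [this]
      exact continuous_rg_comp (continuous_pc (continuous_FF f) s t) h
    · have : K f = fun v => eb := by
        funext v
        exact if_neg h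
      rw [this]
      exact continuous_const
  have hm : ∀ v j, Measurable (fun f : Path a b => (K f v).1 j) := by
    intro v j
    have e : (fun f : Path a b => (K f v).1 j) = fun f =>
        if (∀ v, pc (FF f) s t v ∈ OG) then
          (if pc (FF f) s t v ∈ OG then (rg (pc (FF f) s t v)).1 j else 1) else 1 := by
      funext f
      by_cases h : ∀ v, pc (FF f) s t v ∈ OG
      · rw [if_pos h, if_pos (h v)]
        show ((if ∀ v, pc (FF f) s t v ∈ OG then rg (pc (FF f) s t v) else eb : EM)).1 j = _
        rw [if_pos h]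
      · rw [if_neg h]
        show ((if ∀ v, pc (FF f) s t v ∈ OG then rg (pc (FF f) s t v) else eb : EM)).1 j = _
        rw [if_neg h]
        rfl
    rw [e]
    refine Measurable.ite hopen ?_ measurable_const
    have h4 : Measurable (fun f : Path a b => pc (FF f) s t v) :=
      (continuous_eval_const (pr (s + (t - s) * v))).measurable
    exact (measurable_rg_coord j).comp h4
  have h1 := ms_hI hK hm n
  have h5 := h1.comp₂ (ms_of_set hopen) (fun g b => if b = true then g else 1)
  have e : (fun f : Path a b => eI (pc (FF f) s t) n) = fun f : Path a b =>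
      (if (decide (f ∈ {f : Path a b | ∀ v, pc (FF f) s t v ∈ OG}) : Bool) = true
        then hI (K f) n else 1) := by
    funext f
    by_cases h : ∀ v, pc (FF f) s t v ∈ OG
    · rw [eI_of h, if_pos]
      · apply hI_congr
        intro v
        exact (if_pos h).symm
      · simpa using h
    · rw [eI_of_not h, if_neg]
      · rfl
      · simpa using h
  rw [e]
  exact h5

theorem measurableSet_AG (N : ℕ) : MeasurableSet {f : Path a b | AG (FF f) N} := by
  have : {f : Path a b | AG (FF f) N} = ⋂ i : ℕ, ⋂ _ : i < N,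
      ({f : Path a b | ∀ v, pc (FF f) (i / N) ((i + 1) / N) v ∈ OG} ∪
      ({f : Path a b | ∀ v, pc (FF f) (i / N) ((i + 1) / N) v ∈ TP} ∪
      {f : Path a b | ∀ v, pc (FF f) (i / N) ((i + 1) / N) v ∈ TM})) := by
    ext f
    simp only [Set.mem_iInter]
    rfl
  rw [this]
  exact MeasurableSet.iInter (fun i => MeasurableSet.iInter (fun _ =>
    (isOpen_pieces _ _ isOpen_OG).measurableSet.union
      ((isOpen_pieces _ _ isOpen_TP).measurableSet.union
        (isOpen_pieces _ _ isOpen_TM).measurableSet)))

theorem ms_nf : MS (fun f : Path a b => nf f) := by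
  intro N
  have : {f : Path a b | nf f = N} = {f | 0 < N ∧ AG (FF f) N} ∩
      ⋂ n : ℕ, ⋂ _ : n < N, {f | 0 < n ∧ AG (FF f) n}ᶜ := by
    ext f
    simp only [Set.mem_inter_iff, Set.mem_iInter, Set.mem_compl_iff]
    exact Nat.find_eq_iff (exists_AG f)
  rw [this]
  have h : ∀ N, MeasurableSet {f : Path a b | 0 < N ∧ AG (FF f) N} := by
    intro N
    by_cases hN : 0 < N
    · have : {f : Path a b | 0 < N ∧ AG (FF f) N} = {f : Path a b | AG (FF f) N} := by
        ext f
        exact ⟨fun h => h.2, fun h => ⟨hN, h⟩⟩
      rw [this]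
      exact measurableSet_AG N
    · have : {f : Path a b | 0 < N ∧ AG (FF f) N} = ∅ := by
        ext f
        exact ⟨fun h => hN h.1, fun h => absurd h (Set.notMem_empty _)⟩
      rw [this]
      exact MeasurableSet.empty
  exact (h N).inter (MeasurableSet.iInter (fun n => MeasurableSet.iInter (fun _ => (h n).compl)))

theorem PhiN_apply (f : Path a b) (N n : ℕ) :
    PhiN f N n = pd (fun i : ℕ => eI (pc (FF f) (i / N) ((i + 1) / N)) n) N := by
  unfold PhiN
  rw [pd_apply]

theorem ms_PhiN (N n : ℕ) : MS (fun f : Path a b => PhiN f N n) := by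
  simp only [PhiN_apply]
  exact ms_pd N (fun i _ => ms_eI _ _ n)

theorem ms_diag {Y S : Type*} [MeasurableSpace Y] {ν : Y → ℕ} (hν : MS ν) {F : ℕ → Y → S}
    (hF : ∀ N, MS (F N)) : MS (fun y => F (ν y) y) := by
  intro u
  have : {y | F (ν y) y = u} = ⋃ N : ℕ, {y | ν y = N} ∩ {y | F N y = u} := by
    ext y
    simp
  rw [this]
  exact MeasurableSet.iUnion (fun N => (hν N).inter (hF N u))

theorem ms_PhiF (n : ℕ) : MS (fun f : Path a b => PhiF f n) :=
  ms_diag (F := fun N (f : Path a b) => PhiN f N n) ms_nf (fun N => ms_PhiN N n)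

theorem ms_DD (k m : ℕ) : MS (fun f : Path a b => DD k (PhiF f) m) :=
  ms_eventually (F' := fun n f => FreeGroup.mk (sm m (del k (PhiF f n).toWord)))
    (fun n => (ms_PhiF n).comp (fun g => FreeGroup.mk (sm m (del k g.toWord))))
    (fun f => DD_eventually k m (tame_PhiN f _))

end

theorem griff_reducible : BorelReducible (LoopHomotopy oG) E1 := by
  refine reducible_E1 _ (fun k m f => DD k (PhiF f) m) (fun k m => ms_DD k m) ?_
  intro f g
  show f.Homotopic g ↔ _
  rw [griff_iff f g (nf_spec f).1 (nf_spec g).1 (nf_spec f).2 (nf_spec g).2]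
  constructor
  · intro h
    filter_upwards [h] with k hk m
    exact congrFun hk m
  · intro h
    filter_upwards [h] with k hk
    funext m
    exact hk m

end Pool.Agent.MP3fbd41
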