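import Pool.Agent.Lib.MP_3fbd41_lc.E1Words
import Pool.Agent.Lib.MP_3fbd41_lc.GriffBorel

/-!
# `E_1` reduces to the homotopy relation of the Griffiths space
-/

namespace Pool.Agent.MP3fbd41

open Filter Topology unitInterval

/-- even letters carrying the bits -/
def gx (x : ℕ → ℕ → Bool) (n i : ℕ) : ℕ × Bool := (2 * Nat.pair n i, x n i)

/-- the separators -/
def sp (n : ℕ) : ℕ × Bool := (2 * Nat.pair n 0 + 1, true)

/-- the blocks -/
def XG (x : ℕ → ℕ → Bool) (n m : ℕ) : List (ℕ × Bool) := om (gx x n) m ++ sing (sp n) m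

/-- the word -/
def VG (x : ℕ → ℕ → Bool) : ℕ → List (ℕ × Bool) := TP' (XG x) 0

theorem gx_le (x : ℕ → ℕ → Bool) (n i : ℕ) : i ≤ (gx x n i).1 := by
  show i ≤ 2 * Nat.pair n i
  have := Nat.right_le_pair n i
  omega

theorem gx_le' (x : ℕ → ℕ → Bool) (n i : ℕ) : n ≤ (gx x n i).1 := by
  show n ≤ 2 * Nat.pair n i
  have := Nat.left_le_pair n i
  omega

theorem sp_le (n : ℕ) : n ≤ (sp n).1 := by
  show n ≤ 2 * Nat.pair n 0 + 1
  have := Nat.left_le_pair n 0
  omega

theorem XG_coh (x : ℕ → ℕ → Bool) (n : ℕ) : Coh (XG x n) :=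
  (om_coh (gx_le x n)).append (sing_coh (sp n))

theorem mem_om {a : ℕ → ℕ × Bool} {m : ℕ} {b : ℕ × Bool} (h : b ∈ om a m) :
    (∃ i, b = a i) ∧ b.1 < m := by
  rw [om, mem_sm, List.mem_map] at h
  obtain ⟨⟨i, -, hi⟩, h2⟩ := h
  exact ⟨⟨i, hi.symm⟩, h2⟩

theorem mem_sing {a b : ℕ × Bool} {m : ℕ} (h : b ∈ sing a m) : b = a ∧ b.1 < m := by
  rw [sing, mem_sm, List.mem_singleton] at h
  exact h

theorem mem_XG {x : ℕ → ℕ → Bool} {n m : ℕ} {b : ℕ × Bool} (h : b ∈ XG x n m) :
    ((∃ i, b = gx x n i) ∨ b = sp n) ∧ b.1 < m := by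
  rw [XG, List.mem_append] at h
  rcases h with h | h
  · exact ⟨Or.inl (mem_om h).1, (mem_om h).2⟩
  · exact ⟨Or.inr (mem_sing h).1, (mem_sing h).2⟩

theorem XG_nil (x : ℕ → ℕ → Bool) (n m : ℕ) (h : m ≤ n) : XG x n m = [] := by
  rw [List.eq_nil_iff_forall_not_mem]
  intro b hb
  obtain ⟨h1 | h1, h2⟩ := mem_XG hb
  · obtain ⟨i, rfl⟩ := h1
    have := gx_le' x n i
    omega
  · subst h1
    have := sp_le n
    omega

theorem VG_coh (x : ℕ → ℕ → Bool) : Coh (VG x) := TP_coh (XG_nil x) (XG_coh x) 0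

theorem kap_XG (x : ℕ → ℕ → Bool) (n : ℕ) :
    kap continuous_sgG (XG_coh x n) = Path.Homotopic.Quotient.refl _ := by
  have h1 := pureKill (om (gx x n)) (om_coh (gx_le x n)) ⟨0, fun m a ha => by
    obtain ⟨⟨i, rfl⟩, -⟩ := mem_om ha
    show (2 * Nat.pair n i) % 2 = 0
    omega⟩
  have h2 := pureKill (sing (sp n)) (sing_coh (sp n)) ⟨1, fun m a ha => by
    obtain ⟨rfl, -⟩ := mem_sing ha
    show (2 * Nat.pair n 0 + 1) % 2 = 1
    omega⟩
  rw [show kap continuous_sgG (XG_coh x n)
    = kap continuous_sgG ((om_coh (gx_le x n)).append (sing_coh (sp n))) from rfl,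
    kap_append continuous_sgG (om_coh (gx_le x n)) (sing_coh (sp n)), h1, h2,
    Path.Homotopic.Quotient.refl_trans]

theorem VG_sound {x x' : ℕ → ℕ → Bool} (h : E1 x x') :
    kap continuous_sgG (VG_coh x) = kap continuous_sgG (VG_coh x') := by
  obtain ⟨N, hN⟩ := h
  have e1 := kap_TP continuous_sgG (XG_nil x) (XG_coh x) (kap_XG x) N
  have e2 := kap_TP continuous_sgG (XG_nil x') (XG_coh x') (kap_XG x') N
  have e3 : kap continuous_sgG (TP_coh (XG_nil x) (XG_coh x) N)
      = kap continuous_sgG (TP_coh (XG_nil x') (XG_coh x') N) := by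
    apply kap_ext
    apply TP_congr
    intro n hn
    funext m
    unfold XG
    have : gx x n = gx x' n := by
      funext i
      unfold gx
      rw [hN n hn]
    rw [this]
  exact e1.trans (e3.trans e2.symm)

theorem map_fst_sm (m : ℕ) (L : List (ℕ × Bool)) :
    (sm m L).map Prod.fst = (L.map Prod.fst).filter (fun i => i < m) := by
  induction L with
  | nil => rfl
  | cons a L ih =>
    by_cases h : a.1 < m
    · rw [sm_cons_lt h, List.map_cons, List.map_cons, List.filter_cons_of_pos (by simpa using h), ih]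
    · rw [sm_cons_ge h, List.map_cons, List.filter_cons_of_neg (by simpa using h), ih]

theorem XG_skel (x x' : ℕ → ℕ → Bool) (n m : ℕ) :
    (XG x n m).map Prod.fst = (XG x' n m).map Prod.fst := by
  unfold XG om
  rw [List.map_append, List.map_append, map_fst_sm, map_fst_sm, List.map_map, List.map_map]
  rfl

theorem map_flatMap_congr {l : List ℕ} {f g : ℕ → List (ℕ × Bool)}
    (h : ∀ n, (f n).map Prod.fst = (g n).map Prod.fst) :
    (l.flatMap f).map Prod.fst = (l.flatMap g).map Prod.fst := by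
  induction l with
  | nil => rfl
  | cons a l ih =>
    rw [List.flatMap_cons, List.flatMap_cons, List.map_append, List.map_append, h, ih]

theorem eventually_bits (x : ℕ → ℕ → Bool) (m : ℕ) :
    ∀ᶠ x' in 𝓝 x, ∀ n i, n < m → i < m → x' n i = x n i := by
  have h : ∀ᶠ x' in 𝓝 x, ∀ n ∈ Finset.range m, ∀ i ∈ Finset.range m, x' n i = x n i := by
    rw [Filter.eventually_all_finset]
    intro n _
    rw [Filter.eventually_all_finset]
    intro i _
    exact eventually_bit x n i
  filter_upwards [h] with x' hx' n i hn hi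
  exact hx' n (Finset.mem_range.2 hn) i (Finset.mem_range.2 hi)

theorem VG_loc (x : ℕ → ℕ → Bool) (m : ℕ) : ∀ᶠ x' in 𝓝 x, VG x' m = VG x m := by
  filter_upwards [eventually_bits x m] with x' hx'
  unfold VG TP'
  apply flatMap_congr'
  intro n hn
  have hn' : n < m := by
    have := List.mem_range'_1.1 hn
    omega
  unfold XG om
  congr 2
  apply List.map_congr_left
  intro i hi
  unfold gx
  rw [hx' n i hn' (List.mem_range.1 hi)]

theorem gx_inj {x : ℕ → ℕ → Bool} {n n' i i' : ℕ} (h : (gx x n i).1 = (gx x n' i').1) :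
    n = n' ∧ i = i' := by
  have h1 : 2 * Nat.pair n i = 2 * Nat.pair n' i' := h
  have h2 : Nat.pair n i = Nat.pair n' i' := by omega
  exact Nat.pair_eq_pair.1 h2

theorem gx_sp {x : ℕ → ℕ → Bool} {n n' i : ℕ} (h : (gx x n i).1 = (sp n').1) : False := by
  have h1 : 2 * Nat.pair n i = 2 * Nat.pair n' 0 + 1 := h
  omega

theorem sp_inj {n n' : ℕ} (h : (sp n).1 = (sp n').1) : n = n' := by
  have h1 : 2 * Nat.pair n 0 + 1 = 2 * Nat.pair n' 0 + 1 := h
  have h2 : Nat.pair n 0 = Nat.pair n' 0 := by omega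
  exact (Nat.pair_eq_pair.1 h2).1

theorem VG_pairwise (x : ℕ → ℕ → Bool) (m : ℕ) : (VG x m).Pairwise (fun a b => a.1 ≠ b.1) := by
  unfold VG TP'
  rw [List.pairwise_flatMap]
  constructor
  · intro n _
    unfold XG
    rw [List.pairwise_append]
    refine ⟨?_, ?_, ?_⟩
    · unfold om
      apply List.Pairwise.sublist (sm_sublist _ _)
      rw [List.pairwise_map]
      refine List.Pairwise.imp ?_ (List.nodup_range (n := m))
      intro i i' hii h
      exact hii (gx_inj h).2
    · apply List.Pairwise.sublist (sm_sublist _ _)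
      exact List.pairwise_singleton _ _
    · intro a ha b hb h
      obtain ⟨⟨i, rfl⟩, -⟩ := mem_om ha
      obtain ⟨rfl, -⟩ := mem_sing hb
      exact gx_sp h
  · refine List.Pairwise.imp ?_ (List.nodup_range' (s := 0) (n := m - 0))
    intro n n' hnn a ha b hb h
    obtain ⟨h1 | h1, -⟩ := mem_XG ha <;> obtain ⟨h2 | h2, -⟩ := mem_XG hb
    · obtain ⟨i, rfl⟩ := h1
      obtain ⟨i', rfl⟩ := h2
      exact hnn (gx_inj h).1
    · obtain ⟨i, rfl⟩ := h1
      subst h2
      exact gx_sp h
    · obtain ⟨i, rfl⟩ := h2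
      subst h1
      exact gx_sp h.symm
    · subst h1
      subst h2
      exact hnn (sp_inj h)

theorem VG_isRed (x : ℕ → ℕ → Bool) : IsRed (elt (VG x)) (VG x) := by
  intro j
  filter_upwards [eventually_ge_atTop j] with m hm
  have h1 : FreeGroup.IsReduced (VG x m) := by
    apply List.Pairwise.isChain
    exact (VG_pairwise x m).imp (fun h h' => absurd h' h)
  show sm j (FreeGroup.toWord (FreeGroup.mk (VG x m))) = VG x j
  rw [FreeGroup.toWord_mk, h1.reduce_eq]
  exact VG_coh x j m hm

theorem TP_split {X : ℕ → ℕ → List (ℕ × Bool)} (hX : ∀ n m, m ≤ n → X n m = []) (n m : ℕ) :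
    TP' X 0 m = (List.range n).flatMap (fun l => X l m) ++ TP' X n m := by
  induction n with
  | zero => simp
  | succ n ih =>
    rw [ih, TP_succ hX n m, List.range_succ, List.flatMap_append, List.append_assoc]
    simp

theorem delC_keep {k c : ℕ} {L : List (ℕ × Bool)} (h : ∀ a ∈ L, col a = c ∧ k ≤ a.1)
    (A B : List (ℕ × Bool)) (hA : ¬ hb k c A) (hB : ¬ hb k c B) : delC k A L B = L := by
  induction L generalizing A with
  | nil => rw [delC_nil]
  | cons x L ih =>
    have hx := h x List.mem_cons_self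
    have hL : ∀ L : List (ℕ × Bool), (∀ a ∈ L, col a = c ∧ k ≤ a.1) → ¬ hb k c (L ++ B) := by
      intro L hL
      induction L with
      | nil => exact hB
      | cons y L ih2 =>
        rw [List.cons_append, hb_cons]
        rintro ⟨-, h1 | h1⟩
        · have := (hL y List.mem_cons_self).2
          omega
        · exact ih2 (fun a ha => hL a (List.mem_cons_of_mem _ ha)) h1
    have hLL := hL L (fun a ha => h a (List.mem_cons_of_mem _ ha))
    rw [delC_cons, hx.1, if_pos ⟨hx.2, hA, hLL⟩, ih (fun a ha => h a (List.mem_cons_of_mem _ ha))]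
    · rfl
    · rw [hb_cons]
      rintro ⟨-, h1 | h1⟩
      · omega
      · exact hA h1

theorem filter_nil_of_sublist {p : ℕ × Bool → Bool} {L L' : List (ℕ × Bool)} (h : L.Sublist L')
    (h' : ∀ a ∈ L', p a = false) : L.filter p = [] := by
  rw [List.filter_eq_nil_iff]
  intro a ha
  rw [h' a (h.subset ha)]
  simp

/-- the letters carrying the bits of `x n` survive in `D_k` for `n ≥ k` -/
theorem VG_survive (x : ℕ → ℕ → Bool) {k n : ℕ} (hn : k ≤ n) (i : ℕ) :
    ∀ᶠ m in atTop, (del k (VG x m)).filter (fun a => decide (a.1 = (gx x n i).1)) = [gx x n i] := by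
  filter_upwards [eventually_gt_atTop (sp n).1, eventually_gt_atTop (sp (n - 1)).1,
    eventually_gt_atTop (gx x n i).1, eventually_gt_atTop i] with m h1 h2 h3 h4
  set P := (List.range n).flatMap (fun l => XG x l m) with hP
  set W := om (gx x n) m with hW
  set Q := TP' (XG x) (n + 1) m with hQ
  have hsing : sing (sp n) m = [sp n] := by
    unfold sing
    rw [sm_cons_lt h1, sm_nil]
  have hV : VG x m = P ++ (W ++ (sp n :: Q)) := by
    unfold VG
    rw [TP_split (XG_nil x) n m, TP_succ (XG_nil x) n m]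
    show P ++ ((om (gx x n) m ++ sing (sp n) m) ++ Q) = _
    rw [hsing, List.append_assoc]
    rfl
  have hWk : ∀ a ∈ W, col a = 0 ∧ k ≤ a.1 := by
    intro a ha
    obtain ⟨⟨i, rfl⟩, -⟩ := mem_om ha
    refine ⟨?_, hn.trans (gx_le' x n i)⟩
    show (2 * Nat.pair n i) % 2 = 0
    omega
  have hcs : ∀ l, col (sp l) ≠ 0 := by
    intro l
    show (2 * Nat.pair l 0 + 1) % 2 ≠ 0
    omega
  have hbP : ¬ hb k 0 P.reverse := by
    cases n with
    | zero =>
      rw [hP]
      exact fun h => h
    | succ n' =>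
      have h2' : (sp n').1 < m := h2
      have : P = ((List.range n').flatMap (fun l => XG x l m) ++ om (gx x n') m) ++ [sp n'] := by
        rw [hP, List.range_succ, List.flatMap_append]
        simp only [List.flatMap_cons, List.flatMap_nil, List.append_nil]
        show _ ++ (om (gx x n') m ++ sing (sp n') m) = _
        rw [show sing (sp n') m = [sp n'] by unfold sing; rw [sm_cons_lt h2', sm_nil],
          List.append_assoc]
      rw [this, List.reverse_append]
      show ¬ hb k 0 (sp n' :: _)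
      rw [hb_cons]
      rintro ⟨h, -⟩
      exact hcs n' h
  have hbR : ¬ hb k 0 ((sp n :: Q) ++ []) := by
    rw [List.append_nil, hb_cons]
    rintro ⟨h, -⟩
    exact hcs n h
  have hdel : del k (VG x m) = delC k [] P (W ++ (sp n :: Q) ++ []) ++ (W ++
      delC k (W.reverse ++ (P.reverse ++ [])) (sp n :: Q) []) := by
    rw [hV]
    unfold del
    rw [delC_append, delC_append]
    congr 2
    exact delC_keep hWk _ _ (by rw [List.append_nil]; exact hbP) hbR
  have hPn : ∀ a ∈ P, decide (a.1 = (gx x n i).1) = false := by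
    intro a ha
    rw [hP, List.mem_flatMap] at ha
    obtain ⟨l, hl, ha⟩ := ha
    rw [List.mem_range] at hl
    rw [decide_eq_false_iff_not]
    intro hcon
    obtain ⟨h5 | h5, -⟩ := mem_XG ha
    · obtain ⟨i', rfl⟩ := h5
      have := (gx_inj hcon).1
      omega
    · subst h5
      exact gx_sp hcon.symm
  have hRn : ∀ a ∈ (sp n :: Q), decide (a.1 = (gx x n i).1) = false := by
    intro a ha
    rw [decide_eq_false_iff_not]
    intro hcon
    rcases List.mem_cons.1 ha with rfl | ha
    · exact gx_sp hcon.symm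
    · rw [hQ, TP', List.mem_flatMap] at ha
      obtain ⟨l, hl, ha⟩ := ha
      have hl' := List.left_le_of_mem_range' hl
      obtain ⟨h5 | h5, -⟩ := mem_XG ha
      · obtain ⟨i', rfl⟩ := h5
        have := (gx_inj hcon).1
        omega
      · subst h5
        exact gx_sp hcon.symm
  have hWf : W.filter (fun a => decide (a.1 = (gx x n i).1)) = [gx x n i] := by
    rw [hW, om, sm, List.filter_filter]
    rw [← filter_map_single (p := fun a => decide (a.1 = (gx x n i).1)) (f := gx x n) h4 (by simp)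
      (by
        intro i' hi'
        rw [decide_eq_false_iff_not]
        intro hcon
        exact hi' (gx_inj hcon).2)]
    apply List.filter_congr
    intro a _
    by_cases ha : a.1 = (gx x n i).1
    · have : a.1 < m := by omega
      simp [ha, h3]
    · simp [ha]
  rw [hdel, List.filter_append, List.filter_append, hWf,
    filter_nil_of_sublist (delC_sublist _ _ _ _) hPn,
    filter_nil_of_sublist (delC_sublist _ _ _ _) hRn]
  rfl

theorem Dl_survive (x : ℕ → ℕ → Bool) {k n : ℕ} (hn : k ≤ n) (i : ℕ) {j : ℕ}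
    (hj : (gx x n i).1 < j) :
    (Dl k (VG x) j).filter (fun a => decide (a.1 = (gx x n i).1)) = [gx x n i] := by
  obtain ⟨m, h1, h2⟩ := ((Dl_conv k (VG_coh x) j).and (VG_survive x hn i)).exists
  rw [← h1, sm, List.filter_filter]
  refine Eq.trans ?_ h2
  apply List.filter_congr
  intro a _
  by_cases ha : a.1 = (gx x n i).1
  · simp [ha, hj]
  · simp [ha]

theorem mk_single_inj {j : ℕ} {b b' : Bool} (h : FreeGroup.mk [(j, b)] = FreeGroup.mk [(j, b')]) :
    b = b' := by
  have h1 := congrArg FreeGroup.toWord h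
  rw [FreeGroup.toWord_mk, FreeGroup.toWord_mk,
    FreeGroup.IsReduced.reduce_eq (List.isChain_singleton _),
    FreeGroup.IsReduced.reduce_eq (List.isChain_singleton _)] at h1
  simpa using h1

theorem VG_complete {x x' : ℕ → ℕ → Bool}
    (h : ∀ᶠ k in atTop, DD k (elt (VG x)) = DD k (elt (VG x'))) : E1 x x' := by
  obtain ⟨k, hk⟩ := h.exists
  refine ⟨k, fun n hn => ?_⟩
  funext i
  rw [DD_eq k (tame_elt (VG_coh x)) (VG_isRed x), DD_eq k (tame_elt (VG_coh x')) (VG_isRed x')] at hk
  set j := (gx x n i).1 + 1 with hj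
  have h1 := congrFun hk j
  have h2 := congrArg (er (fun l => l = (gx x n i).1)) h1
  show x n i = x' n i
  rw [elt, elt, er_mk, er_mk, Dl_survive x hn i (by omega)] at h2
  have e : (gx x n i).1 = (gx x' n i).1 := rfl
  have h3 := Dl_survive x' hn i (j := j) (by rw [← e]; omega)
  rw [← e] at h3
  rw [h3] at h2
  exact mk_single_inj h2

theorem pd_one {G : Type*} [Monoid G] (a : ℕ → G) : pd a 1 = a 0 := by
  show pd a 0 * a 0 = a 0
  exact one_mul _

theorem QQ_loop (γ : Path eb eb) {N : ℕ} (hN : 0 < N)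
    (h : AG (FF (γ.map continuous_sgG)) N) : QQ (PhiN (γ.map continuous_sgG) N) = QQ (hI γ) := by
  have hO : ∀ t : ℝ, FF (γ.map continuous_sgG) t ∈ OG := by
    intro t
    show |(Th (γ (pr t)) 0).2| < 1
    unfold Th
    simp
  have h1 : AG (FF (γ.map continuous_sgG)) 1 := by
    intro i _
    left
    intro v
    exact hO _
  rw [QQ_PhiN, PN_eq (continuous_FF _) hN one_pos h h1, ← QQ_PhiN]
  congr 1
  unfold PhiN
  have hO' : ∀ v, pc (FF (γ.map continuous_sgG)) (((0 : ℕ) : ℝ) / ((1 : ℕ) : ℝ))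
      ((((0 : ℕ) : ℝ) + 1) / ((1 : ℕ) : ℝ)) v ∈ OG := fun v => hO _
  rw [pd_one, eI_of hO']
  funext m
  apply hI_congr
  intro v
  unfold pc
  have e : ((((0 : ℕ) : ℝ)) / ((1 : ℕ) : ℝ) + (((((0 : ℕ) : ℝ)) + 1) / ((1 : ℕ) : ℝ)
      - (((0 : ℕ) : ℝ)) / ((1 : ℕ) : ℝ)) * (v : ℝ)) = v := by
    simp
  rw [e]
  show rg (sgG (γ (pr v))) = γ v
  rw [rg_sgG, pr_coe]

theorem E1_griff : BorelReducible E1 (LoopHomotopy oG) := by
  refine borelReducible_of_continuous (fun x => (rzp (VG_coh x)).map continuous_sgG) ?_ ?_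
  · have h1 := continuous_rzp VG_coh (fun x x' m => by
      unfold VG TP'
      exact map_flatMap_congr (fun n => XG_skel x x' n m)) VG_loc
    apply Path.continuous_uncurry_iff.1
    exact continuous_sgG.comp (Path.continuous_uncurry_iff.2 h1)
  · intro x x'
    constructor
    · intro h
      exact Path.Homotopic.Quotient.eq.1 (VG_sound h)
    · intro h
      apply VG_complete
      obtain ⟨N, hN, hA⟩ := exists_AG ((rzp (VG_coh x)).map continuous_sgG)
      obtain ⟨M, hM, hB⟩ := exists_AG ((rzp (VG_coh x')).map continuous_sgG)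
      have h1 := (griff_iff _ _ hN hM hA hB).1 h
      rw [← QQ_eq, QQ_loop _ hN hA, QQ_loop _ hM hB, hI_rzp, hI_rzp, QQ_eq] at h1
      exact h1

end Pool.Agent.MP3fbd41
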