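import Pool.Agent.Lib.MP_3fbd41_lc.Kappa
import Pool.Agent.Lib.MP_3fbd41_lc.Defs

/-!
# Infinite products of infinite words, and continuity of their realisations
-/

namespace Pool.Agent.MP3fbd41

open Filter Topology unitInterval

/-- word of order type `ω` -/
def om (a : ℕ → ℕ × Bool) (m : ℕ) : List (ℕ × Bool) := sm m ((List.range m).map a)

theorem sm_om_aux {a : ℕ → ℕ × Bool} (h : ∀ i, i ≤ (a i).1) {i j : ℕ} (hij : i ≤ j) :
    sm i ((List.range j).map a) = sm i ((List.range i).map a) := by
  induction j, hij using Nat.le_induction with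
  | base => rfl
  | succ n hn ih =>
    rw [List.range_succ, List.map_append, sm_append, ih]
    have : sm i (List.map a [n]) = [] := by
      rw [sm_eq_nil]
      intro b hb
      rw [List.map_singleton, List.mem_singleton] at hb
      subst hb
      exact hn.trans (h n)
    rw [this, List.append_nil]

theorem om_coh {a : ℕ → ℕ × Bool} (h : ∀ i, i ≤ (a i).1) : Coh (om a) := by
  intro i j hij
  unfold om
  rw [sm_sm hij, sm_om_aux h hij]

/-- the tail products -/
def TP' (X : ℕ → ℕ → List (ℕ × Bool)) (N m : ℕ) : List (ℕ × Bool) :=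
  (List.range' N (m - N)).flatMap (fun n => X n m)

theorem TP_succ {X : ℕ → ℕ → List (ℕ × Bool)} (hX : ∀ n m, m ≤ n → X n m = []) (N m : ℕ) :
    TP' X N m = X N m ++ TP' X (N + 1) m := by
  unfold TP'
  by_cases h : N < m
  · obtain ⟨d, hd⟩ : ∃ d, m - N = d + 1 := ⟨m - N - 1, by omega⟩
    rw [hd, List.range'_succ, List.flatMap_cons, show m - (N + 1) = d by omega]
  · rw [show m - N = 0 by omega, show m - (N + 1) = 0 by omega, hX N m (by omega)]
    rfl

theorem sm_flatMap (i : ℕ) (l : List ℕ) (f : ℕ → List (ℕ × Bool)) :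
    sm i (l.flatMap f) = l.flatMap (fun n => sm i (f n)) := by
  induction l with
  | nil => rfl
  | cons a l ih => rw [List.flatMap_cons, List.flatMap_cons, sm_append, ih]

theorem flatMap_congr' {l : List ℕ} {f g : ℕ → List (ℕ × Bool)} (h : ∀ n ∈ l, f n = g n) :
    l.flatMap f = l.flatMap g := by
  induction l with
  | nil => rfl
  | cons a l ih =>
    rw [List.flatMap_cons, List.flatMap_cons, h a List.mem_cons_self,
      ih (fun n hn => h n (List.mem_cons_of_mem _ hn))]

theorem TP_coh {X : ℕ → ℕ → List (ℕ × Bool)} (hX : ∀ n m, m ≤ n → X n m = [])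
    (hc : ∀ n, Coh (X n)) (N : ℕ) : Coh (TP' X N) := by
  intro i j hij
  unfold TP'
  rw [sm_flatMap]
  have e1 : (List.range' N (j - N)).flatMap (fun n => sm i (X n j))
      = (List.range' N (j - N)).flatMap (fun n => X n i) :=
    flatMap_congr' (fun n _ => hc n i j hij)
  rw [e1]
  have h2 : ∀ d e : ℕ, i ≤ N + d → (List.range' N (d + e)).flatMap (fun n => X n i)
      = (List.range' N d).flatMap (fun n => X n i) := by
    intro d e hd
    induction e with
    | zero => rfl
    | succ e ih =>
      rw [← add_assoc, List.range'_concat, List.flatMap_append, ih]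
      have : X (N + (d + e)) i = [] := hX _ _ (by omega)
      simp [this]
  by_cases hi : i ≤ N
  · rw [show i - N = 0 by omega]
    have := h2 0 (j - N) (by omega)
    rw [zero_add] at this
    exact this
  · have := h2 (i - N) (j - i) (by omega)
    rw [show i - N + (j - i) = j - N by omega] at this
    exact this

section
variable {X : Type*} [TopologicalSpace X] {sg : EM → X} (hsg : Continuous sg)

theorem kap_ext {V V' : ℕ → List (ℕ × Bool)} (hV : Coh V) (hV' : Coh V') (h : ∀ m, V m = V' m) :
    kap hsg hV = kap hsg hV' := by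
  have : V = V' := funext h
  subst this
  rfl

theorem kap_TP {Y : ℕ → ℕ → List (ℕ × Bool)} (hY : ∀ n m, m ≤ n → Y n m = [])
    (hc : ∀ n, Coh (Y n)) (hk : ∀ n, kap hsg (hc n) = Path.Homotopic.Quotient.refl _) (N : ℕ) :
    kap hsg (TP_coh hY hc 0) = kap hsg (TP_coh hY hc N) := by
  induction N with
  | zero => rfl
  | succ N ih =>
    rw [ih, kap_ext hsg (TP_coh hY hc N) ((hc N).append (TP_coh hY hc (N + 1)))
      (fun m => TP_succ hY N m), kap_append hsg (hc N) (TP_coh hY hc (N + 1)), hk N,
      Path.Homotopic.Quotient.refl_trans]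

end

theorem TP_congr {Y Y' : ℕ → ℕ → List (ℕ × Bool)} {N : ℕ} (h : ∀ n, N ≤ n → Y n = Y' n) (m : ℕ) :
    TP' Y N m = TP' Y' N m := by
  unfold TP'
  apply flatMap_congr'
  intro n hn
  rw [h n (List.left_le_of_mem_range' hn)]

/-- continuity of the realisation -/
theorem continuous_rzp {A : Type*} [TopologicalSpace A] {V : A → ℕ → List (ℕ × Bool)}
    (hV : ∀ x, Coh (V x)) (hsk : ∀ x x' m, (V x m).map Prod.fst = (V x' m).map Prod.fst)
    (hloc : ∀ x m, ∀ᶠ x' in 𝓝 x, V x' m = V x m) : Continuous (fun x => rzp (hV x)) := by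
  apply Path.continuous_uncurry_iff.1
  rw [continuous_em_iff]
  intro j
  rw [continuous_iff_continuousAt]
  rintro ⟨x, t⟩
  have h1 : ContinuousAt (fun p : A × I => (rzp (hV x) p.2).1 j) (x, t) :=
    ((continuous_coord j).comp ((rzp (hV x)).continuous.comp continuous_snd)).continuousAt
  refine h1.congr ?_
  have h2 : ∀ᶠ p : A × I in 𝓝 (x, t), V p.1 (j + 1) = V x (j + 1) :=
    (continuous_fst.continuousAt (x := (x, t))).eventually (hloc x (j + 1))
  filter_upwards [h2] with p hp
  show (rzp (hV x) p.2).1 j = (rzp (hV p.1) p.2).1 j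
  rw [rzp_apply, rzp_apply]
  exact rz_congr (hV x) (hV p.1) (hsk x p.1) hp.symm p.2

theorem borelReducible_of_continuous {A B : Type*} [TopologicalSpace A] [TopologicalSpace B]
    {E : A → A → Prop} {F : B → B → Prop} (h : A → B) (hc : Continuous h)
    (hh : ∀ a a', E a a' ↔ F (h a) (h a')) : BorelReducible E F := by
  refine ⟨h, ?_, hh⟩
  let _ : MeasurableSpace A := borel A
  let _ : MeasurableSpace B := borel B
  have _ : BorelSpace A := ⟨rfl⟩
  have _ : BorelSpace B := ⟨rfl⟩
  exact hc.measurable

/-- the letters -/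
theorem eventually_bit (x : ℕ → ℕ → Bool) (n i : ℕ) : ∀ᶠ x' in 𝓝 x, x' n i = x n i := by
  have h1 : Continuous (fun x : ℕ → ℕ → Bool => x n i) :=
    (continuous_apply i).comp (continuous_apply n)
  have h2 : IsOpen {b : Bool | b = x n i} := isOpen_discrete _
  exact (h2.preimage h1).mem_nhds rfl

theorem mem_sm_of {m : ℕ} {L : List (ℕ × Bool)} {a : ℕ × Bool} (h : a ∈ sm m L) : a ∈ L :=
  (mem_sm.1 h).1

/-- filter of a `flatMap` with only one relevant index -/
theorem filter_flatMap_single {p : ℕ × Bool → Bool} {f : ℕ → List (ℕ × Bool)} {n m : ℕ} (hn : n < m)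
    (h : ∀ i, i ≠ n → (f i).filter p = []) :
    ((List.range' 0 m).flatMap f).filter p = (f n).filter p := by
  have key : ∀ (s d : ℕ), ((List.range' s d).flatMap f).filter p
      = if s ≤ n ∧ n < s + d then (f n).filter p else [] := by
    intro s d
    induction d generalizing s with
    | zero =>
      rw [if_neg (by omega)]
      rfl
    | succ d ih =>
      rw [List.range'_succ, List.flatMap_cons, List.filter_append, ih (s + 1)]
      by_cases hs : s = n
      · subst hs
        rw [if_neg (by omega), if_pos (by omega), List.append_nil]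
      · rw [h s hs, List.nil_append]
        by_cases h1 : s ≤ n ∧ n < s + (d + 1)
        · rw [if_pos h1, if_pos (by omega)]
        · rw [if_neg h1, if_neg (by omega)]
  rw [key 0 m, if_pos (by omega)]

/-- filter of a `map` of a range with only one relevant index -/
theorem filter_map_single {p : ℕ × Bool → Bool} {f : ℕ → ℕ × Bool} {n m : ℕ} (hn : n < m)
    (hp : p (f n) = true) (h : ∀ i, i ≠ n → p (f i) = false) :
    ((List.range m).map f).filter p = [f n] := by
  induction m with
  | zero => omega
  | succ m ih =>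
    rw [List.range_succ, List.map_append, List.filter_append, List.map_singleton]
    rcases Nat.lt_succ_iff_lt_or_eq.1 hn with h1 | h1
    · rw [ih h1, List.filter_cons, h m (by omega)]
      simp
    · subst h1
      rw [List.filter_cons, hp]
      have : ((List.range n).map f).filter p = [] := by
        rw [List.filter_eq_nil_iff]
        intro a ha
        rw [List.mem_map] at ha
        obtain ⟨i, hi, rfl⟩ := ha
        rw [List.mem_range] at hi
        rw [h i (by omega)]
        simp
      rw [this]
      simp

end Pool.Agent.MP3fbd41
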