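import Pool.Agent.Lib.MP_3fbd41_lc.Hol

/-!
# The model of the Hawaiian earring: sequences of unit complex numbers, at most one of them not 1
-/

namespace Pool.Agent.MP3fbd41

/-- Points of the product model of the Hawaiian earring. -/
def EPt (x : ℕ → ℂ) : Prop := (∀ j, ‖x j‖ = 1) ∧ ∀ i j, x i ≠ 1 → x j ≠ 1 → i = j

open Classical in
/-- side of a point near `-1` -/
noncomputable def sd (z : ℂ) : ℤ := if z.im < 0 then 1 else 0

open Classical in
/-- signed crossing of `-1` between two points of the left half circle -/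
noncomputable def cr (z w : ℂ) : ℤ := if z.re < 0 ∧ w.re < 0 then sd w - sd z else 0

theorem cr_eq_zero_left {z w : ℂ} (h : 0 ≤ z.re) : cr z w = 0 := by
  unfold cr
  rw [if_neg]
  rintro ⟨h1, -⟩
  linarith

theorem cr_eq_zero_right {z w : ℂ} (h : 0 ≤ w.re) : cr z w = 0 := by
  unfold cr
  rw [if_neg]
  rintro ⟨-, h1⟩
  linarith

theorem cr_one_left (w : ℂ) : cr 1 w = 0 := cr_eq_zero_left (by simp)

theorem cr_one_right (w : ℂ) : cr w 1 = 0 := cr_eq_zero_right (by simp)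

theorem inner_gt {v z : ℂ} (hv : ‖v‖ = 1) (hz : ‖z‖ = 1) (h : ‖v - z‖ < 1) :
    v.re * z.re + v.im * z.im > 1 / 2 := by
  have h1 : ‖v - z‖ ^ 2 < 1 := by
    have := norm_nonneg (v - z)
    nlinarith
  have e1 : ‖v - z‖ ^ 2 = (v.re - z.re) ^ 2 + (v.im - z.im) ^ 2 := by
    rw [← Complex.normSq_eq_norm_sq, Complex.normSq_apply]
    simp
    ring
  have e2 : v.re ^ 2 + v.im ^ 2 = 1 := by
    have : ‖v‖ ^ 2 = v.re ^ 2 + v.im ^ 2 := by
      rw [← Complex.normSq_eq_norm_sq, Complex.normSq_apply]; ring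
    rw [← this, hv]; norm_num
  have e3 : z.re ^ 2 + z.im ^ 2 = 1 := by
    have : ‖z‖ ^ 2 = z.re ^ 2 + z.im ^ 2 := by
      rw [← Complex.normSq_eq_norm_sq, Complex.normSq_apply]; ring
    rw [← this, hz]; norm_num
  nlinarith

theorem planar {z w v : ℂ} (hz : ‖z‖ = 1) (hw : ‖w‖ = 1) (hv : ‖v‖ = 1)
    (h1 : ‖v - z‖ < 1) (h2 : ‖v - w‖ < 1) (hzr : z.re < 0) (hwr : w.re < 0)
    (hzi : 0 ≤ z.im) (hwi : w.im < 0) : v.re < 0 := by
  by_contra hcon
  push Not at hcon
  have a1 := inner_gt hv hz h1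
  have a2 := inner_gt hv hw h2
  have b1 : v.re * z.re ≤ 0 := by nlinarith
  have b2 : v.re * w.re ≤ 0 := by nlinarith
  have c1 : v.im * z.im > 0 := by linarith
  have c2 : v.im * w.im > 0 := by linarith
  have d1 : v.im < 0 := by
    by_contra h
    push Not at h
    nlinarith
  nlinarith

theorem sd_cases (z : ℂ) : (z.im < 0 ∧ sd z = 1) ∨ (0 ≤ z.im ∧ sd z = 0) := by
  unfold sd
  by_cases h : z.im < 0
  · left; simp [h]
  · right; simp [h]; linarith

theorem sd_eq_of {z w v : ℂ} (hz : ‖z‖ = 1) (hw : ‖w‖ = 1) (hv : ‖v‖ = 1)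
    (h1 : ‖v - z‖ < 1) (h2 : ‖v - w‖ < 1) (hzr : z.re < 0) (hwr : w.re < 0)
    (hvr : ¬ v.re < 0) : sd z = sd w := by
  rcases sd_cases z with ⟨a, b⟩ | ⟨a, b⟩ <;> rcases sd_cases w with ⟨c, d⟩ | ⟨c, d⟩
  · rw [b, d]
  · exact absurd (planar hw hz hv h2 h1 hwr hzr c a) hvr
  · exact absurd (planar hz hw hv h1 h2 hzr hwr a c) hvr
  · rw [b, d]

theorem cr_add {z w v : ℂ} (hz : ‖z‖ = 1) (hw : ‖w‖ = 1) (hv : ‖v‖ = 1)
    (h1 : ‖z - w‖ < 1) (h2 : ‖w - v‖ < 1) (h3 : ‖z - v‖ < 1) :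
    cr z w + cr w v = cr z v := by
  by_cases hzr : z.re < 0 <;> by_cases hwr : w.re < 0 <;> by_cases hvr : v.re < 0
  · unfold cr
    rw [if_pos ⟨hzr, hwr⟩, if_pos ⟨hwr, hvr⟩, if_pos ⟨hzr, hvr⟩]
    ring
  · have := sd_eq_of hz hw hv (by rw [norm_sub_rev]; exact h3) (by rw [norm_sub_rev]; exact h2)
      hzr hwr hvr
    unfold cr
    simp [hzr, hwr, hvr, this]
  · have := sd_eq_of hz hv hw (by rw [norm_sub_rev]; exact h1) h2
      hzr hvr hwr
    unfold cr
    simp [hzr, hwr, hvr, this]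
  · unfold cr
    simp [hwr, hvr]
  · have := sd_eq_of hw hv hz h1 h3 hwr hvr hzr
    unfold cr
    simp [hzr, hwr, hvr, this]
  · unfold cr
    simp [hzr, hvr]
  · unfold cr
    simp [hzr, hwr]
  · unfold cr
    simp [hzr, hwr]

theorem cr_abs (z w : ℂ) : cr z w = 0 ∨ cr z w = 1 ∨ cr z w = -1 := by
  unfold cr
  split_ifs with h
  · rcases sd_cases z with ⟨a, b⟩ | ⟨a, b⟩ <;> rcases sd_cases w with ⟨c, d⟩ | ⟨c, d⟩ <;>
      rw [b, d] <;> simp
  · simp

theorem re_neg_of_cr_ne {z w : ℂ} (h : cr z w ≠ 0) : z.re < 0 ∧ w.re < 0 := by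
  by_contra hcon
  apply h
  unfold cr
  rw [if_neg hcon]

theorem ne_one_of_re_neg {z : ℂ} (h : z.re < 0) : z ≠ 1 := by
  rintro rfl
  norm_num at h

theorem EPt.eq_one {x : ℕ → ℂ} (hx : EPt x) {i j : ℕ} (hi : x i ≠ 1) (hij : j ≠ i) : x j = 1 := by
  by_contra h
  exact hij (hx.2 j i h hi)

/-- ordered product of powers of the generators with index below `m` -/
def lp : ℕ → (ℕ → ℤ) → FreeGroup ℕ
  | 0, _ => 1
  | m + 1, a => lp m a * FreeGroup.of m ^ a m

theorem lp_single {m : ℕ} {a : ℕ → ℤ} {i : ℕ} (h : ∀ j, j < m → j ≠ i → a j = 0) :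
    lp m a = if i < m then FreeGroup.of i ^ a i else 1 := by
  induction m with
  | zero => simp [lp]
  | succ m ih =>
    have ih' := ih (fun j hj => h j (by omega))
    rw [lp, ih']
    by_cases hi : i < m
    · rw [if_pos hi, if_pos (by omega), h m (by omega) (by omega)]
      simp
    · rw [if_neg hi]
      by_cases him : i = m
      · subst him
        simp
      · rw [h m (by omega) (fun h => him h.symm), if_neg (by omega)]
        simp

theorem lp_eq_one {m : ℕ} {a : ℕ → ℤ} (h : ∀ j, j < m → a j = 0) : lp m a = 1 := by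
  rw [lp_single (i := m) (fun j hj _ => h j hj)]
  simp

theorem lp_congr {m : ℕ} {a b : ℕ → ℤ} (h : ∀ j, j < m → a j = b j) : lp m a = lp m b := by
  induction m with
  | zero => rfl
  | succ m ih =>
    rw [lp, lp, ih (fun j hj => h j (by omega)), h m (by omega)]

/-- the cocycle with values in the free group -/
noncomputable def cM (m : ℕ) (x y : ℕ → ℂ) : FreeGroup ℕ := lp m (fun j => cr (x j) (y j))

/-- nearness of points of the model, in the first `m` coordinates -/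
def near (m : ℕ) (x y : ℕ → ℂ) : Prop := EPt x ∧ EPt y ∧ ∀ j, j < m → ‖x j - y j‖ < 1

theorem isCoc (m : ℕ) : IsCoc (near m) (cM m) := by
  intro x y z hxy hyz hxz
  obtain ⟨hx, hy, h1⟩ := hxy
  obtain ⟨-, hz, h2⟩ := hyz
  obtain ⟨-, -, h3⟩ := hxz
  have hadd : ∀ j, j < m → cr (x j) (y j) + cr (y j) (z j) = cr (x j) (z j) := fun j hj =>
    cr_add (hx.1 j) (hy.1 j) (hz.1 j) (h1 j hj) (h2 j hj) (h3 j hj)
  obtain ⟨i, hi⟩ : ∃ i, ∀ j, j < m → j ≠ i → cr (x j) (y j) = 0 ∧ cr (y j) (z j) = 0 ∧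
      cr (x j) (z j) = 0 := by
    by_cases ha : ∃ i, cr (x i) (y i) ≠ 0
    · obtain ⟨i, hi⟩ := ha
      obtain ⟨r1, r2⟩ := re_neg_of_cr_ne hi
      refine ⟨i, fun j _ hj => ?_⟩
      have e1 := hx.eq_one (ne_one_of_re_neg r1) hj
      have e2 := hy.eq_one (ne_one_of_re_neg r2) hj
      rw [e1, e2]
      simp [cr_one_left]
    by_cases hb : ∃ i, cr (y i) (z i) ≠ 0
    · obtain ⟨i, hi⟩ := hb
      obtain ⟨r1, r2⟩ := re_neg_of_cr_ne hi
      refine ⟨i, fun j _ hj => ?_⟩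
      have e1 := hy.eq_one (ne_one_of_re_neg r1) hj
      have e2 := hz.eq_one (ne_one_of_re_neg r2) hj
      rw [e1, e2]
      simp [cr_one_left, cr_one_right]
    by_cases hc : ∃ i, cr (x i) (z i) ≠ 0
    · obtain ⟨i, hi⟩ := hc
      obtain ⟨r1, r2⟩ := re_neg_of_cr_ne hi
      refine ⟨i, fun j _ hj => ?_⟩
      have e1 := hx.eq_one (ne_one_of_re_neg r1) hj
      have e2 := hz.eq_one (ne_one_of_re_neg r2) hj
      rw [e1, e2]
      simp [cr_one_left, cr_one_right]
    · push Not at ha hb hc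
      exact ⟨0, fun j _ _ => ⟨ha j, hb j, hc j⟩⟩
  unfold cM
  rw [lp_single (fun j hj hji => (hi j hj hji).1), lp_single (fun j hj hji => (hi j hj hji).2.1),
    lp_single (fun j hj hji => (hi j hj hji).2.2)]
  by_cases him : i < m
  · rw [if_pos him, if_pos him, if_pos him, ← zpow_add, hadd i him]
  · simp [him]

/-- Paths in the model. -/
structure EPath (F : ℝ → ℕ → ℂ) : Prop where
  pt : ∀ t, EPt (F t)
  uc : ∀ j, UniformContinuous (fun t => F t j)

theorem EPath.exists_delta {F : ℝ → ℕ → ℂ} (hF : EPath F) (m : ℕ) {ε : ℝ} (hε : 0 < ε) :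
    ∃ δ, 0 < δ ∧ ∀ s t, |s - t| ≤ δ → ∀ j, j < m → ‖F s j - F t j‖ < ε := by
  induction m with
  | zero => exact ⟨1, one_pos, fun s t _ j hj => absurd hj (by omega)⟩
  | succ m ih =>
    obtain ⟨δ, hδ, h⟩ := ih
    obtain ⟨δ', hδ', h'⟩ := Metric.uniformContinuous_iff.1 (hF.uc m) ε hε
    refine ⟨min δ (δ' / 2), lt_min hδ (by linarith), fun s t hst j hj => ?_⟩
    rcases Nat.lt_succ_iff_lt_or_eq.1 hj with hj | rfl
    · exact h s t (hst.trans (min_le_left _ _)) j hj
    · have := h' (a := s) (b := t) (by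
        rw [Real.dist_eq]
        have := hst.trans (min_le_right _ _)
        linarith)
      rwa [dist_eq_norm] at this

theorem EPath.exists_fine {F : ℝ → ℕ → ℂ} (hF : EPath F) (m : ℕ) :
    ∃ δ, 0 < δ ∧ Fine (near m) F (2 * δ) := by
  obtain ⟨δ, hδ, h⟩ := hF.exists_delta m one_pos
  refine ⟨δ / 2, by linarith, fun s t _ _ hst => ⟨hF.pt s, hF.pt t, ?_⟩⟩
  exact h s t (by linarith)

theorem EPath.exists_prim {F : ℝ → ℕ → ℂ} (hF : EPath F) (m : ℕ) :
    ∃ g : ℝ → FreeGroup ℕ, ∃ δ, 0 < δ ∧ Prim (cM m) F g δ := by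
  obtain ⟨δ, hδ, h⟩ := hF.exists_fine m
  obtain ⟨g, -, hg⟩ := MP3fbd41.exists_prim (isCoc m) hδ h
  exact ⟨g, δ, hδ, hg⟩

/-- the homomorphism erasing the generators which do not satisfy `p` -/
def er (p : ℕ → Prop) [DecidablePred p] : FreeGroup ℕ →* FreeGroup ℕ :=
  FreeGroup.lift (fun j => if p j then FreeGroup.of j else 1)

theorem er_of (p : ℕ → Prop) [DecidablePred p] (j : ℕ) :
    er p (FreeGroup.of j) = if p j then FreeGroup.of j else 1 := by
  simp [er]

theorem er_lp (p : ℕ → Prop) [DecidablePred p] (m : ℕ) (a : ℕ → ℤ) :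
    er p (lp m a) = lp m (fun j => if p j then a j else 0) := by
  induction m with
  | zero => simp [lp]
  | succ m ih =>
    rw [lp, map_mul, ih, lp, map_zpow, er_of]
    by_cases h : p m <;> simp [h]

theorem er_lt_lp {m m' : ℕ} (h : m ≤ m') (a : ℕ → ℤ) :
    er (· < m) (lp m' a) = lp m a := by
  rw [er_lp]
  induction m', h using Nat.le_induction with
  | base => exact lp_congr (fun j hj => by simp [hj])
  | succ n hn ih =>
    rw [lp, ih]
    simp [show ¬ n < m by omega]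

theorem er_cM {m m' : ℕ} (h : m ≤ m') (x y : ℕ → ℂ) : er (· < m) (cM m' x y) = cM m x y :=
  er_lt_lp h _

/-- the `m`-th holonomy of a path in the model -/
noncomputable def hm (F : ℝ → ℕ → ℂ) (s t : ℝ) (m : ℕ) : FreeGroup ℕ := hol (cM m) F s t

theorem hm_er {F : ℝ → ℕ → ℂ} (hF : EPath F) {s t : ℝ} (hs : 0 ≤ s) (ht : 0 ≤ t) {m m' : ℕ}
    (h : m ≤ m') : er (· < m) (hm F s t m') = hm F s t m :=
  map_hol _ (hF.exists_prim m') (fun _ _ _ _ => er_cM h _ _) hs ht

theorem hm_mul {F : ℝ → ℕ → ℂ} (hF : EPath F) {s t u : ℝ} (hs : 0 ≤ s) (ht : 0 ≤ t) (hu : 0 ≤ u)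
    (m : ℕ) : hm F s t m * hm F t u m = hm F s u m :=
  hol_mul (hF.exists_prim m) hs ht hu

theorem hm_of_near {F : ℝ → ℕ → ℂ} (hF : EPath F) {m : ℕ} {a b : ℝ} (ha : 0 ≤ a)
    (hab : a ≤ b)
    (hn : ∀ u v, a ≤ u → u ≤ b → a ≤ v → v ≤ b → ∀ j, j < m → ‖F u j - F v j‖ < 1) :
    hm F a b m = cM m (F a) (F b) :=
  hol_of_near (isCoc m) (hF.exists_prim m) ha hab
    (fun u v h1 h2 h3 h4 => ⟨hF.pt u, hF.pt v, hn u v h1 h2 h3 h4⟩)

/-- if `φ` fixes all the local contributions, it fixes the holonomy -/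
theorem hm_fix {F : ℝ → ℕ → ℂ} (hF : EPath F) {m : ℕ} {a b : ℝ} (ha : 0 ≤ a)
    (hab : a ≤ b) (φ : FreeGroup ℕ →* FreeGroup ℕ)
    (hφ : ∀ u v, a ≤ u → u ≤ b → a ≤ v → v ≤ b → φ (cM m (F u) (F v)) = cM m (F u) (F v)) :
    φ (hm F a b m) = hm F a b m := by
  obtain ⟨g, δ, hδ, h⟩ := hF.exists_prim m
  unfold hm
  rw [hol_eq hδ h ha (ha.trans hab)]
  have key := const_of_step (k := fun t => φ (g t) * (g t)⁻¹) (δ := δ) (a := a) (b := b)
    hδ (by
      intro s t hs hs' ht ht' hst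
      have e1 := h s t (ha.trans hs) (ha.trans ht) hst
      show φ (g s) * (g s)⁻¹ = φ (g t) * (g t)⁻¹
      rw [e1, map_mul, hφ s t hs hs' ht ht']
      group) hab le_rfl
  have key' : φ (g b) * (g b)⁻¹ = φ (g a) * (g a)⁻¹ := key
  have e : φ (g b) = φ (g a) * (g a)⁻¹ * g b := by
    rw [← key']; group
  rw [map_mul, map_inv, e]
  group

/-- number of letters `j` in the reduced word -/
def cnt (j : ℕ) (g : FreeGroup ℕ) : ℕ := (FreeGroup.toWord g).countP (fun x => x.1 = j)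

theorem cnt_mul_le (j : ℕ) (g h : FreeGroup ℕ) : cnt j (g * h) ≤ cnt j g + cnt j h := by
  unfold cnt
  rw [FreeGroup.toWord_mul, ← List.countP_append]
  exact (FreeGroup.Red.sublist FreeGroup.reduce.red).countP_le

theorem cnt_one (j : ℕ) : cnt j 1 = 0 := by simp [cnt]

theorem cnt_of_zpow (i j : ℕ) {a : ℤ} (ha : a = 0 ∨ a = 1 ∨ a = -1) :
    cnt j (FreeGroup.of i ^ a) ≤ 1 := by
  rcases ha with rfl | rfl | rfl
  · simp [cnt]
  · unfold cnt
    rw [zpow_one, FreeGroup.toWord_of]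
    exact List.countP_le_length
  · unfold cnt
    rw [zpow_neg, zpow_one, FreeGroup.toWord_inv, FreeGroup.toWord_of]
    exact List.countP_le_length

theorem er_mk (p : ℕ → Prop) [DecidablePred p] (L : List (ℕ × Bool)) :
    er p (FreeGroup.mk L) = FreeGroup.mk (L.filter (fun x => p x.1)) := by
  induction L with
  | nil => simp [FreeGroup.one_eq_mk.symm]
  | cons x L ih =>
    obtain ⟨i, b⟩ := x
    have e1 : FreeGroup.mk ((i, b) :: L) = FreeGroup.mk [(i, b)] * FreeGroup.mk L := by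
      rw [FreeGroup.mul_mk]; rfl
    rw [e1, map_mul, ih]
    by_cases h : p i
    · have e2 : er p (FreeGroup.mk [(i, b)]) = FreeGroup.mk [(i, b)] := by
        simp only [er, FreeGroup.lift_mk]
        cases b <;> simp [h, FreeGroup.of, FreeGroup.invRev]
      rw [e2, FreeGroup.mul_mk]
      simp [h]
    · have e2 : er p (FreeGroup.mk [(i, b)]) = 1 := by
        simp only [er, FreeGroup.lift_mk]
        cases b <;> simp [h]
      rw [e2]
      simp [h]

theorem cnt_eq_zero_of_er {j : ℕ} {g : FreeGroup ℕ} (h : er (· ≠ j) g = g) : cnt j g = 0 := by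
  unfold cnt
  have e1 : FreeGroup.toWord g = FreeGroup.reduce ((FreeGroup.toWord g).filter (fun x => x.1 ≠ j)) := by
    conv_lhs => rw [← h, ← FreeGroup.mk_toWord (x := g), er_mk, FreeGroup.toWord_mk]
  rw [e1]
  have h2 := (FreeGroup.Red.sublist (FreeGroup.reduce.red
    (L := (FreeGroup.toWord g).filter (fun x => x.1 ≠ j)))).countP_le (p := fun x => decide (x.1 = j))
  have h3 : ((FreeGroup.toWord g).filter (fun x => x.1 ≠ j)).countP (fun x => decide (x.1 = j)) = 0 := by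
    rw [List.countP_eq_zero]
    intro x hx
    rw [List.mem_filter] at hx
    simpa using hx.2
  omega

theorem cnt_small {F : ℝ → ℕ → ℂ} (hF : EPath F) {j : ℕ} {δ : ℝ}
    (hδ : ∀ s t, |s - t| ≤ δ → ‖F s j - F t j‖ < 1 / 2) (m : ℕ) {s t : ℝ} (hs : 0 ≤ s)
    (hst : s ≤ t) (hd : t - s ≤ δ) : cnt j (hm F s t m) ≤ 1 := by
  by_cases hre : ∃ u, s ≤ u ∧ u ≤ t ∧ (F u j).re < 0
  · obtain ⟨u, hu1, hu2, hur⟩ := hre
    have hne : ∀ v, s ≤ v → v ≤ t → F v j ≠ 1 := by
      intro v hv1 hv2 h1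
      have := hδ v u (by rw [abs_le]; constructor <;> linarith)
      rw [h1] at this
      have h2 : |(1 - F u j).re| ≤ ‖1 - F u j‖ := Complex.abs_re_le_norm _
      simp only [Complex.sub_re, Complex.one_re] at h2
      rw [abs_of_pos (by linarith)] at h2
      linarith
    have hone : ∀ v, s ≤ v → v ≤ t → ∀ i, i ≠ j → F v i = 1 := fun v h1 h2 i hij =>
      (hF.pt v).eq_one (hne v h1 h2) hij
    rw [hm_of_near hF hs hst]
    · unfold cM
      rw [lp_single (i := j)]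
      · split_ifs
        · exact cnt_of_zpow _ _ (cr_abs _ _)
        · rw [cnt_one]; omega
      · intro i _ hij
        rw [hone s le_rfl hst i hij, cr_one_left]
    · intro a b ha1 ha2 hb1 hb2 i _
      by_cases hij : i = j
      · subst hij
        have := hδ a b (by rw [abs_le]; constructor <;> linarith)
        linarith
      · rw [hone a ha1 ha2 i hij, hone b hb1 hb2 i hij]
        simp
  · push Not at hre
    have := hm_fix hF (m := m) hs hst (er (· ≠ j)) (by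
      intro u v hu1 hu2 hv1 hv2
      unfold cM
      rw [er_lp]
      apply lp_congr
      intro i hi
      by_cases hij : i = j
      · subst hij
        simp [cr_eq_zero_left (hre u hu1 hu2)]
      · simp [hij])
    rw [cnt_eq_zero_of_er this]
    omega

/-- bounded letter counts -/
theorem cnt_bound {F : ℝ → ℕ → ℂ} (hF : EPath F) (j : ℕ) :
    ∃ K : ℕ, ∀ m s t, 0 ≤ s → s ≤ t → t ≤ 1 → cnt j (hm F s t m) ≤ K := by
  obtain ⟨δ, hδ, h⟩ := hF.exists_delta (j + 1) (ε := 1 / 2) (by norm_num)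
  have h' : ∀ s t, |s - t| ≤ δ → ‖F s j - F t j‖ < 1 / 2 := fun s t hst => h s t hst j (by omega)
  have key : ∀ n : ℕ, ∀ m s t, 0 ≤ s → s ≤ t → t - s ≤ n * δ → cnt j (hm F s t m) ≤ n := by
    intro n
    induction n with
    | zero =>
      intro m s t hs hst hd
      have : t = s := by
        simp at hd
        linarith
      subst this
      rw [hm, hol_self, cnt_one]
    | succ n ih =>
      intro m s t hs hst hd
      by_cases hsmall : t - s ≤ δ
      · have := cnt_small hF h' m hs hst hsmall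
        omega
      · push Not at hsmall
        have h1 := ih m s (t - δ) hs (by linarith) (by push_cast at hd; linarith)
        have h2 := cnt_small hF h' m (s := t - δ) (t := t) (by linarith) (by linarith) (by linarith)
        rw [← hm_mul hF hs (show (0:ℝ) ≤ t - δ by linarith) (hs.trans hst) m]
        exact (cnt_mul_le _ _ _).trans (by omega)
  obtain ⟨n, hn⟩ := exists_nat_ge (1 / δ)
  refine ⟨n, fun m s t hs hst ht => key n m s t hs hst ?_⟩
  rw [div_le_iff₀ hδ] at hn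
  linarith

end Pool.Agent.MP3fbd41
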