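import Pool.Agent.Lib.MP_3fbd41_lc.Loops
import Pool.Agent.Lib.MP_3fbd41_lc.Defs

/-!
# Unions of circles through the origin with real centres tending to `0`
-/

namespace Pool.Agent.MP3fbd41

open Filter Topology unitInterval

/-- the real part of the inverse -/
noncomputable def xx (z : ℂ) : ℝ := (z⁻¹).re

theorem xx_eq (z : ℂ) : xx z = z.re / (z.re ^ 2 + z.im ^ 2) := by
  unfold xx
  rw [Complex.inv_re, Complex.normSq_apply]
  congr 1
  ring

theorem normSq_pos' {z : ℂ} (h : z ≠ 0) : 0 < z.re ^ 2 + z.im ^ 2 := by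
  have := Complex.normSq_pos.2 h
  rw [Complex.normSq_apply] at this
  nlinarith

theorem norm_sub_real_sq (z : ℂ) (a : ℝ) :
    ‖z - a‖ ^ 2 = z.re ^ 2 + z.im ^ 2 - 2 * a * z.re + a ^ 2 := by
  rw [← Complex.normSq_eq_norm_sq, Complex.normSq_apply]
  simp
  ring

theorem norm_sq' (z : ℂ) : ‖z‖ ^ 2 = z.re ^ 2 + z.im ^ 2 := by
  rw [← Complex.normSq_eq_norm_sq, Complex.normSq_apply]
  ring

theorem circ_iff (z : ℂ) (a : ℝ) :
    ‖z - a‖ = |a| ↔ z.re ^ 2 + z.im ^ 2 = 2 * a * z.re := by
  rw [← sq_eq_sq₀ (norm_nonneg _) (abs_nonneg _), norm_sub_real_sq, sq_abs]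
  constructor <;> intro h <;> linarith

theorem disk_iff (z : ℂ) {a : ℝ} (ha : 0 < a) :
    ‖z - a‖ ≤ a ↔ z.re ^ 2 + z.im ^ 2 ≤ 2 * a * z.re := by
  rw [← sq_le_sq₀ (norm_nonneg _) ha.le, norm_sub_real_sq]
  constructor <;> intro h <;> linarith

theorem disk_iff_xx {z : ℂ} (hz : z ≠ 0) {a : ℝ} (ha : 0 < a) :
    ‖z - a‖ ≤ a ↔ 1 / (2 * a) ≤ xx z := by
  rw [disk_iff z ha, xx_eq, div_le_div_iff₀ (by linarith) (normSq_pos' hz)]
  constructor <;> intro h <;> linarith

theorem circ_iff_xx {z : ℂ} (hz : z ≠ 0) {a : ℝ} (ha : a ≠ 0) :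
    ‖z - a‖ = |a| ↔ xx z = 1 / (2 * a) := by
  have h1 := normSq_pos' hz
  have h2 : (2 * a) ≠ 0 := by simpa using ha
  rw [circ_iff, xx_eq, div_eq_div_iff h1.ne' h2]
  constructor <;> intro h <;> linarith

theorem continuousAt_xx {z : ℂ} (hz : z ≠ 0) : ContinuousAt xx z := by
  have h1 : ContinuousAt (fun z : ℂ => z⁻¹) z := continuousAt_inv₀ hz
  exact Complex.continuous_re.continuousAt.comp h1

/-- Admissible sequences of centres. -/
structure Cen (om : ℕ → ℝ) : Prop where
  ne : ∀ j, om j ≠ 0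
  inj : Function.Injective om
  tend : Tendsto om atTop (𝓝 0)

/-- the union of the circles -/
def Sw (om : ℕ → ℝ) : Set ℂ := {z | ∃ j, ‖z - om j‖ = |om j|}

open Classical in
/-- the coordinates -/
noncomputable def rw' (om : ℕ → ℝ) (z : ℂ) : ℕ → ℂ := fun j =>
  if ‖z - om j‖ = |om j| then 1 - z / om j else 1

theorem Cen.disj {om : ℕ → ℝ} (h : Cen om) {z : ℂ} (hz : z ≠ 0) {i j : ℕ}
    (hi : ‖z - om i‖ = |om i|) (hj : ‖z - om j‖ = |om j|) : i = j := by
  rw [circ_iff_xx hz (h.ne i)] at hi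
  rw [circ_iff_xx hz (h.ne j)] at hj
  rw [hi] at hj
  have h1 : 2 * om i ≠ 0 := by simpa using h.ne i
  have h2 : 2 * om j ≠ 0 := by simpa using h.ne j
  rw [div_eq_div_iff h1 h2] at hj
  exact h.inj (by linarith)

theorem rw_zero (om : ℕ → ℝ) (j : ℕ) : rw' om 0 j = 1 := by
  unfold rw'
  split_ifs <;> simp

theorem norm_rw {om : ℕ → ℝ} (h : Cen om) (z : ℂ) (j : ℕ) : ‖rw' om z j‖ = 1 := by
  unfold rw'
  split_ifs with hz
  · have h1 : (om j : ℂ) ≠ 0 := by exact_mod_cast h.ne j
    have : 1 - z / om j = (om j - z) / om j := by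
      field_simp
    rw [this, norm_div, norm_sub_rev, hz, Complex.norm_real, Real.norm_eq_abs, div_self]
    exact abs_ne_zero.2 (h.ne j)
  · simp

theorem ept_rw {om : ℕ → ℝ} (h : Cen om) (z : ℂ) : EPt (rw' om z) := by
  refine ⟨norm_rw h z, fun i j hi hj => ?_⟩
  by_cases hz : z = 0
  · subst hz
    exact absurd (rw_zero om i) hi
  · refine h.disj hz ?_ ?_
    · by_contra hcon
      apply hi
      unfold rw'
      rw [if_neg hcon]
    · by_contra hcon
      apply hj
      unfold rw'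
      rw [if_neg hcon]

/-- the coordinates as a map to `EM` -/
noncomputable def re' {om : ℕ → ℝ} (h : Cen om) (z : ℂ) : EM := ⟨rw' om z, ept_rw h z⟩

theorem isClosed_circ (a : ℝ) : IsClosed {z : ℂ | ‖z - a‖ = |a|} :=
  isClosed_eq (by fun_prop) continuous_const

theorem norm_le_of_circ {z : ℂ} {a : ℝ} (h : ‖z - a‖ = |a|) : ‖z‖ ≤ 2 * |a| := by
  have h1 : ‖z‖ ≤ ‖z - a‖ + ‖(a : ℂ)‖ := by
    have := norm_add_le (z - a) (a : ℂ)
    simpa using this
  rw [h, Complex.norm_real, Real.norm_eq_abs] at h1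
  linarith

theorem Cen.eventually_circ {om : ℕ → ℝ} (h : Cen om) {z : ℂ} (hz : z ≠ 0) {j : ℕ}
    (hj : ‖z - om j‖ = |om j|) : ∀ᶠ y : ℂ in 𝓝 z, y ∈ Sw om → ‖y - om j‖ = |om j| := by
  have hz' : 0 < ‖z‖ := norm_pos_iff.2 hz
  have h1 : ∀ᶠ i in atTop, |om i| < ‖z‖ / 4 := by
    have := h.tend.abs
    rw [abs_zero] at this
    exact this.eventually_lt_const (by linarith)
  obtain ⟨N, hN⟩ := eventually_atTop.1 h1
  have h2 : ∀ᶠ y : ℂ in 𝓝 z, ∀ i ∈ Finset.range N, i ≠ j → ¬ ‖y - om i‖ = |om i| := by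
    rw [Filter.eventually_all_finset]
    intro i _
    by_cases hij : i = j
    · exact Eventually.of_forall (fun y h => absurd hij h)
    · have : {y : ℂ | ‖y - om i‖ = |om i|}ᶜ ∈ 𝓝 z :=
        (isClosed_circ (om i)).isOpen_compl.mem_nhds (fun hi => hij (h.disj hz hi hj))
      filter_upwards [this] with y hy _
      exact hy
  have h3 : ∀ᶠ y : ℂ in 𝓝 z, ‖z‖ / 2 < ‖y‖ :=
    continuous_norm.continuousAt.eventually_const_lt (by linarith)
  filter_upwards [h2, h3] with y hy1 hy2 hyS
  obtain ⟨i, hi⟩ := hyS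
  by_cases hij : i = j
  · rw [← hij]; exact hi
  · exfalso
    by_cases hiN : i < N
    · exact hy1 i (Finset.mem_range.2 hiN) hij hi
    · have := hN i (by omega)
      have := norm_le_of_circ hi
      linarith

theorem continuousOn_rw {om : ℕ → ℝ} (h : Cen om) (j : ℕ) :
    ContinuousOn (fun z => rw' om z j) (Sw om) := by
  intro z _
  by_cases hz : z = 0
  · subst hz
    rw [ContinuousWithinAt, rw_zero]
    rw [tendsto_iff_norm_sub_tendsto_zero]
    have h1 : Tendsto (fun z : ℂ => ‖z‖ / |om j|) (𝓝[Sw om] 0) (𝓝 0) := by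
      have : Tendsto (fun z : ℂ => ‖z‖ / |om j|) (𝓝 0) (𝓝 (‖(0:ℂ)‖ / |om j|)) :=
        (continuous_norm.div_const _).continuousAt
      rw [norm_zero, zero_div] at this
      exact this.mono_left nhdsWithin_le_nhds
    refine squeeze_zero (fun _ => norm_nonneg _) (fun z => ?_) h1
    unfold rw'
    split_ifs
    · rw [show 1 - z / (om j : ℂ) - 1 = - (z / om j) by ring, norm_neg, norm_div,
        Complex.norm_real, Real.norm_eq_abs]
    · rw [sub_self, norm_zero]
      positivity
  · by_cases hj : ‖z - om j‖ = |om j|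
    · have h1 : ContinuousWithinAt (fun z : ℂ => 1 - z / om j) (Sw om) z := by
        apply Continuous.continuousWithinAt
        fun_prop
      refine h1.congr_of_eventuallyEq ?_ ?_
      · filter_upwards [nhdsWithin_le_nhds (h.eventually_circ hz hj), self_mem_nhdsWithin] with y hy hyS
        unfold rw'
        rw [if_pos (hy hyS)]
      · show rw' om z j = _
        unfold rw'
        rw [if_pos hj]
    · have h1 : ContinuousWithinAt (fun _ : ℂ => (1:ℂ)) (Sw om) z := continuousWithinAt_const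
      refine h1.congr_of_eventuallyEq ?_ ?_
      · have : {y : ℂ | ‖y - om j‖ = |om j|}ᶜ ∈ 𝓝 z :=
          (isClosed_circ (om j)).isOpen_compl.mem_nhds hj
        filter_upwards [nhdsWithin_le_nhds this] with y hy
        unfold rw'
        exact if_neg hy
      · show rw' om z j = _
        unfold rw'
        rw [if_neg hj]

theorem continuousOn_re {om : ℕ → ℝ} (h : Cen om) : ContinuousOn (re' h) (Sw om) := by
  rw [continuousOn_iff_continuous_domRestrict, continuous_em_iff]
  intro j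
  exact continuousOn_iff_continuous_domRestrict.1 (continuousOn_rw h j)

open Classical in
/-- the section -/
noncomputable def sw (om : ℕ → ℝ) (x : EM) : ℂ :=
  if h : ∃ j, x.1 j ≠ 1 then om h.choose * (1 - x.1 h.choose) else 0

theorem sw_of {om : ℕ → ℝ} {x : EM} {j : ℕ} (h : x.1 j ≠ 1) : sw om x = om j * (1 - x.1 j) := by
  have hex : ∃ j, x.1 j ≠ 1 := ⟨j, h⟩
  unfold sw
  rw [dif_pos hex, x.2.2 _ _ hex.choose_spec h]

theorem sw_base {om : ℕ → ℝ} {x : EM} (h : ∀ j, x.1 j = 1) : sw om x = 0 := by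
  unfold sw
  rw [dif_neg]
  rintro ⟨j, hj⟩
  exact hj (h j)

theorem sw_eb (om : ℕ → ℝ) : sw om eb = 0 := sw_base (fun _ => rfl)

theorem continuous_sw {om : ℕ → ℝ} (h : Cen om) : Continuous (sw om) := by
  rw [continuous_iff_continuousAt]
  intro x
  by_cases hx : ∃ j, x.1 j ≠ 1
  · obtain ⟨j, hj⟩ := hx
    have h1 : ContinuousAt (fun y : EM => (om j : ℂ) * (1 - y.1 j)) x :=
      (continuous_const.mul (continuous_const.sub (continuous_coord j))).continuousAt
    refine h1.congr ?_
    have h2 : {y : EM | y.1 j ≠ 1} ∈ 𝓝 x :=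
      (isOpen_ne.preimage (continuous_coord j)).mem_nhds hj
    filter_upwards [h2] with y hy
    exact (sw_of hy).symm
  · push Not at hx
    rw [ContinuousAt, sw_base hx, Metric.tendsto_nhds]
    intro ε hε
    have h1 : ∀ᶠ i in atTop, |om i| < ε / 2 := by
      have := h.tend.abs
      rw [abs_zero] at this
      exact this.eventually_lt_const (by linarith)
    obtain ⟨N, hN⟩ := eventually_atTop.1 h1
    have h2 : ∀ᶠ y : EM in 𝓝 x, ∀ i ∈ Finset.range N, |om i| * ‖1 - y.1 i‖ < ε := by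
      rw [Filter.eventually_all_finset]
      intro i _
      have h3 : ContinuousAt (fun y : EM => |om i| * ‖1 - y.1 i‖) x :=
        (continuous_const.mul (continuous_const.sub (continuous_coord i)).norm).continuousAt
      apply h3.eventually_lt_const
      show |om i| * ‖1 - x.1 i‖ < ε
      rw [hx i]
      simpa using hε
    filter_upwards [h2] with y hy
    rw [dist_zero_right]
    by_cases hy' : ∃ j, y.1 j ≠ 1
    · obtain ⟨j, hj⟩ := hy'
      rw [sw_of hj, norm_mul, Complex.norm_real, Real.norm_eq_abs]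
      by_cases hjN : j < N
      · exact hy j (Finset.mem_range.2 hjN)
      · have h4 := hN j (by omega)
        have h5 : ‖1 - y.1 j‖ ≤ 2 := by
          have := norm_sub_le (1:ℂ) (y.1 j)
          rw [y.2.1 j, norm_one] at this
          linarith
        have := norm_nonneg (1 - y.1 j)
        have := abs_nonneg (om j)
        nlinarith
    · push Not at hy'
      rw [sw_base hy', norm_zero]
      exact hε

theorem sw_circ {om : ℕ → ℝ} (x : EM) (j : ℕ) :
    ‖(om j * (1 - x.1 j) : ℂ) - om j‖ = |om j| := by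
  rw [show (om j * (1 - x.1 j) : ℂ) - om j = - (om j * x.1 j) by ring, norm_neg, norm_mul,
    x.2.1 j, mul_one, Complex.norm_real, Real.norm_eq_abs]

theorem sw_mem {om : ℕ → ℝ} (x : EM) : sw om x ∈ Sw om := by
  by_cases hx : ∃ j, x.1 j ≠ 1
  · obtain ⟨j, hj⟩ := hx
    rw [sw_of hj]
    exact ⟨j, sw_circ x j⟩
  · push Not at hx
    rw [sw_base hx]
    exact ⟨0, by simp⟩

theorem sw_re {om : ℕ → ℝ} (h : Cen om) {z : ℂ} (hz : z ∈ Sw om) : sw om (re' h z) = z := by
  obtain ⟨j, hj⟩ := hz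
  by_cases hz0 : z = 0
  · subst hz0
    exact sw_base (fun i => rw_zero om i)
  · have hne : (om j : ℂ) ≠ 0 := by exact_mod_cast h.ne j
    have e : (re' h z).1 j = 1 - z / om j := by
      show rw' om z j = _
      unfold rw'
      rw [if_pos hj]
    have h1 : (re' h z).1 j ≠ 1 := by
      rw [e]
      intro hcon
      have h2 : z / (om j : ℂ) = 0 := by linear_combination -hcon
      rcases div_eq_zero_iff.1 h2 with h3 | h3
      · exact hz0 h3
      · exact hne h3
    rw [sw_of h1, e]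
    field_simp
    ring

theorem re_sw {om : ℕ → ℝ} (h : Cen om) (x : EM) : re' h (sw om x) = x := by
  by_cases hx : ∃ j, x.1 j ≠ 1
  · obtain ⟨j, hj⟩ := hx
    have hne : (om j : ℂ) ≠ 0 := by exact_mod_cast h.ne j
    rw [sw_of hj, EM.ext_iff']
    intro i
    show rw' om _ i = _
    by_cases hij : i = j
    · subst hij
      unfold rw'
      rw [if_pos (sw_circ x i)]
      field_simp
      ring
    · have hz : (om j * (1 - x.1 j) : ℂ) ≠ 0 := by
        apply mul_ne_zero hne
        intro hcon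
        apply hj
        linear_combination -hcon
      unfold rw'
      rw [if_neg (fun hc => hij (h.disj hz hc (sw_circ x j))), x.2.eq_one hj hij]
  · push Not at hx
    rw [sw_base hx, EM.ext_iff']
    intro i
    rw [hx i]
    exact rw_zero om i

end Pool.Agent.MP3fbd41
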