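import Pool.Agent.Lib.MP_3fbd41_lc.Earring
import Pool.Agent.Lib.MP_3fbd41_lc.Kappa
import Pool.Agent.Lib.MP_3fbd41_lc.Arch

/-!
# Geometry of the Griffiths space
-/

namespace Pool.Agent.MP3fbd41

open Filter Topology unitInterval

/-- centres of the circles of the two earrings -/
noncomputable def omg (j : ℕ) : ℝ := if j % 2 = 0 then omh (j / 2) else - omh (j / 2)

theorem omg_even {j : ℕ} (h : j % 2 = 0) : omg j = omh (j / 2) := by
  unfold omg
  rw [if_pos h]

theorem omg_odd {j : ℕ} (h : ¬ j % 2 = 0) : omg j = - omh (j / 2) := by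
  unfold omg
  rw [if_neg h]

theorem abs_omg (j : ℕ) : |omg j| = omh (j / 2) := by
  unfold omg
  split_ifs
  · exact abs_of_pos (omh_pos _)
  · rw [abs_neg]; exact abs_of_pos (omh_pos _)

theorem cen_omg : Cen omg := by
  refine ⟨fun j => ?_, ?_, ?_⟩
  · have := abs_omg j
    have h2 := omh_pos (j / 2)
    intro h
    rw [h, abs_zero] at this
    linarith
  · intro i j h
    by_cases hi : i % 2 = 0 <;> by_cases hj : j % 2 = 0
    · rw [omg_even hi, omg_even hj] at h
      have := cen_omh.inj h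
      omega
    · rw [omg_even hi, omg_odd hj] at h
      have h1 := omh_pos (i / 2)
      have h2 := omh_pos (j / 2)
      linarith
    · rw [omg_odd hi, omg_even hj] at h
      have h1 := omh_pos (i / 2)
      have h2 := omh_pos (j / 2)
      linarith
    · rw [omg_odd hi, omg_odd hj] at h
      have := cen_omh.inj (neg_injective h)
      omega
  · rw [tendsto_zero_iff_abs_tendsto_zero]
    have h1 : Tendsto (fun j : ℕ => omh (j / 2)) atTop (𝓝 0) := by
      refine cen_omh.tend.comp ?_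
      rw [tendsto_atTop]
      intro b
      filter_upwards [eventually_ge_atTop (2 * b)] with n hn
      omega
    refine h1.congr (fun j => ?_)
    exact (abs_omg j).symm

theorem mem_earring {z : ℂ} : z ∈ earring ↔ ∃ i : ℕ, ‖z - omh i‖ = omh i := by
  constructor
  · rintro ⟨n, hn, h⟩
    obtain ⟨i, rfl⟩ : ∃ i, n = i + 1 := ⟨n - 1, by omega⟩
    refine ⟨i, ?_⟩
    unfold omh
    push_cast at h ⊢
    exact h
  · rintro ⟨i, h⟩
    refine ⟨i + 1, by omega, ?_⟩
    unfold omh at h
    push_cast at h ⊢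
    exact h

/-- compatibility of a point of `EM` with a height -/
def cp (x : EM) (s : ℝ) : Prop :=
  |s| ≤ 1 ∧ (0 < s → ∀ j, j % 2 ≠ 0 → x.1 j = 1) ∧ (s < 0 → ∀ j, j % 2 = 0 → x.1 j = 1)

/-- parametrisation of the Griffiths space -/
noncomputable def Th (x : EM) (s : ℝ) : ℂ × ℝ := (((1 - |s| : ℝ) : ℂ) * sw omg x, s)

theorem sw_omg_even {x : EM} (h : ∀ j, j % 2 ≠ 0 → x.1 j = 1) : sw omg x ∈ earring := by
  rw [mem_earring]
  by_cases hx : ∃ j, x.1 j ≠ 1
  · obtain ⟨j, hj⟩ := hx
    have he : j % 2 = 0 := by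
      by_contra hcon
      exact hj (h j hcon)
    refine ⟨j / 2, ?_⟩
    rw [sw_of hj, ← omg_even he]
    rw [sw_circ]
    rw [omg_even he]
    exact abs_of_pos (omh_pos _)
  · push Not at hx
    rw [sw_base hx]
    exact ⟨0, by simp [abs_of_pos (omh_pos 0)]⟩

theorem sw_omg_odd {x : EM} (h : ∀ j, j % 2 = 0 → x.1 j = 1) : - sw omg x ∈ earring := by
  rw [mem_earring]
  by_cases hx : ∃ j, x.1 j ≠ 1
  · obtain ⟨j, hj⟩ := hx
    have he : ¬ j % 2 = 0 := by
      intro hcon
      exact hj (h j hcon)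
    refine ⟨j / 2, ?_⟩
    rw [sw_of hj]
    have e : (-(omg j * (1 - x.1 j)) - omh (j / 2) : ℂ) = -((omg j * (1 - x.1 j) : ℂ) - omg j) := by
      rw [omg_odd he]
      push_cast
      ring
    rw [e, norm_neg, sw_circ, abs_omg]
  · push Not at hx
    rw [sw_base hx]
    exact ⟨0, by simp [abs_of_pos (omh_pos 0)]⟩

theorem re_omg_even {z : ℂ} (h : z ∈ earring) : z ∈ Sw omg ∧ ∀ j, j % 2 ≠ 0 → rw' omg z j = 1 := by
  rw [mem_earring] at h
  obtain ⟨i, hi⟩ := h
  have h1 : ‖z - omg (2 * i)‖ = |omg (2 * i)| := by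
    rw [abs_omg, omg_even (by omega), show 2 * i / 2 = i by omega]
    exact hi
  refine ⟨⟨2 * i, h1⟩, ?_⟩
  intro j hj
  by_cases hz : z = 0
  · rw [hz, rw_zero]
  · unfold rw'
    rw [if_neg]
    intro hcon
    have := cen_omg.disj hz h1 hcon
    omega

theorem re_omg_odd {z : ℂ} (h : -z ∈ earring) : z ∈ Sw omg ∧ ∀ j, j % 2 = 0 → rw' omg z j = 1 := by
  rw [mem_earring] at h
  obtain ⟨i, hi⟩ := h
  have h1 : ‖z - omg (2 * i + 1)‖ = |omg (2 * i + 1)| := by
    rw [abs_omg, omg_odd (by omega), show (2 * i + 1) / 2 = i by omega]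
    refine Eq.trans ?_ hi
    rw [← norm_neg]
    congr 1
    push_cast
    ring
  refine ⟨⟨2 * i + 1, h1⟩, ?_⟩
  intro j hj
  by_cases hz : z = 0
  · rw [hz, rw_zero]
  · unfold rw'
    rw [if_neg]
    intro hcon
    have := cen_omg.disj hz h1 hcon
    omega

theorem zero_mem_earring : (0:ℂ) ∈ earring := by
  rw [mem_earring]
  exact ⟨0, by simp [abs_of_pos (omh_pos 0)]⟩

theorem Th_mem {x : EM} {s : ℝ} (h : cp x s) : Th x s ∈ griffiths := by
  obtain ⟨h1, h2, h3⟩ := h
  rcases lt_trichotomy s 0 with hs | hs | hs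
  · refine ⟨- sw omg x, sw_omg_odd (h3 hs), -s, by linarith, ?_, Or.inr ?_⟩
    · rw [abs_of_neg hs] at h1; exact h1
    · unfold Th
      rw [abs_of_neg hs]
      ext1
      · push_cast; ring
      · show s = - -s
        ring
  · subst hs
    by_cases hx : ∃ j, x.1 j ≠ 1
    · obtain ⟨j, hj⟩ := hx
      by_cases hp : j % 2 = 0
      · refine ⟨sw omg x, sw_omg_even (fun i hi => x.2.eq_one hj (by rintro rfl; exact hi hp)),
          0, le_rfl, zero_le_one, Or.inl ?_⟩
        unfold Th
        simp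
      · refine ⟨- sw omg x, sw_omg_odd (fun i hi => x.2.eq_one hj (by rintro rfl; exact hp hi)),
          0, le_rfl, zero_le_one, Or.inr ?_⟩
        unfold Th
        simp
    · push Not at hx
      refine ⟨0, zero_mem_earring, 0, le_rfl, zero_le_one, Or.inl ?_⟩
      unfold Th
      rw [sw_base hx]
      simp
  · refine ⟨sw omg x, sw_omg_even (h2 hs), s, hs.le, ?_, Or.inl ?_⟩
    · rw [abs_of_pos hs] at h1; exact h1
    · unfold Th
      rw [abs_of_pos hs]
      ext1
      · push_cast; ring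
      · rfl

/-- the retraction of the Griffiths space minus the tips, and its inverse -/
noncomputable def rG (p : ℂ × ℝ) : EM := re' cen_omg (p.1 / ((1 - |p.2| : ℝ) : ℂ))

theorem griff_cases {p : ℂ × ℝ} (hp : p ∈ griffiths) :
    cp (rG p) p.2 ∧ Th (rG p) p.2 = p ∧ (|p.2| < 1 → p.1 / ((1 - |p.2| : ℝ) : ℂ) ∈ Sw omg) := by
  obtain ⟨z, hz, t, t0, t1, h | h⟩ := hp
  · subst h
    have ha : |t| = t := abs_of_nonneg t0
    rcases t1.eq_or_lt with h1 | h1
    · subst h1
      have e : rG ((1 - ((1:ℝ) : ℂ)) * z, 1) = eb := by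
        unfold rG
        simp only [ha, sub_self, Complex.ofReal_zero, div_zero]
        rw [EM.ext_iff']
        intro j
        exact rw_zero _ _
      rw [e]
      refine ⟨⟨by rw [ha], fun _ j _ => rfl, fun _ j _ => rfl⟩, ?_, fun h => ?_⟩
      · unfold Th
        rw [sw_eb]
        simp
      · simp at h
    · have hne : ((1 - |t| : ℝ) : ℂ) ≠ 0 := by
        rw [ha]
        have : (1 - t : ℝ) ≠ 0 := by linarith
        exact_mod_cast this
      have e0 : ((1 - (t : ℂ)) * z) / ((1 - |t| : ℝ) : ℂ) = z := by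
        rw [div_eq_iff hne, ha]
        push_cast
        ring
      have e : rG ((1 - (t : ℂ)) * z, t) = re' cen_omg z := by
        unfold rG
        simp only
        rw [e0]
      obtain ⟨g1, g2⟩ := re_omg_even hz
      rw [e]
      refine ⟨⟨by rw [ha]; exact t1, fun _ j hj => g2 j hj, fun h => ?_⟩, ?_, fun _ => ?_⟩
      · exact absurd (show t < 0 from h) (by linarith)
      · unfold Th
        rw [sw_re cen_omg g1]
        simp only [ha]
        push_cast
        rfl
      · simp only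
        rw [e0]
        exact g1
  · subst h
    have ha : |(-t)| = t := by rw [abs_neg]; exact abs_of_nonneg t0
    rcases t1.eq_or_lt with h1 | h1
    · subst h1
      have e : rG (-((1 - ((1:ℝ) : ℂ)) * z), -1) = eb := by
        unfold rG
        simp only [ha, sub_self, Complex.ofReal_zero, div_zero]
        rw [EM.ext_iff']
        intro j
        exact rw_zero _ _
      rw [e]
      refine ⟨⟨by rw [ha], fun _ j _ => rfl, fun _ j _ => rfl⟩, ?_, fun h => ?_⟩
      · unfold Th
        rw [sw_eb]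
        simp
      · simp at h
    · have hne : ((1 - |(-t)| : ℝ) : ℂ) ≠ 0 := by
        rw [ha]
        have : (1 - t : ℝ) ≠ 0 := by linarith
        exact_mod_cast this
      have e0 : (-((1 - (t : ℂ)) * z)) / ((1 - |(-t)| : ℝ) : ℂ) = -z := by
        rw [div_eq_iff hne, ha]
        push_cast
        ring
      have e : rG (-((1 - (t : ℂ)) * z), -t) = re' cen_omg (-z) := by
        unfold rG
        simp only
        rw [e0]
      obtain ⟨g1, g2⟩ := re_omg_odd (z := -z) (by rw [neg_neg]; exact hz)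
      rw [e]
      refine ⟨⟨by rw [ha]; exact t1, fun h => ?_, fun _ j hj => g2 j hj⟩, ?_, fun _ => ?_⟩
      · exact absurd (show 0 < -t from h) (by linarith)
      · unfold Th
        rw [sw_re cen_omg g1]
        simp only [ha]
        ext1
        · push_cast; ring
        · rfl
      · simp only
        rw [e0]
        exact g1

theorem rG_Th {x : EM} {s : ℝ} (h : |s| < 1) : rG (Th x s) = x := by
  unfold rG Th
  simp only
  have hne : ((1 - |s| : ℝ) : ℂ) ≠ 0 := by
    have : (1 - |s| : ℝ) ≠ 0 := by linarith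
    exact_mod_cast this
  rw [mul_div_cancel_left₀ _ hne, re_sw]

theorem continuousOn_rG : ContinuousOn rG (griffiths ∩ {p | |p.2| < 1}) := by
  have h1 : ContinuousOn (fun p : ℂ × ℝ => p.1 / ((1 - |p.2| : ℝ) : ℂ))
      (griffiths ∩ {p | |p.2| < 1}) := by
    apply ContinuousOn.div
    · exact continuous_fst.continuousOn
    · apply Continuous.continuousOn
      fun_prop
    · rintro p ⟨-, hp⟩
      have : (1 - |p.2| : ℝ) ≠ 0 := by
        have : |p.2| < 1 := hp
        linarith
      exact_mod_cast this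
  exact (continuousOn_re cen_omg).comp h1 (fun p hp => (griff_cases hp.1).2.2 hp.2)

theorem continuous_Th : Continuous (fun q : EM × ℝ => Th q.1 q.2) := by
  unfold Th
  have h1 : Continuous (fun q : EM × ℝ => sw omg q.1) := (continuous_sw cen_omg).comp continuous_fst
  fun_prop

/-- the two cones -/
def coneP : Set (ℂ × ℝ) := {p | ∃ z ∈ earring, ∃ t : ℝ, 0 ≤ t ∧ t ≤ 1 ∧ p = ((1 - (t : ℂ)) * z, t)}

/-- the second cone -/
def coneM : Set (ℂ × ℝ) := {p | ∃ z ∈ earring, ∃ t : ℝ, 0 ≤ t ∧ t ≤ 1 ∧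
  p = (-((1 - (t : ℂ)) * z), -t)}

theorem coneP_sub : coneP ⊆ griffiths := by
  rintro p ⟨z, hz, t, t0, t1, h⟩
  exact ⟨z, hz, t, t0, t1, Or.inl h⟩

theorem coneM_sub : coneM ⊆ griffiths := by
  rintro p ⟨z, hz, t, t0, t1, h⟩
  exact ⟨z, hz, t, t0, t1, Or.inr h⟩

theorem mem_coneP_of_pos {p : ℂ × ℝ} (hp : p ∈ griffiths) (h : 0 < p.2) : p ∈ coneP := by
  obtain ⟨z, hz, t, t0, t1, h1 | h1⟩ := hp
  · exact ⟨z, hz, t, t0, t1, h1⟩
  · rw [h1] at h
    exact absurd (show 0 < -t from h) (by linarith)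

theorem mem_coneM_of_neg {p : ℂ × ℝ} (hp : p ∈ griffiths) (h : p.2 < 0) : p ∈ coneM := by
  obtain ⟨z, hz, t, t0, t1, h1 | h1⟩ := hp
  · rw [h1] at h
    exact absurd (show t < 0 from h) (by linarith)
  · exact ⟨z, hz, t, t0, t1, h1⟩

theorem Th_coneP {x : EM} {s : ℝ} (h0 : 0 ≤ s) (h1 : s ≤ 1) (h : ∀ j, j % 2 ≠ 0 → x.1 j = 1) :
    Th x s ∈ coneP := by
  refine ⟨sw omg x, sw_omg_even h, s, h0, h1, ?_⟩
  unfold Th
  rw [abs_of_nonneg h0]
  push_cast
  rfl

theorem Th_coneM {x : EM} {s : ℝ} (h0 : s ≤ 0) (h1 : -1 ≤ s) (h : ∀ j, j % 2 = 0 → x.1 j = 1) :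
    Th x s ∈ coneM := by
  refine ⟨-sw omg x, sw_omg_odd h, -s, by linarith, by linarith, ?_⟩
  unfold Th
  rw [abs_of_nonpos h0]
  ext1
  · push_cast; ring
  · show s = - -s
    ring

theorem star_coneP : StarConvex ℝ ((0, 1) : ℂ × ℝ) coneP := by
  rw [starConvex_iff_segment_subset]
  rintro p ⟨z, hz, t, t0, t1, rfl⟩
  rintro q ⟨a, b, ha, hb, hab, rfl⟩
  refine ⟨z, hz, a + b * t, by positivity, by nlinarith, ?_⟩
  ext1
  · simp only [Prod.smul_fst, Prod.fst_add, smul_zero, zero_add, Complex.real_smul]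
    have : (a : ℂ) = 1 - b := by
      have : a = 1 - b := by linarith
      rw [this]; push_cast; ring
    push_cast
    rw [this]
    ring
  · simp

theorem star_coneM : StarConvex ℝ ((0, -1) : ℂ × ℝ) coneM := by
  rw [starConvex_iff_segment_subset]
  rintro p ⟨z, hz, t, t0, t1, rfl⟩
  rintro q ⟨a, b, ha, hb, hab, rfl⟩
  refine ⟨z, hz, a + b * t, by positivity, by nlinarith, ?_⟩
  ext1
  · simp only [Prod.smul_fst, Prod.fst_add, smul_zero, zero_add, Complex.real_smul]
    have : (a : ℂ) = 1 - b := by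
      have : a = 1 - b := by linarith
      rw [this]; push_cast; ring
    push_cast
    rw [this]
    ring
  · simp
    ring

/-- paths with values in a contractible part are homotopic -/
theorem homotopic_of_contractible {S C : Set (ℂ × ℝ)} (hCS : C ⊆ S) (hC : ContractibleSpace C)
    {a b : S} (γ γ' : Path a b) (h : ∀ t, (γ t).1 ∈ C) (h' : ∀ t, (γ' t).1 ∈ C) :
    γ.Homotopic γ' := by
  have ha : a.1 ∈ C := by
    have := h 0
    rwa [γ.source] at this
  have hb : b.1 ∈ C := by
    have := h 1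
    rwa [γ.target] at this
  have : SimplyConnectedSpace C := inferInstance
  let δ : Path (⟨a.1, ha⟩ : C) ⟨b.1, hb⟩ :=
    { toFun := fun t => ⟨(γ t).1, h t⟩
      continuous_toFun := by
        apply Continuous.subtype_mk
        exact continuous_subtype_val.comp γ.continuous
      source' := by simp
      target' := by simp }
  let δ' : Path (⟨a.1, ha⟩ : C) ⟨b.1, hb⟩ :=
    { toFun := fun t => ⟨(γ' t).1, h' t⟩
      continuous_toFun := by
        apply Continuous.subtype_mk
        exact continuous_subtype_val.comp γ'.continuous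
      source' := by simp
      target' := by simp }
  have h1 : δ.Homotopic δ' := SimplyConnectedSpace.paths_homotopic δ δ'
  have h2 := h1.map ⟨Set.inclusion hCS, continuous_inclusion hCS⟩
  exact h2

end Pool.Agent.MP3fbd41
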