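import Pool.Agent.Lib.MP_3fbd41_lc.Loops

/-!
# Measurability of the holonomy
-/

namespace Pool.Agent.MP3fbd41

open Filter Topology unitInterval

/-- ordered products -/
def pd {G : Type*} [Monoid G] (a : ℕ → G) : ℕ → G
  | 0 => 1
  | n + 1 => pd a n * a n

theorem pd_tel {G : Type*} [Group G] {a g : ℕ → G} {n : ℕ} (h : ∀ i, i < n → g (i + 1) = g i * a i) :
    pd a n = (g 0)⁻¹ * g n := by
  induction n with
  | zero => simp [pd]
  | succ n ih =>
    rw [pd, ih (fun i hi => h i (by omega)), h n (by omega)]
    group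

theorem pd_congr {G : Type*} [Monoid G] {a b : ℕ → G} {n : ℕ} (h : ∀ i, i < n → a i = b i) :
    pd a n = pd b n := by
  induction n with
  | zero => rfl
  | succ n ih => rw [pd, pd, ih (fun i hi => h i (by omega)), h n (by omega)]

/-- the holonomy is the eventual value of products -/
theorem hI_eventually {K : I → EM} (hK : Continuous K) (m : ℕ) :
    ∀ᶠ N : ℕ in atTop,
      pd (fun i => cM m (K (pr (i / N))).1 (K (pr ((i + 1) / N))).1) N = hI K m := by
  obtain ⟨g, δ, hδ, hg⟩ := (ePath_pr hK).exists_prim m
  obtain ⟨N0, hN0⟩ := exists_nat_gt (1 / δ)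
  filter_upwards [eventually_ge_atTop (N0 + 1)] with N hN
  have hNp : (0:ℝ) < N := by
    have : 0 < N := by omega
    exact_mod_cast this
  have hN1 : 1 / (N : ℝ) ≤ δ := by
    have h1 : (N0 : ℝ) ≤ N := by exact_mod_cast (show N0 ≤ N by omega)
    rw [div_lt_iff₀ hδ] at hN0
    rw [div_le_iff₀ hNp]
    nlinarith
  rw [pd_tel (g := fun i => g (i / N))]
  · unfold hI hm
    rw [hol_eq hδ hg le_rfl zero_le_one]
    simp only [Nat.cast_zero, zero_div, div_self hNp.ne']
  · intro i _
    have := hg (i / N) ((i + 1) / N) (by positivity) (by positivity) (by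
      rw [show (i : ℝ) / N - (i + 1) / N = - (1 / N) by ring, abs_neg, abs_of_pos (by positivity)]
      exact hN1)
    push_cast
    exact this

section
variable {Y : Type*} [MeasurableSpace Y]

/-- measurability of a map to a countable set -/
def MS {S : Type*} (F : Y → S) : Prop := ∀ u, MeasurableSet {y | F y = u}

theorem MS.preimage {S : Type*} [Countable S] {F : Y → S} (hF : MS F) (A : Set S) :
    MeasurableSet (F ⁻¹' A) := by
  have : F ⁻¹' A = ⋃ s : S, ⋃ _ : s ∈ A, {y | F y = s} := by
    ext y
    simp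
  rw [this]
  exact MeasurableSet.iUnion (fun s => MeasurableSet.iUnion (fun _ => hF s))

theorem MS.comp {S T : Type*} [Countable S] {F : Y → S} (hF : MS F) (φ : S → T) :
    MS (fun y => φ (F y)) := fun u => hF.preimage {s | φ s = u}

theorem MS.comp₂ {S T R : Type*} [Countable S] [Countable T] {F : Y → S} {G : Y → T} (hF : MS F)
    (hG : MS G) (φ : S → T → R) : MS (fun y => φ (F y) (G y)) := by
  have h : MS (fun y => (F y, G y)) := by
    rintro ⟨s, t⟩
    have : {y | (F y, G y) = (s, t)} = {y | F y = s} ∩ {y | G y = t} := by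
      ext y
      simp [Prod.ext_iff]
    rw [this]
    exact (hF s).inter (hG t)
  exact h.comp (fun p => φ p.1 p.2)

open Classical in
theorem ms_of_set {A : Set Y} (hA : MeasurableSet A) : MS (fun y => (decide (y ∈ A) : Bool)) := by
  intro u
  cases u
  · have : {y | (decide (y ∈ A) : Bool) = false} = Aᶜ := by
      ext y; simp
    rw [this]
    exact hA.compl
  · have : {y | (decide (y ∈ A) : Bool) = true} = A := by
      ext y; simp
    rw [this]
    exact hA

open Classical in
theorem ms_sd {z : Y → ℂ} (hz : Measurable z) : MS (fun y => sd (z y)) := by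
  have h1 := ms_of_set (Complex.measurable_im.comp hz measurableSet_Iio : MeasurableSet
    ((fun y => (z y).im) ⁻¹' Set.Iio 0))
  have h2 := h1.comp (fun b => if b = true then (1:ℤ) else 0)
  have e : (fun y => sd (z y)) = fun y => (if (decide (y ∈ (fun y => (z y).im) ⁻¹' Set.Iio 0) : Bool) = true
      then (1:ℤ) else 0) := by
    funext y
    unfold sd
    by_cases h : (z y).im < 0
    · rw [if_pos h, if_pos]
      simpa using h
    · rw [if_neg h, if_neg]
      simpa using h
  rw [e]
  exact h2

theorem ms_cr {z w : Y → ℂ} (hz : Measurable z) (hw : Measurable w) :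
    MS (fun y => cr (z y) (w y)) := by
  have hA : MeasurableSet ((fun y => (z y).re) ⁻¹' Set.Iio 0) :=
    Complex.measurable_re.comp hz measurableSet_Iio
  have hB : MeasurableSet ((fun y => (w y).re) ⁻¹' Set.Iio 0) :=
    Complex.measurable_re.comp hw measurableSet_Iio
  have h1 := (ms_of_set hA).comp₂ (ms_of_set hB) (fun a b => a && b)
  have h2 := (ms_sd hw).comp₂ (ms_sd hz) (fun a b => a - b)
  have h3 := h1.comp₂ h2 (fun b n => if b = true then n else 0)
  have e : (fun y => cr (z y) (w y)) = fun y =>
      (if (@decide (y ∈ (fun y => (z y).re) ⁻¹' Set.Iio 0)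
        (Classical.propDecidable _) && @decide (y ∈ (fun y => (w y).re) ⁻¹' Set.Iio 0)
        (Classical.propDecidable _)) = true then sd (w y) - sd (z y) else 0) := by
    funext y
    unfold cr
    by_cases h : (z y).re < 0 ∧ (w y).re < 0
    · rw [if_pos h, if_pos]
      simpa using h
    · rw [if_neg h, if_neg]
      simpa using h
  rw [e]
  exact h3

instance : Countable (FreeGroup ℕ) := by
  have : Function.Surjective (FreeGroup.mk : List (ℕ × Bool) → FreeGroup ℕ) := by
    intro g
    exact ⟨g.toWord, FreeGroup.mk_toWord⟩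
  exact this.countable

theorem ms_const {S : Type*} (s : S) : MS (fun _ : Y => s) := by
  intro u
  by_cases h : s = u
  · simp [h]
  · simp [h]

theorem ms_lp {a : Y → ℕ → ℤ} (m : ℕ) (h : ∀ j, j < m → MS (fun y => a y j)) :
    MS (fun y => lp m (a y)) := by
  induction m with
  | zero => exact ms_const _
  | succ m ih =>
    exact (ih (fun j hj => h j (by omega))).comp₂ (h m (by omega))
      (fun g n => g * FreeGroup.of m ^ n)

theorem ms_cM {x y : Y → ℕ → ℂ} (m : ℕ) (hx : ∀ j, Measurable (fun a => x a j))
    (hy : ∀ j, Measurable (fun a => y a j)) : MS (fun a => cM m (x a) (y a)) :=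
  ms_lp m (fun j _ => ms_cr (hx j) (hy j))

theorem ms_pd {G : Type*} [Group G] [Countable G] {a : Y → ℕ → G} (n : ℕ)
    (h : ∀ i, i < n → MS (fun y => a y i)) : MS (fun y => pd (a y) n) := by
  induction n with
  | zero => exact ms_const _
  | succ n ih =>
    exact (ih (fun j hj => h j (by omega))).comp₂ (h n (by omega)) (fun g n => g * n)

theorem ms_eventually {S : Type*} {F : Y → S} {F' : ℕ → Y → S} (h : ∀ n, MS (F' n))
    (h' : ∀ y, ∀ᶠ n in atTop, F' n y = F y) : MS F := by
  intro u
  have : {y | F y = u} = ⋃ N : ℕ, ⋂ n : ℕ, ⋂ _ : N ≤ n, {y | F' n y = u} := by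
    ext y
    simp only [Set.mem_iUnion, Set.mem_iInter]
    constructor
    · intro hy
      have hy' : F y = u := hy
      obtain ⟨N, hN⟩ := eventually_atTop.1 (h' y)
      exact ⟨N, fun n hn => (hN n hn).trans hy'⟩
    · rintro ⟨N, hN⟩
      obtain ⟨n, h1, h2⟩ := ((h' y).and (eventually_ge_atTop N)).exists
      have h3 : F' n y = u := hN n h2
      exact h1.symm.trans h3
  rw [this]
  exact MeasurableSet.iUnion (fun N => MeasurableSet.iInter (fun n =>
    MeasurableSet.iInter (fun _ => h n u)))

/-- **Measurability of the holonomy.** -/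
theorem ms_hI {K : Y → I → EM} (hc : ∀ y, Continuous (K y))
    (hm : ∀ t j, Measurable (fun y => (K y t).1 j)) (m : ℕ) : MS (fun y => hI (K y) m) :=
  ms_eventually (F' := fun N y =>
      pd (fun i => cM m (K y (pr (i / N))).1 (K y (pr ((i + 1) / N))).1) N)
    (fun N => ms_pd N (fun _ _ => ms_cM m (fun j => hm _ j) (fun j => hm _ j)))
    (fun y => hI_eventually (hc y) m)

end

end Pool.Agent.MP3fbd41
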