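import Pool.Agent.Lib.MP_3fbd41_lc.Griff
import Pool.Agent.Lib.MP_3fbd41_lc.Meas

/-!
# The invariant of loops of the Griffiths space
-/

namespace Pool.Agent.MP3fbd41

open Filter Topology unitInterval

/-- the Griffiths space as a type -/
abbrev GG : Type := griffiths

theorem cp_zero (x : EM) : cp x 0 :=
  ⟨by simp, fun h => absurd h (lt_irrefl _), fun h => absurd h (lt_irrefl _)⟩

/-- the section -/
noncomputable def sgG (x : EM) : GG := ⟨Th x 0, Th_mem (cp_zero x)⟩

theorem continuous_sgG : Continuous sgG := by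
  apply Continuous.subtype_mk
  exact continuous_Th.comp (continuous_id.prodMk continuous_const)

/-- the wedge point of the Griffiths space -/
noncomputable abbrev oG : GG := sgG eb

theorem oG_val : oG.1 = (0, 0) := by
  show Th eb 0 = (0, 0)
  unfold Th
  rw [sw_eb]
  simp

/-- the part without the tips -/
def OG : Set GG := {p | |p.1.2| < 1}
/-- the open upper part -/
def TP : Set GG := {p | 0 < p.1.2}
/-- the open lower part -/
def TM : Set GG := {p | p.1.2 < 0}

theorem continuous_hgt : Continuous (fun p : GG => p.1.2) :=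
  continuous_snd.comp continuous_subtype_val

theorem isOpen_OG : IsOpen OG := isOpen_lt continuous_hgt.abs continuous_const
theorem isOpen_TP : IsOpen TP := isOpen_lt continuous_const continuous_hgt
theorem isOpen_TM : IsOpen TM := isOpen_lt continuous_hgt continuous_const

theorem cover_GG (p : GG) : p ∈ OG ∨ p ∈ TP ∨ p ∈ TM := by
  rcases lt_trichotomy p.1.2 0 with h | h | h
  · exact Or.inr (Or.inr h)
  · left
    show |p.1.2| < 1
    rw [h]
    simp
  · exact Or.inr (Or.inl h)

/-- the retraction -/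
noncomputable def rg (p : GG) : EM := rG p.1

theorem continuousOn_rg : ContinuousOn rg OG := by
  have h1 : ContinuousOn (fun p : GG => p.1) OG := continuous_subtype_val.continuousOn
  exact continuousOn_rG.comp h1 (fun p hp => ⟨p.2, hp⟩)

theorem rg_even {p : GG} (h : p ∈ TP) (j : ℕ) (hj : j % 2 ≠ 0) : (rg p).1 j = 1 :=
  (griff_cases p.2).1.2.1 h j hj

theorem rg_odd {p : GG} (h : p ∈ TM) (j : ℕ) (hj : j % 2 = 0) : (rg p).1 j = 1 :=
  (griff_cases p.2).1.2.2 h j hj

theorem rg_sgG (x : EM) : rg (sgG x) = x := rG_Th (by simp)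

open Classical in
/-- contribution of a path -/
noncomputable def eI (F : I → GG) : ℕ → FreeGroup ℕ :=
  if ∀ v, F v ∈ OG then hI (fun v => rg (F v)) else 1

theorem eI_of {F : I → GG} (h : ∀ v, F v ∈ OG) : eI F = hI (fun v => rg (F v)) := by
  unfold eI
  rw [if_pos h]

theorem eI_of_not {F : I → GG} (h : ¬ ∀ v, F v ∈ OG) : eI F = 1 := by
  unfold eI
  rw [if_neg h]

theorem continuous_rg_comp {F : I → GG} (hF : Continuous F) (h : ∀ v, F v ∈ OG) :
    Continuous (fun v => rg (F v)) := continuousOn_rg.comp_continuous hF h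

theorem tame_eI {F : I → GG} (hF : Continuous F) : Tame (eI F) := by
  by_cases h : ∀ v, F v ∈ OG
  · rw [eI_of h]
    exact tame_hI (continuous_rg_comp hF h)
  · rw [eI_of_not h]
    exact Tame.one

theorem mem_toWord_of_er {p : ℕ → Prop} [DecidablePred p] {g : FreeGroup ℕ} (h : er p g = g)
    {a : ℕ × Bool} (ha : a ∈ g.toWord) : p a.1 := by
  have e1 : g.toWord = FreeGroup.reduce (g.toWord.filter (fun x => p x.1)) := by
    conv_lhs => rw [← h, ← FreeGroup.mk_toWord (x := g), er_mk, FreeGroup.toWord_mk]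
  rw [e1] at ha
  have h2 := (FreeGroup.Red.sublist (FreeGroup.reduce.red
    (L := g.toWord.filter (fun x => p x.1)))).subset ha
  rw [List.mem_filter] at h2
  simpa using h2.2

theorem pure_hI {K : I → EM} (hK : Continuous K) (c : ℕ) (h : ∀ v j, ¬ j % 2 = c → (K v).1 j = 1) :
    Pure (hI K) := by
  refine ⟨c, fun m a ha => ?_⟩
  have h1 : er (fun j => j % 2 = c) (hI K m) = hI K m := by
    refine hm_fix (ePath_pr hK) le_rfl zero_le_one _ ?_
    intro u v _ _ _ _
    unfold cM
    rw [er_lp]
    apply lp_congr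
    intro j _
    by_cases hj : j % 2 = c
    · rw [if_pos hj]
    · rw [if_neg hj, h _ j hj, cr_one_left]
  exact mem_toWord_of_er h1 ha

/-- the germ group -/
abbrev QG : Type := Germ (atTop : Filter ℕ) (ℕ → FreeGroup ℕ)

/-- the class in the germ group -/
noncomputable def QQ (a : ℕ → FreeGroup ℕ) : QG := ((fun k => DD k a : ℕ → (ℕ → FreeGroup ℕ)) : QG)

theorem QQ_eq {a b : ℕ → FreeGroup ℕ} : QQ a = QQ b ↔ ∀ᶠ k in atTop, DD k a = DD k b :=
  Germ.coe_eq

theorem QQ_mul {a b : ℕ → FreeGroup ℕ} (ha : Tame a) (hb : Tame b) :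
    QQ (a * b) = QQ a * QQ b := by
  unfold QQ
  rw [← Germ.coe_mul, Germ.coe_eq]
  exact DD_mul ha hb

theorem QQ_pure {a : ℕ → FreeGroup ℕ} (ha : Tame a) (hp : Pure a) : QQ a = 1 := by
  unfold QQ
  rw [← Germ.coe_one, Germ.coe_eq]
  exact DD_pure ha hp

theorem QQ_one : QQ 1 = 1 := by
  apply QQ_pure Tame.one
  refine ⟨0, fun m a ha => ?_⟩
  simp at ha

theorem QQ_eI_TP {F : I → GG} (hF : Continuous F) (h : ∀ v, F v ∈ TP) : QQ (eI F) = 1 := by
  by_cases h' : ∀ v, F v ∈ OG
  · rw [eI_of h']
    have hc := continuous_rg_comp hF h'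
    exact QQ_pure (tame_hI hc) (pure_hI hc 0 (fun v j hj => rg_even (h v) j hj))
  · rw [eI_of_not h', QQ_one]

theorem QQ_eI_TM {F : I → GG} (hF : Continuous F) (h : ∀ v, F v ∈ TM) : QQ (eI F) = 1 := by
  by_cases h' : ∀ v, F v ∈ OG
  · rw [eI_of h']
    have hc := continuous_rg_comp hF h'
    exact QQ_pure (tame_hI hc) (pure_hI hc 1 (fun v j hj => rg_odd (h v) j (by omega)))
  · rw [eI_of_not h', QQ_one]

/-- the cell lemma in the germ group -/
theorem QQ_cell {K : I → I → GG} (hK : Continuous (fun p : I × I => K p.1 p.2))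
    (h : (∀ u v, K u v ∈ OG) ∨ (∀ u v, K u v ∈ TP) ∨ (∀ u v, K u v ∈ TM)) :
    QQ (eI (fun u => K u 0)) * QQ (eI (fun v => K 1 v))
      = QQ (eI (fun v => K 0 v)) * QQ (eI (fun u => K u 1)) := by
  have c1 : Continuous (fun u => K u 0) := hK.comp (by fun_prop : Continuous (fun u : I => (u, (0:I))))
  have c2 : Continuous (fun v => K 1 v) := hK.comp (by fun_prop : Continuous (fun v : I => ((1:I), v)))
  have c3 : Continuous (fun v => K 0 v) := hK.comp (by fun_prop : Continuous (fun v : I => ((0:I), v)))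
  have c4 : Continuous (fun u => K u 1) := hK.comp (by fun_prop : Continuous (fun u : I => (u, (1:I))))
  rcases h with h | h | h
  · rw [eI_of (fun v => h v 0), eI_of (fun v => h 1 v), eI_of (fun v => h 0 v),
      eI_of (fun v => h v 1),
      ← QQ_mul (tame_hI (continuous_rg_comp c1 (fun v => h v 0)))
        (tame_hI (continuous_rg_comp c2 (fun v => h 1 v))),
      ← QQ_mul (tame_hI (continuous_rg_comp c3 (fun v => h 0 v)))
        (tame_hI (continuous_rg_comp c4 (fun v => h v 1)))]
    congr 1
    funext m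
    have hc : Continuous (fun p : I × I => rg (K p.1 p.2)) :=
      continuousOn_rg.comp_continuous hK (fun p => h p.1 p.2)
    exact hI_cell (K := fun u v => rg (K u v)) hc m
  · rw [QQ_eI_TP c1 (fun v => h v 0), QQ_eI_TP c2 (fun v => h 1 v), QQ_eI_TP c3 (fun v => h 0 v),
      QQ_eI_TP c4 (fun v => h v 1)]
  · rw [QQ_eI_TM c1 (fun v => h v 0), QQ_eI_TM c2 (fun v => h 1 v), QQ_eI_TM c3 (fun v => h 0 v),
      QQ_eI_TM c4 (fun v => h v 1)]

/-- piece of a path -/
def pc (F : ℝ → GG) (s t : ℝ) : I → GG := fun v => F (s + (t - s) * v)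

theorem continuous_pc {F : ℝ → GG} (hF : Continuous F) (s t : ℝ) : Continuous (pc F s t) := by
  unfold pc
  fun_prop

/-- good intervals -/
def Good (F : ℝ → GG) (s t : ℝ) : Prop :=
  (∀ v, pc F s t v ∈ OG) ∨ (∀ v, pc F s t v ∈ TP) ∨ (∀ v, pc F s t v ∈ TM)

theorem pc_sub {F : ℝ → GG} {s t s' t' : ℝ} (h1 : s ≤ s') (h2 : s' ≤ t') (h3 : t' ≤ t) (v : I) :
    ∃ w : I, pc F s' t' v = pc F s t w := by
  have hv0 := v.2.1
  have hv1 := v.2.2
  rcases (h1.trans (h2.trans h3)).eq_or_lt with h | h
  · refine ⟨0, ?_⟩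
    unfold pc
    congr 1
    have e1 : s' = s := by linarith
    have e2 : t' = s := by linarith
    rw [e1, e2]
    simp
  · have hst : 0 < t - s := by linarith
    have a1 : s ≤ s' + (t' - s') * v := by nlinarith
    have a2 : s' + (t' - s') * v ≤ t := by nlinarith
    refine ⟨⟨(s' + (t' - s') * v - s) / (t - s), div_nonneg (by linarith) hst.le, ?_⟩, ?_⟩
    · rw [div_le_one hst]
      linarith
    · unfold pc
      congr 1
      show s' + (t' - s') * v = s + (t - s) * ((s' + (t' - s') * v - s) / (t - s))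
      field_simp
      ring

theorem Good.mono {F : ℝ → GG} {s t s' t' : ℝ} (h : Good F s t) (h1 : s ≤ s') (h2 : s' ≤ t')
    (h3 : t' ≤ t) : Good F s' t' := by
  rcases h with h | h | h
  · left
    intro v
    obtain ⟨w, hw⟩ := pc_sub (F := F) h1 h2 h3 v
    rw [hw]; exact h w
  · right; left
    intro v
    obtain ⟨w, hw⟩ := pc_sub (F := F) h1 h2 h3 v
    rw [hw]; exact h w
  · right; right
    intro v
    obtain ⟨w, hw⟩ := pc_sub (F := F) h1 h2 h3 v
    rw [hw]; exact h w

/-- additivity -/
theorem QQ_add {F : ℝ → GG} (hF : Continuous F) {s t u : ℝ} (h1 : s ≤ t) (h2 : t ≤ u)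
    (h : Good F s u) :
    QQ (eI (pc F s u)) = QQ (eI (pc F s t)) * QQ (eI (pc F t u)) := by
  have c1 := continuous_pc hF s u
  have c2 := continuous_pc hF s t
  have c3 := continuous_pc hF t u
  rcases h with h | h | h
  · have g2 : ∀ v, pc F s t v ∈ OG := fun v => by
      obtain ⟨w, hw⟩ := pc_sub (F := F) le_rfl h1 h2 v
      rw [hw]; exact h w
    have g3 : ∀ v, pc F t u v ∈ OG := fun v => by
      obtain ⟨w, hw⟩ := pc_sub (F := F) h1 h2 le_rfl v
      rw [hw]; exact h w
    rw [eI_of h, eI_of g2, eI_of g3, ← QQ_mul (tame_hI (continuous_rg_comp c2 g2))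
      (tame_hI (continuous_rg_comp c3 g3))]
    congr 1
    funext m
    show hI _ m = hI _ m * hI _ m
    rcases (h1.trans h2).eq_or_lt with h0 | h0
    · have e1 : t = s := by linarith
      have e2 : u = s := by linarith
      subst e1
      subst e2
      have : ∀ v, rg (pc F u u v) = rg (F u) := by
        intro v
        unfold pc
        simp
      rw [hI_congr this, hI_const, mul_one]
    · have hsu : 0 < u - s := by linarith
      have hK := continuous_rg_comp c1 h
      have b0 : 0 ≤ (t - s) / (u - s) := div_nonneg (by linarith) hsu.le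
      have b1 : (t - s) / (u - s) ≤ 1 := by
        rw [div_le_one hsu]; linarith
      rw [hI_affine hK (continuous_rg_comp c2 g2) (a := 0) (b := (t - s) / (u - s)) le_rfl
        zero_le_one b0 b1, hI_affine hK (continuous_rg_comp c3 g3) (a := (t - s) / (u - s)) (b := 1)
        b0 b1 zero_le_one le_rfl, hm_mul (ePath_pr hK) le_rfl b0 zero_le_one]
      · rfl
      · intro v
        have hv0 := v.2.1
        have hv1 := v.2.2
        congr 1
        unfold pc
        congr 1
        rw [pr_val]
        · field_simp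
          ring
        · nlinarith
        · nlinarith
      · intro v
        have hv0 := v.2.1
        have hv1 := v.2.2
        congr 1
        unfold pc
        congr 1
        rw [pr_val]
        · field_simp
          ring
        · nlinarith
        · nlinarith
  · rw [QQ_eI_TP c1 h, QQ_eI_TP c2, QQ_eI_TP c3, mul_one]
    · intro v
      obtain ⟨w, hw⟩ := pc_sub (F := F) h1 h2 le_rfl v
      rw [hw]; exact h w
    · intro v
      obtain ⟨w, hw⟩ := pc_sub (F := F) le_rfl h1 h2 v
      rw [hw]; exact h w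
  · rw [QQ_eI_TM c1 h, QQ_eI_TM c2, QQ_eI_TM c3, mul_one]
    · intro v
      obtain ⟨w, hw⟩ := pc_sub (F := F) h1 h2 le_rfl v
      rw [hw]; exact h w
    · intro v
      obtain ⟨w, hw⟩ := pc_sub (F := F) le_rfl h1 h2 v
      rw [hw]; exact h w

/-- the product over `N` equal pieces -/
noncomputable def PN (F : ℝ → GG) (N : ℕ) : QG :=
  pd (fun i => QQ (eI (pc F (i / N) ((i + 1) / N)))) N

/-- all the `N` pieces are good -/
def AG (F : ℝ → GG) (N : ℕ) : Prop := ∀ i : ℕ, i < N → Good F (i / N) ((i + 1) / N)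

theorem QQ_pieces {F : ℝ → GG} (hF : Continuous F) {s h : ℝ} (hh : 0 ≤ h) (M : ℕ)
    (hg : Good F s (s + M * h)) :
    pd (fun l : ℕ => QQ (eI (pc F (s + l * h) (s + (l + 1) * h)))) M = QQ (eI (pc F s (s + M * h))) := by
  induction M with
  | zero =>
    have hg' : Good F s s := by
      simpa using hg
    have h1 := QQ_add hF (le_refl s) (le_refl s) hg'
    have h2 : QQ (eI (pc F s s)) = 1 := by
      have h3 : QQ (eI (pc F s s)) * 1 = QQ (eI (pc F s s)) * QQ (eI (pc F s s)) := by
        rw [mul_one]; exact h1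
      exact (mul_left_cancel h3).symm
    simp [pd, h2]
  | succ M ih =>
    have hM : (0:ℝ) ≤ M * h := by positivity
    have hsub : Good F s (s + M * h) := hg.mono le_rfl (by linarith) (by push_cast; linarith)
    rw [pd, ih hsub, QQ_add hF (s := s) (t := s + M * h) (u := s + ((M + 1 : ℕ) : ℝ) * h)
      (by linarith) (by push_cast; linarith) hg]
    push_cast
    rfl

theorem pd_mul_len {G : Type*} [Group G] (a : ℕ → G) (N M : ℕ) :
    pd a (N * M) = pd (fun i => pd (fun l => a (i * M + l)) M) N := by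
  have key : ∀ K L, pd a (K + L) = pd a K * pd (fun l => a (K + l)) L := by
    intro K L
    induction L with
    | zero => simp [pd]
    | succ L ih =>
      rw [← add_assoc, pd, ih, pd, mul_assoc]
  induction N with
  | zero => simp [pd]
  | succ N ih =>
    rw [Nat.succ_mul, key, ih, pd]

theorem PN_refine {F : ℝ → GG} (hF : Continuous F) {N M : ℕ} (hN : 0 < N) (hM : 0 < M)
    (h : AG F N) : PN F (N * M) = PN F N := by
  unfold PN
  rw [pd_mul_len]
  apply pd_congr
  intro i hi
  have hNp : (0:ℝ) < N := by exact_mod_cast hN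
  have hMp : (0:ℝ) < M := by exact_mod_cast hM
  have e0 : (i : ℝ) / N + M * (1 / (N * M)) = (i + 1) / N := by
    field_simp
  have key := QQ_pieces hF (s := i / N) (h := 1 / (N * M)) (by positivity) M (by
    rw [e0]; exact h i hi)
  rw [e0] at key
  rw [← key]
  apply pd_congr
  intro l _
  have e1 : ((i * M + l : ℕ) : ℝ) / ((N * M : ℕ) : ℝ) = i / N + l * (1 / (N * M)) := by
    push_cast
    field_simp
  have e2 : (((i * M + l : ℕ) : ℝ) + 1) / ((N * M : ℕ) : ℝ) = i / N + (l + 1) * (1 / (N * M)) := by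
    push_cast
    field_simp
    ring
  rw [e1, e2]

theorem PN_eq {F : ℝ → GG} (hF : Continuous F) {N M : ℕ} (hN : 0 < N) (hM : 0 < M)
    (h : AG F N) (h' : AG F M) : PN F N = PN F M := by
  rw [← PN_refine hF hN hM h, ← PN_refine hF hM hN h', mul_comm]

/-- the germ-valued invariant of a path is a homotopy invariant -/
theorem exists_grid {H : I → I → GG} (hH : Continuous (fun p : I × I => H p.1 p.2)) :
    ∃ N : ℕ, 0 < N ∧ ∀ i j : ℕ, i < N → j < N →
      (∀ u v : I, H (pr (i / N + ((i + 1) / N - i / N) * u)) (pr (j / N + ((j + 1) / N - j / N) * v)) ∈ OG) ∨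
      (∀ u v : I, H (pr (i / N + ((i + 1) / N - i / N) * u)) (pr (j / N + ((j + 1) / N - j / N) * v)) ∈ TP) ∨
      (∀ u v : I, H (pr (i / N + ((i + 1) / N - i / N) * u)) (pr (j / N + ((j + 1) / N - j / N) * v)) ∈ TM) := by
  let c : Fin 3 → Set (I × I) := fun k =>
    match k with
    | 0 => (fun p : I × I => H p.1 p.2) ⁻¹' OG
    | 1 => (fun p : I × I => H p.1 p.2) ⁻¹' TP
    | 2 => (fun p : I × I => H p.1 p.2) ⁻¹' TM
  have hc : ∀ k, IsOpen (c k) := by
    intro k
    fin_cases k
    · exact isOpen_OG.preimage hH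
    · exact isOpen_TP.preimage hH
    · exact isOpen_TM.preimage hH
  obtain ⟨δ, hδ, hL⟩ := lebesgue_number_lemma_of_metric (isCompact_univ (X := I × I)) hc (by
    intro p _
    rcases cover_GG (H p.1 p.2) with h | h | h
    · exact Set.mem_iUnion.2 ⟨0, h⟩
    · exact Set.mem_iUnion.2 ⟨1, h⟩
    · exact Set.mem_iUnion.2 ⟨2, h⟩)
  obtain ⟨N, hN⟩ := exists_nat_gt (1 / δ)
  have hNp : (0:ℝ) < N := lt_trans (by positivity) hN
  have hNd : 1 / (N : ℝ) < δ := by
    rw [div_lt_iff₀ hδ] at hN
    rw [div_lt_iff₀ hNp]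
    linarith
  refine ⟨N, by exact_mod_cast hNp, fun i j _ _ => ?_⟩
  obtain ⟨k, hk⟩ := hL (pr (i / N), pr (j / N)) (Set.mem_univ _)
  have hmem : ∀ u v : I, (pr (i / N + ((i + 1) / N - i / N) * u),
      pr (j / N + ((j + 1) / N - j / N) * v)) ∈ c k := by
    intro u v
    apply hk
    have hstep : ∀ (a : ℝ) (w : I), |a / N + ((a + 1) / N - a / N) * w - a / N| < δ := by
      intro a w
      have hw0 := w.2.1
      have hw1 := w.2.2
      have e : a / N + ((a + 1) / N - a / N) * w - a / N = 1 / N * w := by ring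
      rw [e, abs_of_nonneg (by positivity)]
      have : 1 / (N : ℝ) * w ≤ 1 / N * 1 := mul_le_mul_of_nonneg_left hw1 (by positivity)
      linarith
    rw [Metric.mem_ball, Prod.dist_eq]
    apply max_lt
    · exact lt_of_le_of_lt (pr_lip _ _) (hstep i u)
    · exact lt_of_le_of_lt (pr_lip _ _) (hstep j v)
  fin_cases k
  · exact Or.inl hmem
  · exact Or.inr (Or.inl hmem)
  · exact Or.inr (Or.inr hmem)

theorem grid_sum {G : Type*} [Group G] {N : ℕ} {b v : ℕ → ℕ → G}
    (h : ∀ i j, i < N → j < N → b i j * v (i + 1) j = v i j * b i (j + 1))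
    (h0 : ∀ j, j < N → v 0 j = 1) (hN : ∀ j, j < N → v N j = 1) :
    pd (fun i => b i 0) N = pd (fun i => b i N) N := by
  have row : ∀ j, j < N → ∀ n, n ≤ N → pd (fun i => b i j) n * v n j = v 0 j * pd (fun i => b i (j + 1)) n := by
    intro j hj n
    induction n with
    | zero => intro _; simp [pd]
    | succ n ih =>
      intro hn
      rw [pd, mul_assoc, h n j (by omega) hj, ← mul_assoc, ih (by omega), mul_assoc, pd]
  have rows : ∀ j, j ≤ N → pd (fun i => b i 0) N = pd (fun i => b i j) N := by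
    intro j
    induction j with
    | zero => intro _; rfl
    | succ j ih =>
      intro hj
      have := row j (by omega) N le_rfl
      rw [h0 j (by omega), hN j (by omega), one_mul, mul_one] at this
      rw [ih (by omega), this]
  exact rows N le_rfl

/-- homotopy invariance -/
theorem PN_homotopy {H : I → I → GG} (hH : Continuous (fun p : I × I => H p.1 p.2))
    {x y : GG} (hx : ∀ v, H 0 v = x) (hy : ∀ v, H 1 v = y) :
    ∃ N : ℕ, 0 < N ∧ AG (fun t => H (pr t) 0) N ∧ AG (fun t => H (pr t) 1) N ∧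
      PN (fun t => H (pr t) 0) N = PN (fun t => H (pr t) 1) N := by
  obtain ⟨N, hN, hgrid⟩ := exists_grid hH
  have hNp : (0:ℝ) < N := by exact_mod_cast hN
  have e1 : ((N : ℝ) - 1 + 1) / N = 1 := by field_simp; ring
  have hN1 : (((N - 1 : ℕ) : ℝ) + 1) / N = 1 := by
    rw [Nat.cast_sub hN]
    push_cast
    exact e1
  refine ⟨N, hN, ?_, ?_, ?_⟩
  · intro i hi
    have := hgrid i 0 hi hN
    have hz : ∀ u : I, H (pr (i / N + ((i + 1) / N - i / N) * u))
        (pr (((0 : ℕ) : ℝ) / N + ((((0 : ℕ) : ℝ) + 1) / N - ((0 : ℕ) : ℝ) / N) * ((0 : I) : ℝ)))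
        = pc (fun t => H (pr t) 0) (i / N) ((i + 1) / N) u := by
      intro u
      unfold pc
      congr 1
      simp [pr_zero]
    rcases this with h | h | h
    · left; intro u; rw [← hz]; exact h u 0
    · right; left; intro u; rw [← hz]; exact h u 0
    · right; right; intro u; rw [← hz]; exact h u 0
  · intro i hi
    have := hgrid i (N - 1) hi (by omega)
    have hz : ∀ u : I, H (pr (i / N + ((i + 1) / N - i / N) * u))
        (pr (((N - 1 : ℕ) : ℝ) / N + ((((N - 1 : ℕ) : ℝ) + 1) / N - ((N - 1 : ℕ) : ℝ) / N) * ((1 : I) : ℝ)))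
        = pc (fun t => H (pr t) 1) (i / N) ((i + 1) / N) u := by
      intro u
      unfold pc
      congr 1
      rw [hN1]
      simp [pr_one]
    rcases this with h | h | h
    · left; intro u; rw [← hz]; exact h u 1
    · right; left; intro u; rw [← hz]; exact h u 1
    · right; right; intro u; rw [← hz]; exact h u 1
  · let b : ℕ → ℕ → QG := fun i j =>
      QQ (eI (fun u => H (pr (i / N + ((i + 1) / N - i / N) * u)) (pr (j / N))))
    let v : ℕ → ℕ → QG := fun i j =>
      QQ (eI (fun u => H (pr (i / N)) (pr (j / N + ((j + 1) / N - j / N) * u))))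
    have hconst : ∀ z : GG, QQ (eI (fun _ : I => z)) = 1 := by
      intro z
      have hc : Continuous (fun _ : ℝ => z) := continuous_const
      have hg : Good (fun _ : ℝ => z) 0 (0 + ((0 : ℕ) : ℝ) * 0) := by
        rcases cover_GG z with h | h | h
        · exact Or.inl (fun _ => h)
        · exact Or.inr (Or.inl (fun _ => h))
        · exact Or.inr (Or.inr (fun _ => h))
      have := QQ_pieces hc (le_refl (0:ℝ)) 0 hg
      rw [pd] at this
      exact this.symm
    have key := grid_sum (N := N) (b := b) (v := v) ?_ ?_ ?_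
    · have k0 : pd (fun i => b i 0) N = PN (fun t => H (pr t) 0) N := by
        unfold PN
        apply pd_congr
        intro i _
        show QQ (eI (fun u => H (pr (i / N + ((i + 1) / N - i / N) * u)) (pr (((0:ℕ) : ℝ) / N)))) = _
        rw [Nat.cast_zero, zero_div, pr_zero]
        rfl
      have k1 : pd (fun i => b i N) N = PN (fun t => H (pr t) 1) N := by
        unfold PN
        apply pd_congr
        intro i _
        show QQ (eI (fun u => H (pr (i / N + ((i + 1) / N - i / N) * u)) (pr ((N : ℝ) / N)))) = _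
        rw [div_self hNp.ne', pr_one]
        rfl
      rw [← k0, ← k1, key]
    · intro i j hi hj
      have hK : Continuous (fun p : I × I => H (pr (i / N + ((i + 1) / N - i / N) * p.1))
          (pr (j / N + ((j + 1) / N - j / N) * p.2))) := by
        have h1 : Continuous (fun p : I × I => (pr (i / N + ((i + 1) / N - i / N) * p.1),
            pr (j / N + ((j + 1) / N - j / N) * p.2))) :=
          (continuous_pr.comp (by fun_prop)).prodMk (continuous_pr.comp (by fun_prop))
        exact hH.comp h1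
      have cell := QQ_cell (K := fun u v : I => H (pr (i / N + ((i + 1) / N - i / N) * u))
          (pr (j / N + ((j + 1) / N - j / N) * v))) hK (hgrid i j hi hj)
      simp only [Set.Icc.coe_zero, Set.Icc.coe_one, mul_zero, add_zero, mul_one,
        add_sub_cancel] at cell
      show QQ _ * QQ _ = QQ _ * QQ _
      push_cast
      exact cell
    · intro j _
      show QQ (eI (fun u => H (pr (((0:ℕ) : ℝ) / N)) _)) = 1
      rw [Nat.cast_zero, zero_div, pr_zero]
      simp only [hx]
      exact hconst x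
    · intro j _
      show QQ (eI (fun u => H (pr ((N : ℝ) / N)) _)) = 1
      rw [div_self hNp.ne', pr_one]
      simp only [hy]
      exact hconst y

end Pool.Agent.MP3fbd41
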