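import Pool.Agent.Lib.MP_3fbd41_lc.GriffHom

/-!
# The class of a loop of the Griffiths space is determined by its invariant
-/

namespace Pool.Agent.MP3fbd41

open Filter Topology unitInterval

/-- angle scaling -/
noncomputable def pw (x : EM) (u : ℝ) : EM :=
  ⟨fun j => Complex.exp ((u * Complex.arg (x.1 j) : ℝ) * Complex.I), by
    refine ⟨fun j => Complex.norm_exp_ofReal_mul_I _, fun i j hi hj => ?_⟩
    apply x.2.2 i j
    · intro h
      apply hi
      show Complex.exp ((u * Complex.arg (x.1 i) : ℝ) * Complex.I) = 1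
      rw [h]
      simp
    · intro h
      apply hj
      show Complex.exp ((u * Complex.arg (x.1 j) : ℝ) * Complex.I) = 1
      rw [h]
      simp⟩

theorem pw_apply (x : EM) (u : ℝ) (j : ℕ) :
    (pw x u).1 j = Complex.exp ((u * Complex.arg (x.1 j) : ℝ) * Complex.I) := rfl

theorem pw_eq_one {x : EM} {u : ℝ} {j : ℕ} (h : x.1 j = 1) : (pw x u).1 j = 1 := by
  rw [pw_apply, h]
  simp

theorem pw_zero (x : EM) : pw x 0 = eb := by
  rw [EM.ext_iff']
  intro j
  rw [pw_apply]
  simp [eb_apply]

theorem pw_one (x : EM) : pw x 1 = x := by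
  rw [EM.ext_iff']
  intro j
  rw [pw_apply, one_mul]
  have := Complex.norm_mul_exp_arg_mul_I (x.1 j)
  rw [x.2.1 j] at this
  simpa using this

theorem continuous_pw (x : EM) : Continuous (fun u : I => pw x u) := by
  rw [continuous_em_iff]
  intro j
  simp only [pw_apply]
  fun_prop

theorem cr_pw (θ u v : ℝ) (h1 : -Real.pi < θ) (h2 : θ ≤ Real.pi) (hu0 : 0 ≤ u) (hu1 : u ≤ 1)
    (hv0 : 0 ≤ v) (hv1 : v ≤ 1) :
    cr (Complex.exp ((u * θ : ℝ) * Complex.I)) (Complex.exp ((v * θ : ℝ) * Complex.I)) = 0 := by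
  have hre : ∀ w : ℝ, (Complex.exp ((w : ℝ) * Complex.I)).re = Real.cos w := fun w => by
    rw [Complex.exp_ofReal_mul_I_re]
  have him : ∀ w : ℝ, (Complex.exp ((w : ℝ) * Complex.I)).im = Real.sin w := fun w => by
    rw [Complex.exp_ofReal_mul_I_im]
  unfold cr
  split_ifs with h
  · obtain ⟨a, b⟩ := h
    rw [hre] at a b
    unfold sd
    rw [him, him]
    rcases le_or_gt 0 θ with hθ | hθ
    · have s1 : 0 ≤ Real.sin (u * θ) := Real.sin_nonneg_of_nonneg_of_le_pi (by positivity) (by nlinarith)
      have s2 : 0 ≤ Real.sin (v * θ) := Real.sin_nonneg_of_nonneg_of_le_pi (by positivity) (by nlinarith)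
      rw [if_neg (by linarith), if_neg (by linarith)]
      rfl
    · have key : ∀ w : ℝ, 0 ≤ w → w ≤ 1 → Real.cos (w * θ) < 0 → Real.sin (w * θ) < 0 := by
        intro w w0 w1 hw
        have hw0 : w ≠ 0 := by
          rintro rfl
          rw [zero_mul, Real.cos_zero] at hw
          linarith
        have hwp : 0 < w := lt_of_le_of_ne w0 (Ne.symm hw0)
        apply Real.sin_neg_of_neg_of_neg_pi_lt
        · exact mul_neg_of_pos_of_neg hwp hθ
        · nlinarith
      rw [if_pos (key u hu0 hu1 a), if_pos (key v hv0 hv1 b)]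
      rfl
  · rfl

theorem hI_pw (x : EM) (m : ℕ) : hI (fun u : I => pw x u) m = 1 := by
  have h := hm_fix (ePath_pr (continuous_pw x)) (m := m) (a := 0) (b := 1) le_rfl zero_le_one
    (1 : FreeGroup ℕ →* FreeGroup ℕ) (by
      intro u v hu hu' hv hv'
      rw [MonoidHom.one_apply]
      symm
      unfold cM
      apply lp_eq_one
      intro j _
      exact cr_pw _ _ _ (Complex.neg_pi_lt_arg _) (Complex.arg_le_pi _) (pr u).2.1 (pr u).2.2
        (pr v).2.1 (pr v).2.2)
  rw [MonoidHom.one_apply] at h
  exact h.symm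

theorem cp_pw {x : EM} {s u : ℝ} (h : cp x s) (u0 : 0 ≤ u) (u1 : u ≤ 1) : cp (pw x u) (u * s) := by
  obtain ⟨h1, h2, h3⟩ := h
  refine ⟨?_, ?_, ?_⟩
  · rw [abs_mul, abs_of_nonneg u0]
    have := abs_nonneg s
    nlinarith
  · intro hpos j hj
    apply pw_eq_one
    apply h2 _ j hj
    by_contra hcon
    push Not at hcon
    nlinarith
  · intro hneg j hj
    apply pw_eq_one
    apply h3 _ j hj
    by_contra hcon
    push Not at hcon
    nlinarith

/-- standard path from the wedge point to a point -/
noncomputable def dp (p : GG) : Path oG p where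
  toFun u := ⟨Th (pw (rg p) u) (u * p.1.2), Th_mem (cp_pw (griff_cases p.2).1 u.2.1 u.2.2)⟩
  continuous_toFun := by
    apply Continuous.subtype_mk
    exact continuous_Th.comp ((continuous_pw (rg p)).prodMk (by fun_prop))
  source' := by
    apply Subtype.ext
    show Th (pw (rg p) ((0 : I) : ℝ)) (((0 : I) : ℝ) * p.1.2) = Th eb 0
    rw [Set.Icc.coe_zero, pw_zero, zero_mul]
  target' := by
    apply Subtype.ext
    show Th (pw (rg p) ((1 : I) : ℝ)) (((1 : I) : ℝ) * p.1.2) = p.1
    rw [Set.Icc.coe_one, pw_one, one_mul]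
    exact (griff_cases p.2).2.1

theorem dp_val (p : GG) (u : I) : (dp p u).1 = Th (pw (rg p) u) (u * p.1.2) := rfl

theorem dp_OG {p : GG} (hp : p ∈ OG) (u : I) : dp p u ∈ OG := by
  show |(u : ℝ) * p.1.2| < 1
  have h1 : |p.1.2| < 1 := hp
  rw [abs_mul, abs_of_nonneg u.2.1]
  have := u.2.2
  have := u.2.1
  have := abs_nonneg p.1.2
  nlinarith

theorem rg_dp {p : GG} (hp : p ∈ OG) (u : I) : rg (dp p u) = pw (rg p) u := by
  have h := dp_OG hp u
  exact rG_Th h

theorem dp_coneP {p : GG} (hp : p ∈ TP) (u : I) : (dp p u).1 ∈ coneP := by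
  have h0 : 0 < p.1.2 := hp
  have h1 : |p.1.2| ≤ 1 := (griff_cases p.2).1.1
  rw [abs_of_pos h0] at h1
  rw [dp_val]
  have a0 := u.2.1
  have a1 := u.2.2
  exact Th_coneP (by positivity) (by nlinarith) (fun j hj => pw_eq_one (rg_even hp j hj))

theorem dp_coneM {p : GG} (hp : p ∈ TM) (u : I) : (dp p u).1 ∈ coneM := by
  have h0 : p.1.2 < 0 := hp
  have h1 : |p.1.2| ≤ 1 := (griff_cases p.2).1.1
  rw [abs_of_neg h0] at h1
  rw [dp_val]
  have a0 := u.2.1
  have a1 := u.2.2
  exact Th_coneM (by nlinarith) (by nlinarith) (fun j hj => pw_eq_one (rg_odd hp j hj))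

theorem dp_oG : dp oG = Path.refl oG := by
  ext1
  funext u
  apply Subtype.ext
  show Th (pw (rg oG) u) (u * oG.1.2) = Th eb 0
  have h1 : rg oG = eb := rg_sgG eb
  rw [h1, oG_val]
  have h2 : pw eb u = eb := by
    rw [EM.ext_iff']
    intro j
    exact pw_eq_one rfl
  rw [h2, mul_zero]

theorem cp_scale {x : EM} {s u : ℝ} (h : cp x s) (u0 : 0 ≤ u) (u1 : u ≤ 1) : cp x (u * s) := by
  obtain ⟨h1, h2, h3⟩ := h
  refine ⟨?_, ?_, ?_⟩
  · rw [abs_mul, abs_of_nonneg u0]
    have := abs_nonneg s
    nlinarith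
  · intro hpos j hj
    apply h2 _ j hj
    by_contra hcon
    push Not at hcon
    nlinarith
  · intro hneg j hj
    apply h3 _ j hj
    by_contra hcon
    push Not at hcon
    nlinarith

/-- retraction of a loop away from the tips -/
noncomputable def rl (f : Path oG oG) (h : ∀ t, f t ∈ OG) : Path eb eb where
  toFun t := rg (f t)
  continuous_toFun := continuous_rg_comp f.continuous h
  source' := by rw [f.source]; exact rg_sgG eb
  target' := by rw [f.target]; exact rg_sgG eb

theorem homotopic_rl (f : Path oG oG) (h : ∀ t, f t ∈ OG) :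
    f.Homotopic ((rl f h).map continuous_sgG) := by
  refine ⟨{ toFun := fun q => ⟨Th (rg (f q.2)) ((1 - (q.1 : ℝ)) * (f q.2).1.2),
              Th_mem (cp_scale (griff_cases (f q.2).2).1 (by linarith [q.1.2.2])
                (by linarith [q.1.2.1]))⟩
            continuous_toFun := ?_
            map_zero_left := ?_
            map_one_left := ?_
            prop' := ?_ }⟩
  · apply Continuous.subtype_mk
    have h1 : Continuous (fun q : I × I => rg (f q.2)) :=
      (continuous_rg_comp f.continuous h).comp continuous_snd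
    have h2 : Continuous (fun q : I × I => (1 - (q.1 : ℝ)) * (f q.2).1.2) := by fun_prop
    exact continuous_Th.comp (h1.prodMk h2)
  · intro t
    apply Subtype.ext
    show Th (rg (f t)) ((1 - ((0 : I) : ℝ)) * (f t).1.2) = (f t).1
    rw [Set.Icc.coe_zero, sub_zero, one_mul]
    exact (griff_cases (f t).2).2.1
  · intro t
    apply Subtype.ext
    show Th (rg (f t)) ((1 - ((1 : I) : ℝ)) * (f t).1.2) = Th (rg (f t)) 0
    rw [Set.Icc.coe_one, sub_self, zero_mul]
  · intro s t ht
    have key : f t = oG := by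
      rcases ht with rfl | ht
      · exact f.source
      · rw [Set.mem_singleton_iff] at ht
        subst ht
        exact f.target
    apply Subtype.ext
    show Th (rg (f t)) ((1 - (s : ℝ)) * (f t).1.2) = (f t).1
    rw [key, show rg oG = eb from rg_sgG eb]
    show Th eb ((1 - (s : ℝ)) * 0) = Th eb 0
    rw [mul_zero]

theorem mk_of_OG (f : Path oG oG) (h : ∀ t, f t ∈ OG) :
    Path.Homotopic.Quotient.mk f = kbar continuous_sgG (hI (fun t => rg (f t))) := by
  have h1 : kbar continuous_sgG (hI (rl f h)) =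
      Path.Homotopic.Quotient.mk ((rl f h).map continuous_sgG) := kbar_hI continuous_sgG (rl f h)
  have h2 : Path.Homotopic.Quotient.mk f = Path.Homotopic.Quotient.mk ((rl f h).map continuous_sgG) :=
    Path.Homotopic.Quotient.eq.2 (homotopic_rl f h)
  rw [h2, ← h1]
  rfl

theorem hI_rg_trans {a b c : GG} (γ : Path a b) (γ' : Path b c) (h : ∀ t, γ t ∈ OG)
    (h' : ∀ t, γ' t ∈ OG) (m : ℕ) :
    hI (fun t => rg ((γ.trans γ') t)) m = hI (fun t => rg (γ t)) m * hI (fun t => rg (γ' t)) m := by
  let δ : Path (rg a) (rg b) :=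
    { toFun := fun t => rg (γ t)
      continuous_toFun := continuous_rg_comp γ.continuous h
      source' := by simp
      target' := by simp }
  let δ' : Path (rg b) (rg c) :=
    { toFun := fun t => rg (γ' t)
      continuous_toFun := continuous_rg_comp γ'.continuous h'
      source' := by simp
      target' := by simp }
  have key := hI_trans δ δ' m
  rw [← hI_congr (K := δ.trans δ') (K' := fun t => rg ((γ.trans γ') t))]
  · exact key
  · intro t
    rw [Path.trans_apply, Path.trans_apply]
    split_ifs <;> rfl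

theorem hI_rg_symm {a b : GG} (γ : Path a b) (h : ∀ t, γ t ∈ OG) (m : ℕ) :
    hI (fun t => rg (γ.symm t)) m = (hI (fun t => rg (γ t)) m)⁻¹ := by
  let δ : Path (rg a) (rg b) :=
    { toFun := fun t => rg (γ t)
      continuous_toFun := continuous_rg_comp γ.continuous h
      source' := by simp
      target' := by simp }
  exact hI_symm δ m

theorem trans_mem {X : Type*} [TopologicalSpace X] {a b c : X} (γ : Path a b) (γ' : Path b c)
    {U : Set X} (h : ∀ t, γ t ∈ U) (h' : ∀ t, γ' t ∈ U) (t : I) : (γ.trans γ') t ∈ U := by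
  rw [Path.trans_apply]
  split_ifs
  · exact h _
  · exact h' _

/-- one piece away from the tips -/
theorem piece_OG {a b : GG} (q : Path a b) (h : ∀ t, q t ∈ OG) :
    (Path.Homotopic.Quotient.mk (dp a)).trans (Path.Homotopic.Quotient.mk q)
      = (kbar continuous_sgG (hI (fun t => rg (q t)))).trans (Path.Homotopic.Quotient.mk (dp b)) := by
  have ha : a ∈ OG := by have := h 0; rwa [q.source] at this
  have hb : b ∈ OG := by have := h 1; rwa [q.target] at this
  have h1 : ∀ t, ((dp a).trans q) t ∈ OG := trans_mem _ _ (dp_OG ha) h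
  have h2 : ∀ t, (dp b).symm t ∈ OG := fun t => dp_OG hb _
  have key := mk_of_OG (((dp a).trans q).trans (dp b).symm) (trans_mem _ _ h1 h2)
  have e : hI (fun t => rg ((((dp a).trans q).trans (dp b).symm) t)) = hI (fun t => rg (q t)) := by
    funext m
    rw [hI_rg_trans _ _ h1 h2, hI_rg_trans _ _ (dp_OG ha) h, hI_rg_symm _ (dp_OG hb)]
    have e1 : ∀ {p : GG} (hp : p ∈ OG), hI (fun t => rg (dp p t)) m = 1 := by
      intro p hp
      rw [hI_congr (K' := fun u : I => pw (rg p) u) (fun v => rg_dp hp v)]
      exact hI_pw _ _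
    rw [e1 ha, e1 hb]
    group
  rw [e] at key
  rw [← key, Path.Homotopic.Quotient.mk_trans, Path.Homotopic.Quotient.mk_trans,
    Path.Homotopic.Quotient.mk_symm, Path.Homotopic.Quotient.trans_assoc,
    Path.Homotopic.Quotient.symm_trans, Path.Homotopic.Quotient.trans_refl]

theorem contr_coneP : ContractibleSpace coneP :=
  star_coneP.contractibleSpace ⟨_, Th_coneP (x := eb) le_rfl zero_le_one (fun _ _ => rfl)⟩

theorem contr_coneM : ContractibleSpace coneM :=
  star_coneM.contractibleSpace ⟨_, Th_coneM (x := eb) le_rfl (by norm_num) (fun _ _ => rfl)⟩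

theorem piece_TP {a b : GG} (q : Path a b) (h : ∀ t, q t ∈ TP) :
    (Path.Homotopic.Quotient.mk (dp a)).trans (Path.Homotopic.Quotient.mk q)
      = Path.Homotopic.Quotient.mk (dp b) := by
  have ha : a ∈ TP := by have := h 0; rwa [q.source] at this
  have hb : b ∈ TP := by have := h 1; rwa [q.target] at this
  rw [← Path.Homotopic.Quotient.mk_trans]
  apply Path.Homotopic.Quotient.eq.2
  refine homotopic_of_contractible coneP_sub contr_coneP _ _ ?_ (fun t => dp_coneP hb t)
  exact trans_mem (dp a) q (U := {p : GG | p.1 ∈ coneP}) (fun t => dp_coneP ha t)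
    (fun t => mem_coneP_of_pos (q t).2 (h t))

theorem piece_TM {a b : GG} (q : Path a b) (h : ∀ t, q t ∈ TM) :
    (Path.Homotopic.Quotient.mk (dp a)).trans (Path.Homotopic.Quotient.mk q)
      = Path.Homotopic.Quotient.mk (dp b) := by
  have ha : a ∈ TM := by have := h 0; rwa [q.source] at this
  have hb : b ∈ TM := by have := h 1; rwa [q.target] at this
  rw [← Path.Homotopic.Quotient.mk_trans]
  apply Path.Homotopic.Quotient.eq.2
  refine homotopic_of_contractible coneM_sub contr_coneM _ _ ?_ (fun t => dp_coneM hb t)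
  exact trans_mem (dp a) q (U := {p : GG | p.1 ∈ coneM}) (fun t => dp_coneM ha t)
    (fun t => mem_coneM_of_neg (q t).2 (h t))

theorem piece_good {a b : GG} (q : Path a b)
    (h : (∀ t, q t ∈ OG) ∨ (∀ t, q t ∈ TP) ∨ (∀ t, q t ∈ TM)) :
    (Path.Homotopic.Quotient.mk (dp a)).trans (Path.Homotopic.Quotient.mk q)
      = (kbar continuous_sgG (eI q)).trans (Path.Homotopic.Quotient.mk (dp b)) := by
  by_cases hO : ∀ t, q t ∈ OG
  · rw [eI_of hO]
    exact piece_OG q hO
  · rw [eI_of_not hO, kbar_one, Path.Homotopic.Quotient.refl_trans]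
    rcases h with h | h | h
    · exact absurd h hO
    · exact piece_TP q h
    · exact piece_TM q h

/-- the path as a function of a real time -/
noncomputable def FF {a b : GG} (f : Path a b) : ℝ → GG := fun t => f (pr t)

theorem continuous_FF {a b : GG} (f : Path a b) : Continuous (FF f) :=
  f.continuous.comp continuous_pr

theorem tame_pd {a : ℕ → ℕ → FreeGroup ℕ} (n : ℕ) (h : ∀ i, i < n → Tame (a i)) : Tame (pd a n) := by
  induction n with
  | zero => exact Tame.one
  | succ n ih => exact (ih (fun i hi => h i (by omega))).mul (h n (by omega))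

theorem QQ_pd {a : ℕ → ℕ → FreeGroup ℕ} (n : ℕ) (h : ∀ i, i < n → Tame (a i)) :
    QQ (pd a n) = pd (fun i => QQ (a i)) n := by
  induction n with
  | zero => exact QQ_one
  | succ n ih =>
    rw [pd, QQ_mul (tame_pd n (fun i hi => h i (by omega))) (h n (by omega)),
      ih (fun i hi => h i (by omega)), pd]

/-- the sequence attached to a subdivision -/
noncomputable def PhiN {a b : GG} (f : Path a b) (N : ℕ) : ℕ → FreeGroup ℕ :=
  pd (fun i : ℕ => eI (pc (FF f) (i / N) ((i + 1) / N))) N

theorem tame_PhiN {a b : GG} (f : Path a b) (N : ℕ) : Tame (PhiN f N) :=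
  tame_pd N (fun _ _ => tame_eI (continuous_pc (continuous_FF f) _ _))

theorem QQ_PhiN {a b : GG} (f : Path a b) (N : ℕ) : QQ (PhiN f N) = PN (FF f) N :=
  QQ_pd N (fun _ _ => tame_eI (continuous_pc (continuous_FF f) _ _))

theorem mk_cast_iff {x y a b : GG} (hx : x = a) (hy : y = b) (f : Path a b)
    (K : Path.Homotopic.Quotient oG oG) :
    (Path.Homotopic.Quotient.mk (dp x)).trans (Path.Homotopic.Quotient.mk (f.cast hx hy))
      = K.trans (Path.Homotopic.Quotient.mk (dp y)) ↔
    (Path.Homotopic.Quotient.mk (dp a)).trans (Path.Homotopic.Quotient.mk f)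
      = K.trans (Path.Homotopic.Quotient.mk (dp b)) := by
  subst hx
  subst hy
  rfl

theorem mk_eq_kbar {a b : GG} (f : Path a b) {N : ℕ} (hN : 0 < N) (h : AG (FF f) N) :
    (Path.Homotopic.Quotient.mk (dp a)).trans (Path.Homotopic.Quotient.mk f)
      = (kbar continuous_sgG (PhiN f N)).trans (Path.Homotopic.Quotient.mk (dp b)) := by
  have hNp : (0:ℝ) < N := by exact_mod_cast hN
  have key : ∀ n : ℕ, n ≤ N →
      (Path.Homotopic.Quotient.mk (dp (f 0))).trans
        (Path.Homotopic.Quotient.mk (f.subpath 0 (pr (n / N))))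
      = (kbar continuous_sgG (pd (fun i : ℕ => eI (pc (FF f) (i / N) ((i + 1) / N))) n)).trans
        (Path.Homotopic.Quotient.mk (dp (f (pr (n / N))))) := by
    intro n
    induction n with
    | zero =>
      intro _
      have e : pr (((0:ℕ) : ℝ) / N) = 0 := by
        rw [Nat.cast_zero, zero_div, pr_zero]
      rw [e, Path.subpath_self, Path.Homotopic.Quotient.mk_refl, Path.Homotopic.Quotient.trans_refl]
      show _ = (kbar continuous_sgG 1).trans _
      rw [kbar_one, Path.Homotopic.Quotient.refl_trans]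
    | succ n ih =>
      intro hn
      have hn' := ih (by omega)
      set t0 := pr ((n : ℝ) / N) with ht0
      set t1 := pr (((n + 1 : ℕ) : ℝ) / N) with ht1
      have h1 : Path.Homotopic.Quotient.mk (f.subpath 0 t1)
          = (Path.Homotopic.Quotient.mk (f.subpath 0 t0)).trans
            (Path.Homotopic.Quotient.mk (f.subpath t0 t1)) := by
        rw [← Path.Homotopic.Quotient.mk_trans]
        exact (Path.Homotopic.Quotient.eq.2 ⟨Path.Homotopy.subpathTransSubpath f 0 t0 t1⟩).symm
      have hn0 : (0:ℝ) ≤ n / N := by positivity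
      have hn1 : ((n : ℝ) + 1) / N ≤ 1 := by
        rw [div_le_one hNp]
        exact_mod_cast hn
      have hlt : (n : ℝ) / N ≤ (n + 1) / N := by gcongr; linarith
      have e1 : ((t0 : I) : ℝ) = n / N := pr_val hn0 (hlt.trans hn1)
      have e2 : ((t1 : I) : ℝ) = (n + 1) / N := by
        rw [ht1]
        push_cast
        exact pr_val (hn0.trans hlt) hn1
      have e3 : ∀ v : I, f.subpath t0 t1 v = pc (FF f) (n / N) ((n + 1) / N) v := by
        intro v
        have hv0 := v.2.1
        have hv1 := v.2.2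
        show f (Set.Icc.convexComb t0 t1 v) = f (pr (n / N + ((n + 1) / N - n / N) * v))
        congr 1
        apply Subtype.ext
        rw [pr_val]
        · show (1 - (v : ℝ)) * (t0 : ℝ) + v * (t1 : ℝ) = _
          rw [e1, e2]
          ring
        · nlinarith
        · nlinarith
      have e4 : eI (f.subpath t0 t1) = eI (pc (FF f) (n / N) ((n + 1) / N)) := by
        congr 1
        funext v
        exact e3 v
      have hg : (∀ t, f.subpath t0 t1 t ∈ OG) ∨ (∀ t, f.subpath t0 t1 t ∈ TP) ∨
          (∀ t, f.subpath t0 t1 t ∈ TM) := by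
        rcases h n (by omega) with h | h | h
        · left; intro t; rw [e3]; exact h t
        · right; left; intro t; rw [e3]; exact h t
        · right; right; intro t; rw [e3]; exact h t
      have hp := piece_good (f.subpath t0 t1) hg
      rw [h1, ← Path.Homotopic.Quotient.trans_assoc, hn', Path.Homotopic.Quotient.trans_assoc,
        hp, ← Path.Homotopic.Quotient.trans_assoc, e4, ← kbar_mul]
      · rfl
      · exact tame_pd n (fun _ _ => tame_eI (continuous_pc (continuous_FF f) _ _))
      · exact tame_eI (continuous_pc (continuous_FF f) _ _)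
  have hN' := key N le_rfl
  have e : pr ((N : ℝ) / N) = 1 := by rw [div_self hNp.ne', pr_one]
  rw [e, Path.subpath_zero_one] at hN'
  exact (mk_cast_iff f.source f.target f _).1 hN'

theorem mk_eq_kbar_loop (f : Path oG oG) {N : ℕ} (hN : 0 < N) (h : AG (FF f) N) :
    Path.Homotopic.Quotient.mk f = kbar continuous_sgG (PhiN f N) := by
  have := mk_eq_kbar f hN h
  rw [dp_oG, Path.Homotopic.Quotient.mk_refl, Path.Homotopic.Quotient.refl_trans,
    Path.Homotopic.Quotient.trans_refl] at this
  exact this

theorem pureKill : PureKill continuous_sgG := by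
  intro V hV hc
  obtain ⟨c, hc⟩ := hc
  unfold kap
  rw [← Path.Homotopic.Quotient.mk_refl]
  apply Path.Homotopic.Quotient.eq.2
  have habs : ∀ j, ¬ j % 2 = c → ∀ t : I, (rzp hV t).1 j = 1 := by
    intro j hj t
    rw [rzp_apply]
    apply rz_absent hV
    intro m a ha hcon
    apply hj
    have := hc m a ha
    rw [← hcon]
    exact this
  by_cases hc0 : c = 0
  · subst hc0
    refine homotopic_of_contractible coneP_sub contr_coneP _ _ ?_ ?_
    · intro t
      exact Th_coneP le_rfl zero_le_one (fun j hj => habs j hj t)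
    · intro t
      exact Th_coneP (x := eb) le_rfl zero_le_one (fun _ _ => rfl)
  · refine homotopic_of_contractible coneM_sub contr_coneM _ _ ?_ ?_
    · intro t
      exact Th_coneM le_rfl (by norm_num) (fun j hj => habs j (by omega) t)
    · intro t
      exact Th_coneM (x := eb) le_rfl (by norm_num) (fun _ _ => rfl)

/-- homotopy of loops in terms of the invariants -/
theorem griff_iff (f g : Path oG oG) {N M : ℕ} (hN : 0 < N) (hM : 0 < M) (h : AG (FF f) N)
    (h' : AG (FF g) M) :
    f.Homotopic g ↔ ∀ᶠ k in atTop, DD k (PhiN f N) = DD k (PhiN g M) := by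
  rw [← QQ_eq, QQ_PhiN, QQ_PhiN]
  constructor
  · rintro ⟨H⟩
    have hH : Continuous (fun p : I × I => H (p.2, p.1)) := H.continuous.comp (by fun_prop)
    obtain ⟨L, hL, a1, a2, a3⟩ := PN_homotopy (H := fun u v => H (v, u)) hH (x := oG) (y := oG)
      (fun v => H.source v) (fun v => H.target v)
    have e1 : (fun t => H (0, pr t)) = FF f := by
      funext t
      exact H.apply_zero _
    have e2 : (fun t => H (1, pr t)) = FF g := by
      funext t
      exact H.apply_one _
    rw [e1] at a1 a3
    rw [e2] at a2 a3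
    rw [PN_eq (continuous_FF f) hN hL h a1, PN_eq (continuous_FF g) hM hL h' a2, a3]
  · intro hQ
    rw [← QQ_PhiN, ← QQ_PhiN, QQ_eq] at hQ
    obtain ⟨k, hk⟩ := hQ.exists
    apply Path.Homotopic.Quotient.eq.1
    rw [mk_eq_kbar_loop f hN h, mk_eq_kbar_loop g hM h',
      ← kbar_DD continuous_sgG pureKill k (tame_PhiN f N),
      ← kbar_DD continuous_sgG pureKill k (tame_PhiN g M), hk]

end Pool.Agent.MP3fbd41
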