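import Mathlib

/-!
# Holonomy of local cocycles along paths

`c : X → X → G` is a local cocycle with respect to a reflexive relation `near`.
Paths are functions `ℝ → X`, only used at nonnegative times.
-/

namespace Pool.Agent.MP3fbd41

variable {X G : Type*} [Group G]

/-- `c` is a cocycle for triples of pairwise near points. -/
def IsCoc (near : X → X → Prop) (c : X → X → G) : Prop :=
  ∀ x y z, near x y → near y z → near x z → c x y * c y z = c x z

/-- `g` is a primitive of `c` along `F` with mesh `δ`. -/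
def Prim (c : X → X → G) (F : ℝ → X) (g : ℝ → G) (δ : ℝ) : Prop :=
  ∀ s t, 0 ≤ s → 0 ≤ t → |s - t| ≤ δ → g t = g s * c (F s) (F t)

/-- the path is fine at scale `δ` -/
def Fine (near : X → X → Prop) (F : ℝ → X) (δ : ℝ) : Prop :=
  ∀ s t, 0 ≤ s → 0 ≤ t → |s - t| ≤ δ → near (F s) (F t)

theorem Prim.mono {c : X → X → G} {F : ℝ → X} {g : ℝ → G} {δ δ' : ℝ}
    (h : Prim c F g δ) (hd : δ' ≤ δ) : Prim c F g δ' :=
  fun s t hs ht hst => h s t hs ht (hst.trans hd)

theorem Fine.mono {near : X → X → Prop} {F : ℝ → X} {δ δ' : ℝ}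
    (h : Fine near F δ) (hd : δ' ≤ δ) : Fine near F δ' :=
  fun s t hs ht hst => h s t hs ht (hst.trans hd)

/-- a function which is locally constant at a uniform scale on `[a, b]` is constant -/
theorem const_of_step {Y : Type*} {k : ℝ → Y} {δ a b : ℝ} (hδ : 0 < δ)
    (h : ∀ s t, a ≤ s → s ≤ b → a ≤ t → t ≤ b → |s - t| ≤ δ → k s = k t)
    {t : ℝ} (hat : a ≤ t) (htb : t ≤ b) : k t = k a := by
  have key : ∀ n : ℕ, ∀ t, a ≤ t → t ≤ b → t ≤ a + n * δ → k t = k a := by
    intro n
    induction n with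
    | zero =>
      intro t h1 h2 h3
      have : t = a := by
        simp at h3
        linarith
      rw [this]
    | succ n ih =>
      intro t h1 h2 h3
      by_cases h4 : t ≤ a + δ
      · exact h t a h1 h2 le_rfl (h1.trans h2) (by rw [abs_le]; constructor <;> linarith)
      · push Not at h4
        have h5 : k (t - δ) = k a := by
          apply ih
          · linarith
          · linarith
          · push_cast at h3
            linarith
        rw [← h5]
        exact h t (t - δ) h1 h2 (by linarith) (by linarith)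
          (by rw [abs_le]; constructor <;> linarith)
  obtain ⟨n, hn⟩ := exists_nat_ge ((t - a) / δ)
  apply key n t hat htb
  rw [div_le_iff₀ hδ] at hn
  linarith

theorem IsCoc.self {near : X → X → Prop} {c : X → X → G} (hc : IsCoc near c)
    {x : X} (h : near x x) : c x x = 1 := by
  have := hc x x x h h h
  simpa using this

/-- existence of primitives -/
theorem exists_prim {near : X → X → Prop} {c : X → X → G} (hc : IsCoc near c)
    {F : ℝ → X} {δ : ℝ} (hδ : 0 < δ) (hF : Fine near F (2 * δ)) :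
    ∃ g : ℝ → G, g 0 = 1 ∧ Prim c F g δ := by
  let A : ℕ → G := fun n => Nat.rec 1 (fun n a => a * c (F (n * δ)) (F ((n + 1) * δ))) n
  have hA : ∀ n : ℕ, A (n + 1) = A n * c (F (n * δ)) (F ((n + 1) * δ)) := fun n => rfl
  let g : ℝ → G := fun t => A ⌊t / δ⌋₊ * c (F (⌊t / δ⌋₊ * δ)) (F t)
  have h00 : near (F 0) (F 0) := hF 0 0 le_rfl le_rfl (by simp; linarith)
  refine ⟨g, ?_, ?_⟩
  · show A ⌊(0:ℝ) / δ⌋₊ * c (F (⌊(0:ℝ) / δ⌋₊ * δ)) (F 0) = 1
    have : A 0 = 1 := rfl
    simp [this, hc.self h00]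
  · have key : ∀ s t, 0 ≤ s → s ≤ t → t - s ≤ δ → g t = g s * c (F s) (F t) := by
      intro s t hs hst hd
      have ht : 0 ≤ t := hs.trans hst
      set n := ⌊s / δ⌋₊ with hn
      have hn1 : (n : ℝ) * δ ≤ s := by
        have := Nat.floor_le (div_nonneg hs hδ.le)
        rwa [le_div_iff₀ hδ] at this
      have hn2 : s < (n + 1) * δ := by
        have := Nat.lt_floor_add_one (s / δ)
        rwa [div_lt_iff₀ hδ] at this
      have hn0 : (0:ℝ) ≤ n * δ := by positivity
      have hle : n ≤ ⌊t / δ⌋₊ := Nat.floor_le_floor (by gcongr)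
      have hle2 : ⌊t / δ⌋₊ ≤ n + 1 := by
        have : ⌊t / δ⌋₊ < n + 2 := by
          rw [Nat.floor_lt (div_nonneg ht hδ.le), div_lt_iff₀ hδ]
          push_cast
          nlinarith
        omega
      rcases (show ⌊t / δ⌋₊ = n ∨ ⌊t / δ⌋₊ = n + 1 by omega) with he | he
      · show A ⌊t / δ⌋₊ * c (F (⌊t / δ⌋₊ * δ)) (F t) = A n * c (F (n * δ)) (F s) * c (F s) (F t)
        rw [he, mul_assoc]
        congr 1
        symm
        apply hc
        · apply hF _ _ hn0 hs
          rw [abs_le]; constructor <;> nlinarith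
        · apply hF _ _ hs ht
          rw [abs_le]; constructor <;> linarith
        · apply hF _ _ hn0 ht
          rw [abs_le]; constructor <;> nlinarith
      · have ht1 : ((n : ℝ) + 1) * δ ≤ t := by
          have := Nat.floor_le (div_nonneg ht hδ.le)
          rw [le_div_iff₀ hδ, he] at this
          push_cast at this
          exact this
        show A ⌊t / δ⌋₊ * c (F (⌊t / δ⌋₊ * δ)) (F t) = A n * c (F (n * δ)) (F s) * c (F s) (F t)
        rw [he, hA, mul_assoc, mul_assoc]
        congr 1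
        have hn3 : (0:ℝ) ≤ (n + 1) * δ := by positivity
        have e1 : c (F (n * δ)) (F ((n + 1) * δ)) * c (F (((n + 1 : ℕ) : ℝ) * δ)) (F t)
            = c (F (n * δ)) (F t) := by
          push_cast
          apply hc
          · apply hF _ _ hn0 hn3
            rw [abs_le]; constructor <;> nlinarith
          · apply hF _ _ hn3 ht
            rw [abs_le]; constructor <;> nlinarith
          · apply hF _ _ hn0 ht
            rw [abs_le]; constructor <;> nlinarith
        rw [e1]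
        symm
        apply hc
        · apply hF _ _ hn0 hs
          rw [abs_le]; constructor <;> nlinarith
        · apply hF _ _ hs ht
          rw [abs_le]; constructor <;> linarith
        · apply hF _ _ hn0 ht
          rw [abs_le]; constructor <;> nlinarith
    intro s t hs ht hst
    rcases le_total s t with h | h
    · exact key s t hs h (by rw [abs_le] at hst; linarith)
    · have h1 := key t s ht h (by rw [abs_le] at hst; linarith)
      have h2 : c (F t) (F s) * c (F s) (F t) = 1 := by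
        rw [hc (F t) (F s) (F t), hc.self]
        · exact hF _ _ ht ht (by simp; linarith)
        · exact hF _ _ ht hs (by rw [abs_sub_comm]; linarith)
        · exact hF _ _ hs ht (by linarith)
        · exact hF _ _ ht ht (by simp; linarith)
      rw [h1, mul_assoc, h2, mul_one]

/-- two primitives differ by a left factor -/
theorem Prim.unique {c : X → X → G} {F : ℝ → X} {g g' : ℝ → G} {δ δ' : ℝ}
    (hδ : 0 < δ) (hδ' : 0 < δ') (h : Prim c F g δ) (h' : Prim c F g' δ')
    {s t : ℝ} (hs : 0 ≤ s) (ht : 0 ≤ t) : (g s)⁻¹ * g t = (g' s)⁻¹ * g' t := by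
  have key : ∀ t, 0 ≤ t → g t * (g' t)⁻¹ = g 0 * (g' 0)⁻¹ := by
    intro t ht
    refine const_of_step (k := fun t => g t * (g' t)⁻¹) (δ := min δ δ') (a := 0) (b := t)
      (lt_min hδ hδ') ?_ ht le_rfl
    intro u v hu _ hv _ huv
    have e1 := h u v hu hv (huv.trans (min_le_left _ _))
    have e2 := h' u v hu hv (huv.trans (min_le_right _ _))
    show g u * (g' u)⁻¹ = g v * (g' v)⁻¹
    rw [e1, e2]
    group
  have h1 := key s hs
  have h2 := key t ht
  have h3 : g t = g s * (g' s)⁻¹ * g' t := by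
    rw [h1, ← h2]
    group
  rw [h3]
  group

open Classical in
/-- The holonomy of `c` along `F` from time `s` to time `t`. -/
noncomputable def hol (c : X → X → G) (F : ℝ → X) (s t : ℝ) : G :=
  if h : ∃ g : ℝ → G, ∃ δ, 0 < δ ∧ Prim c F g δ then (h.choose s)⁻¹ * h.choose t else 1

theorem hol_eq {c : X → X → G} {F : ℝ → X} {g : ℝ → G} {δ : ℝ} (hδ : 0 < δ)
    (h : Prim c F g δ) {s t : ℝ} (hs : 0 ≤ s) (ht : 0 ≤ t) :
    hol c F s t = (g s)⁻¹ * g t := by
  have hex : ∃ g : ℝ → G, ∃ δ, 0 < δ ∧ Prim c F g δ := ⟨g, δ, hδ, h⟩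
  unfold hol
  rw [dif_pos hex]
  obtain ⟨δ', hδ', h'⟩ := hex.choose_spec
  exact h'.unique hδ' hδ h hs ht

theorem hol_mul {c : X → X → G} {F : ℝ → X} (hex : ∃ g : ℝ → G, ∃ δ, 0 < δ ∧ Prim c F g δ)
    {s t u : ℝ} (hs : 0 ≤ s) (ht : 0 ≤ t) (hu : 0 ≤ u) :
    hol c F s t * hol c F t u = hol c F s u := by
  obtain ⟨g, δ, hδ, h⟩ := hex
  rw [hol_eq hδ h hs ht, hol_eq hδ h ht hu, hol_eq hδ h hs hu]
  group

theorem hol_self {c : X → X → G} {F : ℝ → X} (s : ℝ) :
    hol c F s s = 1 := by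
  unfold hol
  split_ifs <;> simp

/-- If all values on `[a, b]` are pairwise near, the holonomy is `c` of the end points. -/
theorem hol_of_near {near : X → X → Prop} {c : X → X → G} (hc : IsCoc near c)
    {F : ℝ → X} (hex : ∃ g : ℝ → G, ∃ δ, 0 < δ ∧ Prim c F g δ) {a b : ℝ} (ha : 0 ≤ a)
    (hab : a ≤ b) (hn : ∀ u v, a ≤ u → u ≤ b → a ≤ v → v ≤ b → near (F u) (F v)) :
    hol c F a b = c (F a) (F b) := by
  obtain ⟨g, δ, hδ, h⟩ := hex
  rw [hol_eq hδ h ha (ha.trans hab)]
  have key := const_of_step (k := fun t => g t * (c (F a) (F t))⁻¹) (δ := δ) (a := a) (b := b)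
    hδ (by
      intro s t hs hs' ht ht' hst
      have e1 := h s t (ha.trans hs) (ha.trans ht) hst
      have e2 := hc (F a) (F s) (F t) (hn _ _ le_rfl hab hs hs') (hn _ _ hs hs' ht ht')
        (hn _ _ le_rfl hab ht ht')
      show g s * (c (F a) (F s))⁻¹ = g t * (c (F a) (F t))⁻¹
      rw [e1, ← e2]
      group) hab le_rfl
  have e3 : c (F a) (F a) = 1 := hc.self (hn _ _ le_rfl hab le_rfl hab)
  simp only [e3, inv_one, mul_one] at key
  have e4 : g b = g a * c (F a) (F b) := by
    rw [← key]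
    group
  rw [e4]
  group

/-- Transport of a primitive to a close path. -/
theorem Prim.transport {near : X → X → Prop} {c : X → X → G} (hc : IsCoc near c)
    {F F' : ℝ → X} {g : ℝ → G} {δ : ℝ} (h : Prim c F g δ)
    (h1 : Fine near F δ) (h2 : Fine near F' δ)
    (h3 : ∀ s t, 0 ≤ s → 0 ≤ t → |s - t| ≤ δ → near (F s) (F' t)) :
    Prim c F' (fun t => g t * c (F t) (F' t)) δ := by
  intro s t hs ht hst
  have hδ : 0 ≤ δ := (abs_nonneg _).trans hst
  show g t * c (F t) (F' t) = g s * c (F s) (F' s) * c (F' s) (F' t)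
  rw [h s t hs ht hst, mul_assoc, mul_assoc]
  congr 1
  rw [hc _ _ _ (h1 _ _ hs ht hst) (h3 _ _ ht ht (by simpa using hδ)) (h3 _ _ hs ht hst),
    hc _ _ _ (h3 _ _ hs hs (by simpa using hδ)) (h2 _ _ hs ht hst) (h3 _ _ hs ht hst)]

/-- The cell lemma: going around a rectangle. -/
theorem hol_cell {near : X → X → Prop} {c : X → X → G} (hc : IsCoc near c)
    {K : ℝ → ℝ → X} {δ : ℝ} (hδ : 0 < δ)
    (hK : ∀ s s' τ τ', 0 ≤ s → 0 ≤ s' → 0 ≤ τ → 0 ≤ τ' → |s - s'| ≤ 2 * δ → |τ - τ'| ≤ 2 * δ →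
      near (K s τ) (K s' τ'))
    {s t τ τ' : ℝ} (hs : 0 ≤ s) (ht : 0 ≤ t) (hτ : 0 ≤ τ) (hττ : τ ≤ τ') :
    hol c (fun u => K u τ) s t * hol c (fun v => K t v) τ τ'
      = hol c (fun v => K s v) τ τ' * hol c (fun u => K u τ') s t := by
  have h2 : (0:ℝ) ≤ 2 * δ := by linarith
  have prow : ∀ v, 0 ≤ v → ∃ g : ℝ → G, g 0 = 1 ∧ Prim c (fun u => K u v) g δ := fun v hv =>
    exists_prim hc hδ (fun a b ha hb hab => hK _ _ _ _ ha hb hv hv hab (by simpa using h2))
  have pcol : ∀ u, 0 ≤ u → ∃ g : ℝ → G, g 0 = 1 ∧ Prim c (fun v => K u v) g δ := fun u hu =>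
    exists_prim hc hδ (fun a b ha hb hab => hK _ _ _ _ hu hu ha hb (by simpa using h2) hab)
  obtain ⟨gs, -, hgs⟩ := pcol s hs
  obtain ⟨gt, -, hgt⟩ := pcol t ht
  have hτ' : 0 ≤ τ' := hτ.trans hττ
  have key := const_of_step
    (k := fun v => gs v * hol c (fun u => K u v) s t * (gt v)⁻¹) (δ := δ) (a := τ) (b := τ')
    hδ (by
      intro v v' hv _ hv' _ hvv
      have hv0 : 0 ≤ v := hτ.trans hv
      have hv0' : 0 ≤ v' := hτ.trans hv'
      obtain ⟨g, -, hg⟩ := prow v hv0
      have hvv2 : |v - v'| ≤ 2 * δ := by linarith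
      have tr := hg.transport hc (F' := fun u => K u v')
        (fun a b ha hb hab => hK _ _ _ _ ha hb hv0 hv0 (by linarith) (by simpa using h2))
        (fun a b ha hb hab => hK _ _ _ _ ha hb hv0' hv0' (by linarith) (by simpa using h2))
        (fun a b ha hb hab => hK _ _ _ _ ha hb hv0 hv0' (by linarith) hvv2)
      show gs v * hol c (fun u => K u v) s t * (gt v)⁻¹
        = gs v' * hol c (fun u => K u v') s t * (gt v')⁻¹
      rw [hol_eq hδ hg hs ht, hol_eq hδ tr hs ht, hgs v v' hv0 hv0' hvv, hgt v v' hv0 hv0' hvv]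
      group) hττ le_rfl
  rw [hol_eq hδ hgt hτ hτ', hol_eq hδ hgs hτ hτ']
  have key' : gs τ' * hol c (fun u => K u τ') s t * (gt τ')⁻¹
      = gs τ * hol c (fun u => K u τ) s t * (gt τ)⁻¹ := key
  have e : hol c (fun u => K u τ') s t
      = (gs τ')⁻¹ * (gs τ * hol c (fun u => K u τ) s t * (gt τ)⁻¹) * gt τ' := by
    rw [← key']
    group
  rw [e]
  group

/-- Compatibility of the holonomy with homomorphisms. -/
theorem Prim.map {G' : Type*} [Group G'] {c : X → X → G} {c' : X → X → G'} (φ : G →* G')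
    {F : ℝ → X} {g : ℝ → G} {δ : ℝ} (h : Prim c F g δ)
    (hφ : ∀ s t, 0 ≤ s → 0 ≤ t → φ (c (F s) (F t)) = c' (F s) (F t)) :
    Prim c' F (fun t => φ (g t)) δ := by
  intro s t hs ht hst
  show φ (g t) = φ (g s) * c' (F s) (F t)
  rw [h s t hs ht hst, map_mul, hφ s t hs ht]

theorem map_hol {G' : Type*} [Group G'] {c : X → X → G} {c' : X → X → G'} (φ : G →* G')
    {F : ℝ → X} (hex : ∃ g : ℝ → G, ∃ δ, 0 < δ ∧ Prim c F g δ)
    (hφ : ∀ s t, 0 ≤ s → 0 ≤ t → φ (c (F s) (F t)) = c' (F s) (F t))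
    {s t : ℝ} (hs : 0 ≤ s) (ht : 0 ≤ t) :
    φ (hol c F s t) = hol c' F s t := by
  obtain ⟨g, δ, hδ, h⟩ := hex
  rw [hol_eq hδ h hs ht, hol_eq hδ (h.map φ hφ) hs ht]
  simp

end Pool.Agent.MP3fbd41
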