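import Pool.Agent.Lib.MP_3fbd41_lc.Realize

/-!
# Realising infinite words by paths in the model: the limit
-/

namespace Pool.Agent.MP3fbd41

open Filter Topology

theorem wt_step (w : ℕ → ℝ) (m : ℕ) (L : List (ℕ × Bool)) (h : ∀ a ∈ L, a.1 < m + 1) :
    wt w L = wt w (sm m L) + w m * nj m L := by
  induction L with
  | nil => simp [wt, sm, nj]
  | cons a L ih =>
    have ha := h a List.mem_cons_self
    have h' : ∀ a ∈ L, a.1 < m + 1 := fun b hb => h b (List.mem_cons_of_mem _ hb)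
    rw [wt_cons, nj_cons, ih h']
    by_cases h1 : a.1 < m
    · rw [sm_cons_lt h1, wt_cons, if_neg (by omega)]
      push_cast
      ring
    · have h2 : a.1 = m := by omega
      rw [sm_cons_ge h1, if_pos h2, h2]
      push_cast
      ring

/-- durations of the letters -/
noncomputable def ww (V : ℕ → List (ℕ × Bool)) (j : ℕ) : ℝ :=
  (1 / 2) ^ (j + 1) / (nj j (V (j + 1)) + 1)

theorem ww_pos (V : ℕ → List (ℕ × Bool)) (j : ℕ) : 0 < ww V j := by
  unfold ww; positivity

theorem Coh.mem_lt {V : ℕ → List (ℕ × Bool)} (hV : Coh V) {m : ℕ} {a : ℕ × Bool}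
    (h : a ∈ V m) : a.1 < m := by
  rw [← hV m m le_rfl, mem_sm] at h
  exact h.2

theorem wt_succ_le {V : ℕ → List (ℕ × Bool)} (hV : Coh V) (m : ℕ) :
    wt (ww V) (V (m + 1)) ≤ wt (ww V) (V m) + (1 / 2) ^ (m + 1) := by
  rw [wt_step (ww V) m (V (m + 1)) (fun a ha => hV.mem_lt ha), hV m (m + 1) (Nat.le_succ m)]
  have h1 : ww V m * nj m (V (m + 1)) ≤ (1 / 2) ^ (m + 1) := by
    unfold ww
    rw [div_mul_eq_mul_div, div_le_iff₀ (by positivity)]
    apply mul_le_mul_of_nonneg_left _ (by positivity)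
    linarith
  linarith

theorem wt_diff {V : ℕ → List (ℕ × Bool)} (hV : Coh V) {m m' : ℕ} (h : m ≤ m') :
    wt (ww V) (V m') - wt (ww V) (V m) ≤ (1 / 2) ^ m - (1 / 2) ^ m' := by
  induction m', h using Nat.le_induction with
  | base => simp
  | succ n hn ih =>
    have h1 := wt_succ_le hV n
    have h2 : (1 / 2 : ℝ) ^ (n + 1) = (1 / 2) ^ n / 2 := by rw [pow_succ]; ring
    rw [h2] at h1 ⊢
    linarith

theorem wt_le_one {V : ℕ → List (ℕ × Bool)} (hV : Coh V) (m : ℕ) : wt (ww V) (V m) ≤ 1 := by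
  have h1 := wt_diff hV (Nat.zero_le m)
  have h2 : V 0 = [] := by
    rw [← hV 0 0 le_rfl, sm_eq_nil]
    intro a _
    exact Nat.zero_le _
  rw [h2] at h1
  have h3 : wt (ww V) [] = 0 := rfl
  have h4 : (0:ℝ) < (1 / 2) ^ m := by positivity
  rw [h3] at h1
  norm_num at h1
  linarith

/-- constant in the error bounds -/
noncomputable def cj (V : ℕ → List (ℕ × Bool)) (j : ℕ) : ℝ := nj j (V (j + 1)) / ww V j

theorem cj_nonneg (V : ℕ → List (ℕ × Bool)) (j : ℕ) : 0 ≤ cj V j :=
  div_nonneg (Nat.cast_nonneg _) (ww_pos V j).le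

theorem nj_coh {V : ℕ → List (ℕ × Bool)} (hV : Coh V) {j m : ℕ} (h : j < m) :
    nj j (V m) = nj j (V (j + 1)) := by
  rw [← hV (j + 1) m h, nj_sm (Nat.lt_succ_self j)]

theorem phi_cauchy {V : ℕ → List (ℕ × Bool)} (hV : Coh V) {j m m' : ℕ} (hj : j < m)
    (h : m ≤ m') (t : ℝ) :
    |phi (ww V) j (V m') t - phi (ww V) j (V m) t| ≤ cj V j * (1 / 2) ^ m := by
  have h1 := phi_compare (ww_pos V) hj (V m') t t
  rw [hV m m' h, nj_coh hV (hj.trans_le h)] at h1
  refine h1.trans ?_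
  have h2 := wt_diff hV h
  have h3 : (0:ℝ) < (1 / 2) ^ m' := by positivity
  have h4 : |t - t| + (wt (ww V) (V m') - wt (ww V) (V m)) ≤ (1 / 2) ^ m := by
    rw [sub_self, abs_zero]; linarith
  unfold cj
  rw [div_mul_eq_mul_div, mul_div_assoc]
  apply mul_le_mul_of_nonneg_left _ (Nat.cast_nonneg _)
  exact div_le_div_of_nonneg_right h4 (ww_pos V j).le

theorem phi_tendsto {V : ℕ → List (ℕ × Bool)} (hV : Coh V) (j : ℕ) (t : ℝ) :
    ∃ x, Tendsto (fun m => phi (ww V) j (V m) t) atTop (𝓝 x) := by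
  have hc : CauchySeq (fun n => phi (ww V) j (V (n + (j + 1))) t) := by
    refine cauchySeq_of_le_tendsto_0 (fun N => 2 * cj V j * (1 / 2) ^ (N + (j + 1))) ?_ ?_
    · intro n m N hn hm
      have h1 := phi_cauchy hV (j := j) (m := N + (j + 1)) (m' := n + (j + 1)) (by omega)
        (by omega) t
      have h2 := phi_cauchy hV (j := j) (m := N + (j + 1)) (m' := m + (j + 1)) (by omega)
        (by omega) t
      rw [Real.dist_eq]
      rw [abs_le] at h1 h2 ⊢
      constructor <;> linarith [h1.1, h1.2, h2.1, h2.2]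
    · have : Tendsto (fun N : ℕ => (1 / 2 : ℝ) ^ (N + (j + 1))) atTop (𝓝 0) :=
        (tendsto_pow_atTop_nhds_zero_of_lt_one (by norm_num) (by norm_num)).comp
          (tendsto_add_atTop_nat (j + 1))
      simpa using this.const_mul (2 * cj V j)
  obtain ⟨x, hx⟩ := cauchySeq_tendsto_of_complete hc
  exact ⟨x, (tendsto_add_atTop_iff_nat (j + 1)).1 hx⟩

open Classical in
/-- the lift of the coordinate `j` of the path spelling an infinite word -/
noncomputable def PhiInf (V : ℕ → List (ℕ × Bool)) (j : ℕ) (t : ℝ) : ℝ :=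
  if h : ∃ x, Tendsto (fun m => phi (ww V) j (V m) t) atTop (𝓝 x) then h.choose else 0

theorem PhiInf_spec {V : ℕ → List (ℕ × Bool)} (hV : Coh V) (j : ℕ) (t : ℝ) :
    Tendsto (fun m => phi (ww V) j (V m) t) atTop (𝓝 (PhiInf V j t)) := by
  have h := phi_tendsto hV j t
  unfold PhiInf
  rw [dif_pos h]
  exact h.choose_spec

theorem PhiInf_near {V : ℕ → List (ℕ × Bool)} (hV : Coh V) {j m : ℕ} (hj : j < m) (t : ℝ) :
    |PhiInf V j t - phi (ww V) j (V m) t| ≤ cj V j * (1 / 2) ^ m := by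
  have h1 := ((PhiInf_spec hV j t).sub_const (phi (ww V) j (V m) t)).abs
  refine le_of_tendsto h1 ?_
  filter_upwards [eventually_ge_atTop m] with m' hm'
  exact phi_cauchy hV hj hm' t

theorem PhiInf_lip {V : ℕ → List (ℕ × Bool)} (hV : Coh V) (j : ℕ) (s t : ℝ) :
    |PhiInf V j s - PhiInf V j t| ≤ cj V j * |s - t| := by
  have h1 := ((PhiInf_spec hV j s).sub (PhiInf_spec hV j t)).abs
  refine le_of_tendsto h1 ?_
  filter_upwards [eventually_gt_atTop j] with m hm
  refine (phi_lip (ww_pos V) j (V m) s t).trans (le_of_eq ?_)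
  rw [nj_coh hV hm]
  unfold cj
  ring

/-- the path spelling an infinite word -/
noncomputable def rz (V : ℕ → List (ℕ × Bool)) : ℝ → ℕ → ℂ := fun t j => ee (PhiInf V j t)

theorem continuous_ee : Continuous ee := by
  unfold ee
  fun_prop

theorem rz_tendsto {V : ℕ → List (ℕ × Bool)} (hV : Coh V) (j : ℕ) (t : ℝ) :
    Tendsto (fun m => pathL (ww V) (V m) t j) atTop (𝓝 (rz V t j)) :=
  (continuous_ee.tendsto _).comp (PhiInf_spec hV j t)

theorem ePath_rz {V : ℕ → List (ℕ × Bool)} (hV : Coh V) : EPath (rz V) := by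
  constructor
  · intro t
    refine ⟨fun j => norm_ee _, ?_⟩
    intro i j hi hj
    have h1 := (rz_tendsto hV i t).eventually_ne hi
    have h2 := (rz_tendsto hV j t).eventually_ne hj
    obtain ⟨m, e1, e2⟩ := (h1.and h2).exists
    exact ((ePath_pathL (ww_pos V) (V m)).pt t).2 i j e1 e2
  · intro j
    exact uc_ee (cj_nonneg V j) (PhiInf_lip hV j)

theorem rz_zero {V : ℕ → List (ℕ × Bool)} (hV : Coh V) (j : ℕ) : rz V 0 j = 1 := by
  refine tendsto_nhds_unique (rz_tendsto hV j 0) ?_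
  have : (fun m => pathL (ww V) (V m) 0 j) = fun _ => 1 := by
    funext m
    show ee (phi (ww V) j (V m) 0) = 1
    rw [phi_nonpos (ww_pos V) j (V m) le_rfl, ee_zero]
  rw [this]
  exact tendsto_const_nhds

theorem rz_one {V : ℕ → List (ℕ × Bool)} (hV : Coh V) (j : ℕ) : rz V 1 j = 1 := by
  refine tendsto_nhds_unique (rz_tendsto hV j 1) ?_
  have : (fun m => pathL (ww V) (V m) 1 j) = fun _ => 1 := by
    funext m
    show ee (phi (ww V) j (V m) 1) = 1
    obtain ⟨n, hn⟩ := phi_after (ww_pos V) j (V m) (wt_le_one hV m)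
    rw [hn, ee_int]
  rw [this]
  exact tendsto_const_nhds

/-- holonomies of close paths -/
theorem hm_close {F F' : ℝ → ℕ → ℂ} (hF : EPath F) (hF' : EPath F') {m : ℕ}
    (h : ∀ t, 0 ≤ t → ∀ j, j < m → ‖F t j - F' t j‖ < 1 / 2) {s t : ℝ} (hs : 0 ≤ s) (ht : 0 ≤ t) :
    hm F' s t m = (cM m (F s) (F' s))⁻¹ * hm F s t m * cM m (F t) (F' t) := by
  obtain ⟨g, δ, hδ, hg⟩ := hF.exists_prim m
  obtain ⟨δ1, hδ1, h1⟩ := hF.exists_delta m (ε := 1 / 4) (by norm_num)
  obtain ⟨δ2, hδ2, h2⟩ := hF'.exists_delta m (ε := 1 / 4) (by norm_num)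
  set δ' := min δ (min δ1 δ2) with hδ'
  have hδ'0 : 0 < δ' := lt_min hδ (lt_min hδ1 hδ2)
  have hg' := hg.mono (show δ' ≤ δ from min_le_left _ _)
  have f1 : Fine (near m) F δ' := fun a b _ _ hab => ⟨hF.pt a, hF.pt b, fun j hj => by
    have := h1 a b (hab.trans ((min_le_right _ _).trans (min_le_left _ _))) j hj
    linarith⟩
  have f2 : Fine (near m) F' δ' := fun a b _ _ hab => ⟨hF'.pt a, hF'.pt b, fun j hj => by
    have := h2 a b (hab.trans ((min_le_right _ _).trans (min_le_right _ _))) j hj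
    linarith⟩
  have f3 : ∀ a b, 0 ≤ a → 0 ≤ b → |a - b| ≤ δ' → near m (F a) (F' b) := fun a b ha hb hab =>
    ⟨hF.pt a, hF'.pt b, fun j hj => by
      have e1 := h1 a b (hab.trans ((min_le_right _ _).trans (min_le_left _ _))) j hj
      have e2 := h b hb j hj
      have e3 : ‖F a j - F' b j‖ ≤ ‖F a j - F b j‖ + ‖F b j - F' b j‖ := by
        have := norm_add_le (F a j - F b j) (F b j - F' b j)
        simpa using this
      linarith⟩
  have tr := hg'.transport (isCoc m) f1 f2 f3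
  unfold hm
  rw [hol_eq hδ'0 tr hs ht, hol_eq hδ'0 hg' hs ht]
  group

theorem hm_rz {V : ℕ → List (ℕ × Bool)} (hV : Coh V) (m : ℕ) :
    hm (rz V) 0 1 m = FreeGroup.mk (V m) := by
  -- choose a level
  obtain ⟨m', hm', hclose⟩ : ∃ m', m ≤ m' ∧ ∀ t j, j < m →
      ‖pathL (ww V) (V m') t j - rz V t j‖ < 1 / 2 := by
    have hπ := Real.two_pi_pos
    have hj : ∀ j, ∀ᶠ m' in atTop, 2 * Real.pi * (cj V j * (1 / 2) ^ m') < 1 / 2 := by
      intro j
      have h1 : Tendsto (fun N : ℕ => 2 * Real.pi * (cj V j * (1 / 2 : ℝ) ^ N)) atTop (𝓝 0) := by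
        have := ((tendsto_pow_atTop_nhds_zero_of_lt_one (r := (1/2:ℝ)) (by norm_num)
          (by norm_num)).const_mul (cj V j)).const_mul (2 * Real.pi)
        simpa using this
      exact h1.eventually_lt_const (by norm_num)
    have hall : ∀ᶠ m' in atTop, ∀ j, j < m → 2 * Real.pi * (cj V j * (1 / 2) ^ m') < 1 / 2 := by
      have : ∀ᶠ m' in atTop, ∀ j ∈ Finset.range m, 2 * Real.pi * (cj V j * (1 / 2) ^ m') < 1 / 2 :=
        (Filter.eventually_all_finset _).2 (fun j _ => hj j)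
      filter_upwards [this] with m' h j hjm
      exact h j (Finset.mem_range.2 hjm)
    obtain ⟨m', h1, h2⟩ := (hall.and (eventually_ge_atTop m)).exists
    refine ⟨m', h2, fun t j hjm => ?_⟩
    show ‖ee (phi (ww V) j (V m') t) - ee (PhiInf V j t)‖ < 1 / 2
    refine lt_of_le_of_lt (ee_lip _ _) (lt_of_le_of_lt ?_ (h1 j hjm))
    rw [abs_sub_comm]
    exact mul_le_mul_of_nonneg_left (PhiInf_near hV (lt_of_lt_of_le hjm h2) t) hπ.le
  have hF := ePath_pathL (ww_pos V) (V m')
  rw [hm_close hF (ePath_rz hV) (fun t _ j hj => hclose t j hj) le_rfl zero_le_one,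
    hm_pathL (ww_pos V) (V m') (wt_le_one hV m') m, hV m m' hm']
  have e0 : cM m (pathL (ww V) (V m') 0) (rz V 0) = 1 := by
    unfold cM
    apply lp_eq_one
    intro j _
    rw [rz_zero hV, cr_one_right]
  have e1 : cM m (pathL (ww V) (V m') 1) (rz V 1) = 1 := by
    unfold cM
    apply lp_eq_one
    intro j _
    rw [rz_one hV, cr_one_right]
  rw [e0, e1]
  simp

theorem phi_absent (w : ℕ → ℝ) (j : ℕ) (L : List (ℕ × Bool)) (h : ∀ a ∈ L, a.1 ≠ j) (t : ℝ) :
    phi w j L t = 0 := by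
  induction L generalizing t with
  | nil => exact phi_nil _ _ _
  | cons a L ih =>
    rw [phi_cons, if_neg (h a List.mem_cons_self), ih (fun b hb => h b (List.mem_cons_of_mem _ hb))]
    simp

theorem rz_absent {V : ℕ → List (ℕ × Bool)} (hV : Coh V) {j : ℕ}
    (h : ∀ m, ∀ a ∈ V m, a.1 ≠ j) (t : ℝ) : rz V t j = 1 := by
  refine tendsto_nhds_unique (rz_tendsto hV j t) ?_
  have : (fun m => pathL (ww V) (V m) t j) = fun _ => 1 := by
    funext m
    show ee (phi (ww V) j (V m) t) = 1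
    rw [phi_absent _ j (V m) (h m), ee_zero]
  rw [this]
  exact tendsto_const_nhds

theorem phi_congr (w : ℕ → ℝ) (j : ℕ) (L L' : List (ℕ × Bool))
    (h : L.map Prod.fst = L'.map Prod.fst) (h' : sm (j + 1) L = sm (j + 1) L') (t : ℝ) :
    phi w j L t = phi w j L' t := by
  induction L generalizing L' t with
  | nil =>
    cases L' with
    | nil => rfl
    | cons a L' => simp at h
  | cons a L ih =>
    cases L' with
    | nil => simp at h
    | cons a' L' =>
      rw [List.map_cons, List.map_cons, List.cons.injEq] at h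
      obtain ⟨h1, h2⟩ := h
      rw [phi_cons, phi_cons, ← h1]
      by_cases ha : a.1 < j + 1
      · rw [sm_cons_lt ha, sm_cons_lt (h1 ▸ ha), List.cons.injEq] at h'
        rw [ih L' h2 h'.2, h'.1]
      · rw [sm_cons_ge ha, sm_cons_ge (h1 ▸ ha)] at h'
        rw [ih L' h2 h', if_neg (by omega), if_neg (by omega)]

theorem nj_congr (j : ℕ) (L L' : List (ℕ × Bool)) (h : L.map Prod.fst = L'.map Prod.fst) :
    nj j L = nj j L' := by
  have e : ∀ L : List (ℕ × Bool), nj j L = (L.map Prod.fst).countP (fun i => i = j) := by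
    intro L
    unfold nj
    rw [List.countP_map]
    rfl
  rw [e, e, h]

/-- the coordinate `j` only depends on the signs of the letters up to `j` -/
theorem rz_congr {V V' : ℕ → List (ℕ × Bool)} (hV : Coh V) (hV' : Coh V')
    (h : ∀ m, (V m).map Prod.fst = (V' m).map Prod.fst) {j : ℕ} (hj : V (j + 1) = V' (j + 1))
    (t : ℝ) : rz V t j = rz V' t j := by
  have hw : ww V = ww V' := by
    funext i
    unfold ww
    rw [nj_congr i _ _ (h (i + 1))]
  refine tendsto_nhds_unique (rz_tendsto hV j t) ((rz_tendsto hV' j t).congr' ?_)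
  filter_upwards [eventually_ge_atTop (j + 1)] with m hm
  show ee (phi (ww V') j (V' m) t) = ee (phi (ww V) j (V m) t)
  rw [hw, phi_congr (ww V') j (V m) (V' m) (h m) (by rw [hV _ _ hm, hV' _ _ hm, hj])]

end Pool.Agent.MP3fbd41
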