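import Pool.Agent.Lib.MP_3fbd41_lc.Words
import Pool.Agent.Lib.MP_3fbd41_lc.EModel

/-!
# Tame sequences in free groups and their infinite reduced words
-/

namespace Pool.Agent.MP3fbd41

open Filter

theorem er_mk_sm (j : ℕ) (L : List (ℕ × Bool)) :
    er (· < j) (FreeGroup.mk L) = FreeGroup.mk (sm j L) := er_mk _ _

/-- coherent sequences of group elements with bounded letter counts -/
structure Tame (w : ℕ → FreeGroup ℕ) : Prop where
  coh : ∀ i j, i ≤ j → er (· < i) (w j) = w i
  bdd : ∀ j, ∃ K, ∀ m, cnt j (w m) ≤ K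

theorem cnt_inv (j : ℕ) (g : FreeGroup ℕ) : cnt j g⁻¹ = cnt j g := by
  unfold cnt
  rw [FreeGroup.toWord_inv]
  unfold FreeGroup.invRev
  rw [List.countP_reverse, List.countP_map]
  rfl

theorem Tame.mul {a b : ℕ → FreeGroup ℕ} (ha : Tame a) (hb : Tame b) : Tame (a * b) := by
  refine ⟨fun i j hij => ?_, fun j => ?_⟩
  · rw [Pi.mul_apply, Pi.mul_apply, map_mul, ha.coh i j hij, hb.coh i j hij]
  · obtain ⟨K1, h1⟩ := ha.bdd j
    obtain ⟨K2, h2⟩ := hb.bdd j
    refine ⟨K1 + K2, fun m => ?_⟩
    exact (cnt_mul_le _ _ _).trans (add_le_add (h1 m) (h2 m))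

theorem Tame.inv {a : ℕ → FreeGroup ℕ} (ha : Tame a) : Tame a⁻¹ := by
  refine ⟨fun i j hij => ?_, fun j => ?_⟩
  · rw [Pi.inv_apply, Pi.inv_apply, map_inv, ha.coh i j hij]
  · obtain ⟨K1, h1⟩ := ha.bdd j
    exact ⟨K1, fun m => by rw [Pi.inv_apply, cnt_inv]; exact h1 m⟩

theorem Tame.one : Tame (1 : ℕ → FreeGroup ℕ) :=
  ⟨fun i j _ => by simp, fun j => ⟨0, fun m => by simp [cnt_one]⟩⟩

/-- the sequence of group elements given by an infinite word -/
def elt (V : ℕ → List (ℕ × Bool)) : ℕ → FreeGroup ℕ := fun m => FreeGroup.mk (V m)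

theorem elt_append (V V' : ℕ → List (ℕ × Bool)) :
    elt (fun m => V m ++ V' m) = elt V * elt V' := by
  funext m
  show FreeGroup.mk (V m ++ V' m) = FreeGroup.mk (V m) * FreeGroup.mk (V' m)
  rw [FreeGroup.mul_mk]

theorem elt_invRev (V : ℕ → List (ℕ × Bool)) :
    elt (fun m => FreeGroup.invRev (V m)) = (elt V)⁻¹ := by
  funext m
  show FreeGroup.mk (FreeGroup.invRev (V m)) = (FreeGroup.mk (V m))⁻¹
  rw [FreeGroup.inv_mk]

theorem sm_length_le (j : ℕ) (L : List (ℕ × Bool)) {K : ℕ → ℕ}
    (h : ∀ i, i < j → L.countP (fun x => x.1 = i) ≤ K i) :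
    (sm j L).length ≤ ∑ i ∈ Finset.range j, K i := by
  induction j with
  | zero => simp [sm]
  | succ j ih =>
    rw [Finset.sum_range_succ]
    have e : (sm (j + 1) L).length = (sm j L).length + L.countP (fun x => x.1 = j) := by
      clear ih h
      induction L with
      | nil => simp [sm]
      | cons x L ih =>
        rw [List.countP_cons]
        by_cases h1 : x.1 < j
        · rw [sm_cons_lt (by omega), sm_cons_lt h1, List.length_cons, List.length_cons, ih]
          simp [show x.1 ≠ j by omega]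
          omega
        · by_cases h2 : x.1 = j
          · rw [sm_cons_lt (by omega), sm_cons_ge h1, List.length_cons, ih]
            simp [h2]
            omega
          · rw [sm_cons_ge (by omega), sm_cons_ge h1, ih]
            simp [h2]
    rw [e]
    exact add_le_add (ih (fun i hi => h i (by omega))) (h j (by omega))

theorem tame_elt {V : ℕ → List (ℕ × Bool)} (hV : Coh V) : Tame (elt V) := by
  refine ⟨fun i j hij => ?_, fun j => ⟨(V (j + 1)).length, fun m => ?_⟩⟩
  · show er (· < i) (FreeGroup.mk (V j)) = FreeGroup.mk (V i)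
    rw [er_mk_sm, hV i j hij]
  · unfold cnt elt
    rw [FreeGroup.toWord_mk]
    refine ((FreeGroup.Red.sublist FreeGroup.reduce.red).countP_le).trans ?_
    have h1 : (V m).countP (fun x => x.1 = j) = (sm (j + 1) (V m)).countP (fun x => x.1 = j) := by
      unfold sm
      rw [List.countP_filter]
      apply List.countP_congr
      intro x _
      simp
      omega
    rw [h1]
    rcases le_total (j + 1) m with h | h
    · rw [hV _ _ h]
      exact List.countP_le_length
    · have h2 : (sm (j + 1) (V m)).Sublist (V (j + 1)) :=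
        (sm_sublist _ _).trans (hV.sublist h)
      exact List.countP_le_length.trans h2.length_le

/-- `W` is the infinite reduced word of `w` -/
def IsRed (w : ℕ → FreeGroup ℕ) (W : ℕ → List (ℕ × Bool)) : Prop :=
  Conv (fun m => (w m).toWord) W

theorem toWord_er_sublist (j : ℕ) (g : FreeGroup ℕ) :
    (er (· < j) g).toWord.Sublist g.toWord := by
  have e : er (· < j) g = FreeGroup.mk (sm j g.toWord) := by
    conv_lhs => rw [← FreeGroup.mk_toWord (x := g)]
    rw [er_mk_sm]
  rw [e, FreeGroup.toWord_mk]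
  exact (FreeGroup.Red.sublist FreeGroup.reduce.red).trans (sm_sublist _ _)

theorem Tame.exists_red {w : ℕ → FreeGroup ℕ} (hw : Tame w) : ∃ W, IsRed w W := by
  apply exists_conv
  intro j
  choose K hK using hw.bdd
  refine ev_const_of_mono (M := 0) (B := ∑ i ∈ Finset.range j, K i) ?_ ?_
  · intro m _
    apply sm_mono
    rw [← hw.coh m (m + 1) (Nat.le_succ m)]
    exact toWord_er_sublist _ _
  · intro m _
    exact sm_length_le j _ (fun i _ => hK i m)

theorem IsRed.coh {w : ℕ → FreeGroup ℕ} {W : ℕ → List (ℕ × Bool)} (h : IsRed w W) : Coh W :=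
  Conv.coh h

theorem IsRed.elt {w : ℕ → FreeGroup ℕ} {W : ℕ → List (ℕ × Bool)} (hw : Tame w)
    (h : IsRed w W) : elt W = w := by
  funext j
  obtain ⟨m, h1, h2⟩ := ((h j).and (eventually_ge_atTop j)).exists
  show FreeGroup.mk (W j) = w j
  rw [← h1, ← er_mk_sm, FreeGroup.mk_toWord, hw.coh j m h2]

/-- cancellation in a product of reduced words -/
theorem exists_cancel (u v : List (ℕ × Bool)) (hu : FreeGroup.IsReduced u)
    (hv : FreeGroup.IsReduced v) :
    ∃ x z y, u = x ++ z ∧ v = FreeGroup.invRev z ++ y ∧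
      (FreeGroup.mk u * FreeGroup.mk v).toWord = x ++ y := by
  induction u using List.reverseRecOn generalizing v with
  | nil =>
    refine ⟨[], [], v, rfl, by simp [FreeGroup.invRev], ?_⟩
    rw [FreeGroup.mul_mk, List.nil_append, FreeGroup.toWord_mk, hv.reduce_eq]
  | append_singleton u a ih =>
    have hu' : FreeGroup.IsReduced u := List.IsChain.left_of_append hu
    cases v with
    | nil =>
      refine ⟨u ++ [a], [], [], by simp, by simp [FreeGroup.invRev], ?_⟩
      rw [FreeGroup.mul_mk, List.append_nil, FreeGroup.toWord_mk, hu.reduce_eq]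
    | cons b v =>
      have hv' : FreeGroup.IsReduced v := List.IsChain.right_of_append (l₁ := [b]) hv
      by_cases hab : b = (a.1, !a.2)
      · obtain ⟨x, z, y, e1, e2, e3⟩ := ih v hu' hv'
        refine ⟨x, z ++ [a], y, by rw [e1]; simp, ?_, ?_⟩
        · rw [e2, hab]
          simp [FreeGroup.invRev]
        · rw [← e3]
          congr 1
          have f1 : FreeGroup.mk (u ++ [a]) = FreeGroup.mk u * FreeGroup.mk [a] := by
            rw [FreeGroup.mul_mk]
          have f2 : FreeGroup.mk (b :: v) = (FreeGroup.mk [a])⁻¹ * FreeGroup.mk v := by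
            rw [FreeGroup.inv_mk, FreeGroup.mul_mk, hab]
            rfl
          rw [f1, f2]
          group
      · refine ⟨u ++ [a], [], b :: v, by simp, by simp [FreeGroup.invRev], ?_⟩
        rw [FreeGroup.mul_mk, FreeGroup.toWord_mk]
        apply FreeGroup.IsReduced.reduce_eq
        unfold FreeGroup.IsReduced
        rw [List.isChain_append]
        refine ⟨hu, hv, ?_⟩
        intro p hp q hq h1
        simp only [List.getLast?_append, List.getLast?_singleton, Option.mem_def,
          List.head?_cons, Option.some.injEq] at hp hq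
        simp at hp
        subst hp hq
        obtain ⟨a1, a2⟩ := a
        obtain ⟨b1, b2⟩ := b
        simp only at h1
        subst h1
        cases a2 <;> cases b2 <;> simp_all

theorem invRev_length' (L : List (ℕ × Bool)) : (FreeGroup.invRev L).length = L.length := by
  simp [FreeGroup.invRev]

/-- the infinite reduced word of a product -/
theorem exists_cancel_inf {a b : ℕ → FreeGroup ℕ}
    {Wa Wb Wab : ℕ → List (ℕ × Bool)} (ha : IsRed a Wa) (hb : IsRed b Wb)
    (hab : IsRed (a * b) Wab) :
    ∃ X Z Y, Coh X ∧ Coh Z ∧ Coh Y ∧ (Wa = fun m => X m ++ Z m) ∧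
      (Wb = fun m => FreeGroup.invRev (Z m) ++ Y m) ∧ Wab = fun m => X m ++ Y m := by
  have hex : ∀ m, ∃ x z y, (a m).toWord = x ++ z ∧ (b m).toWord = FreeGroup.invRev z ++ y ∧
      ((a * b) m).toWord = x ++ y := by
    intro m
    obtain ⟨x, z, y, h1, h2, h3⟩ := exists_cancel (a m).toWord (b m).toWord
      FreeGroup.isReduced_toWord FreeGroup.isReduced_toWord
    rw [FreeGroup.mk_toWord, FreeGroup.mk_toWord] at h3
    exact ⟨x, z, y, h1, h2, h3⟩
  choose x z y h1 h2 h3 using hex
  let p : ℕ → ℕ := fun j => ((Wa j).length + (Wab j).length - (Wb j).length) / 2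
  have hev : ∀ j, ∀ᶠ m in atTop, sm j (x m) ++ sm j (z m) = Wa j ∧
      FreeGroup.invRev (sm j (z m)) ++ sm j (y m) = Wb j ∧ sm j (x m) ++ sm j (y m) = Wab j ∧
      (sm j (x m)).length = p j := by
    intro j
    filter_upwards [ha j, hb j, hab j] with m e1 e2 e3
    rw [h1, sm_append] at e1
    rw [h2, sm_append, sm_invRev] at e2
    rw [h3, sm_append] at e3
    refine ⟨e1, e2, e3, ?_⟩
    have l1 := congrArg List.length e1
    have l2 := congrArg List.length e2
    have l3 := congrArg List.length e3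
    rw [List.length_append] at l1 l2 l3
    rw [invRev_length'] at l2
    show _ = ((Wa j).length + (Wab j).length - (Wb j).length) / 2
    omega
  have cx : Conv x (fun j => (Wa j).take (p j)) := fun j => by
    filter_upwards [hev j] with m hm
    rw [← hm.1, ← hm.2.2.2]
    simp
  have cz : Conv z (fun j => (Wa j).drop (p j)) := fun j => by
    filter_upwards [hev j] with m hm
    rw [← hm.1, ← hm.2.2.2]
    simp
  have cy : Conv y (fun j => (Wab j).drop (p j)) := fun j => by
    filter_upwards [hev j] with m hm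
    rw [← hm.2.2.1, ← hm.2.2.2]
    simp
  refine ⟨_, _, _, cx.coh, cz.coh, cy.coh, ?_, ?_, ?_⟩
  · exact ha.unique ((cx.append cz).congr' (fun m => (h1 m).symm) (fun _ => rfl))
  · exact hb.unique ((cz.invRev.append cy).congr' (fun m => (h2 m).symm) (fun _ => rfl))
  · exact hab.unique ((cx.append cy).congr' (fun m => (h3 m).symm) (fun _ => rfl))

open Classical in
/-- eventual value of a sequence in a free group -/
noncomputable def evl (f : ℕ → FreeGroup ℕ) : FreeGroup ℕ :=
  if h : ∃ g, ∀ᶠ m in atTop, f m = g then h.choose else 1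

theorem evl_eq {f : ℕ → FreeGroup ℕ} {g : FreeGroup ℕ} (h : ∀ᶠ m in atTop, f m = g) :
    evl f = g := by
  have hex : ∃ g, ∀ᶠ m in atTop, f m = g := ⟨g, h⟩
  unfold evl
  rw [dif_pos hex]
  obtain ⟨m, h1, h2⟩ := (h.and hex.choose_spec).exists
  rw [← h2, h1]

/-- the projection `D_k`, computed from the finite levels -/
noncomputable def DD (k : ℕ) (w : ℕ → FreeGroup ℕ) : ℕ → FreeGroup ℕ := fun j =>
  evl (fun m => FreeGroup.mk (sm j (del k (w m).toWord)))

theorem DD_eq (k : ℕ) {w : ℕ → FreeGroup ℕ} (hw : Tame w) {W : ℕ → List (ℕ × Bool)}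
    (h : IsRed w W) : DD k w = elt (Dl k W) := by
  funext j
  apply evl_eq
  -- choose a large level
  obtain ⟨i, hi1, hi2⟩ := ((Dl_conv k h.coh j).and (eventually_ge_atTop k)).exists
  filter_upwards [Dl_conv k h.coh j, h i, h k, eventually_ge_atTop k] with m e1 e2 e3 e4
  have hWm : (w m).toWord.Sublist (W m) := by
    have : w m = FreeGroup.mk (W m) := (congrFun (h.elt hw) m).symm
    rw [this, FreeGroup.toWord_mk]
    exact FreeGroup.Red.sublist FreeGroup.reduce.red
  have s1 : SubS k (W i) (w m).toWord := by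
    refine ⟨?_, ?_⟩
    · rw [← e2]; exact sm_sublist _ _
    · rw [h.coh k i hi2, e3]
  have s2 : SubS k (w m).toWord (W m) := ⟨hWm, by rw [e3, h.coh k m e4]⟩
  have t1 := sm_mono (k := j) (del_mono s1)
  have t2 := sm_mono (k := j) (del_mono s2)
  rw [e1] at t2
  rw [hi1] at t1
  show FreeGroup.mk (sm j (del k (w m).toWord)) = FreeGroup.mk (Dl k W j)
  rw [t2.antisymm t1]

theorem elt_Dl_invRev (k : ℕ) {V : ℕ → List (ℕ × Bool)} (h : Coh V) :
    elt (Dl k (fun m => FreeGroup.invRev (V m))) = (elt (Dl k V))⁻¹ := by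
  rw [Dl_invRev k h, elt_invRev]

/-- `D_k` is multiplicative for large `k` -/
theorem DD_mul {a b : ℕ → FreeGroup ℕ} (ha : Tame a) (hb : Tame b) :
    ∀ᶠ k in atTop, DD k (a * b) = DD k a * DD k b := by
  obtain ⟨Wa, hWa⟩ := ha.exists_red
  obtain ⟨Wb, hWb⟩ := hb.exists_red
  obtain ⟨Wab, hWab⟩ := (ha.mul hb).exists_red
  obtain ⟨X, Z, Y, hX, hZ, hY, e1, e2, e3⟩ := exists_cancel_inf hWa hWb hWab
  obtain ⟨K1, h1⟩ := Dl_append hX hZ
  obtain ⟨K2, h2⟩ := Dl_append hZ.invRev hY
  obtain ⟨K3, h3⟩ := Dl_append hX hY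
  filter_upwards [eventually_ge_atTop K1, eventually_ge_atTop K2, eventually_ge_atTop K3]
    with k g1 g2 g3
  rw [DD_eq k (ha.mul hb) hWab, DD_eq k ha hWa, DD_eq k hb hWb, e1, e2, e3, h1 k g1, h2 k g2,
    h3 k g3, elt_append, elt_append, elt_append, elt_Dl_invRev k hZ]
  group

/-- `w` is monochromatic -/
def Pure (w : ℕ → FreeGroup ℕ) : Prop := ∃ c, ∀ m, ∀ a ∈ (w m).toWord, col a = c

/-- `D_k` of a monochromatic element is trivial for large `k` -/
theorem DD_pure {w : ℕ → FreeGroup ℕ} (hw : Tame w) (hp : Pure w) :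
    ∀ᶠ k in atTop, DD k w = 1 := by
  obtain ⟨W, hW⟩ := hw.exists_red
  obtain ⟨c, hc⟩ := hp
  have hWc : ∀ m, ∀ a ∈ W m, col a = c := by
    intro j a ha
    obtain ⟨m, hm⟩ := (hW j).exists
    rw [← hm, mem_sm] at ha
    exact hc m a ha.1
  by_cases htriv : ∀ m, W m = []
  · apply Eventually.of_forall
    intro k
    rw [DD_eq k hw hW]
    have hWe : W = fun _ => [] := funext htriv
    have : Dl k W = fun _ => [] := by
      refine (Dl_conv k hW.coh).unique ?_
      rw [hWe]
      intro j
      apply Eventually.of_forall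
      intro m
      rfl
    rw [this]
    rfl
  · push Not at htriv
    obtain ⟨i, hi⟩ := htriv
    obtain ⟨a, ha⟩ := List.exists_mem_of_ne_nil _ hi
    filter_upwards [eventually_ge_atTop (a.1 + 1)] with k hk
    rw [DD_eq k hw hW]
    have : Dl k W = fun _ => [] := by
      refine (Dl_conv k hW.coh).unique ?_
      intro j
      filter_upwards [eventually_ge_atTop i] with m hm
      have h1 : a ∈ W m := (hW.coh.sublist hm).subset ha
      have h2 : del k (W m) = [] :=
        delC_mono_nil (hWc m) [] [] (Or.inr (Or.inl ⟨a, h1, by omega⟩))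
      show sm j (del k (W m)) = []
      rw [h2]
      rfl
    rw [this]
    rfl

end Pool.Agent.MP3fbd41
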