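import Pool.Agent.Lib.MP_3fbd41_lc.Shape
import Pool.Agent.Lib.MP_3fbd41_lc.Tame
import Pool.Agent.Lib.MP_3fbd41_lc.RealizeInf

/-!
# The space `EM` (model of the Hawaiian earring), its paths and their holonomies
-/

namespace Pool.Agent.MP3fbd41

open Filter Topology unitInterval

theorem hol_reparam {X G : Type*} [Group G] {c : X → X → G} {F F' : ℝ → X}
    (hex : ∃ g : ℝ → G, ∃ δ, 0 < δ ∧ Prim c F g δ)
    (hex' : ∃ g : ℝ → G, ∃ δ, 0 < δ ∧ Prim c F' g δ)
    {s t : ℝ} (hs : 0 ≤ s) (hst : s ≤ t) {φ : ℝ → ℝ} {L : ℝ} (hL : 0 ≤ L)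
    (hφ : ∀ u v, s ≤ u → u ≤ t → s ≤ v → v ≤ t → |φ u - φ v| ≤ L * |u - v|)
    (hφ0 : ∀ u, s ≤ u → u ≤ t → 0 ≤ φ u)
    (h : ∀ u, s ≤ u → u ≤ t → F' u = F (φ u)) :
    hol c F' s t = hol c F (φ s) (φ t) := by
  obtain ⟨g, δ, hδ, hg⟩ := hex
  obtain ⟨g', δ', hδ', hg'⟩ := hex'
  rw [hol_eq hδ' hg' hs (hs.trans hst), hol_eq hδ hg (hφ0 s le_rfl hst) (hφ0 t hst le_rfl)]
  have hL1 : 0 < L + 1 := by linarith
  have key := const_of_step (k := fun u => g' u * (g (φ u))⁻¹) (δ := min δ' (δ / (L + 1)))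
    (a := s) (b := t) (lt_min hδ' (div_pos hδ hL1)) (by
      intro u v hu hu' hv hv' huv
      have e1 := hg' u v (hs.trans hu) (hs.trans hv) (huv.trans (min_le_left _ _))
      have e3 : |φ u - φ v| ≤ δ := by
        refine (hφ u v hu hu' hv hv').trans ?_
        have h1 : |u - v| ≤ δ / (L + 1) := huv.trans (min_le_right _ _)
        rw [le_div_iff₀ hL1] at h1
        have := abs_nonneg (u - v)
        nlinarith
      have e2 := hg (φ u) (φ v) (hφ0 u hu hu') (hφ0 v hv hv') e3
      show g' u * (g (φ u))⁻¹ = g' v * (g (φ v))⁻¹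
      rw [e1, e2, h u hu hu', h v hv hv']
      group) hst le_rfl
  have key' : g' t * (g (φ t))⁻¹ = g' s * (g (φ s))⁻¹ := key
  have e : g' t = g' s * (g (φ s))⁻¹ * g (φ t) := by
    rw [← key']; group
  rw [e]
  group

theorem hol_inv {X G : Type*} [Group G] {c : X → X → G} {F : ℝ → X} (s t : ℝ) :
    hol c F t s = (hol c F s t)⁻¹ := by
  unfold hol
  split_ifs
  · group
  · simp

/-- The model of the Hawaiian earring as a topological space. -/
abbrev EM : Type := {x : ℕ → ℂ // EPt x}

theorem ept_one : EPt (fun _ => 1) := by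
  constructor
  · intro j; simp
  · intro i j h; exact absurd rfl h

/-- the wedge point -/
def eb : EM := ⟨fun _ => 1, ept_one⟩

theorem eb_apply (j : ℕ) : eb.1 j = 1 := rfl

theorem EM.ext_iff' {x y : EM} : x = y ↔ ∀ j, x.1 j = y.1 j := by
  rw [Subtype.ext_iff, funext_iff]

theorem continuous_em_iff {Y : Type*} [TopologicalSpace Y] {f : Y → EM} :
    Continuous f ↔ ∀ j, Continuous (fun y => (f y).1 j) := by
  rw [continuous_induced_rng, continuous_pi_iff]
  rfl

theorem continuous_coord (j : ℕ) : Continuous (fun x : EM => x.1 j) :=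
  (continuous_apply j).comp continuous_subtype_val

/-- the projection of `ℝ` to the unit interval -/
noncomputable def pr (t : ℝ) : I := Set.projIcc 0 1 zero_le_one t

theorem continuous_pr : Continuous pr := continuous_projIcc (h := zero_le_one)

theorem pr_zero : pr 0 = 0 := by
  unfold pr
  simp

theorem pr_one : pr 1 = 1 := by
  unfold pr
  simp

theorem pr_of_mem {t : ℝ} (h0 : 0 ≤ t) (h1 : t ≤ 1) : pr t = ⟨t, h0, h1⟩ :=
  Set.projIcc_of_mem zero_le_one ⟨h0, h1⟩

theorem pr_val {t : ℝ} (h0 : 0 ≤ t) (h1 : t ≤ 1) : ((pr t : I) : ℝ) = t := by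
  rw [pr_of_mem h0 h1]

theorem pr_coe (t : I) : pr (t : ℝ) = t := Set.projIcc_val zero_le_one t

theorem pr_lip (s t : ℝ) : |((pr s : I) : ℝ) - pr t| ≤ |s - t| := by
  have := (LipschitzWith.projIcc (zero_le_one (α := ℝ))).dist_le_mul s t
  rw [NNReal.coe_one, one_mul, Real.dist_eq] at this
  exact this

theorem uc_pr : UniformContinuous pr :=
  (LipschitzWith.projIcc (zero_le_one (α := ℝ))).uniformContinuous

/-- a continuous map of the unit interval to `EM` gives a path -/
theorem ePath_pr {K : I → EM} (hK : Continuous K) : EPath (fun t => (K (pr t)).1) := by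
  refine ⟨fun t => (K (pr t)).2, fun j => ?_⟩
  have h1 : Continuous (fun s : I => (K s).1 j) := (continuous_coord j).comp hK
  exact (CompactSpace.uniformContinuous_of_continuous h1).comp uc_pr

/-- total holonomy of a map of the unit interval to `EM` -/
noncomputable def hI (K : I → EM) (m : ℕ) : FreeGroup ℕ := hm (fun t => (K (pr t)).1) 0 1 m

theorem hI_affine {K K' : I → EM} (hK : Continuous K) (hK' : Continuous K') {a b : ℝ}
    (ha0 : 0 ≤ a) (_ : a ≤ 1) (hb0 : 0 ≤ b) (_ : b ≤ 1)
    (h : ∀ v : I, K' v = K (pr (a + (b - a) * v))) (m : ℕ) :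
    hI K' m = hm (fun t => (K (pr t)).1) a b m := by
  unfold hI hm
  have := hol_reparam ((ePath_pr hK).exists_prim m) ((ePath_pr hK').exists_prim m)
    (s := 0) (t := 1) le_rfl zero_le_one (φ := fun u => a + (b - a) * u) (L := |b - a|)
    (abs_nonneg _) (by
      intro u v _ _ _ _
      rw [show a + (b - a) * u - (a + (b - a) * v) = (b - a) * (u - v) by ring, abs_mul])
    (by
      intro u hu hu'
      show 0 ≤ a + (b - a) * u
      nlinarith)
    (by
      intro u hu hu'
      show (K' (pr u)).1 = (K (pr (a + (b - a) * u))).1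
      rw [h, pr_val hu hu'])
  rw [this]
  simp

theorem hI_symm {x y : EM} (γ : Path x y) (m : ℕ) : hI γ.symm m = (hI γ m)⁻¹ := by
  rw [hI_affine (K := γ) (K' := γ.symm) γ.continuous γ.symm.continuous (a := 1) (b := 0)
    zero_le_one le_rfl le_rfl zero_le_one]
  · unfold hI hm
    exact hol_inv _ _
  · intro v
    have e : pr (1 + (0 - 1) * v) = unitInterval.symm v := by
      apply Subtype.ext
      rw [pr_val]
      · simp
        ring
      · have := v.2.2
        linarith
      · have := v.2.1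
        linarith
    rw [e]
    rfl

theorem hI_trans {x y z : EM} (γ : Path x y) (γ' : Path y z) (m : ℕ) :
    hI (γ.trans γ') m = hI γ m * hI γ' m := by
  have hc := (γ.trans γ').continuous
  rw [hI_affine (K := γ.trans γ') (K' := γ) hc γ.continuous (a := 0) (b := 1 / 2)
    le_rfl zero_le_one (by norm_num) (by norm_num),
    hI_affine (K := γ.trans γ') (K' := γ') hc γ'.continuous (a := 1 / 2) (b := 1)
    (by norm_num) (by norm_num) zero_le_one le_rfl]
  · rw [hm_mul (ePath_pr hc) le_rfl (by norm_num) zero_le_one]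
    rfl
  · intro v
    have hv0 := v.2.1
    have hv1 := v.2.2
    rw [Path.trans_apply]
    have e : ((pr (1 / 2 + (1 - 1 / 2) * v) : I) : ℝ) = 1 / 2 + (1 - 1 / 2) * v :=
      pr_val (by nlinarith) (by nlinarith)
    split_ifs with h
    · rw [e] at h
      have hv : (v : ℝ) = 0 := by linarith
      have hv' : v = 0 := Subtype.ext hv
      subst hv'
      have : (⟨2 * ((pr (1 / 2 + (1 - 1 / 2) * ((0 : I) : ℝ)) : I) : ℝ), (unitInterval.mul_pos_mem_iff zero_lt_two).2 ⟨(pr (1 / 2 + (1 - 1 / 2) * ((0 : I) : ℝ))).2.1, by rw [e]; simp⟩⟩ : I) = 1 := by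
        apply Subtype.ext
        show 2 * ((pr (1 / 2 + (1 - 1 / 2) * ((0 : I) : ℝ)) : I) : ℝ) = 1
        rw [e]
        simp
      rw [this, γ.target, γ'.source]
    · congr 1
      apply Subtype.ext
      show (v : ℝ) = 2 * ((pr (1 / 2 + (1 - 1 / 2) * v) : I) : ℝ) - 1
      rw [e]
      ring
  · intro v
    have hv0 := v.2.1
    have hv1 := v.2.2
    rw [Path.trans_apply]
    have e : ((pr (0 + (1 / 2 - 0) * v) : I) : ℝ) = 0 + (1 / 2 - 0) * v :=
      pr_val (by nlinarith) (by nlinarith)
    have h : ((pr (0 + (1 / 2 - 0) * v) : I) : ℝ) ≤ 1 / 2 := by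
      rw [e]; linarith
    rw [dif_pos h]
    congr 1
    apply Subtype.ext
    show (v : ℝ) = 2 * ((pr (0 + (1 / 2 - 0) * v) : I) : ℝ)
    rw [e]
    ring

theorem hI_congr {K K' : I → EM} (h : ∀ v, K v = K' v) (m : ℕ) : hI K m = hI K' m := by
  rw [show K = K' from funext h]

theorem hI_const (x : EM) (m : ℕ) : hI (fun _ => x) m = 1 := by
  unfold hI
  rw [hm_of_near (ePath_pr continuous_const) le_rfl zero_le_one]
  · exact (isCoc m).self ⟨x.2, x.2, fun j _ => by simp⟩
  · intro u v _ _ _ _ j _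
    simp

/-- the cell lemma for maps of the unit square to `EM` -/
theorem hI_cell {K : I → I → EM} (hK : Continuous (fun p : I × I => K p.1 p.2)) (m : ℕ) :
    hI (fun u => K u 0) m * hI (fun v => K 1 v) m = hI (fun v => K 0 v) m * hI (fun u => K u 1) m := by
  obtain ⟨δ, hδ, h⟩ : ∃ δ, 0 < δ ∧ ∀ p q : I × I, dist p q ≤ 2 * δ → ∀ j, j < m →
      ‖(K p.1 p.2).1 j - (K q.1 q.2).1 j‖ < 1 := by
    induction m with
    | zero => exact ⟨1, one_pos, fun p q _ j hj => absurd hj (by omega)⟩
    | succ m ih =>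
      obtain ⟨δ, hδ, h⟩ := ih
      have h1 : Continuous (fun p : I × I => (K p.1 p.2).1 m) := (continuous_coord m).comp hK
      obtain ⟨δ', hδ', h'⟩ := Metric.uniformContinuous_iff.1
        (CompactSpace.uniformContinuous_of_continuous h1) 1 one_pos
      refine ⟨min δ (δ' / 4), lt_min hδ (by linarith), fun p q hpq j hj => ?_⟩
      rcases Nat.lt_succ_iff_lt_or_eq.1 hj with hj | rfl
      · refine h p q (hpq.trans ?_) j hj
        have := min_le_left δ (δ' / 4)
        linarith
      · have := h' (a := p) (b := q) (by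
          have := min_le_right δ (δ' / 4)
          linarith)
        rwa [dist_eq_norm] at this
  have cell := hol_cell (isCoc m) (K := fun u v => (K (pr u) (pr v)).1) hδ (by
    intro s s' τ τ' _ _ _ _ h1 h2
    refine ⟨(K (pr s) (pr τ)).2, (K (pr s') (pr τ')).2, ?_⟩
    apply h (pr s, pr τ) (pr s', pr τ')
    rw [Prod.dist_eq]
    exact max_le ((pr_lip s s').trans h1) ((pr_lip τ τ').trans h2))
    (s := 0) (t := 1) (τ := 0) (τ' := 1) le_rfl zero_le_one le_rfl zero_le_one
  simp only [pr_zero, pr_one] at cell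
  exact cell

theorem hI_homotopy {K : I → I → EM} (hK : Continuous (fun p : I × I => K p.1 p.2))
    {x y : EM} (h0 : ∀ v, K 0 v = x) (h1 : ∀ v, K 1 v = y) (m : ℕ) :
    hI (fun u => K u 0) m = hI (fun u => K u 1) m := by
  have := hI_cell hK m
  rw [hI_congr h0, hI_congr h1, hI_const, hI_const] at this
  simpa using this

theorem tame_hm {F : ℝ → ℕ → ℂ} (hF : EPath F) {s t : ℝ} (hs : 0 ≤ s) (hst : s ≤ t)
    (ht : t ≤ 1) : Tame (hm F s t) := by
  constructor
  · intro i j hij
    exact hm_er hF hs (hs.trans hst) hij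
  · intro j
    obtain ⟨K, hK⟩ := cnt_bound hF j
    exact ⟨K, fun m => hK m s t hs hst ht⟩

theorem tame_hI {K : I → EM} (hK : Continuous K) : Tame (hI K) :=
  tame_hm (ePath_pr hK) le_rfl zero_le_one le_rfl

/-- loops with equal holonomies are homotopic -/
theorem em_shape {X : Type*} [TopologicalSpace X] {x0 : X} (sg : EM → X)
    (γ γ' : Path eb eb) (h : ∀ m, hI γ m = hI γ' m) (p p' : Path x0 x0)
    (hp : ∀ t, p t = sg (γ t)) (hp' : ∀ t, p' t = sg (γ' t)) :
    p.Homotopic p' := by
  have h0 : sg eb = x0 := by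
    have := hp 0
    rw [p.source, γ.source] at this
    exact this.symm
  have hnull : (p.trans p'.symm).Homotopic (Path.refl x0) := by
    set δ := γ.trans γ'.symm with hδ
    refine null_of_hol _ (fun t => (δ (pr t)).1) (ePath_pr δ.continuous) ?_ ?_ ?_ ?_
    · intro j
      show (δ (pr 0)).1 j = 1
      rw [pr_zero, δ.source]
      rfl
    · intro j
      show (δ (pr 1)).1 j = 1
      rw [pr_one, δ.target]
      rfl
    · intro m
      show hI δ m = 1
      rw [hδ, hI_trans, hI_symm, h m]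
      group
    · intro s t hst
      have e : ∀ u : I, (p.trans p'.symm) u = sg (δ u) := by
        intro u
        rw [hδ, Path.trans_apply, Path.trans_apply]
        split_ifs
        · exact hp _
        · rw [Path.symm_apply, Path.symm_apply]
          exact hp' _
      have h1 : δ s = δ t := by
        apply Subtype.ext
        have h2 : (δ (pr s)).1 = (δ (pr t)).1 := hst
        rwa [pr_coe, pr_coe] at h2
      rw [e, e, h1]
  have e1 : Path.Homotopic.Quotient.mk (p.trans p'.symm) = Path.Homotopic.Quotient.mk (Path.refl x0) :=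
    Path.Homotopic.Quotient.eq.2 hnull
  apply Path.Homotopic.Quotient.eq.1
  have e2 : (Path.Homotopic.Quotient.mk (p.trans p'.symm)).trans (Path.Homotopic.Quotient.mk p')
      = Path.Homotopic.Quotient.mk p' := by
    rw [e1, Path.Homotopic.Quotient.mk_refl, Path.Homotopic.Quotient.refl_trans]
  rw [← e2, Path.Homotopic.Quotient.mk_trans, Path.Homotopic.Quotient.mk_symm,
    Path.Homotopic.Quotient.trans_assoc, Path.Homotopic.Quotient.symm_trans,
    Path.Homotopic.Quotient.trans_refl]

end Pool.Agent.MP3fbd41
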