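import Mathlib

/-!
# Weighted words: a concrete real tree
-/

namespace Pool.Agent.MP3fbd41

open Classical in
/-- length of the common initial part of two weighted words -/
noncomputable def ov : List ((ℕ × Bool) × ℝ) → List ((ℕ × Bool) × ℝ) → ℝ
  | (a, r) :: P, (b, s) :: Q => if a = b then (if r = s then r + ov P Q else min r s) else 0
  | [], _ => 0
  | _ :: _, [] => 0

/-- total length -/
def ht (P : List ((ℕ × Bool) × ℝ)) : ℝ := (P.map Prod.snd).sum

/-- all lengths are nonnegative -/
def PosL (P : List ((ℕ × Bool) × ℝ)) : Prop := ∀ x ∈ P, 0 ≤ x.2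

/-- the tree distance -/
noncomputable def dd (P Q : List ((ℕ × Bool) × ℝ)) : ℝ := ht P + ht Q - 2 * ov P Q

@[simp] theorem ht_nil : ht [] = 0 := rfl
@[simp] theorem ht_cons (x : (ℕ × Bool) × ℝ) (P : List ((ℕ × Bool) × ℝ)) :
    ht (x :: P) = x.2 + ht P := by simp [ht]
theorem ht_append (P Q : List ((ℕ × Bool) × ℝ)) : ht (P ++ Q) = ht P + ht Q := by simp [ht]

@[simp] theorem ov_nil_left (P : List ((ℕ × Bool) × ℝ)) : ov [] P = 0 := by
  cases P <;> rfl
@[simp] theorem ov_nil_right (P : List ((ℕ × Bool) × ℝ)) : ov P [] = 0 := by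
  cases P with
  | nil => rfl
  | cons x P => rfl
theorem ov_cons (a b : ℕ × Bool) (r s : ℝ) (P Q : List ((ℕ × Bool) × ℝ)) :
    ov ((a, r) :: P) ((b, s) :: Q) = if a = b then (if r = s then r + ov P Q else min r s) else 0 :=
  by rw [ov]

theorem PosL.tail {x : (ℕ × Bool) × ℝ} {P : List ((ℕ × Bool) × ℝ)} (h : PosL (x :: P)) : PosL P :=
  fun y hy => h y (List.mem_cons_of_mem _ hy)

theorem PosL.head {x : (ℕ × Bool) × ℝ} {P : List ((ℕ × Bool) × ℝ)} (h : PosL (x :: P)) :
    0 ≤ x.2 := h x List.mem_cons_self

theorem PosL.ht_nonneg {P : List ((ℕ × Bool) × ℝ)} (h : PosL P) : 0 ≤ ht P := by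
  induction P with
  | nil => simp
  | cons x P ih =>
    rw [ht_cons]
    have := ih h.tail
    have := h.head
    linarith

theorem PosL.append {P Q : List ((ℕ × Bool) × ℝ)} (hP : PosL P) (hQ : PosL Q) : PosL (P ++ Q) := by
  intro x hx
  rcases List.mem_append.1 hx with h | h
  · exact hP x h
  · exact hQ x h

theorem ov_nonneg {P Q : List ((ℕ × Bool) × ℝ)} (hP : PosL P) (hQ : PosL Q) : 0 ≤ ov P Q := by
  induction P generalizing Q with
  | nil => simp
  | cons x P ih =>
    obtain ⟨a, r⟩ := x
    cases Q with
    | nil => simp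
    | cons y Q =>
      obtain ⟨b, s⟩ := y
      rw [ov_cons]
      have h1 : 0 ≤ r := hP.head
      have h2 : 0 ≤ s := hQ.head
      have h3 := ih hP.tail hQ.tail
      split_ifs
      · linarith
      · exact le_min h1 h2
      · exact le_rfl

theorem ov_comm (P Q : List ((ℕ × Bool) × ℝ)) : ov P Q = ov Q P := by
  induction P generalizing Q with
  | nil => simp
  | cons x P ih =>
    obtain ⟨a, r⟩ := x
    cases Q with
    | nil => simp
    | cons y Q =>
      obtain ⟨b, s⟩ := y
      rw [ov_cons, ov_cons, ih Q]
      by_cases h1 : a = b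
      · subst h1
        by_cases h2 : r = s
        · subst h2; simp
        · simp [h2, Ne.symm h2, min_comm]
      · simp [h1, Ne.symm h1]

theorem ov_self (P : List ((ℕ × Bool) × ℝ)) : ov P P = ht P := by
  induction P with
  | nil => simp
  | cons x P ih =>
    obtain ⟨a, r⟩ := x
    rw [ov_cons, if_pos rfl, if_pos rfl, ih, ht_cons]

theorem ov_le {P Q : List ((ℕ × Bool) × ℝ)} (hP : PosL P) : ov P Q ≤ ht P := by
  induction P generalizing Q with
  | nil => simp
  | cons x P ih =>
    obtain ⟨a, r⟩ := x
    have h1 : 0 ≤ r := hP.head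
    have h2 := hP.tail.ht_nonneg
    cases Q with
    | nil =>
      rw [ov_nil_right, ht_cons]
      linarith
    | cons y Q =>
      obtain ⟨b, s⟩ := y
      rw [ov_cons, ht_cons]
      have h3 := ih (Q := Q) hP.tail
      split_ifs
      · linarith
      · have := min_le_left r s
        simp only
        linarith
      · simp only
        linarith

theorem ov_hyp {P Q R : List ((ℕ × Bool) × ℝ)} (hP : PosL P) (hQ : PosL Q) (hR : PosL R) :
    min (ov P Q) (ov Q R) ≤ ov P R := by
  induction P generalizing Q R with
  | nil =>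
    simp only [ov_nil_left]
    exact min_le_left _ _
  | cons x P ih =>
    obtain ⟨a, r⟩ := x
    cases Q with
    | nil =>
      simp only [ov_nil_left, ov_nil_right, min_self]
      exact ov_nonneg hP hR
    | cons y Q =>
      obtain ⟨b, s⟩ := y
      cases R with
      | nil =>
        simp
      | cons z R =>
        obtain ⟨c, t⟩ := z
        have hr : 0 ≤ r := hP.head
        have hs : 0 ≤ s := hQ.head
        have ht' : 0 ≤ t := hR.head
        have hPR := ov_nonneg hP hR
        by_cases hab : a = b
        · subst hab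
          by_cases hbc : a = c
          · subst hbc
            rw [ov_cons, ov_cons, ov_cons]
            simp only [if_true]
            have i1 := ih hP.tail hQ.tail hR.tail
            have n1 := ov_nonneg hP.tail hR.tail
            by_cases h1 : r = s
            · subst h1
              by_cases h2 : r = t
              · subst h2
                simp only [if_true]
                rw [min_add_add_left]
                linarith
              · simp only [if_true, if_neg h2]
                exact min_le_right _ _
            · rw [if_neg h1]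
              by_cases h2 : s = t
              · subst h2
                simp only [if_true, if_neg h1]
                exact min_le_left _ _
              · rw [if_neg h2]
                by_cases h3 : r = t
                · subst h3
                  simp only [if_true]
                  exact (min_le_left _ _).trans ((min_le_left _ _).trans (by linarith))
                · rw [if_neg h3]
                  exact le_min ((min_le_left _ _).trans (min_le_left _ _))
                    ((min_le_right _ _).trans (min_le_right _ _))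
          · have : ov ((a, s) :: Q) ((c, t) :: R) = 0 := by
              rw [ov_cons, if_neg hbc]
            rw [this]
            exact (min_le_right _ _).trans hPR
        · have : ov ((a, r) :: P) ((b, s) :: Q) = 0 := by
            rw [ov_cons, if_neg hab]
          rw [this]
          exact (min_le_left _ _).trans hPR

theorem dd_self (P : List ((ℕ × Bool) × ℝ)) : dd P P = 0 := by
  unfold dd
  rw [ov_self]; ring

theorem dd_comm (P Q : List ((ℕ × Bool) × ℝ)) : dd P Q = dd Q P := by
  unfold dd
  rw [ov_comm]; ring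

theorem dd_tri {P Q R : List ((ℕ × Bool) × ℝ)} (hP : PosL P) (hQ : PosL Q) (hR : PosL R) :
    dd P R ≤ dd P Q + dd Q R := by
  unfold dd
  have h1 := ov_hyp hP hQ hR
  have h2 : ov P Q ≤ ht Q := by rw [ov_comm]; exact ov_le hQ
  have h3 : ov Q R ≤ ht Q := ov_le hQ
  rcases min_choice (ov P Q) (ov Q R) with h | h <;> rw [h] at h1 <;> linarith

theorem dd_nil (P : List ((ℕ × Bool) × ℝ)) : dd [] P = ht P := by
  unfold dd; simp

theorem ov_append_left (B P Q : List ((ℕ × Bool) × ℝ)) : ov (B ++ P) (B ++ Q) = ht B + ov P Q := by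
  induction B with
  | nil => simp
  | cons x B ih =>
    obtain ⟨a, r⟩ := x
    rw [List.cons_append, List.cons_append, ov_cons, if_pos rfl, if_pos rfl, ih, ht_cons]
    ring

theorem dd_append_left (B P Q : List ((ℕ × Bool) × ℝ)) : dd (B ++ P) (B ++ Q) = dd P Q := by
  unfold dd
  rw [ov_append_left, ht_append, ht_append]
  ring

theorem dd_single (a : ℕ × Bool) (r s : ℝ) : dd [(a, r)] [(a, s)] = |r - s| := by
  unfold dd
  rw [ov_cons, if_pos rfl]
  by_cases h : r = s
  · subst h
    simp
    ring
  · rw [if_neg h]
    simp only [ht_cons, ht_nil]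
    rcases le_total r s with h1 | h1
    · rw [min_eq_left h1, abs_of_nonpos (by linarith)]; ring
    · rw [min_eq_right h1, abs_of_nonneg (by linarith)]; ring

/-- signed length in direction `j` -/
def th (j : ℕ) (P : List ((ℕ × Bool) × ℝ)) : ℝ :=
  (P.map (fun x => if x.1.1 = j then (if x.1.2 then x.2 else -x.2) else 0)).sum

@[simp] theorem th_nil (j : ℕ) : th j [] = 0 := rfl
@[simp] theorem th_cons (j : ℕ) (x : (ℕ × Bool) × ℝ) (P : List ((ℕ × Bool) × ℝ)) :
    th j (x :: P) = (if x.1.1 = j then (if x.1.2 then x.2 else -x.2) else 0) + th j P := by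
  simp [th]
theorem th_append (j : ℕ) (P Q : List ((ℕ × Bool) × ℝ)) : th j (P ++ Q) = th j P + th j Q := by
  simp [th]

theorem th_single_diff (j : ℕ) (a : ℕ × Bool) (r s : ℝ) :
    |(if a.1 = j then (if a.2 then r else -r) else 0) - (if a.1 = j then (if a.2 then s else -s)
      else 0)| ≤ |r - s| := by
  split_ifs
  · exact le_rfl
  · rw [show -r - -s = -(r - s) by ring, abs_neg]
  · simp

theorem th_single_le (j : ℕ) (a : ℕ × Bool) {r : ℝ} (hr : 0 ≤ r) :
    |(if a.1 = j then (if a.2 then r else -r) else 0)| ≤ r := by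
  split_ifs
  · rw [abs_of_nonneg hr]
  · rw [abs_neg, abs_of_nonneg hr]
  · simpa using hr

theorem th_le (j : ℕ) {P : List ((ℕ × Bool) × ℝ)} (hP : PosL P) : |th j P| ≤ ht P := by
  induction P with
  | nil => simp
  | cons x P ih =>
    rw [th_cons, ht_cons]
    have := ih hP.tail
    have h2 := th_single_le j x.1 hP.head
    exact (abs_add_le _ _).trans (add_le_add h2 this)

theorem th_dd (j : ℕ) {P Q : List ((ℕ × Bool) × ℝ)} (hP : PosL P) (hQ : PosL Q) :
    |th j P - th j Q| ≤ dd P Q := by
  induction P generalizing Q with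
  | nil =>
    rw [dd_nil, th_nil, zero_sub, abs_neg]
    exact th_le j hQ
  | cons x P ih =>
    cases Q with
    | nil =>
      rw [dd_comm, dd_nil, th_nil, sub_zero]
      exact th_le j hP
    | cons y Q =>
      obtain ⟨a, r⟩ := x
      obtain ⟨b, s⟩ := y
      have hr : 0 ≤ r := hP.head
      have hs : 0 ≤ s := hQ.head
      have gen : |th j ((a, r) :: P) - th j ((b, s) :: Q)| ≤ ht ((a, r) :: P) + ht ((b, s) :: Q) :=
        (abs_sub _ _).trans (add_le_add (th_le j hP) (th_le j hQ))
      by_cases hab : a = b
      · subst hab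
        by_cases hrs : r = s
        · subst hrs
          have h1 := ih hP.tail hQ.tail
          have e1 : dd ((a, r) :: P) ((a, r) :: Q) = dd P Q :=
            dd_append_left [(a, r)] P Q
          rw [e1, th_cons, th_cons]
          have e2 : ∀ u v w : ℝ, u + v - (u + w) = v - w := by intros; ring
          rw [e2]
          exact h1
        · unfold dd
          rw [ov_cons, if_pos rfl, if_neg hrs, th_cons, th_cons, ht_cons, ht_cons]
          simp only
          have h1 := th_single_diff j a r s
          have h2 := th_le j hP.tail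
          have h3 := th_le j hQ.tail
          have h4 : |r - s| = r + s - 2 * min r s := by
            rcases le_total r s with h | h
            · rw [min_eq_left h, abs_of_nonpos (by linarith)]; ring
            · rw [min_eq_right h, abs_of_nonneg (by linarith)]; ring
          rw [h4] at h1
          rw [abs_le] at *
          constructor <;> linarith [h1.1, h1.2, h2.1, h2.2, h3.1, h3.2]
      · unfold dd
        rw [ov_cons, if_neg hab]
        linarith

/-- the vertex of the tree given by a word -/
def vx (l : ℕ → ℝ) (L : List (ℕ × Bool)) : List ((ℕ × Bool) × ℝ) := L.map (fun a => (a, l a.1))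

/-- weight of a word -/
def wt (l : ℕ → ℝ) (L : List (ℕ × Bool)) : ℝ := (L.map (fun a => l a.1)).sum

theorem ht_vx (l : ℕ → ℝ) (L : List (ℕ × Bool)) : ht (vx l L) = wt l L := by
  simp [ht, vx, wt, Function.comp_def]

theorem posL_vx {l : ℕ → ℝ} (hl : ∀ j, 0 ≤ l j) (L : List (ℕ × Bool)) : PosL (vx l L) := by
  intro x hx
  simp only [vx, List.mem_map] at hx
  obtain ⟨a, -, rfl⟩ := hx
  exact hl _

theorem isReduced_invRev {L : List (ℕ × Bool)} (h : FreeGroup.IsReduced L) :
    FreeGroup.IsReduced (FreeGroup.invRev L) := by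
  apply FreeGroup.IsReduced.of_reduce_eq
  rw [FreeGroup.reduce_invRev, h.reduce_eq]

theorem wt_invRev (l : ℕ → ℝ) (L : List (ℕ × Bool)) : wt l (FreeGroup.invRev L) = wt l L := by
  simp [wt, FreeGroup.invRev, Function.comp_def, List.sum_reverse]

theorem wt_append (l : ℕ → ℝ) (L L' : List (ℕ × Bool)) : wt l (L ++ L') = wt l L + wt l L' := by
  simp [wt]

theorem isReduced_junction {a b : ℕ × Bool} {L L' : List (ℕ × Bool)}
    (h : FreeGroup.IsReduced (a :: L)) (h' : FreeGroup.IsReduced (b :: L')) (hab : a ≠ b) :
    FreeGroup.IsReduced (FreeGroup.invRev (a :: L) ++ (b :: L')) := by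
  unfold FreeGroup.IsReduced
  rw [List.isChain_append]
  refine ⟨isReduced_invRev h, h', ?_⟩
  intro x hx y hy
  simp only [FreeGroup.invRev, List.map_cons, List.reverse_cons, List.getLast?_append,
    List.getLast?_singleton, Option.mem_def, List.head?_cons] at hx hy
  simp at hx hy
  subst hx hy
  intro h1
  simp only at h1 ⊢
  obtain ⟨a1, a2⟩ := a
  obtain ⟨b1, b2⟩ := b
  simp only at h1
  subst h1
  cases a2 <;> cases b2 <;> simp_all

theorem dd_vx (l : ℕ → ℝ) {L L' : List (ℕ × Bool)} (h : FreeGroup.IsReduced L)
    (h' : FreeGroup.IsReduced L') :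
    dd (vx l L) (vx l L') = wt l (FreeGroup.toWord ((FreeGroup.mk L)⁻¹ * FreeGroup.mk L')) := by
  induction L generalizing L' with
  | nil =>
    have : vx l [] = [] := rfl
    rw [this, dd_nil, ht_vx]
    have e : (FreeGroup.mk ([] : List (ℕ × Bool)))⁻¹ * FreeGroup.mk L' = FreeGroup.mk L' := by
      rw [← FreeGroup.one_eq_mk]; simp
    rw [e, FreeGroup.toWord_mk, h'.reduce_eq]
  | cons a L ih =>
    cases L' with
    | nil =>
      have : vx l [] = [] := rfl
      rw [dd_comm, this, dd_nil, ht_vx]
      have e : (FreeGroup.mk (a :: L))⁻¹ * FreeGroup.mk ([] : List (ℕ × Bool))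
          = (FreeGroup.mk (a :: L))⁻¹ := by
        rw [← FreeGroup.one_eq_mk]; simp
      rw [e, FreeGroup.toWord_inv, FreeGroup.toWord_mk, h.reduce_eq, wt_invRev]
    | cons b L' =>
      by_cases hab : a = b
      · subst hab
        have e1 : dd (vx l (a :: L)) (vx l (a :: L')) = dd (vx l L) (vx l L') :=
          dd_append_left [(a, l a.1)] _ _
        have e2 : (FreeGroup.mk (a :: L))⁻¹ * FreeGroup.mk (a :: L')
            = (FreeGroup.mk L)⁻¹ * FreeGroup.mk L' := by
          have f1 : ∀ M : List (ℕ × Bool), FreeGroup.mk (a :: M) = FreeGroup.mk [a] * FreeGroup.mk M := by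
            intro M; rw [FreeGroup.mul_mk]; rfl
          rw [f1 L, f1 L']
          group
        rw [e1, e2]
        exact ih (List.IsChain.right_of_append (l₁ := [a]) h)
          (List.IsChain.right_of_append (l₁ := [a]) h')
      · have e1 : (FreeGroup.mk (a :: L))⁻¹ * FreeGroup.mk (b :: L')
            = FreeGroup.mk (FreeGroup.invRev (a :: L) ++ (b :: L')) := by
          rw [FreeGroup.inv_mk, FreeGroup.mul_mk]
        rw [e1, FreeGroup.toWord_mk, (isReduced_junction h h' hab).reduce_eq, wt_append, wt_invRev]
        unfold dd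
        have e3 : ov (vx l (a :: L)) (vx l (b :: L')) = 0 := by
          show ov ((a, l a.1) :: vx l L) ((b, l b.1) :: vx l L') = 0
          rw [ov_cons, if_neg hab]
        rw [e3, ht_vx, ht_vx]
        ring

/-- point at fraction `r` on the edge from the vertex `L` in direction `a` -/
noncomputable def edge (l : ℕ → ℝ) (L : List (ℕ × Bool)) (a : ℕ × Bool) (r : ℝ) :
    List ((ℕ × Bool) × ℝ) :=
  if L.getLast? = some (a.1, !a.2) then vx l L.dropLast ++ [((a.1, !a.2), (1 - r) * l a.1)]
  else vx l L ++ [(a, r * l a.1)]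

theorem posL_edge {l : ℕ → ℝ} (hl : ∀ j, 0 ≤ l j) (L : List (ℕ × Bool)) (a : ℕ × Bool) {r : ℝ}
    (h0 : 0 ≤ r) (h1 : r ≤ 1) : PosL (edge l L a r) := by
  unfold edge
  split_ifs
  · apply (posL_vx hl _).append
    intro x hx
    simp only [List.mem_singleton] at hx
    subst hx
    exact mul_nonneg (by linarith) (hl _)
  · apply (posL_vx hl _).append
    intro x hx
    simp only [List.mem_singleton] at hx
    subst hx
    exact mul_nonneg h0 (hl _)

theorem vx_append (l : ℕ → ℝ) (L L' : List (ℕ × Bool)) : vx l (L ++ L') = vx l L ++ vx l L' := by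
  simp [vx]

theorem edge_vx {l : ℕ → ℝ} (hl : ∀ j, 0 ≤ l j) (L : List (ℕ × Bool)) (a : ℕ × Bool) {r : ℝ}
    (h0 : 0 ≤ r) : dd (edge l L a r) (vx l L) = r * l a.1 := by
  unfold edge
  split_ifs with h
  · have hL : L = L.dropLast ++ [(a.1, !a.2)] := by
      exact (List.dropLast_append_getLast? _ h).symm
    conv_lhs => rw [hL]
    rw [List.dropLast_concat, vx_append, dd_append_left]
    have : vx l [(a.1, !a.2)] = [((a.1, !a.2), l a.1)] := rfl
    rw [this, dd_single]
    rw [show (1 - r) * l a.1 - l a.1 = -(r * l a.1) by ring, abs_neg,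
      abs_of_nonneg (mul_nonneg h0 (hl _))]
  · conv_lhs => rw [← List.append_nil (vx l L)]
    rw [List.append_assoc, dd_append_left, List.nil_append, dd_comm, dd_nil]
    simp

theorem edge_edge (l : ℕ → ℝ) (L : List (ℕ × Bool)) (a : ℕ × Bool) (r s : ℝ) :
    dd (edge l L a r) (edge l L a s) = |(r - s) * l a.1| := by
  unfold edge
  split_ifs with h
  · rw [dd_append_left, dd_single, ← abs_neg]
    congr 1
    ring
  · rw [dd_append_left, dd_single]
    congr 1
    ring

theorem toWord_mul_letter (g : FreeGroup ℕ) (a : ℕ × Bool) :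
    FreeGroup.toWord (g * FreeGroup.mk [a]) =
      if g.toWord.getLast? = some (a.1, !a.2) then g.toWord.dropLast else g.toWord ++ [a] := by
  split_ifs with h
  · have hL : g.toWord = g.toWord.dropLast ++ [(a.1, !a.2)] :=
      (List.dropLast_append_getLast? _ h).symm
    have hg : g = FreeGroup.mk g.toWord.dropLast * FreeGroup.mk [(a.1, !a.2)] := by
      rw [FreeGroup.mul_mk, ← hL, FreeGroup.mk_toWord]
    have e : FreeGroup.mk [(a.1, !a.2)] * FreeGroup.mk [a] = 1 := by
      rw [FreeGroup.mul_mk, FreeGroup.one_eq_mk]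
      apply Quot.sound
      have := @FreeGroup.Red.Step.not_rev ℕ [] [] a.1 a.2
      simpa using this
    have e2 : g * FreeGroup.mk [a] = FreeGroup.mk g.toWord.dropLast := by
      conv_lhs => rw [hg]
      rw [mul_assoc, e, mul_one]
    rw [e2, FreeGroup.toWord_mk]
    apply FreeGroup.IsReduced.reduce_eq
    have hred := FreeGroup.isReduced_toWord (x := g)
    rw [hL] at hred
    exact List.IsChain.left_of_append hred
  · have e2 : g * FreeGroup.mk [a] = FreeGroup.mk (g.toWord ++ [a]) := by
      conv_lhs => rw [← FreeGroup.mk_toWord (x := g)]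
      rw [FreeGroup.mul_mk]
    rw [e2, FreeGroup.toWord_mk]
    apply FreeGroup.IsReduced.reduce_eq
    unfold FreeGroup.IsReduced
    rw [List.isChain_append]
    refine ⟨FreeGroup.isReduced_toWord, by simp, ?_⟩
    intro x hx y hy
    simp only [List.head?_cons, Option.mem_def, Option.some.injEq] at hy
    subst hy
    intro h1
    by_contra h2
    apply h
    rw [Option.mem_def] at hx
    rw [hx]
    congr 1
    obtain ⟨x1, x2⟩ := x
    obtain ⟨a1, a2⟩ := a
    simp only at h1 h2
    subst h1
    cases x2 <;> cases a2 <;> simp_all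

theorem edge_cross (l : ℕ → ℝ) (g : FreeGroup ℕ) (a : ℕ × Bool) (r s : ℝ) :
    dd (edge l g.toWord a r) (edge l (g * FreeGroup.mk [a]).toWord (a.1, !a.2) s)
      = |(1 - r - s) * l a.1| := by
  rw [toWord_mul_letter]
  by_cases h : g.toWord.getLast? = some (a.1, !a.2)
  · rw [if_pos h]
    have hL : g.toWord = g.toWord.dropLast ++ [(a.1, !a.2)] :=
      (List.dropLast_append_getLast? _ h).symm
    have h2 : g.toWord.dropLast.getLast? ≠ some (a.1, !(!a.2)) := by
      intro h3
      have hred := FreeGroup.isReduced_toWord (x := g)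
      rw [hL] at hred
      unfold FreeGroup.IsReduced at hred
      rw [List.isChain_append] at hred
      have := hred.2.2 _ h3 (a.1, !a.2) (by simp) rfl
      simp at this
    have e1 : edge l g.toWord a r = vx l g.toWord.dropLast ++ [((a.1, !a.2), (1 - r) * l a.1)] := by
      unfold edge
      rw [if_pos h]
    have e2 : edge l g.toWord.dropLast (a.1, !a.2) s
        = vx l g.toWord.dropLast ++ [((a.1, !a.2), s * l a.1)] := by
      unfold edge
      rw [if_neg h2]
    rw [e1, e2, dd_append_left, dd_single]
    congr 1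
    ring
  · rw [if_neg h]
    have e1 : edge l g.toWord a r = vx l g.toWord ++ [(a, r * l a.1)] := by
      unfold edge
      rw [if_neg h]
    have e2 : edge l (g.toWord ++ [a]) (a.1, !a.2) s
        = vx l g.toWord ++ [(a, (1 - s) * l a.1)] := by
      unfold edge
      rw [if_pos (by simp)]
      simp
    rw [e1, e2, dd_append_left, dd_single, ← abs_neg]
    congr 1
    ring

/-- signed count of letters -/
def sc (j : ℕ) (L : List (ℕ × Bool)) : ℤ :=
  (L.map (fun x => if x.1 = j then (if x.2 then 1 else -1) else 0)).sum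

theorem th_vx (l : ℕ → ℝ) (j : ℕ) (L : List (ℕ × Bool)) : th j (vx l L) = l j * sc j L := by
  induction L with
  | nil => simp [vx, sc]
  | cons a L ih =>
    have e : vx l (a :: L) = (a, l a.1) :: vx l L := rfl
    have e2 : sc j (a :: L) = (if a.1 = j then (if a.2 then 1 else -1) else 0) + sc j L := by
      simp [sc]
    rw [e, th_cons, ih, e2]
    push_cast
    by_cases h : a.1 = j
    · subst h
      cases a.2 <;> simp <;> ring
    · simp [h]

theorem th_edge (l : ℕ → ℝ) (j : ℕ) (L : List (ℕ × Bool)) (a : ℕ × Bool) (r : ℝ) :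
    th j (edge l L a r) = l j * (sc j L + (if a.1 = j then (if a.2 then r else -r) else 0)) := by
  unfold edge
  split_ifs with h h1 h2 h1 h2
  all_goals try
    have hL : L = L.dropLast ++ [(a.1, !a.2)] :=
      (List.dropLast_append_getLast? _ h).symm
  · have hsc : sc j L = sc j L.dropLast + (if (a.1, !a.2).1 = j then
        (if (a.1, !a.2).2 then 1 else -1) else 0) := by
      conv_lhs => rw [hL]
      simp [sc]
    rw [th_append, th_vx, hsc]
    simp [h1, h2]
    ring
  · have hsc : sc j L = sc j L.dropLast + (if (a.1, !a.2).1 = j then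
        (if (a.1, !a.2).2 then 1 else -1) else 0) := by
      conv_lhs => rw [hL]
      simp [sc]
    rw [th_append, th_vx, hsc]
    simp [h1, h2]
    ring
  · have hsc : sc j L = sc j L.dropLast + (if (a.1, !a.2).1 = j then
        (if (a.1, !a.2).2 then 1 else -1) else 0) := by
      conv_lhs => rw [hL]
      simp [sc]
    rw [th_append, th_vx, hsc]
    simp [h1]
  · rw [th_append, th_vx]
    simp [h1, h2]
    ring
  · rw [th_append, th_vx]
    simp [h1, h2]
    ring
  · rw [th_append, th_vx]
    simp [h1]

end Pool.Agent.MP3fbd41
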