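import Pool.Agent.Lib.MP_3fbd41_lc.Tame
import Pool.Agent.Lib.MP_3fbd41_lc.WList

/-!
# Realising infinite words by paths in the model
-/

namespace Pool.Agent.MP3fbd41

open Filter Topology

theorem cr_of_re {z w : ℂ} (h : z.re < 0 ∧ w.re < 0) : cr z w = sd w - sd z := by
  unfold cr
  rw [if_pos h]

theorem cr_of_not {z w : ℂ} (h : ¬ (z.re < 0 ∧ w.re < 0)) : cr z w = 0 := by
  unfold cr
  rw [if_neg h]

/-- `exp (2 π i x)` -/
noncomputable def ee (x : ℝ) : ℂ := Complex.exp ((2 * Real.pi * x : ℝ) * Complex.I)

theorem norm_ee (x : ℝ) : ‖ee x‖ = 1 := by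
  unfold ee
  exact Complex.norm_exp_ofReal_mul_I _

theorem ee_add (x y : ℝ) : ee (x + y) = ee x * ee y := by
  unfold ee
  rw [← Complex.exp_add]
  congr 1
  push_cast
  ring

theorem ee_int (n : ℤ) : ee n = 1 := by
  unfold ee
  rw [Complex.exp_eq_one_iff]
  refine ⟨n, ?_⟩
  push_cast
  ring

theorem ee_zero : ee 0 = 1 := by simpa using ee_int 0

theorem ee_lip (x y : ℝ) : ‖ee x - ee y‖ ≤ 2 * Real.pi * |x - y| := by
  have e : ee x - ee y = ee y * (ee (x - y) - 1) := by
    rw [mul_sub, ← ee_add]
    simp
  rw [e, norm_mul, norm_ee, one_mul]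
  unfold ee
  have := Real.norm_exp_I_mul_ofReal_sub_one_le (x := 2 * Real.pi * (x - y))
  rw [mul_comm Complex.I] at this
  refine this.trans ?_
  rw [Real.norm_eq_abs, abs_mul, abs_of_pos Real.two_pi_pos]

theorem ee_re (x : ℝ) : (ee x).re = Real.cos (2 * Real.pi * x) := by
  unfold ee; exact Complex.exp_ofReal_mul_I_re _

theorem ee_im (x : ℝ) : (ee x).im = Real.sin (2 * Real.pi * x) := by
  unfold ee; exact Complex.exp_ofReal_mul_I_im _

/-- clamping to the unit interval -/
noncomputable def cl (t : ℝ) : ℝ := max 0 (min 1 t)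

theorem cl_of_nonpos {t : ℝ} (h : t ≤ 0) : cl t = 0 := by
  unfold cl
  rw [max_eq_left]
  exact (min_le_right _ _).trans h

theorem cl_of_ge {t : ℝ} (h : 1 ≤ t) : cl t = 1 := by
  unfold cl
  rw [min_eq_left h, max_eq_right zero_le_one]

theorem cl_of_mem {t : ℝ} (h0 : 0 ≤ t) (h1 : t ≤ 1) : cl t = t := by
  unfold cl
  rw [min_eq_right h1, max_eq_right h0]

theorem cl_lip (s t : ℝ) : |cl s - cl t| ≤ |s - t| := by
  unfold cl
  refine (abs_max_sub_max_le_max _ _ _ _).trans ?_
  rw [sub_self, abs_zero, max_eq_right (abs_nonneg _)]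
  refine (abs_min_sub_min_le_max _ _ _ _).trans ?_
  rw [sub_self, abs_zero, max_eq_right (abs_nonneg _)]

/-- lift of the coordinate `j` of the path spelling the list -/
noncomputable def phi (w : ℕ → ℝ) (j : ℕ) : List (ℕ × Bool) → ℝ → ℝ
  | [], _ => 0
  | a :: L, t => (if a.1 = j then (if a.2 then cl (t / w j) else -cl (t / w j)) else 0) +
      phi w j L (t - w a.1)

theorem phi_cons (w : ℕ → ℝ) (j : ℕ) (a : ℕ × Bool) (L : List (ℕ × Bool)) (t : ℝ) :
    phi w j (a :: L) t = (if a.1 = j then (if a.2 then cl (t / w j) else -cl (t / w j)) else 0) +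
      phi w j L (t - w a.1) := by rw [phi]

theorem phi_nil (w : ℕ → ℝ) (j : ℕ) (t : ℝ) : phi w j [] t = 0 := by rw [phi]

theorem phi_nonpos {w : ℕ → ℝ} (hw : ∀ j, 0 < w j) (j : ℕ) (L : List (ℕ × Bool)) {t : ℝ}
    (ht : t ≤ 0) : phi w j L t = 0 := by
  induction L generalizing t with
  | nil => exact phi_nil _ _ _
  | cons a L ih =>
    rw [phi_cons, ih (by have := hw a.1; linarith), cl_of_nonpos (div_nonpos_of_nonpos_of_nonneg ht (hw j).le)]
    simp

theorem wt_cons (w : ℕ → ℝ) (a : ℕ × Bool) (L : List (ℕ × Bool)) :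
    wt w (a :: L) = w a.1 + wt w L := by simp [wt]

theorem wt_nonneg {w : ℕ → ℝ} (hw : ∀ j, 0 < w j) (L : List (ℕ × Bool)) : 0 ≤ wt w L := by
  induction L with
  | nil => simp [wt]
  | cons a L ih =>
    rw [wt_cons]
    have := hw a.1
    linarith

theorem phi_after {w : ℕ → ℝ} (hw : ∀ j, 0 < w j) (j : ℕ) (L : List (ℕ × Bool)) {t : ℝ}
    (ht : wt w L ≤ t) : ∃ n : ℤ, phi w j L t = n := by
  induction L generalizing t with
  | nil => exact ⟨0, by rw [phi_nil]; simp⟩
  | cons a L ih =>
    rw [wt_cons] at ht
    obtain ⟨n, hn⟩ := ih (t := t - w a.1) (by linarith)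
    rw [phi_cons, hn]
    have h1 := wt_nonneg hw L
    by_cases haj : a.1 = j
    · subst haj
      have h2 : cl (t / w a.1) = 1 := by
        apply cl_of_ge
        rw [le_div_iff₀ (hw _)]
        linarith
      rw [h2]
      cases a.2
      · exact ⟨-1 + n, by simp⟩
      · exact ⟨1 + n, by simp⟩
    · exact ⟨n, by simp [haj]⟩

/-- at each time at most one coordinate is not at the base point -/
theorem phi_atmost {w : ℕ → ℝ} (hw : ∀ j, 0 < w j) (L : List (ℕ × Bool)) (t : ℝ) :
    ∃ i, ∀ j, j ≠ i → ∃ n : ℤ, phi w j L t = n := by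
  induction L generalizing t with
  | nil => exact ⟨0, fun j _ => ⟨0, by rw [phi_nil]; simp⟩⟩
  | cons a L ih =>
    by_cases ht : t ≤ w a.1
    · refine ⟨a.1, fun j hj => ⟨0, ?_⟩⟩
      rw [phi_cons, if_neg (Ne.symm hj), phi_nonpos hw j L (by linarith)]
      simp
    · push Not at ht
      obtain ⟨i, hi⟩ := ih (t - w a.1)
      refine ⟨i, fun j hj => ?_⟩
      obtain ⟨n, hn⟩ := hi j hj
      rw [phi_cons, hn]
      by_cases haj : a.1 = j
      · subst haj
        have h2 : cl (t / w a.1) = 1 := by
          apply cl_of_ge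
          rw [le_div_iff₀ (hw _)]
          linarith
        rw [h2]
        cases a.2
        · exact ⟨-1 + n, by simp⟩
        · exact ⟨1 + n, by simp⟩
      · exact ⟨n, by simp [haj]⟩

/-- number of letters `j` -/
def nj (j : ℕ) (L : List (ℕ × Bool)) : ℕ := L.countP (fun x => x.1 = j)

theorem nj_cons (j : ℕ) (a : ℕ × Bool) (L : List (ℕ × Bool)) :
    nj j (a :: L) = nj j L + if a.1 = j then 1 else 0 := by
  unfold nj
  rw [List.countP_cons]
  simp

theorem nj_sm {j m : ℕ} (h : j < m) (L : List (ℕ × Bool)) : nj j (sm m L) = nj j L := by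
  induction L with
  | nil => rfl
  | cons a L ih =>
    by_cases ha : a.1 < m
    · rw [sm_cons_lt ha, nj_cons, nj_cons, ih]
    · rw [sm_cons_ge ha, nj_cons, ih, if_neg (by omega)]
      rfl

theorem phi_compare {w : ℕ → ℝ} (hw : ∀ j, 0 < w j) {j m : ℕ} (hj : j < m)
    (L : List (ℕ × Bool)) (s t : ℝ) :
    |phi w j L s - phi w j (sm m L) t| ≤
      nj j L * ((|s - t| + (wt w L - wt w (sm m L))) / w j) := by
  induction L generalizing s t with
  | nil => simp [sm, phi_nil, nj]
  | cons a L ih =>
    have hwt : wt w (sm m L) ≤ wt w L := by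
      clear ih
      induction L with
      | nil => simp [sm]
      | cons b L ih =>
        by_cases hb : b.1 < m
        · rw [sm_cons_lt hb, wt_cons, wt_cons]; linarith
        · rw [sm_cons_ge hb, wt_cons]
          have := hw b.1
          linarith
    by_cases ha : a.1 < m
    · rw [sm_cons_lt ha, phi_cons, phi_cons, wt_cons, wt_cons]
      have h1 := ih (s - w a.1) (t - w a.1)
      have e1 : s - w a.1 - (t - w a.1) = s - t := by ring
      have e2 : w a.1 + wt w L - (w a.1 + wt w (sm m L)) = wt w L - wt w (sm m L) := by ring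
      rw [e1] at h1
      rw [e2]
      by_cases haj : a.1 = j
      · rw [nj_cons, if_pos haj, if_pos haj, if_pos haj]
        have h2 : |(if a.2 then cl (s / w j) else -cl (s / w j)) -
            (if a.2 then cl (t / w j) else -cl (t / w j))| ≤ |s - t| / w j := by
          have h3 := cl_lip (s / w j) (t / w j)
          rw [← sub_div, abs_div, abs_of_pos (hw j)] at h3
          cases a.2
          · simp only [Bool.false_eq_true, if_false]
            rw [show -cl (s / w j) - -cl (t / w j) = -(cl (s / w j) - cl (t / w j)) by ring, abs_neg]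
            exact h3
          · simpa using h3
        have h4 : |s - t| / w j ≤ (|s - t| + (wt w L - wt w (sm m L))) / w j := by
          apply div_le_div_of_nonneg_right _ (hw j).le
          linarith
        push_cast
        rw [add_mul, one_mul]
        have e3 : ∀ p q r u : ℝ, p + q - (r + u) = (p - r) + (q - u) := by intros; ring
        rw [e3]
        refine (abs_add_le _ _).trans ?_
        linarith
      · rw [nj_cons, if_neg haj, if_neg haj, if_neg haj]
        simp only [zero_add, add_zero]
        exact h1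
    · have haj : a.1 ≠ j := by omega
      rw [sm_cons_ge ha, phi_cons, wt_cons, nj_cons, if_neg haj, if_neg haj]
      have h1 := ih (s - w a.1) t
      simp only [zero_add, add_zero]
      refine h1.trans ?_
      apply mul_le_mul_of_nonneg_left _ (Nat.cast_nonneg _)
      apply div_le_div_of_nonneg_right _ (hw j).le
      have h2 : |s - w a.1 - t| ≤ |s - t| + w a.1 := by
        have := abs_sub (s - t) (w a.1)
        rw [abs_of_pos (hw a.1)] at this
        rw [show s - w a.1 - t = s - t - w a.1 by ring]
        exact this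
      linarith

theorem phi_lip {w : ℕ → ℝ} (hw : ∀ j, 0 < w j) (j : ℕ)
    (L : List (ℕ × Bool)) (s t : ℝ) :
    |phi w j L s - phi w j L t| ≤ nj j L * (|s - t| / w j) := by
  induction L generalizing s t with
  | nil => simp [phi_nil, nj]
  | cons a L ih =>
    rw [phi_cons, phi_cons]
    have h1 := ih (s - w a.1) (t - w a.1)
    have e1 : s - w a.1 - (t - w a.1) = s - t := by ring
    rw [e1] at h1
    by_cases haj : a.1 = j
    · rw [nj_cons, if_pos haj, if_pos haj, if_pos haj]
      have h2 : |(if a.2 then cl (s / w j) else -cl (s / w j)) -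
          (if a.2 then cl (t / w j) else -cl (t / w j))| ≤ |s - t| / w j := by
        have h3 := cl_lip (s / w j) (t / w j)
        rw [← sub_div, abs_div, abs_of_pos (hw j)] at h3
        cases a.2
        · simp only [Bool.false_eq_true, if_false]
          rw [show -cl (s / w j) - -cl (t / w j) = -(cl (s / w j) - cl (t / w j)) by ring, abs_neg]
          exact h3
        · simpa using h3
      push_cast
      rw [add_mul, one_mul]
      have e3 : ∀ p q r u : ℝ, p + q - (r + u) = (p - r) + (q - u) := by intros; ring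
      rw [e3]
      refine (abs_add_le _ _).trans ?_
      linarith
    · rw [nj_cons, if_neg haj, if_neg haj, if_neg haj]
      simp only [zero_add, add_zero]
      exact h1

theorem uc_ee {f : ℝ → ℝ} {K : ℝ} (hK : 0 ≤ K) (h : ∀ s t, |f s - f t| ≤ K * |s - t|) :
    UniformContinuous (fun t => ee (f t)) := by
  rw [Metric.uniformContinuous_iff]
  intro ε hε
  have hπ := Real.two_pi_pos
  refine ⟨ε / (2 * Real.pi * (K + 1)), by positivity, fun {a b} hab => ?_⟩
  rw [dist_eq_norm]
  refine lt_of_le_of_lt (ee_lip _ _) ?_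
  rw [Real.dist_eq, lt_div_iff₀ (by positivity)] at hab
  have h1 := h a b
  have h2 := abs_nonneg (a - b)
  calc 2 * Real.pi * |f a - f b| ≤ 2 * Real.pi * (K * |a - b|) := by gcongr
    _ ≤ |a - b| * (2 * Real.pi * (K + 1)) := by nlinarith
    _ < ε := hab

/-- the path spelling a list -/
noncomputable def pathL (w : ℕ → ℝ) (L : List (ℕ × Bool)) : ℝ → ℕ → ℂ :=
  fun t j => ee (phi w j L t)

theorem ePath_pathL {w : ℕ → ℝ} (hw : ∀ j, 0 < w j) (L : List (ℕ × Bool)) :
    EPath (pathL w L) := by
  constructor
  · intro t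
    refine ⟨fun j => norm_ee _, ?_⟩
    intro i j hi hj
    obtain ⟨k, hk⟩ := phi_atmost hw L t
    have key : ∀ i, pathL w L t i ≠ 1 → i = k := by
      intro i hi
      by_contra hik
      obtain ⟨n, hn⟩ := hk i hik
      apply hi
      show ee (phi w i L t) = 1
      rw [hn, ee_int]
    rw [key i hi, key j hj]
  · intro j
    apply uc_ee (K := nj j L / w j) (div_nonneg (Nat.cast_nonneg _) (hw j).le)
    intro s t
    refine (phi_lip hw j L s t).trans (le_of_eq ?_)
    ring

/-- the holonomy only depends on the restriction, up to translation -/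
theorem hm_shift {F F' : ℝ → ℕ → ℂ} (hF : EPath F) (hF' : EPath F') {s t a : ℝ} (hs : 0 ≤ s)
    (hst : s ≤ t) (has : 0 ≤ s - a) (h : ∀ u, s ≤ u → u ≤ t → F u = F' (u - a)) (m : ℕ) :
    hm F s t m = hm F' (s - a) (t - a) m := by
  obtain ⟨g, δ, hδ, hg⟩ := hF.exists_prim m
  obtain ⟨g', δ', hδ', hg'⟩ := hF'.exists_prim m
  unfold hm
  rw [hol_eq hδ hg hs (hs.trans hst), hol_eq hδ' hg' has (by linarith)]
  have key := const_of_step (k := fun u => g u * (g' (u - a))⁻¹) (δ := min δ δ') (a := s) (b := t)
    (lt_min hδ hδ') (by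
      intro u v hu hu' hv hv' huv
      have e1 := hg u v (hs.trans hu) (hs.trans hv) (huv.trans (min_le_left _ _))
      have e2 := hg' (u - a) (v - a) (by linarith) (by linarith)
        (by rw [show u - a - (v - a) = u - v by ring]; exact huv.trans (min_le_right _ _))
      show g u * (g' (u - a))⁻¹ = g v * (g' (v - a))⁻¹
      rw [e1, e2, h u hu hu', h v hv hv']
      group) hst le_rfl
  have key' : g t * (g' (t - a))⁻¹ = g s * (g' (s - a))⁻¹ := key
  have e : g t = g s * (g' (s - a))⁻¹ * g' (t - a) := by
    rw [← key']; group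
  rw [e]
  group

theorem hm_const {F : ℝ → ℕ → ℂ} (hF : EPath F) {s t : ℝ} (hs : 0 ≤ s) (hst : s ≤ t)
    (h : ∀ u, s ≤ u → u ≤ t → ∀ j, F u j = 1) (m : ℕ) : hm F s t m = 1 := by
  rw [hm_of_near hF hs hst]
  · unfold cM
    apply lp_eq_one
    intro j _
    rw [h s le_rfl hst, cr_one_left]
  · intro u v hu hu' hv hv' j _
    rw [h u hu hu', h v hv hv']
    simp

/-- the holonomy of one letter -/
theorem hm_letter {w : ℕ → ℝ} (hw : ∀ j, 0 < w j) (a : ℕ × Bool) (m : ℕ) :
    hm (pathL w [a]) 0 (w a.1) m = FreeGroup.mk (sm m [a]) := by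
  have hF := ePath_pathL hw [a]
  have hwa := hw a.1
  have hval : ∀ t, ∀ j, pathL w [a] t j =
      if a.1 = j then ee (if a.2 then cl (t / w a.1) else -cl (t / w a.1)) else 1 := by
    intro t j
    show ee (phi w j [a] t) = _
    rw [phi_cons, phi_nil, add_zero]
    by_cases h : a.1 = j
    · subst h
      simp
    · simp [h, ee_zero]
  have hcM : ∀ s t, cM m (pathL w [a] s) (pathL w [a] t) = if a.1 < m then
      FreeGroup.of a.1 ^ cr (pathL w [a] s a.1) (pathL w [a] t a.1) else 1 := by
    intro s t
    unfold cM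
    apply lp_single
    intro j _ hj
    rw [hval s j, if_neg (Ne.symm hj), cr_one_left]
  have hmk : FreeGroup.mk (sm m [a]) = if a.1 < m then FreeGroup.mk [a] else 1 := by
    by_cases h : a.1 < m
    · rw [sm_cons_lt h, if_pos h]; rfl
    · rw [sm_cons_ge h, if_neg h]; rfl
  rw [hmk]
  -- trigonometric facts on the clamped time
  have hcos : ∀ x : ℝ, 3 / 8 < x → x < 5 / 8 → Real.cos (2 * Real.pi * x) < 0 := by
    intro x h1 h2
    apply Real.cos_neg_of_pi_div_two_lt_of_lt
    · have := Real.pi_pos; nlinarith
    · have := Real.pi_pos; nlinarith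
  have hsinp : ∀ x : ℝ, 0 ≤ x → x ≤ 1 / 2 → 0 ≤ Real.sin (2 * Real.pi * x) := by
    intro x h1 h2
    apply Real.sin_nonneg_of_nonneg_of_le_pi
    · have := Real.pi_pos; positivity
    · have := Real.pi_pos; nlinarith
  have hsinn : ∀ x : ℝ, 1 / 2 < x → x < 1 → Real.sin (2 * Real.pi * x) < 0 := by
    intro x h1 h2
    have h3 : Real.sin (2 * Real.pi * x) = -Real.sin (2 * Real.pi * (x - 1 / 2)) := by
      rw [← Real.sin_add_pi]
      congr 1
      ring
    rw [h3]
    have h4 : 0 < Real.sin (2 * Real.pi * (x - 1 / 2)) := by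
      apply Real.sin_pos_of_pos_of_lt_pi
      · have := Real.pi_pos
        apply mul_pos (by positivity)
        linarith
      · have := Real.pi_pos; nlinarith
    linarith
  have hcl : ∀ t : ℝ, 0 ≤ t → (t < w a.1 ∧ cl (t / w a.1) = t / w a.1 ∧ 0 ≤ t / w a.1 ∧
      t / w a.1 < 1) ∨ (w a.1 ≤ t ∧ cl (t / w a.1) = 1) := by
    intro t ht
    by_cases h : t < w a.1
    · left
      have h1 : 0 ≤ t / w a.1 := div_nonneg ht hwa.le
      have h2 : t / w a.1 < 1 := by rwa [div_lt_one hwa]
      exact ⟨h, cl_of_mem h1 h2.le, h1, h2⟩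
    · push Not at h
      right
      refine ⟨h, cl_of_ge ?_⟩
      rwa [le_div_iff₀ hwa, one_mul]
  obtain ⟨j, b⟩ := a
  simp only at *
  cases b with
  | true =>
    have hv : ∀ t, pathL w [(j, true)] t j = ee (cl (t / w j)) := fun t => by
      rw [hval]; simp
    -- sides
    have hside1 : ∀ t, 0 ≤ t → t ≤ w j / 2 → sd (pathL w [(j, true)] t j) = 0 := by
      intro t h1 h2
      rcases sd_cases (pathL w [(j, true)] t j) with ⟨p, -⟩ | ⟨-, q⟩
      · exfalso
        rcases hcl t h1 with ⟨c1, c2, c3, c4⟩ | ⟨c1, c2⟩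
        · rw [hv, ee_im, c2] at p
          have : t / w j ≤ 1 / 2 := by rw [div_le_iff₀ hwa]; linarith
          have := hsinp _ c3 this
          linarith
        · linarith
      · exact q
    have hside2 : ∀ t, w j / 2 < t → (pathL w [(j, true)] t j).re < 0 →
        sd (pathL w [(j, true)] t j) = 1 := by
      intro t h1 h2
      have ht : 0 ≤ t := by linarith
      rcases hcl t ht with ⟨c1, c2, c3, c4⟩ | ⟨c1, c2⟩
      · have h3 : 1 / 2 < t / w j := by rw [lt_div_iff₀ hwa]; linarith
        have h4 := hsinn _ h3 c4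
        unfold sd
        rw [hv, ee_im, c2, if_pos h4]
      · exfalso
        rw [hv, c2, ee_re] at h2
        simp at h2
        linarith
    have hmid : ∀ t, 3 / 8 * w j < t → t < 5 / 8 * w j → (pathL w [(j, true)] t j).re < 0 := by
      intro t h1 h2
      rw [hv, ee_re]
      have h3 : 3 / 8 < t / w j := by rw [lt_div_iff₀ hwa]; linarith
      have h4 : t / w j < 5 / 8 := by rw [div_lt_iff₀ hwa]; linarith
      rw [cl_of_mem (by linarith) (by linarith)]
      exact hcos _ h3 h4
    have hprim : Prim (cM m) (pathL w [(j, true)])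
        (fun t => if t ≤ w j / 2 then 1 else if j < m then FreeGroup.of j else 1) (w j / 16) := by
      have key : ∀ s t, 0 ≤ s → s ≤ t → t - s ≤ w j / 16 →
          cr (pathL w [(j, true)] s j) (pathL w [(j, true)] t j)
            = (if s ≤ w j / 2 ∧ w j / 2 < t then 1 else 0) ∧
          cr (pathL w [(j, true)] t j) (pathL w [(j, true)] s j)
            = (if s ≤ w j / 2 ∧ w j / 2 < t then -1 else 0) := by
        intro s t hs hst hd
        have ht : 0 ≤ t := hs.trans hst
        by_cases hre : (pathL w [(j, true)] s j).re < 0 ∧ (pathL w [(j, true)] t j).re < 0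
        · rw [cr_of_re hre, cr_of_re ⟨hre.2, hre.1⟩]
          by_cases h1 : s ≤ w j / 2
          · by_cases h2 : w j / 2 < t
            · rw [if_pos ⟨h1, h2⟩, if_pos ⟨h1, h2⟩, hside1 s hs h1, hside2 t h2 hre.2]
              norm_num
            · rw [if_neg (fun h => h2 h.2), if_neg (fun h => h2 h.2), hside1 s hs h1,
                hside1 t ht (not_lt.1 h2)]
              norm_num
          · rw [if_neg (fun h => h1 h.1), if_neg (fun h => h1 h.1)]
            push Not at h1
            rw [hside2 s h1 hre.1, hside2 t (by linarith) hre.2]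
            norm_num
        · have h3 : ¬ (s ≤ w j / 2 ∧ w j / 2 < t) := by
            rintro ⟨h1, h2⟩
            apply hre
            exact ⟨hmid s (by linarith) (by linarith), hmid t (by linarith) (by linarith)⟩
          rw [if_neg h3, if_neg h3]
          exact ⟨cr_of_not hre, cr_of_not (fun h => hre ⟨h.2, h.1⟩)⟩
      intro s t hs ht hst
      simp only
      rw [hcM]
      by_cases hjm : j < m
      · simp only [hjm, if_true]
        rcases le_total s t with h | h
        · rw [(key s t hs h (by rw [abs_le] at hst; linarith)).1]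
          by_cases h1 : s ≤ w j / 2
          · by_cases h2 : t ≤ w j / 2
            · simp [h1, h2, not_lt.2 h2]
            · simp [h1, h2, not_le.1 h2]
          · have h2 : ¬ t ≤ w j / 2 := by push Not at h1 ⊢; linarith
            simp [h1, h2]
        · rw [(key t s ht h (by rw [abs_le] at hst; linarith)).2]
          by_cases h1 : t ≤ w j / 2
          · by_cases h2 : s ≤ w j / 2
            · simp [h1, h2, not_lt.2 h2]
            · simp [h1, h2, not_le.1 h2]
          · have h2 : ¬ s ≤ w j / 2 := by push Not at h1 ⊢; linarith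
            simp [h1, h2]
      · simp [hjm]
    unfold hm
    rw [hol_eq (by linarith) hprim le_rfl hwa.le]
    have h1 : (0:ℝ) ≤ w j / 2 := by linarith
    have h2 : ¬ w j ≤ w j / 2 := by linarith
    simp only [h1, h2, if_true, if_false, inv_one, one_mul]
    rfl
  | false =>
    have hv : ∀ t, pathL w [(j, false)] t j = ee (-cl (t / w j)) := fun t => by
      rw [hval]; simp
    have hre' : ∀ t, (pathL w [(j, false)] t j).re = Real.cos (2 * Real.pi * cl (t / w j)) := by
      intro t
      rw [hv, ee_re, mul_neg, Real.cos_neg]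
    have him' : ∀ t, (pathL w [(j, false)] t j).im = -Real.sin (2 * Real.pi * cl (t / w j)) := by
      intro t
      rw [hv, ee_im, mul_neg, Real.sin_neg]
    have hside1 : ∀ t, 0 ≤ t → t < w j / 2 → (pathL w [(j, false)] t j).re < 0 →
        sd (pathL w [(j, false)] t j) = 1 := by
      intro t h1 h2 h3
      rcases hcl t h1 with ⟨c1, c2, c3, c4⟩ | ⟨c1, c2⟩
      · have h4 : t / w j < 1 / 2 := by rw [div_lt_iff₀ hwa]; linarith
        have h5 : 0 < t / w j := by
          rcases lt_or_eq_of_le c3 with h | h
          · exact h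
          · exfalso
            rw [hre', c2, ← h] at h3
            simp at h3
            linarith
        have h6 : 0 < Real.sin (2 * Real.pi * (t / w j)) := by
          apply Real.sin_pos_of_pos_of_lt_pi
          · have := Real.pi_pos; positivity
          · have := Real.pi_pos; nlinarith
        unfold sd
        rw [him', c2, if_pos (by linarith)]
      · linarith
    have hside2 : ∀ t, w j / 2 ≤ t → sd (pathL w [(j, false)] t j) = 0 := by
      intro t h1
      have ht : 0 ≤ t := by linarith
      unfold sd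
      rw [if_neg]
      rw [him']
      rcases hcl t ht with ⟨c1, c2, c3, c4⟩ | ⟨c1, c2⟩
      · rw [c2]
        have h3 : 1 / 2 ≤ t / w j := by rw [le_div_iff₀ hwa]; linarith
        rcases lt_or_eq_of_le h3 with h4 | h4
        · have := hsinn _ h4 c4
          linarith
        · rw [← h4]
          rw [show 2 * Real.pi * (1 / 2) = Real.pi by ring, Real.sin_pi]
          simp
      · rw [c2, mul_one, Real.sin_two_pi]
        simp
    have hmid : ∀ t, 3 / 8 * w j < t → t < 5 / 8 * w j → (pathL w [(j, false)] t j).re < 0 := by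
      intro t h1 h2
      rw [hre']
      have h3 : 3 / 8 < t / w j := by rw [lt_div_iff₀ hwa]; linarith
      have h4 : t / w j < 5 / 8 := by rw [div_lt_iff₀ hwa]; linarith
      rw [cl_of_mem (by linarith) (by linarith)]
      exact hcos _ h3 h4
    have hprim : Prim (cM m) (pathL w [(j, false)])
        (fun t => if t < w j / 2 then 1 else if j < m then (FreeGroup.of j)⁻¹ else 1)
        (w j / 16) := by
      have key : ∀ s t, 0 ≤ s → s ≤ t → t - s ≤ w j / 16 →
          cr (pathL w [(j, false)] s j) (pathL w [(j, false)] t j)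
            = (if s < w j / 2 ∧ w j / 2 ≤ t then -1 else 0) ∧
          cr (pathL w [(j, false)] t j) (pathL w [(j, false)] s j)
            = (if s < w j / 2 ∧ w j / 2 ≤ t then 1 else 0) := by
        intro s t hs hst hd
        have ht : 0 ≤ t := hs.trans hst
        by_cases hre : (pathL w [(j, false)] s j).re < 0 ∧ (pathL w [(j, false)] t j).re < 0
        · rw [cr_of_re hre, cr_of_re ⟨hre.2, hre.1⟩]
          by_cases h1 : s < w j / 2
          · by_cases h2 : w j / 2 ≤ t
            · rw [if_pos ⟨h1, h2⟩, if_pos ⟨h1, h2⟩, hside1 s hs h1 hre.1, hside2 t h2]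
              norm_num
            · rw [if_neg (fun h => h2 h.2), if_neg (fun h => h2 h.2), hside1 s hs h1 hre.1,
                hside1 t ht (not_le.1 h2) hre.2]
              norm_num
          · rw [if_neg (fun h => h1 h.1), if_neg (fun h => h1 h.1)]
            push Not at h1
            rw [hside2 s h1, hside2 t (by linarith)]
            norm_num
        · have h3 : ¬ (s < w j / 2 ∧ w j / 2 ≤ t) := by
            rintro ⟨h1, h2⟩
            apply hre
            exact ⟨hmid s (by linarith) (by linarith), hmid t (by linarith) (by linarith)⟩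
          rw [if_neg h3, if_neg h3]
          exact ⟨cr_of_not hre, cr_of_not (fun h => hre ⟨h.2, h.1⟩)⟩
      intro s t hs ht hst
      simp only
      rw [hcM]
      by_cases hjm : j < m
      · simp only [hjm, if_true]
        rcases le_total s t with h | h
        · rw [(key s t hs h (by rw [abs_le] at hst; linarith)).1]
          by_cases h1 : s < w j / 2
          · by_cases h2 : t < w j / 2
            · simp [h1, h2, not_le.2 h2]
            · simp [h1, h2, not_lt.1 h2]
          · have h2 : ¬ t < w j / 2 := by push Not at h1 ⊢; linarith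
            simp [h1, h2]
        · rw [(key t s ht h (by rw [abs_le] at hst; linarith)).2]
          by_cases h1 : t < w j / 2
          · by_cases h2 : s < w j / 2
            · simp [h1, h2, not_le.2 h2]
            · simp [h1, h2, not_lt.1 h2]
          · have h2 : ¬ s < w j / 2 := by push Not at h1 ⊢; linarith
            simp [h1, h2]
      · simp [hjm]
    unfold hm
    rw [hol_eq (by linarith) hprim le_rfl hwa.le]
    have h1 : (0:ℝ) < w j / 2 := by linarith
    have h2 : ¬ w j < w j / 2 := by linarith
    simp only [h1, h2, if_true, if_false, inv_one, one_mul]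
    rfl

/-- the holonomy of a list -/
theorem hm_pathL {w : ℕ → ℝ} (hw : ∀ j, 0 < w j) (L : List (ℕ × Bool)) {T : ℝ}
    (hT : wt w L ≤ T) (m : ℕ) : hm (pathL w L) 0 T m = FreeGroup.mk (sm m L) := by
  induction L generalizing T with
  | nil =>
    have hT0 : 0 ≤ T := by simpa [wt] using hT
    rw [hm_const (ePath_pathL hw []) le_rfl hT0]
    · rfl
    · intro u _ _ j
      show ee (phi w j [] u) = 1
      rw [phi_nil, ee_zero]
  | cons a L ih =>
    rw [wt_cons] at hT
    have hwa := hw a.1
    have hL := wt_nonneg hw L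
    have hF := ePath_pathL hw (a :: L)
    rw [← hm_mul hF le_rfl hwa.le (by linarith : (0:ℝ) ≤ T) m]
    have h1 : hm (pathL w (a :: L)) 0 (w a.1) m = hm (pathL w [a]) (0 - 0) (w a.1 - 0) m := by
      apply hm_shift hF (ePath_pathL hw [a]) le_rfl hwa.le (by simp)
      intro u _ hu
      funext j
      rw [sub_zero]
      show ee (phi w j (a :: L) u) = ee (phi w j [a] u)
      rw [phi_cons, phi_cons, phi_nil, phi_nonpos hw j L (by linarith)]
    have h2 : hm (pathL w (a :: L)) (w a.1) T m = hm (pathL w L) (w a.1 - w a.1) (T - w a.1) m := by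
      apply hm_shift hF (ePath_pathL hw L) hwa.le (by linarith) (by simp)
      intro u hu _
      funext j
      show ee (phi w j (a :: L) u) = ee (phi w j L (u - w a.1))
      rw [phi_cons, ee_add]
      have : ee (if a.1 = j then (if a.2 then cl (u / w j) else -cl (u / w j)) else 0) = 1 := by
        by_cases haj : a.1 = j
        · subst haj
          have h2 : cl (u / w a.1) = 1 := by
            apply cl_of_ge
            rw [le_div_iff₀ (hw _)]
            linarith
          rw [if_pos rfl, h2]
          cases a.2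
          · have := ee_int (-1)
            simpa using this
          · have := ee_int 1
            simpa using this
        · rw [if_neg haj, ee_zero]
      rw [this, one_mul]
    rw [h1, h2]
    simp only [sub_self, sub_zero]
    rw [hm_letter hw a m, ih (by linarith), FreeGroup.mul_mk, ← sm_append]
    rfl

end Pool.Agent.MP3fbd41
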