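import Mathlib

/-!
# Tree-like loops are null-homotopic
-/

namespace Pool.Agent.MP3fbd41

open Filter Topology unitInterval

/-- building a path homotopy from a continuous function on the square -/
theorem homotopic_of_map {X : Type*} [TopologicalSpace X] {x y : X} (p q : Path x y)
    (H : I × I → X) (hH : Continuous H) (h0 : ∀ s, H (0, s) = p s) (h1 : ∀ s, H (1, s) = q s)
    (hx : ∀ r, H (r, 0) = x) (hy : ∀ r, H (r, 1) = y) : p.Homotopic q := by
  refine ⟨⟨⟨⟨H, hH⟩, ?_, ?_⟩, ?_⟩⟩
  · intro s; exact h0 s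
  · intro s; exact h1 s
  · intro r s hs
    rcases hs with hs | hs
    · subst hs
      show H (r, 0) = p 0
      rw [hx]; simp
    · rw [Set.mem_singleton_iff] at hs
      subst hs
      show H (r, 1) = p 1
      rw [hy]; simp

/-- `u` is an ancestor of `s` at height `min (h s) τ` -/
def Anc (h : ℝ → ℝ) (s τ u : ℝ) : Prop :=
  0 ≤ u ∧ u ≤ s ∧ h u = min (h s) τ ∧ ∀ v, u ≤ v → v ≤ s → min (h s) τ ≤ h v

theorem exists_anc {h : ℝ → ℝ} (hc : Continuous h) (h0 : h 0 = 0) {s τ : ℝ} (hs : 0 ≤ s)
    (hτ : 0 ≤ τ) : ∃ u, Anc h s τ u := by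
  by_cases hsτ : h s ≤ τ
  · refine ⟨s, hs, le_rfl, by rw [min_eq_left hsτ], ?_⟩
    intro v h1 h2
    have : v = s := le_antisymm h2 h1
    subst this
    exact min_le_left _ _
  · push Not at hsτ
    have hcomp : IsCompact {u | u ∈ Set.Icc 0 s ∧ h u ≤ τ} := by
      apply isCompact_Icc.of_isClosed_subset
      · exact IsClosed.inter isClosed_Icc (isClosed_le hc continuous_const)
      · intro u hu; exact hu.1
    obtain ⟨u, hu, hmax⟩ := hcomp.exists_isGreatest ⟨0, ⟨le_rfl, hs⟩, by rw [h0]; exact hτ⟩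
    have hlt : u < s := by
      rcases lt_or_eq_of_le hu.1.2 with h | h
      · exact h
      · have := hu.2
        rw [h] at this
        linarith
    have hgt : ∀ v, u < v → v ≤ s → τ < h v := by
      intro v h1 h2
      by_contra hcon
      push Not at hcon
      have := hmax (a := v) ⟨⟨hu.1.1.trans h1.le, h2⟩, hcon⟩
      linarith
    have hge : τ ≤ h u := by
      have ht : Tendsto h (𝓝[>] u) (𝓝 (h u)) := hc.continuousAt.tendsto.mono_left nhdsWithin_le_nhds
      refine ge_of_tendsto ht ?_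
      filter_upwards [Ioc_mem_nhdsGT hlt] with v hv
      exact (hgt v hv.1 hv.2).le
    have he : h u = τ := le_antisymm hu.2 hge
    refine ⟨u, hu.1.1, hu.1.2, by rw [he, min_eq_right hsτ.le], ?_⟩
    intro v h1 h2
    rw [min_eq_right hsτ.le]
    rcases lt_or_eq_of_le h1 with h | h
    · exact (hgt v h h2).le
    · rw [← h, he]

/-- A loop which factors through the tree coded by the height function `h` is null-homotopic. -/
theorem homotopic_refl_of_height {X : Type*} [TopologicalSpace X] {x : X} (p : Path x x)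
    (f : ℝ → X) (hf : Continuous f) (hp : ∀ t : I, p t = f t)
    (h : ℝ → ℝ) (hc : Continuous h) (h0 : h 0 = 0) (h1 : h 1 = 0) (hnn : ∀ t, 0 ≤ h t)
    (hTL : ∀ s t, 0 ≤ s → s ≤ t → t ≤ 1 → h s = h t → (∀ u, s ≤ u → u ≤ t → h s ≤ h u) →
      f s = f t) :
    p.Homotopic (Path.refl x) := by
  have hf0 : f 0 = x := by have := hp 0; simp at this; exact this.symm
  have hf1 : f 1 = x := by have := hp 1; simp at this; exact this.symm
  obtain ⟨M, hM⟩ : ∃ M, ∀ s ∈ Set.Icc (0:ℝ) 1, h s ≤ M := by
    obtain ⟨z, -, hz⟩ := isCompact_Icc.exists_isMaxOn (⟨0, by simp⟩ : (Set.Icc (0:ℝ) 1).Nonempty)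
      hc.continuousOn
    exact ⟨h z, fun s hs => hz hs⟩
  have hM0 : 0 ≤ M := by
    have := hM 0 (by simp)
    rwa [h0] at this
  have hτ : ∀ r : I, 0 ≤ (1 - (r : ℝ)) * M := fun r => mul_nonneg (by linarith [r.2.2]) hM0
  choose U hU using fun q : I × I =>
    exists_anc hc h0 (s := (q.2 : ℝ)) (τ := (1 - (q.1 : ℝ)) * M) q.2.2.1 (hτ q.1)
  -- `f` is constant on the ancestors
  have huniq : ∀ s τ u u', s ≤ 1 → Anc h s τ u → Anc h s τ u' → f u = f u' := by
    have key : ∀ s τ u u', s ≤ 1 → Anc h s τ u → Anc h s τ u' → u ≤ u' → f u = f u' := by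
      intro s τ u u' hs1 hu hu' huu
      apply hTL u u' hu.1 huu (hu'.2.1.trans hs1)
      · rw [hu.2.2.1, hu'.2.2.1]
      · intro v hv hv'
        rw [hu.2.2.1]
        exact hu.2.2.2 v hv (hv'.trans hu'.2.1)
    intro s τ u u' hs1 hu hu'
    rcases le_total u u' with hle | hle
    · exact key s τ u u' hs1 hu hu' hle
    · exact (key s τ u' u hs1 hu' hu hle).symm
  refine homotopic_of_map p (Path.refl x) (fun q => f (U q)) ?_ ?_ ?_ ?_ ?_
  · rw [continuous_iff_continuousAt]
    intro q
    rw [ContinuousAt, tendsto_iff_ultrafilter]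
    intro W hW
    have hmem : ∀ q, U q ∈ Set.Icc (0:ℝ) 1 := fun q => ⟨(hU q).1, (hU q).2.1.trans q.2.2.2⟩
    obtain ⟨u, hu1, hu⟩ := isCompact_Icc.ultrafilter_le_nhds (W.map U) (by
      rw [le_principal_iff, Ultrafilter.coe_map, Filter.mem_map]
      exact Filter.univ_mem' hmem)
    have hUt : Tendsto U W (𝓝 u) := hu
    have ht2 : Tendsto (fun q : I × I => (q.2 : ℝ)) W (𝓝 (q.2 : ℝ)) :=
      ((continuous_subtype_val.comp continuous_snd).tendsto q).mono_left hW
    have ht1 : Tendsto (fun q : I × I => (1 - (q.1 : ℝ)) * M) W (𝓝 ((1 - (q.1 : ℝ)) * M)) :=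
      ((((continuous_const.sub (continuous_subtype_val.comp continuous_fst)).mul
        continuous_const).tendsto q)).mono_left hW
    have htm : Tendsto (fun q : I × I => min (h q.2) ((1 - (q.1 : ℝ)) * M)) W
        (𝓝 (min (h q.2) ((1 - (q.1 : ℝ)) * M))) :=
      ((hc.tendsto _).comp ht2).min ht1
    have hAnc : Anc h q.2 ((1 - (q.1 : ℝ)) * M) u := by
      refine ⟨hu1.1, le_of_tendsto_of_tendsto' hUt ht2 (fun q => (hU q).2.1), ?_, ?_⟩
      · have a1 : Tendsto (fun q => h (U q)) W (𝓝 (h u)) := (hc.tendsto _).comp hUt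
        refine tendsto_nhds_unique a1 ?_
        refine htm.congr (fun q => ((hU q).2.2.1).symm)
      · intro v hv1 hv2
        rcases lt_or_eq_of_le hv1 with hv1' | hv1'
        · rcases lt_or_eq_of_le hv2 with hv2' | hv2'
          · refine le_of_tendsto htm ?_
            have b1 : ∀ᶠ q in (W : Filter (I × I)), U q < v := hUt.eventually_lt_const hv1'
            have b2 : ∀ᶠ q : I × I in (W : Filter (I × I)), v < (q.2 : ℝ) :=
              ht2.eventually_const_lt hv2'
            filter_upwards [b1, b2] with q hq1 hq2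
            exact (hU q).2.2.2 v hq1.le hq2.le
          · rw [hv2']
            exact min_le_left _ _
        · rw [← hv1']
          have a1 : Tendsto (fun q => h (U q)) W (𝓝 (h u)) := (hc.tendsto _).comp hUt
          have : h u = min (h q.2) ((1 - (q.1 : ℝ)) * M) := by
            refine tendsto_nhds_unique a1 ?_
            refine htm.congr (fun q => ((hU q).2.2.1).symm)
          rw [this]
    have e : f (U q) = f u := huniq _ _ _ _ q.2.2.2 (hU q) hAnc
    show Tendsto (fun q => f (U q)) W (𝓝 (f (U q)))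
    rw [e]
    exact (hf.tendsto u).comp hUt
  · intro s
    show f (U (0, s)) = p s
    rw [hp]
    have hA := hU (0, s)
    have hmin : min (h s) ((1 - ((0 : I) : ℝ)) * M) = h s := by
      apply min_eq_left
      simpa using hM s s.2
    refine hTL _ _ hA.1 hA.2.1 s.2.2 ?_ ?_
    · rw [hA.2.2.1]; exact hmin
    · intro v hv1 hv2
      rw [hA.2.2.1]
      exact hA.2.2.2 v hv1 hv2
  · intro s
    show f (U (1, s)) = x
    have hA := hU (1, s)
    have hmin : min (h s) ((1 - ((1 : I) : ℝ)) * M) = 0 := by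
      simp [hnn]
    rw [← hf0]
    symm
    refine hTL _ _ le_rfl hA.1 (hA.2.1.trans s.2.2) ?_ ?_
    · rw [hA.2.2.1, h0]; exact hmin.symm
    · intro v _ _
      rw [h0]; exact hnn v
  · intro r
    show f (U (r, 0)) = x
    have hA := hU (r, 0)
    have : U (r, 0) = 0 := le_antisymm hA.2.1 hA.1
    rw [this, hf0]
  · intro r
    show f (U (r, 1)) = x
    have hA := hU (r, 1)
    have hmin : min (h ((1 : I) : ℝ)) ((1 - (r : ℝ)) * M) = 0 := by
      have : h ((1 : I) : ℝ) = 0 := by simpa using h1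
      rw [this]
      exact min_eq_left (hτ r)
    rw [← hf0]
    symm
    refine hTL _ _ le_rfl hA.1 hA.2.1 ?_ ?_
    · rw [hA.2.2.1, h0]; exact hmin.symm
    · intro v _ _
      rw [h0]; exact hnn v

/-- Gromov product based at time `0`. -/
noncomputable def gp (d : ℝ → ℝ → ℝ) (s t : ℝ) : ℝ := (d 0 s + d 0 t - d s t) / 2

/-- A loop which factors through a continuous `0`-hyperbolic pseudometric on `[0,1]` is
null-homotopic. -/
theorem homotopic_refl_of_tree {X : Type*} [TopologicalSpace X] {x : X} (p : Path x x)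
    (d : ℝ → ℝ → ℝ)
    (hself : ∀ s, d s s = 0) (hsymm : ∀ s t, d s t = d t s)
    (htri : ∀ s t u, d s u ≤ d s t + d t u)
    (hcont : ∀ ε, 0 < ε → ∃ δ, 0 < δ ∧ ∀ s t, 0 ≤ s → s ≤ 1 → 0 ≤ t → t ≤ 1 → |s - t| ≤ δ →
      d s t ≤ ε)
    (hyp : ∀ s t u, min (gp d s t) (gp d t u) ≤ gp d s u)
    (h01 : d 0 1 = 0)
    (hp : ∀ s t : I, d s t = 0 → p s = p t) :
    p.Homotopic (Path.refl x) := by
  have hnn : ∀ s t, 0 ≤ d s t := by
    intro s t
    have := htri s t s
    rw [hself, hsymm t s] at this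
    linarith
  have hlip : ∀ s t u, |d s t - d s u| ≤ d t u := by
    intro s t u
    rw [abs_le]
    constructor
    · have := htri s t u
      linarith
    · have := htri s u t
      rw [hsymm u t] at this
      linarith
  -- continuity of `d s ·` on the unit interval
  have hcI : ∀ s, Continuous (fun t : I => d s t) := by
    intro s
    rw [Metric.continuous_iff]
    intro b ε hε
    obtain ⟨δ, hδ, hd⟩ := hcont (ε / 2) (by linarith)
    refine ⟨δ, hδ, fun a hab => ?_⟩
    rw [Real.dist_eq]
    have h1 := hd a b a.2.1 a.2.2 b.2.1 b.2.2 (by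
      have : dist (a : ℝ) b < δ := hab
      rw [Real.dist_eq] at this
      exact this.le)
    have h2 := hlip s a b
    linarith
  have hproj : ∀ s : ℝ, 0 ≤ s → s ≤ 1 → ((Set.projIcc (0:ℝ) 1 zero_le_one s : I) : ℝ) = s := by
    intro s h1 h2
    rw [Set.projIcc_of_mem zero_le_one ⟨h1, h2⟩]
  let h : ℝ → ℝ := fun t => d 0 (Set.projIcc (0:ℝ) 1 zero_le_one t : I)
  have hh : ∀ s, 0 ≤ s → s ≤ 1 → h s = d 0 s := fun s h1 h2 => by
    show d 0 (Set.projIcc (0:ℝ) 1 zero_le_one s : I) = d 0 s
    rw [hproj s h1 h2]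
  refine homotopic_refl_of_height p p.extend p.continuous_extend ?_ h ?_ ?_ ?_ ?_ ?_
  · intro t
    simp
  · exact (hcI 0).comp continuous_projIcc
  · rw [hh 0 le_rfl zero_le_one, hself]
  · rw [hh 1 zero_le_one le_rfl, h01]
  · intro t; exact hnn _ _
  · intro s t hs hst ht heq hmin
    have hs1 : s ≤ 1 := hst.trans ht
    have ht0 : 0 ≤ t := hs.trans hst
    rw [Path.extend_apply p ⟨hs, hs1⟩, Path.extend_apply p ⟨ht0, ht⟩]
    apply hp
    show d s t = 0
    by_contra hne
    have hD : 0 < d s t := lt_of_le_of_ne (hnn s t) (Ne.symm hne)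
    rw [hh s hs hs1, hh t ht0 ht] at heq
    set c := d 0 s with hcdef
    have hmin' : ∀ u, s ≤ u → u ≤ t → c ≤ d 0 u := by
      intro u h1 h2
      have := hmin u h1 h2
      rwa [hh s hs hs1, hh u (hs.trans h1) (h2.trans ht)] at this
    -- first time at which the product with `s` is small
    let c' := c - d s t / 2
    have hκt : gp d s t = c' := by
      show (c + d 0 t - d s t) / 2 = c - d s t / 2
      rw [← heq]; ring
    have hκs : gp d s s = c := by
      show (c + c - d s s) / 2 = c
      rw [hself]; ring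
    have hκc : Continuous (fun u : I => gp d s u) := by
      show Continuous (fun u : I => (d 0 s + d 0 u - d s u) / 2)
      exact ((continuous_const.add (hcI 0)).sub (hcI s)).div_const 2
    have hclosed : IsCompact {u : I | gp d s u ≤ c' ∧ s ≤ u ∧ (u : ℝ) ≤ t} := by
      apply IsClosed.isCompact
      refine (isClosed_le hκc continuous_const).inter ?_
      exact (isClosed_le continuous_const continuous_subtype_val).inter
        (isClosed_le continuous_subtype_val continuous_const)
    obtain ⟨w, hw, hleast⟩ := hclosed.exists_isLeast ⟨⟨t, ht0, ht⟩, hκt.le, hst, le_rfl⟩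
    obtain ⟨hw1, hw2, hw3⟩ := hw
    have hsw : s < w := by
      rcases lt_or_eq_of_le hw2 with h | h
      · exact h
      · exfalso
        rw [← h, hκs] at hw1
        show False
        have : c ≤ c - d s t / 2 := hw1
        linarith
    obtain ⟨δ, hδ, hd⟩ := hcont (d s t / 2) (by linarith)
    set u := max s (w - δ) with hu
    have hu1 : s ≤ u := le_max_left _ _
    have hu2 : u < w := max_lt hsw (by linarith)
    have hu0 : 0 ≤ u := hs.trans hu1
    have hu3 : u ≤ 1 := hu2.le.trans w.2.2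
    have hgt : c' < gp d s u := by
      by_contra hcon
      push Not at hcon
      have := hleast (a := (⟨u, hu0, hu3⟩ : I)) ⟨hcon, hu1, hu2.le.trans hw3⟩
      have : (w : ℝ) ≤ u := this
      linarith
    have h3 := hyp s u w
    have h4 : gp d u w ≤ c' := by
      by_contra hcon
      push Not at hcon
      have : c' < min (gp d s u) (gp d u w) := lt_min hgt hcon
      linarith
    have h5 : (d 0 u + d 0 w - d u w) / 2 ≤ c - d s t / 2 := h4
    have h6 := hmin' u hu1 (hu2.le.trans hw3)
    have h7 := hmin' w hw2 hw3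
    have h8 := hd u w hu0 hu3 w.2.1 w.2.2 (by
      rw [abs_le]
      have : w - δ ≤ u := le_max_right _ _
      constructor <;> linarith)
    linarith

end Pool.Agent.MP3fbd41
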