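import Pool.Agent.Lib.MP_3fbd41_lc.EModel
import Pool.Agent.Lib.MP_3fbd41_lc.TreeLike
import Pool.Agent.Lib.MP_3fbd41_lc.WList

/-!
# Loops with trivial holonomies are null-homotopic
-/

namespace Pool.Agent.MP3fbd41

open Filter Topology unitInterval

/-- distance to the base point along the circle, normalised -/
noncomputable def rho (z : ℂ) : ℝ := ‖z - 1‖ / 4

/-- signed version -/
noncomputable def srho (z : ℂ) : ℝ := if 0 ≤ z.im then rho z else -rho z

theorem rho_nonneg (z : ℂ) : 0 ≤ rho z := by unfold rho; positivity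

theorem rho_le {z : ℂ} (h : ‖z‖ = 1) : rho z ≤ 1 / 2 := by
  unfold rho
  have : ‖z - 1‖ ≤ ‖z‖ + ‖(1:ℂ)‖ := norm_sub_le _ _
  rw [h, norm_one] at this
  linarith

theorem rho_one : rho 1 = 0 := by simp [rho]

theorem unit_sq {z : ℂ} (h : ‖z‖ = 1) : z.re ^ 2 + z.im ^ 2 = 1 := by
  have : ‖z‖ ^ 2 = z.re ^ 2 + z.im ^ 2 := by
    rw [← Complex.normSq_eq_norm_sq, Complex.normSq_apply]; ring
  rw [← this, h]; norm_num

theorem norm_sub_sq (z w : ℂ) : ‖z - w‖ ^ 2 = (z.re - w.re) ^ 2 + (z.im - w.im) ^ 2 := by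
  rw [← Complex.normSq_eq_norm_sq, Complex.normSq_apply]
  simp
  ring

theorem norm_sub_one_sq {z : ℂ} (h : ‖z‖ = 1) : ‖z - 1‖ ^ 2 = 2 - 2 * z.re := by
  rw [norm_sub_sq]
  have := unit_sq h
  simp
  nlinarith

theorem abs_im_le (z w : ℂ) : |z.im - w.im| ≤ ‖z - w‖ := by
  have := Complex.abs_im_le_norm (z - w)
  simpa using this

theorem rho_lip (z w : ℂ) : |rho z - rho w| ≤ ‖z - w‖ / 4 := by
  unfold rho
  have h := abs_norm_sub_norm_le (z - 1) (w - 1)
  rw [show z - 1 - (w - 1) = z - w by ring] at h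
  rw [show ‖z - 1‖ / 4 - ‖w - 1‖ / 4 = (‖z - 1‖ - ‖w - 1‖) / 4 by ring, abs_div,
    abs_of_pos (show (0:ℝ) < 4 by norm_num)]
  linarith

theorem rho_lt_of_im_neg {z : ℂ} (h : ‖z‖ = 1) (hi : z.im < 0) : rho z < 1 / 2 := by
  have h1 := norm_sub_one_sq h
  have h2 := unit_sq h
  have h3 : z.re > -1 := by
    by_contra hcon
    push Not at hcon
    nlinarith
  unfold rho
  have h4 := norm_nonneg (z - 1)
  nlinarith

theorem rho_pos {z : ℂ} (h : z ≠ 1) : 0 < rho z := by
  unfold rho
  have : 0 < ‖z - 1‖ := norm_pos_iff.2 (sub_ne_zero.2 h)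
  linarith

theorem eq_of_rho {z w : ℂ} (hz : ‖z‖ = 1) (hw : ‖w‖ = 1) (h : rho z = rho w)
    (hs : (0 ≤ z.im ∧ 0 ≤ w.im) ∨ (z.im < 0 ∧ w.im < 0)) : z = w := by
  have h1 := norm_sub_one_sq hz
  have h2 := norm_sub_one_sq hw
  have h3 : ‖z - 1‖ = ‖w - 1‖ := by unfold rho at h; linarith
  have hre : z.re = w.re := by
    rw [h3] at h1
    linarith
  have u1 := unit_sq hz
  have u2 := unit_sq hw
  have him : z.im ^ 2 = w.im ^ 2 := by
    rw [hre] at u1
    linarith
  apply Complex.ext hre
  rcases hs with ⟨a, b⟩ | ⟨a, b⟩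
  · nlinarith [sq_nonneg (z.im - w.im), sq_nonneg (z.im + w.im), mul_nonneg a b]
  · have : (z.im - w.im) * (z.im + w.im) = 0 := by nlinarith
    rcases mul_eq_zero.1 this with h | h
    · linarith
    · linarith

theorem srho_abs_lt {z w : ℂ} (hz : ‖z‖ = 1) (hw : ‖w‖ = 1) : |srho z - srho w| < 1 := by
  unfold srho
  have a1 := rho_nonneg z
  have a2 := rho_nonneg w
  have b1 := rho_le hz
  have b2 := rho_le hw
  split_ifs with h1 h2 h2
  · rw [abs_lt]; constructor <;> linarith
  · push Not at h2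
    have := rho_lt_of_im_neg hw h2
    rw [abs_lt]; constructor <;> linarith
  · push Not at h1
    have := rho_lt_of_im_neg hz h1
    rw [abs_lt]; constructor <;> linarith
  · rw [abs_lt]; constructor <;> linarith

theorem eq_of_srho {z w : ℂ} (hz : ‖z‖ = 1) (hw : ‖w‖ = 1) (h : srho z = srho w) : z = w := by
  unfold srho at h
  split_ifs at h with h1 h2 h2
  · exact eq_of_rho hz hw h (Or.inl ⟨h1, h2⟩)
  · exfalso
    push Not at h2
    have a1 := rho_nonneg z
    have hw1 : w ≠ 1 := by rintro rfl; norm_num at h2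
    have := rho_pos hw1
    linarith
  · exfalso
    push Not at h1
    have a1 := rho_nonneg w
    have hz1 : z ≠ 1 := by rintro rfl; norm_num at h1
    have := rho_pos hz1
    linarith
  · push Not at h1 h2
    exact eq_of_rho hz hw (by linarith) (Or.inr ⟨h1, h2⟩)

open Classical in
/-- the point of the tree of level `m` given by a group element and a point of the model -/
noncomputable def tp (l : ℕ → ℝ) (m : ℕ) (g : FreeGroup ℕ) (x : ℕ → ℂ) :
    List ((ℕ × Bool) × ℝ) :=
  if h : ∃ j, j < m ∧ x j ≠ 1 then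
    edge l g.toWord (h.choose, decide (0 ≤ (x h.choose).im)) (rho (x h.choose))
  else vx l g.toWord

theorem tp_of {l : ℕ → ℝ} {m : ℕ} {g : FreeGroup ℕ} {x : ℕ → ℂ} (hx : EPt x) {j : ℕ}
    (hj : j < m) (hne : x j ≠ 1) :
    tp l m g x = edge l g.toWord (j, decide (0 ≤ (x j).im)) (rho (x j)) := by
  have h : ∃ j, j < m ∧ x j ≠ 1 := ⟨j, hj, hne⟩
  have e : h.choose = j := hx.2 _ _ h.choose_spec.2 hne
  unfold tp
  rw [dif_pos h, e]

theorem tp_base {l : ℕ → ℝ} {m : ℕ} {g : FreeGroup ℕ} {x : ℕ → ℂ} (h : ∀ j, j < m → x j = 1) :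
    tp l m g x = vx l g.toWord := by
  unfold tp
  rw [dif_neg]
  rintro ⟨j, hj, hne⟩
  exact hne (h j hj)

theorem posL_tp {l : ℕ → ℝ} (hl : ∀ j, 0 ≤ l j) (m : ℕ) (g : FreeGroup ℕ) {x : ℕ → ℂ}
    (hx : EPt x) : PosL (tp l m g x) := by
  by_cases h : ∃ j, j < m ∧ x j ≠ 1
  · obtain ⟨j, hj, hne⟩ := h
    rw [tp_of hx hj hne]
    exact posL_edge hl _ _ (rho_nonneg _) ((rho_le (hx.1 j)).trans (by norm_num))
  · push Not at h
    rw [tp_base h]
    exact posL_vx hl _

theorem th_tp {l : ℕ → ℝ} {m : ℕ} (g : FreeGroup ℕ) {x : ℕ → ℂ} (hx : EPt x) {j : ℕ}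
    (hj : j < m) : ∃ n : ℤ, th j (tp l m g x) = l j * (n + srho (x j)) := by
  refine ⟨sc j g.toWord, ?_⟩
  by_cases h : ∃ j, j < m ∧ x j ≠ 1
  · obtain ⟨i, hi, hne⟩ := h
    rw [tp_of hx hi hne, th_edge]
    by_cases hij : i = j
    · subst hij
      simp [srho]
    · rw [hx.eq_one hne (Ne.symm hij)]
      simp [hij, srho, rho_one]
  · push Not at h
    rw [tp_base h, th_vx, h j hj]
    simp [srho, rho_one]

/-- distance from a tree point to its vertex -/
theorem dd_tp_vx {l : ℕ → ℝ} (hl : ∀ j, 0 ≤ l j) {m : ℕ} (g : FreeGroup ℕ) {x : ℕ → ℂ}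
    (hx : EPt x) {c : ℝ} (hc : 0 ≤ c) (h : ∀ j, j < m → rho (x j) * l j ≤ c) :
    dd (tp l m g x) (vx l g.toWord) ≤ c := by
  by_cases h' : ∃ j, j < m ∧ x j ≠ 1
  · obtain ⟨i, hi, hne⟩ := h'
    rw [tp_of hx hi hne, edge_vx hl _ _ (rho_nonneg _)]
    exact h i hi
  · push Not at h'
    rw [tp_base h', dd_self]
    exact hc

/-- weight of a group element in terms of its letter counts -/
theorem wt_le {l : ℕ → ℝ} {m J : ℕ} {g : FreeGroup ℕ}
    (hg : er (· < m) g = g) (h0 : ∀ j, j < J → cnt j g = 0)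
    (h : ∀ j, l j * cnt j g ≤ (1 / 2) ^ j) :
    wt l g.toWord ≤ 2 * (1 / 2) ^ J := by
  have hmem : ∀ a ∈ g.toWord, a.1 < m := by
    intro a ha
    by_contra hcon
    have e1 : g.toWord = FreeGroup.reduce (g.toWord.filter (fun x => x.1 < m)) := by
      conv_lhs => rw [← hg, ← FreeGroup.mk_toWord (x := g), er_mk, FreeGroup.toWord_mk]
    rw [e1] at ha
    have h2 := (FreeGroup.Red.sublist (FreeGroup.reduce.red
      (L := g.toWord.filter (fun x => x.1 < m)))).subset ha
    rw [List.mem_filter] at h2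
    simp only [decide_eq_true_eq] at h2
    exact hcon h2.2
  have key : ∀ L : List (ℕ × Bool), (∀ a ∈ L, a.1 < m) →
      wt l L = ∑ j ∈ Finset.range m, l j * (L.countP (fun x => x.1 = j) : ℝ) := by
    intro L
    induction L with
    | nil => simp [wt]
    | cons a L ih =>
      intro hL
      have e : wt l (a :: L) = l a.1 + wt l L := by simp [wt]
      rw [e, ih (fun b hb => hL b (List.mem_cons_of_mem _ hb))]
      have h1 : ∀ j, ((a :: L).countP (fun x => x.1 = j) : ℝ)
          = (L.countP (fun x => x.1 = j) : ℝ) + if a.1 = j then 1 else 0 := by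
        intro j
        rw [List.countP_cons]
        push_cast
        simp
      simp only [h1, mul_add, Finset.sum_add_distrib]
      have h2 : ∑ j ∈ Finset.range m, l j * (if a.1 = j then (1:ℝ) else 0) = l a.1 := by
        simp [hL a List.mem_cons_self]
      rw [h2]
      ring
  rw [key _ hmem]
  have hgeo : ∀ n, ∑ j ∈ Finset.range n, (if j < J then (0:ℝ) else (1 / 2) ^ j)
      ≤ 2 * (1 / 2) ^ J - (if n < J then (1/2:ℝ)^J else 2 * (1 / 2) ^ n) + 
        (if n < J then (0:ℝ) else 0) := by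
    intro n
    induction n with
    | zero =>
      by_cases hJ : 0 < J
      · simp [hJ]
      · have : J = 0 := by omega
        subst this
        simp
    | succ n ih =>
      rw [Finset.sum_range_succ]
      by_cases h1 : n < J
      · rw [if_pos h1]
        by_cases h2 : n + 1 < J
        · simp only [h1, h2, if_true] at ih ⊢
          linarith
        · have : J = n + 1 := by omega
          subst this
          simp only [h1, h2, if_true, if_false] at ih ⊢
          have e0 : (0:ℝ) < (1/2) ^ (n + 1) := by positivity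
          have : ∑ j ∈ Finset.range n, (if j < n + 1 then (0:ℝ) else (1 / 2) ^ j) = 0 := by
            apply Finset.sum_eq_zero
            intro j hj
            rw [Finset.mem_range] at hj
            rw [if_pos (by omega)]
          rw [this]
          simp
      · have h2 : ¬ n + 1 < J := by omega
        rw [if_neg h1]
        simp only [h1, h2, if_false] at ih ⊢
        rw [pow_succ]
        linarith
  have hfin : ∑ j ∈ Finset.range m, (if j < J then (0:ℝ) else (1 / 2) ^ j) ≤ 2 * (1 / 2) ^ J := by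
    have h1 := hgeo m
    have e1 : (0:ℝ) ≤ (1/2) ^ J := by positivity
    have e2 : (0:ℝ) ≤ (1/2) ^ m := by positivity
    split_ifs at h1 <;> linarith
  refine le_trans (Finset.sum_le_sum ?_) hfin
  intro j _
  split_ifs with hj
  · have := h0 j hj
    unfold cnt at this
    rw [this]
    simp
  · exact h j

/-- the key local estimate along one edge -/
theorem edge_step {l : ℕ → ℝ} (hl : ∀ j, 0 ≤ l j) {m j : ℕ} (hj : j < m)
    (g : FreeGroup ℕ) {x y : ℕ → ℂ} (hx : EPt x) (hy : EPt y) {η : ℝ} (hη : 0 < η)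
    (hxj : η ≤ ‖x j - 1‖) (hxy : ‖x j - y j‖ < η / 4) :
    dd (tp l m g x) (tp l m (g * FreeGroup.of j ^ cr (x j) (y j)) y) ≤ l j * ‖x j - y j‖ := by
  have hxne : x j ≠ 1 := by
    intro h
    rw [h] at hxj
    simp at hxj
    linarith
  have hyj : 3 / 4 * η ≤ ‖y j - 1‖ := by
    have : ‖x j - 1‖ ≤ ‖x j - y j‖ + ‖y j - 1‖ := by
      have := norm_add_le (x j - y j) (y j - 1)
      simpa using this
    linarith
  have hyne : y j ≠ 1 := by
    intro h
    rw [h] at hyj
    simp at hyj
    linarith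
  rw [tp_of hx hj hxne, tp_of hy hj hyne]
  set z := x j with hz
  set w := y j with hw
  have uz := unit_sq (hx.1 j)
  have uw := unit_sq (hy.1 j)
  have nz := norm_sub_one_sq (hx.1 j)
  have nw := norm_sub_one_sq (hy.1 j)
  have him := abs_im_le z w
  rw [abs_le] at him
  have hlj := hl j
  have hnn := norm_nonneg (z - w)
  -- a point of the right half circle far from 1 has large imaginary part
  have big : ∀ v : ℂ, v.re ^ 2 + v.im ^ 2 = 1 → ‖v - 1‖ ^ 2 = 2 - 2 * v.re → 3 / 4 * η ≤ ‖v - 1‖ →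
      0 ≤ v.re → η / 4 < |v.im| := by
    intro v h1 h2 h3 h4
    have h5 : (3 / 4 * η) ^ 2 ≤ ‖v - 1‖ ^ 2 := by gcongr
    have h6 : v.re ≤ 1 := by nlinarith [sq_nonneg v.im]
    have h7 : v.im ^ 2 ≥ (1 - v.re) := by nlinarith
    by_contra hcon
    push Not at hcon
    have h8 : v.im ^ 2 ≤ (η / 4) ^ 2 := by
      rw [← sq_abs v.im]
      gcongr
    nlinarith
  by_cases hcr : cr z w = 0
  · -- same edge
    rw [hcr, zpow_zero, mul_one]
    have hside : decide (0 ≤ z.im) = decide (0 ≤ w.im) := by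
      by_cases hre : z.re < 0 ∧ w.re < 0
      · unfold cr at hcr
        rw [if_pos hre] at hcr
        rcases sd_cases z with ⟨a, b⟩ | ⟨a, b⟩ <;> rcases sd_cases w with ⟨c, d⟩ | ⟨c, d⟩
        · simp [not_le.2 a, not_le.2 c]
        · rw [b, d] at hcr; norm_num at hcr
        · rw [b, d] at hcr; norm_num at hcr
        · simp [a, c]
      · have hbig : η / 4 < |z.im| ∨ η / 4 < |w.im| := by
          rcases not_and_or.1 hre with h | h
          · left
            exact big z uz nz (by linarith) (by linarith)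
          · right
            exact big w uw nw hyj (by linarith)
        rw [decide_eq_decide]
        rcases hbig with h | h
        · rcases lt_abs.1 h with h | h <;> constructor <;> intro h' <;> linarith
        · rcases lt_abs.1 h with h | h <;> constructor <;> intro h' <;> linarith
    rw [hside, edge_edge, abs_mul, abs_of_nonneg hlj]
    have := rho_lip z w
    nlinarith
  · -- crossing
    obtain ⟨hzr, hwr⟩ := re_neg_of_cr_ne hcr
    have hcr' : cr z w = sd w - sd z := by
      unfold cr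
      rw [if_pos ⟨hzr, hwr⟩]
    -- near -1
    have half : ∀ v : ℂ, v.re ^ 2 + v.im ^ 2 = 1 → ‖v - 1‖ ^ 2 = 2 - 2 * v.re → v.re < 0 →
        1 / 2 - rho v ≤ |v.im| / 2 := by
      intro v h1 h2 h3
      unfold rho
      have h4 := norm_nonneg (v - 1)
      have h8 := abs_nonneg v.im
      have h9 : |v.im| ^ 2 = v.im ^ 2 := sq_abs _
      generalize |v.im| = a at h8 h9 ⊢
      generalize ‖v - 1‖ = N at h2 h4 ⊢
      have h10 : a ≤ 1 := by nlinarith [sq_nonneg v.re]
      have h11 : 1 - a ≤ -v.re := by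
        by_contra hcon
        push Not at hcon
        nlinarith
      have h12 : 2 - 2 * a ≤ N := by
        by_contra hcon
        push Not at hcon
        nlinarith
      linarith
    have hz2 := half z uz nz hzr
    have hw2 := half w uw nw hwr
    have rz := rho_le (hx.1 j)
    have rw' := rho_le (hy.1 j)
    rw [← hz] at rz
    rw [← hw] at rw'
    have bound : |(1 - rho z - rho w) * l j| ≤ l j * ‖z - w‖ ∨ True := Or.inr trivial
    have bound2 : |z.im| + |w.im| ≤ ‖z - w‖ → |(1 - rho z - rho w) * l j| ≤ l j * ‖z - w‖ := by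
      intro h
      rw [abs_mul, abs_of_nonneg hlj, abs_of_nonneg (by linarith)]
      rw [mul_comm]
      apply mul_le_mul_of_nonneg_left _ hlj
      linarith
    rcases sd_cases z with ⟨a, b⟩ | ⟨a, b⟩ <;> rcases sd_cases w with ⟨c, d⟩ | ⟨c, d⟩
    · exfalso; rw [hcr', b, d] at hcr; norm_num at hcr
    · rw [hcr', b, d]
      have e1 : decide (0 ≤ z.im) = false := by simp [a]
      have e2 : decide (0 ≤ w.im) = true := by simp [c]
      rw [e1, e2]
      have e3 : FreeGroup.of j ^ ((0:ℤ) - 1) = FreeGroup.mk [(j, false)] := by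
        rw [zero_sub, zpow_neg, zpow_one]; rfl
      rw [e3]
      have := edge_cross l g (j, false) (rho z) (rho w)
      simp only [Bool.not_false] at this
      rw [this]
      apply bound2
      rw [abs_of_neg a, abs_of_nonneg c]
      linarith
    · rw [hcr', b, d]
      have e1 : decide (0 ≤ z.im) = true := by simp [a]
      have e2 : decide (0 ≤ w.im) = false := by simp [c]
      rw [e1, e2]
      have e3 : FreeGroup.of j ^ ((1:ℤ) - 0) = FreeGroup.mk [(j, true)] := by
        rw [sub_zero, zpow_one]; rfl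
      rw [e3]
      have := edge_cross l g (j, true) (rho z) (rho w)
      simp only [Bool.not_true] at this
      rw [this]
      apply bound2
      rw [abs_of_nonneg a, abs_of_neg c]
      linarith
    · exfalso; rw [hcr', b, d] at hcr; norm_num at hcr

/-- the tree distance of level `m` between two times -/
noncomputable def dm (l : ℕ → ℝ) (F : ℝ → ℕ → ℂ) (m : ℕ) (s t : ℝ) : ℝ :=
  dd (tp l m (hm F 0 s m) (F s)) (tp l m (hm F 0 t m) (F t))

theorem dm_comm (l : ℕ → ℝ) (F : ℝ → ℕ → ℂ) (m : ℕ) (s t : ℝ) :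
    dm l F m s t = dm l F m t s := dd_comm _ _

theorem hm_step {F : ℝ → ℕ → ℂ} (hF : EPath F) {s t : ℝ} (hs : 0 ≤ s) (ht : 0 ≤ t) (m : ℕ) :
    hm F 0 t m = hm F 0 s m * hm F s t m := (hm_mul hF le_rfl hs ht m).symm

theorem dm_general {l : ℕ → ℝ} (hl : ∀ j, 0 ≤ l j) {F : ℝ → ℕ → ℂ} (hF : EPath F) (m : ℕ)
    {s t : ℝ} (hs : 0 ≤ s) (ht : 0 ≤ t) {c : ℝ} (hc : 0 ≤ c)
    (h1 : ∀ j, j < m → rho (F s j) * l j ≤ c) (h2 : ∀ j, j < m → rho (F t j) * l j ≤ c) :
    dm l F m s t ≤ 2 * c + wt l (hm F s t m).toWord := by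
  have a1 := dd_tp_vx hl (hm F 0 s m) (hF.pt s) hc h1
  have a2 := dd_tp_vx hl (hm F 0 t m) (hF.pt t) hc h2
  have p1 := posL_tp hl m (hm F 0 s m) (hF.pt s)
  have p2 := posL_tp hl m (hm F 0 t m) (hF.pt t)
  have q1 := posL_vx hl (hm F 0 s m).toWord
  have q2 := posL_vx hl (hm F 0 t m).toWord
  have b : dd (vx l (hm F 0 s m).toWord) (vx l (hm F 0 t m).toWord) = wt l (hm F s t m).toWord := by
    rw [dd_vx l FreeGroup.isReduced_toWord FreeGroup.isReduced_toWord, FreeGroup.mk_toWord,
      FreeGroup.mk_toWord, hm_step hF hs ht m]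
    congr 2
    group
  unfold dm
  have t1 := dd_tri p1 q1 p2
  have t2 := dd_tri q1 q2 p2
  rw [dd_comm] at a2
  linarith

theorem hm_er_self {F : ℝ → ℕ → ℂ} (hF : EPath F) {s t : ℝ} (hs : 0 ≤ s) (ht : 0 ≤ t) (m : ℕ) :
    er (· < m) (hm F s t m) = hm F s t m := hm_er hF hs ht le_rfl

/-- uniform modulus of continuity of the tree distances -/
theorem dm_small {F : ℝ → ℕ → ℂ} (hF : EPath F) {l : ℕ → ℝ} (hl : ∀ j, 0 ≤ l j)
    (hl1 : ∀ j, l j ≤ (1 / 2) ^ j)
    (hlK : ∀ m s t j, 0 ≤ s → s ≤ t → t ≤ 1 → l j * cnt j (hm F s t m) ≤ (1 / 2) ^ j)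
    {ε : ℝ} (hε : 0 < ε) :
    ∃ δ, 0 < δ ∧ ∀ m s t, 0 ≤ s → s ≤ t → t ≤ 1 → t - s ≤ δ → dm l F m s t ≤ ε := by
  obtain ⟨J, hJ⟩ : ∃ J : ℕ, (1 / 2 : ℝ) ^ J < ε / 8 :=
    exists_pow_lt_of_lt_one (by linarith) (by norm_num)
  set η := min (1 / 2) (ε / 4) with hη
  have hη0 : 0 < η := lt_min (by norm_num) (by linarith)
  have hη1 : η ≤ 1 / 2 := min_le_left _ _
  have hη2 : η ≤ ε / 4 := min_le_right _ _
  obtain ⟨δ, hδ, hd⟩ := hF.exists_delta J (ε := η / 4) (by linarith)
  refine ⟨δ, hδ, fun m s t hs hst ht hd' => ?_⟩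
  have ht0 : 0 ≤ t := hs.trans hst
  have hclose : ∀ u v, s ≤ u → u ≤ t → s ≤ v → v ≤ t → ∀ j, j < J → ‖F u j - F v j‖ < η / 4 := by
    intro u v h1 h2 h3 h4
    apply hd
    rw [abs_le]; constructor <;> linarith
  have hl1' : ∀ j, l j ≤ 1 := fun j => (hl1 j).trans (pow_le_one₀ (by norm_num) (by norm_num))
  by_cases hfar : ∃ j, j < J ∧ η ≤ ‖F s j - 1‖
  · obtain ⟨j, hj, hsj⟩ := hfar
    have hne : ∀ v, s ≤ v → v ≤ t → F v j ≠ 1 := by
      intro v h1 h2 h
      have := hclose s v le_rfl hst h1 h2 j hj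
      rw [h] at this
      linarith
    have hone : ∀ v, s ≤ v → v ≤ t → ∀ i, i ≠ j → F v i = 1 := fun v h1 h2 i hij =>
      (hF.pt v).eq_one (hne v h1 h2) hij
    have hhm : hm F s t m = cM m (F s) (F t) := by
      apply hm_of_near hF hs hst
      intro u v h1 h2 h3 h4 i _
      by_cases hij : i = j
      · subst hij
        have := hclose u v h1 h2 h3 h4 i hj
        linarith
      · rw [hone u h1 h2 i hij, hone v h3 h4 i hij]
        simp
    have hcM : cM m (F s) (F t) = if j < m then FreeGroup.of j ^ cr (F s j) (F t j) else 1 := by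
      unfold cM
      apply lp_single
      intro i _ hij
      rw [hone s le_rfl hst i hij, cr_one_left]
    unfold dm
    rw [hm_step hF hs ht0 m, hhm, hcM]
    by_cases hjm : j < m
    · rw [if_pos hjm]
      have h1 := edge_step hl hjm (hm F 0 s m) (hF.pt s) (hF.pt t) hη0 hsj
        (hclose s t le_rfl hst hst le_rfl j hj)
      have h2 := hclose s t le_rfl hst hst le_rfl j hj
      have h3 := hl1' j
      have h4 := hl j
      have h5 := norm_nonneg (F s j - F t j)
      nlinarith
    · rw [if_neg hjm, mul_one]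
      have e1 : ∀ i, i < m → F s i = 1 := fun i hi => hone s le_rfl hst i (by omega)
      have e2 : ∀ i, i < m → F t i = 1 := fun i hi => hone t hst le_rfl i (by omega)
      rw [tp_base e1, tp_base e2, dd_self]
      exact hε.le
  · push Not at hfar
    have hfar2 : ∀ j, j < J → ∀ v, s ≤ v → v ≤ t → ‖F v j - 1‖ < 1 := by
      intro j hj v h1 h2
      have a1 := hfar j hj
      have a2 := hclose v s h1 h2 le_rfl hst j hj
      have a3 : ‖F v j - 1‖ ≤ ‖F v j - F s j‖ + ‖F s j - 1‖ := by
        have := norm_add_le (F v j - F s j) (F s j - 1)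
        simpa using this
      linarith
    have hre : ∀ j, j < J → ∀ v, s ≤ v → v ≤ t → 0 ≤ (F v j).re := by
      intro j hj v h1 h2
      have a1 := hfar2 j hj v h1 h2
      have a2 := norm_sub_one_sq ((hF.pt v).1 j)
      have a3 := norm_nonneg (F v j - 1)
      nlinarith
    have hcnt : ∀ j, j < J → cnt j (hm F s t m) = 0 := by
      intro j hj
      apply cnt_eq_zero_of_er
      apply hm_fix hF hs hst
      intro u v hu1 hu2 hv1 hv2
      unfold cM
      rw [er_lp]
      apply lp_congr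
      intro i hi
      by_cases hij : i = j
      · subst hij
        simp [cr_eq_zero_left (hre i hj u hu1 hu2)]
      · simp [hij]
    have hw := wt_le (hm_er_self hF hs ht0 m) hcnt (fun j => hlK m s t j hs hst ht)
    have hgen := dm_general hl hF m hs ht0 (c := ε / 8 + η / 8) (by linarith)
      (by
        intro j _
        by_cases hj : j < J
        · have a1 := hfar j hj
          have a2 : rho (F s j) ≤ η / 4 := by unfold rho; linarith
          have a3 := rho_nonneg (F s j)
          have a4 := hl1' j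
          have a5 := hl j
          nlinarith
        · have a1 := rho_le ((hF.pt s).1 j)
          have a2 := rho_nonneg (F s j)
          have a3 : l j ≤ (1/2) ^ J := (hl1 j).trans
            (pow_le_pow_of_le_one (by norm_num) (by norm_num) (by omega))
          have a5 := hl j
          nlinarith)
      (by
        intro j _
        by_cases hj : j < J
        · have a1 := hfar j hj
          have b1 := hclose t s hst le_rfl le_rfl hst j hj
          have b2 : ‖F t j - 1‖ ≤ ‖F t j - F s j‖ + ‖F s j - 1‖ := by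
            have := norm_add_le (F t j - F s j) (F s j - 1)
            simpa using this
          have a2 : rho (F t j) ≤ 5 * η / 16 := by unfold rho; linarith
          have a3 := rho_nonneg (F t j)
          have a4 := hl1' j
          have a5 := hl j
          nlinarith
        · have a1 := rho_le ((hF.pt t).1 j)
          have a2 := rho_nonneg (F t j)
          have a3 : l j ≤ (1/2) ^ J := (hl1 j).trans
            (pow_le_pow_of_le_one (by norm_num) (by norm_num) (by omega))
          have a5 := hl j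
          nlinarith)
    linarith

/-- uniform lower bound separating different points -/
theorem dm_lower {F : ℝ → ℕ → ℂ} (hF : EPath F) {l : ℕ → ℝ} (hl : ∀ j, 0 < l j) {s t : ℝ}
    {j : ℕ} (hne : F s j ≠ F t j) :
    ∃ κ, 0 < κ ∧ ∀ m, j < m → κ ≤ dm l F m s t := by
  set z := F s j with hz
  set w := F t j with hw
  have hΔ0 : srho z - srho w ≠ 0 := by
    intro h
    exact hne (eq_of_srho ((hF.pt s).1 j) ((hF.pt t).1 j) (by linarith))
  have hΔ1 : |srho z - srho w| < 1 := srho_abs_lt ((hF.pt s).1 j) ((hF.pt t).1 j)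
  set Δ := srho z - srho w with hΔ
  have hκ : 0 < min |Δ| (1 - |Δ|) := lt_min (abs_pos.2 hΔ0) (by linarith)
  refine ⟨l j * min |Δ| (1 - |Δ|), mul_pos (hl j) hκ, fun m hm' => ?_⟩
  have hl' : ∀ j, 0 ≤ l j := fun j => (hl j).le
  obtain ⟨n, hn⟩ := th_tp (l := l) (hm F 0 s m) (hF.pt s) hm'
  obtain ⟨n', hn'⟩ := th_tp (l := l) (hm F 0 t m) (hF.pt t) hm'
  have h1 := th_dd j (posL_tp hl' m (hm F 0 s m) (hF.pt s)) (posL_tp hl' m (hm F 0 t m) (hF.pt t))
  rw [hn, hn'] at h1
  have e : l j * (↑n + srho (F s j)) - l j * (↑n' + srho (F t j))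
      = l j * (((n - n' : ℤ) : ℝ) + Δ) := by
    push_cast
    rw [hΔ]
    ring
  rw [e, abs_mul, abs_of_pos (hl j)] at h1
  refine le_trans ?_ h1
  apply mul_le_mul_of_nonneg_left _ (hl' j)
  generalize n - n' = k
  by_cases hk : k = 0
  · subst hk
    simp
  · have hk1 : (1:ℝ) ≤ |(k:ℝ)| := by
      rw [← Int.cast_abs]
      exact_mod_cast Int.one_le_abs hk
    have h3 : |(k:ℝ)| ≤ |(k:ℝ) + Δ| + |Δ| := by
      have := abs_sub (↑k + Δ) Δ
      simpa using this
    exact (min_le_right _ _).trans (by linarith)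

/-- **Shape injectivity.** A loop which factors through a path in the model of the Hawaiian
earring all of whose holonomies are trivial is null-homotopic. -/
theorem null_of_hol {X : Type*} [TopologicalSpace X] {x0 : X} (p : Path x0 x0)
    (F : ℝ → ℕ → ℂ) (hF : EPath F) (h0 : ∀ j, F 0 j = 1) (h1 : ∀ j, F 1 j = 1)
    (hol1 : ∀ m, hm F 0 1 m = 1) (hp : ∀ s t : I, F s = F t → p s = p t) :
    p.Homotopic (Path.refl x0) := by
  choose K hK using fun j => cnt_bound hF j
  set l : ℕ → ℝ := fun j => (1 / 2) ^ j / (K j + 1) with hl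
  have hlpos : ∀ j, 0 < l j := fun j => by
    show 0 < (1 / 2 : ℝ) ^ j / (K j + 1)
    positivity
  have hl0 : ∀ j, 0 ≤ l j := fun j => (hlpos j).le
  have hl1 : ∀ j, l j ≤ (1 / 2) ^ j := fun j => by
    show (1 / 2 : ℝ) ^ j / (K j + 1) ≤ (1 / 2) ^ j
    apply div_le_self (by positivity)
    have : (0:ℝ) ≤ K j := Nat.cast_nonneg _
    linarith
  have hlK : ∀ m s t j, 0 ≤ s → s ≤ t → t ≤ 1 → l j * cnt j (hm F s t m) ≤ (1 / 2) ^ j := by
    intro m s t j hs hst ht
    have h2 : (cnt j (hm F s t m) : ℝ) ≤ K j := by exact_mod_cast hK j m s t hs hst ht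
    have h3 : (0:ℝ) < K j + 1 := by positivity
    show (1 / 2 : ℝ) ^ j / (K j + 1) * _ ≤ (1 / 2) ^ j
    rw [div_mul_eq_mul_div, div_le_iff₀ h3]
    apply mul_le_mul_of_nonneg_left _ (by positivity)
    linarith
  have hl1' : ∀ j, l j ≤ 1 := fun j => (hl1 j).trans (pow_le_one₀ (by norm_num) (by norm_num))
  -- nonnegativity and boundedness
  have hnn : ∀ m s t, 0 ≤ dm l F m s t := by
    intro m s t
    have := dd_tri (posL_tp hl0 m (hm F 0 s m) (hF.pt s)) (posL_tp hl0 m (hm F 0 t m) (hF.pt t))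
      (posL_tp hl0 m (hm F 0 s m) (hF.pt s))
    rw [dd_self, dd_comm (tp l m (hm F 0 t m) (F t))] at this
    unfold dm
    linarith
  have hbd : ∀ m s t, 0 ≤ s → s ≤ 1 → 0 ≤ t → t ≤ 1 → dm l F m s t ≤ 3 := by
    have key : ∀ m s t, 0 ≤ s → s ≤ t → t ≤ 1 → dm l F m s t ≤ 3 := by
      intro m s t hs hst ht
      have hw := wt_le (J := 0) (hm_er_self hF hs (hs.trans hst) m) (fun j hj => absurd hj (by omega))
        (fun j => hlK m s t j hs hst ht)
      have hgen := dm_general hl0 hF m hs (hs.trans hst) (c := 1 / 2) (by norm_num)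
        (by
          intro j _
          have a1 := rho_le ((hF.pt s).1 j)
          have a2 := rho_nonneg (F s j)
          have a3 := hl1' j
          have a4 := hl0 j
          nlinarith)
        (by
          intro j _
          have a1 := rho_le ((hF.pt t).1 j)
          have a2 := rho_nonneg (F t j)
          have a3 := hl1' j
          have a4 := hl0 j
          nlinarith)
      norm_num at hw
      linarith
    intro m s t h1 h2 h3 h4
    rcases le_total s t with h | h
    · exact key m s t h1 h h4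
    · rw [dm_comm]
      exact key m t s h3 h h2
  -- the limit along an ultrafilter
  let cl : ℝ → ℝ := fun s => (Set.projIcc (0:ℝ) 1 zero_le_one s : I)
  have hcl0 : ∀ s, 0 ≤ cl s := fun s => (Set.projIcc (0:ℝ) 1 zero_le_one s).2.1
  have hcl1 : ∀ s, cl s ≤ 1 := fun s => (Set.projIcc (0:ℝ) 1 zero_le_one s).2.2
  have hcl : ∀ s, 0 ≤ s → s ≤ 1 → cl s = s := by
    intro s a b
    show ((Set.projIcc (0:ℝ) 1 zero_le_one s : I) : ℝ) = s
    rw [Set.projIcc_of_mem zero_le_one ⟨a, b⟩]
  let U : Ultrafilter ℕ := Filter.hyperfilter ℕ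
  have hlim : ∀ s t : ℝ, ∃ a : ℝ, Tendsto (fun m => dm l F m (cl s) (cl t)) U (𝓝 a) := by
    intro s t
    obtain ⟨a, -, ha⟩ := (isCompact_Icc (a := (0:ℝ)) (b := 3)).ultrafilter_le_nhds
      (U.map (fun m => dm l F m (cl s) (cl t))) (by
        rw [le_principal_iff, Ultrafilter.coe_map, Filter.mem_map]
        exact Filter.univ_mem' (fun m => ⟨hnn _ _ _, hbd _ _ _ (hcl0 _) (hcl1 _) (hcl0 _) (hcl1 _)⟩))
    exact ⟨a, ha⟩
  choose d hd using hlim
  have hP : ∀ m s, PosL (tp l m (hm F 0 (cl s) m) (F (cl s))) := fun m s =>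
    posL_tp hl0 m _ (hF.pt _)
  refine homotopic_refl_of_tree p d ?_ ?_ ?_ ?_ ?_ ?_ ?_
  · intro s
    refine tendsto_nhds_unique (hd s s) ?_
    have : (fun m => dm l F m (cl s) (cl s)) = fun _ => 0 := by
      funext m; exact dd_self _
    rw [this]
    exact tendsto_const_nhds
  · intro s t
    refine tendsto_nhds_unique (hd s t) ((hd t s).congr (fun m => dm_comm _ _ _ _ _))
  · intro s t u
    exact le_of_tendsto_of_tendsto' (hd s u) ((hd s t).add (hd t u))
      (fun m => dd_tri (hP m s) (hP m t) (hP m u))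
  · intro ε hε
    obtain ⟨δ, hδ, hsm⟩ := dm_small hF hl0 hl1 hlK hε
    refine ⟨δ, hδ, fun s t h1 h2 h3 h4 hst => ?_⟩
    refine le_of_tendsto' (hd s t) (fun m => ?_)
    rw [hcl s h1 h2, hcl t h3 h4]
    rw [abs_le] at hst
    rcases le_total s t with h | h
    · exact hsm m s t h1 h h4 (by linarith)
    · rw [dm_comm]
      exact hsm m t s h3 h h2 (by linarith)
  · intro s t u
    have hb : ∀ m s, dm l F m (cl 0) (cl s) = ht (tp l m (hm F 0 (cl s) m) (F (cl s))) := by
      intro m s
      unfold dm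
      have e0 : cl 0 = 0 := hcl 0 le_rfl zero_le_one
      have e1 : tp l m (hm F 0 (cl 0) m) (F (cl 0)) = [] := by
        rw [e0, tp_base (fun j _ => h0 j)]
        have : hm F 0 0 m = 1 := hol_self _
        rw [this, FreeGroup.toWord_one]
        rfl
      rw [e1, dd_nil]
    have hg : ∀ s t, Tendsto (fun m => ov (tp l m (hm F 0 (cl s) m) (F (cl s)))
        (tp l m (hm F 0 (cl t) m) (F (cl t)))) U (𝓝 (gp d s t)) := by
      intro s t
      have := (((hd 0 s).add (hd 0 t)).sub (hd s t)).div_const 2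
      refine this.congr (fun m => ?_)
      rw [hb, hb]
      unfold dm dd
      ring
    exact le_of_tendsto_of_tendsto' ((hg s t).min (hg t u)) (hg s u)
      (fun m => ov_hyp (hP m s) (hP m t) (hP m u))
  · refine tendsto_nhds_unique (hd 0 1) ?_
    have : (fun m => dm l F m (cl 0) (cl 1)) = fun _ => 0 := by
      funext m
      unfold dm
      rw [hcl 0 le_rfl zero_le_one, hcl 1 zero_le_one le_rfl, tp_base (fun j _ => h0 j),
        tp_base (fun j _ => h1 j), hol1 m]
      have : hm F 0 0 m = 1 := hol_self _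
      rw [this, dd_self]
    rw [this]
    exact tendsto_const_nhds
  · intro s t hst
    apply hp
    by_contra hne
    obtain ⟨j, hj⟩ := Function.ne_iff.1 hne
    obtain ⟨κ, hκ, hlow⟩ := dm_lower hF hlpos hj
    have := ge_of_tendsto (hd s t) (b := κ) (by
      have h2 : ∀ᶠ m in (U : Filter ℕ), j < m :=
        (Filter.Eventually.filter_mono Nat.hyperfilter_le_atTop (eventually_gt_atTop j))
      filter_upwards [h2] with m hm'
      rw [hcl s s.2.1 s.2.2, hcl t t.2.1 t.2.2]
      exact hlow m hm')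
    rw [hst] at this
    linarith

end Pool.Agent.MP3fbd41
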