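import Pool.Agent.Lib.MP_3fbd41_lc.Del

/-!
# Infinite words as coherent sequences of lists
-/

namespace Pool.Agent.MP3fbd41

open Filter

/-- the lists `S m` converge to the infinite word `V` -/
def Conv (S V : ℕ → List (ℕ × Bool)) : Prop := ∀ j, ∀ᶠ m in atTop, sm j (S m) = V j

/-- coherent sequences: `V j` is the restriction to the letters below `j` -/
def Coh (V : ℕ → List (ℕ × Bool)) : Prop := ∀ i j, i ≤ j → sm i (V j) = V i

theorem Coh.conv {V : ℕ → List (ℕ × Bool)} (h : Coh V) : Conv V V := fun j => by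
  filter_upwards [eventually_ge_atTop j] with m hm
  exact h j m hm

theorem Conv.coh {S V : ℕ → List (ℕ × Bool)} (h : Conv S V) : Coh V := by
  intro i j hij
  obtain ⟨m, h1, h2⟩ := ((h i).and (h j)).exists
  rw [← h1, ← h2, sm_sm hij]

theorem Conv.unique {S V V' : ℕ → List (ℕ × Bool)} (h : Conv S V) (h' : Conv S V') : V = V' := by
  funext j
  obtain ⟨m, h1, h2⟩ := ((h j).and (h' j)).exists
  rw [← h1, ← h2]

theorem Conv.append {S V S' V' : ℕ → List (ℕ × Bool)} (h : Conv S V) (h' : Conv S' V') :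
    Conv (fun m => S m ++ S' m) (fun m => V m ++ V' m) := fun j => by
  filter_upwards [h j, h' j] with m h1 h2
  rw [sm_append, h1, h2]

theorem Conv.congr {S S' V : ℕ → List (ℕ × Bool)} (h : Conv S V)
    (h' : ∀ j, ∀ᶠ m in atTop, sm j (S m) = sm j (S' m)) : Conv S' V := fun j => by
  filter_upwards [h j, h' j] with m h1 h2
  rw [← h2, h1]

theorem Conv.congr' {S S' V V' : ℕ → List (ℕ × Bool)} (h : Conv S V)
    (h1 : ∀ m, S m = S' m) (h2 : ∀ m, V m = V' m) : Conv S' V' := by
  have e1 : S = S' := funext h1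
  have e2 : V = V' := funext h2
  rwa [← e1, ← e2]

theorem Coh.append {V V' : ℕ → List (ℕ × Bool)} (h : Coh V) (h' : Coh V') :
    Coh (fun m => V m ++ V' m) := fun i j hij => by
  show sm i (V j ++ V' j) = V i ++ V' i
  rw [sm_append, h i j hij, h' i j hij]

theorem Conv.reverse {S V : ℕ → List (ℕ × Bool)} (h : Conv S V) :
    Conv (fun m => (S m).reverse) (fun m => (V m).reverse) := fun j => by
  filter_upwards [h j] with m h1
  rw [sm_reverse, h1]

theorem Coh.reverse {V : ℕ → List (ℕ × Bool)} (h : Coh V) : Coh (fun m => (V m).reverse) :=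
  h.conv.reverse.coh

theorem sm_map {f : ℕ × Bool → ℕ × Bool} (hf : ∀ x, (f x).1 = x.1) (j : ℕ)
    (L : List (ℕ × Bool)) : sm j (L.map f) = (sm j L).map f := by
  induction L with
  | nil => rfl
  | cons x L ih =>
    by_cases h : x.1 < j
    · rw [List.map_cons, sm_cons_lt (by rw [hf]; exact h), ih, sm_cons_lt h, List.map_cons]
    · rw [List.map_cons, sm_cons_ge (by rw [hf]; exact h), ih, sm_cons_ge h]

theorem sm_invRev (j : ℕ) (L : List (ℕ × Bool)) :
    sm j (FreeGroup.invRev L) = FreeGroup.invRev (sm j L) := by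
  unfold FreeGroup.invRev
  rw [sm_reverse, sm_map (f := fun g => (g.1, !g.2)) (fun _ => rfl)]

theorem Conv.invRev {S V : ℕ → List (ℕ × Bool)} (h : Conv S V) :
    Conv (fun m => FreeGroup.invRev (S m)) (fun m => FreeGroup.invRev (V m)) := fun j => by
  filter_upwards [h j] with m h1
  rw [sm_invRev, h1]

theorem Coh.invRev {V : ℕ → List (ℕ × Bool)} (h : Coh V) :
    Coh (fun m => FreeGroup.invRev (V m)) := h.conv.invRev.coh

theorem ev_const_of_mono {f : ℕ → List (ℕ × Bool)} {M : ℕ}
    (h : ∀ m, M ≤ m → (f m).Sublist (f (m + 1))) {B : ℕ} (hB : ∀ m, M ≤ m → (f m).length ≤ B) :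
    ∃ L, ∀ᶠ m in atTop, f m = L := by
  have hex : ∃ m1, M ≤ m1 ∧ ∀ m, M ≤ m → (f m).length ≤ (f m1).length := by
    by_contra hcon
    push Not at hcon
    have key : ∀ n : ℕ, ∃ m, M ≤ m ∧ n ≤ (f m).length := by
      intro n
      induction n with
      | zero => exact ⟨M, le_rfl, Nat.zero_le _⟩
      | succ n ih =>
        obtain ⟨m, hm, hn⟩ := ih
        obtain ⟨m', hm', hn'⟩ := hcon m hm
        exact ⟨m', hm', by omega⟩
    obtain ⟨m, hm, hn⟩ := key (B + 1)
    have := hB m hm
    omega
  obtain ⟨m1, hm1, hmax⟩ := hex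
  refine ⟨f m1, ?_⟩
  filter_upwards [eventually_ge_atTop m1] with m hm
  have hsub : (f m1).Sublist (f m) := by
    induction m, hm using Nat.le_induction with
    | base => exact List.Sublist.refl _
    | succ n hn ih => exact ih.trans (h n (hm1.trans hn))
  exact (hsub.eq_of_length (le_antisymm hsub.length_le (hmax m (hm1.trans hm)))).symm

theorem ev_const_of_anti {f : ℕ → List (ℕ × Bool)} {M : ℕ}
    (h : ∀ m, M ≤ m → (f (m + 1)).Sublist (f m)) :
    ∃ L, ∀ᶠ m in atTop, f m = L := by
  have hex : ∃ m1, M ≤ m1 ∧ ∀ m, M ≤ m → (f m1).length ≤ (f m).length := by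
    classical
    have hne : ∃ n, ∃ m, M ≤ m ∧ (f m).length = n := ⟨_, M, le_rfl, rfl⟩
    obtain ⟨m1, h1, h2⟩ := Nat.find_spec hne
    refine ⟨m1, h1, fun m hm => ?_⟩
    rw [h2]
    exact Nat.find_min' hne ⟨m, hm, rfl⟩
  obtain ⟨m1, hm1, hmin⟩ := hex
  refine ⟨f m1, ?_⟩
  filter_upwards [eventually_ge_atTop m1] with m hm
  have hsub : (f m).Sublist (f m1) := by
    induction m, hm using Nat.le_induction with
    | base => exact List.Sublist.refl _
    | succ n hn ih => exact (h n (hm1.trans hn)).trans ih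
  exact hsub.eq_of_length (le_antisymm hsub.length_le (hmin m (hm1.trans hm)))

theorem exists_conv {S : ℕ → List (ℕ × Bool)} (h : ∀ j, ∃ L, ∀ᶠ m in atTop, sm j (S m) = L) :
    ∃ V, Conv S V := by
  choose V hV using h
  exact ⟨V, hV⟩

theorem Coh.sublist {V : ℕ → List (ℕ × Bool)} (h : Coh V) {i j : ℕ} (hij : i ≤ j) :
    (V i).Sublist (V j) := by
  rw [← h i j hij]
  exact sm_sublist _ _

theorem Coh.subS {V : ℕ → List (ℕ × Bool)} (h : Coh V) {k i j : ℕ} (hki : k ≤ i) (hij : i ≤ j) :
    SubS k (V i) (V j) := ⟨h.sublist hij, by rw [h k i hki, h k j (hki.trans hij)]⟩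

theorem exists_del (k : ℕ) {V : ℕ → List (ℕ × Bool)} (h : Coh V) :
    ∃ W, Conv (fun m => del k (V m)) W := by
  apply exists_conv
  intro j
  refine ev_const_of_mono (M := max k j) (B := (V j).length) ?_ ?_
  · intro m hm
    exact sm_mono (del_mono (h.subS (le_of_max_le_left hm) (Nat.le_succ m)))
  · intro m hm
    have h1 : (sm j (del k (V m))).Sublist (sm j (V m)) := sm_mono (del_sublist _ _)
    rw [h j m (le_of_max_le_right hm)] at h1
    exact h1.length_le

open Classical in
/-- the deletion on infinite words -/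
noncomputable def Dl (k : ℕ) (V : ℕ → List (ℕ × Bool)) : ℕ → List (ℕ × Bool) :=
  if h : ∃ W, Conv (fun m => del k (V m)) W then h.choose else fun _ => []

theorem Dl_conv (k : ℕ) {V : ℕ → List (ℕ × Bool)} (h : Coh V) :
    Conv (fun m => del k (V m)) (Dl k V) := by
  have hex := exists_del k h
  unfold Dl
  rw [dif_pos hex]
  exact hex.choose_spec

theorem Dl_coh (k : ℕ) {V : ℕ → List (ℕ × Bool)} (h : Coh V) : Coh (Dl k V) :=
  (Dl_conv k h).coh

theorem Dl_invRev (k : ℕ) {V : ℕ → List (ℕ × Bool)} (h : Coh V) :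
    Dl k (fun m => FreeGroup.invRev (V m)) = fun m => FreeGroup.invRev (Dl k V m) := by
  have h1 := Dl_conv k h.invRev
  have h2 := (Dl_conv k h).invRev
  refine h1.unique ?_
  exact h2.congr' (fun m => (del_invRev k _).symm) (fun _ => rfl)

theorem tw_prefix {c : ℕ} {L P Q : List (ℕ × Bool)} (h : L = P ++ Q) (hP : ∀ a ∈ P, col a = c) :
    tw c L = P ++ tw c Q := by
  rw [h]
  unfold tw
  rw [List.takeWhile_append_of_pos]
  intro a ha
  simp [hP a ha]

theorem tw_anti {V : ℕ → List (ℕ × Bool)} (h : Coh V) (c : ℕ) {m : ℕ} :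
    ∃ Q, tw c (V m) = sm m (tw c (V (m + 1))) ++ Q := by
  have e : V m = sm m (tw c (V (m + 1))) ++ sm m (dw c (V (m + 1))) := by
    rw [← sm_append, tw_append_dw, h m (m + 1) (Nat.le_succ m)]
  refine ⟨tw c (sm m (dw c (V (m + 1)))), ?_⟩
  apply tw_prefix e
  intro a ha
  rw [mem_sm] at ha
  exact mem_tw ha.1

theorem tw_ev {V : ℕ → List (ℕ × Bool)} (h : Coh V) (c j : ℕ) :
    ∃ L, ∀ᶠ m in atTop, sm j (tw c (V m)) = L := by
  refine ev_const_of_anti (M := j) ?_
  intro m hm
  obtain ⟨Q, hQ⟩ := tw_anti h c (m := m)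
  rw [hQ, sm_append, sm_sm hm]
  exact List.sublist_append_left _ _

/-- the first block contains a small letter, or only large ones -/
theorem fr_ev {Z : ℕ → List (ℕ × Bool)} (h : Coh Z) :
    ∃ K, ∀ k, K ≤ k → ∀ j, ∀ᶠ m in atTop,
      (∃ a ∈ fr (Z m), a.1 < k) ∨ (∀ a ∈ fr (Z m), j ≤ a.1) := by
  have hfr : ∀ m, fr (Z m) = [] ∨ fr (Z m) = tw 0 (Z m) ∨ fr (Z m) = tw 1 (Z m) := by
    intro m
    cases hZ : Z m with
    | nil => left; rfl
    | cons x L =>
      right
      have h2 : col x = 0 ∨ col x = 1 := by unfold col; omega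
      rcases h2 with h2 | h2
      · left
        show tw (col x) (x :: L) = _
        rw [h2]
      · right
        show tw (col x) (x :: L) = _
        rw [h2]
  have hfr2 : ∀ m c, tw c (Z m) ≠ [] → fr (Z m) = tw c (Z m) := by
    intro m c hne
    cases hZ : Z m with
    | nil => rw [hZ] at hne; exact absurd rfl hne
    | cons x L =>
      rw [hZ] at hne
      have : col x = c := by
        by_contra hc
        apply hne
        unfold tw
        simp [hc]
      show tw (col x) (x :: L) = _
      rw [this]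
  choose I hI using fun c j => tw_ev h c j
  by_cases hcase : ∃ c i, I c i ≠ []
  · obtain ⟨c, i, hne⟩ := hcase
    refine ⟨i, fun k hk j => ?_⟩
    filter_upwards [hI c i] with m hm
    left
    have h1 : sm i (tw c (Z m)) ≠ [] := by rw [hm]; exact hne
    obtain ⟨a, ha⟩ := List.exists_mem_of_ne_nil _ h1
    rw [mem_sm] at ha
    have h2 : tw c (Z m) ≠ [] := List.ne_nil_of_mem ha.1
    rw [hfr2 m c h2]
    exact ⟨a, ha.1, by omega⟩
  · push Not at hcase
    refine ⟨0, fun k _ j => ?_⟩
    filter_upwards [hI 0 j, hI 1 j] with m h0 h1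
    right
    rw [hcase] at h0 h1
    rw [sm_eq_nil] at h0 h1
    rcases hfr m with h2 | h2 | h2
    · rw [h2]; simp
    · rw [h2]; exact h0
    · rw [h2]; exact h1

/-- the deletion is multiplicative for large thresholds -/
theorem Dl_append {X Z : ℕ → List (ℕ × Bool)} (hX : Coh X) (hZ : Coh Z) :
    ∃ K, ∀ k, K ≤ k → Dl k (fun m => X m ++ Z m) = fun m => Dl k X m ++ Dl k Z m := by
  obtain ⟨K1, h1⟩ := fr_ev hX.reverse
  obtain ⟨K2, h2⟩ := fr_ev hZ
  refine ⟨max K1 K2, fun k hk => ?_⟩
  refine (Dl_conv k (hX.append hZ)).unique ?_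
  refine ((Dl_conv k hX).append (Dl_conv k hZ)).congr ?_
  intro j
  filter_upwards [h1 k (le_of_max_le_left hk) j, h2 k (le_of_max_le_right hk) j] with m e1 e2
  unfold del
  rw [delC_append, sm_append, sm_append, sm_delC_left ((X m).reverse ++ []) _ _ e2,
    sm_delC_right _ _ (Z m ++ []) e1]

/-- cutting an infinite word at a limit position -/
theorem exists_cut {V P Q : ℕ → List (ℕ × Bool)} (hV : Coh V) (hPQ : ∀ m, V m = P m ++ Q m)
    {M : ℕ} (hanti : ∀ m, M ≤ m → ∃ R, P m = sm m (P (m + 1)) ++ R) :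
    ∃ X Z, Coh X ∧ Coh Z ∧ Conv P X ∧ Conv Q Z ∧ ∀ m, V m = X m ++ Z m := by
  have hP : ∀ j, ∃ L, ∀ᶠ m in atTop, sm j (P m) = L := by
    intro j
    refine ev_const_of_anti (M := max M j) ?_
    intro m hm
    obtain ⟨R, hR⟩ := hanti m (le_of_max_le_left hm)
    rw [hR, sm_append, sm_sm (le_of_max_le_right hm)]
    exact List.sublist_append_left _ _
  obtain ⟨X, hX⟩ := exists_conv hP
  have hQ : ∀ j, ∃ L, ∀ᶠ m in atTop, sm j (Q m) = L := by
    intro j
    refine ⟨(V j).drop (X j).length, ?_⟩
    filter_upwards [hX j, eventually_ge_atTop j] with m h1 h2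
    have h3 : V j = sm j (P m) ++ sm j (Q m) := by
      rw [← sm_append, ← hPQ, hV j m h2]
    rw [h3, h1]
    simp
  obtain ⟨Z, hZ⟩ := exists_conv hQ
  refine ⟨X, Z, hX.coh, hZ.coh, hX, hZ, ?_⟩
  have h1 := hX.append hZ
  have h2 : Conv (fun m => P m ++ Q m) V := hV.conv.congr' hPQ (fun _ => rfl)
  have h3 := h1.unique h2
  intro m
  exact (congrFun h3 m).symm

/-- splitting off the maximal initial part of colour `c` -/
theorem exists_init {V : ℕ → List (ℕ × Bool)} (hV : Coh V) (c : ℕ) :
    ∃ I C, Coh I ∧ Coh C ∧ (∀ m, V m = I m ++ C m) ∧ (∀ m, ∀ a ∈ I m, col a = c) ∧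
      ∀ j, ∀ᶠ m in atTop, ∀ a ∈ tw c (C m), j ≤ a.1 := by
  obtain ⟨I, C, hI, hC, hcI, -, hV'⟩ := exists_cut (P := fun m => tw c (V m))
    (Q := fun m => dw c (V m)) (M := 0) hV (fun m => (tw_append_dw c (V m)).symm)
    (fun m _ => tw_anti hV c)
  have hIc : ∀ m, ∀ a ∈ I m, col a = c := by
    intro m a ha
    obtain ⟨m', h1⟩ := (hcI m).exists
    rw [← h1, mem_sm] at ha
    exact mem_tw ha.1
  refine ⟨I, C, hI, hC, hV', hIc, ?_⟩
  intro j
  filter_upwards [hcI j, eventually_ge_atTop j] with m h1 h2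
  rw [tw_prefix (hV' m) (hIc m), sm_append, hI j m h2] at h1
  have h3 : sm j (tw c (C m)) = [] := by
    have := congrArg List.length h1
    rw [List.length_append] at this
    exact List.length_eq_zero_iff.1 (by omega)
  rwa [sm_eq_nil] at h3

/-- splitting off the maximal terminal part of colour `c` -/
theorem exists_term {V : ℕ → List (ℕ × Bool)} (hV : Coh V) (c : ℕ) :
    ∃ A T, Coh A ∧ Coh T ∧ (∀ m, V m = A m ++ T m) ∧ (∀ m, ∀ a ∈ T m, col a = c) ∧
      ∀ j, ∀ᶠ m in atTop, ∀ a ∈ tw c (A m).reverse, j ≤ a.1 := by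
  obtain ⟨I, C, hI, hC, hV', hIc, hl⟩ := exists_init hV.reverse c
  refine ⟨fun m => (C m).reverse, fun m => (I m).reverse, hC.reverse, hI.reverse, ?_, ?_, ?_⟩
  · intro m
    have := hV' m
    have h2 := congrArg List.reverse this
    simpa using h2
  · intro m a ha
    rw [List.mem_reverse] at ha
    exact hIc m a ha
  · intro j
    filter_upwards [hl j] with m hm
    simpa using hm

/-- the constant word with one letter -/
def sing (x : ℕ × Bool) (j : ℕ) : List (ℕ × Bool) := sm j [x]

theorem sing_coh (x : ℕ × Bool) : Coh (sing x) := fun i j hij => by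
  unfold sing
  rw [sm_sm hij]

/-- decomposition of an infinite word around its first letter below `k` -/
theorem exists_block {V : ℕ → List (ℕ × Bool)} (hV : Coh V) {k : ℕ} (hk : V k ≠ []) :
    ∃ A B C : ℕ → List (ℕ × Bool), Coh A ∧ Coh B ∧ Coh C ∧ (∀ m, V m = A m ++ (B m ++ C m)) ∧
      (∃ c, ∀ m, ∀ a ∈ B m, col a = c) ∧ (C k).length < (V k).length ∧
      Dl k V = fun m => A m ++ Dl k C m := by
  obtain ⟨x, rest, hx⟩ := List.exists_cons_of_ne_nil hk
  set c := col x with hc
  have hxk : x.1 < k := by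
    have h1 := hV k k le_rfl
    have h2 : x ∈ sm k (V k) := by rw [h1, hx]; simp
    exact (mem_sm.1 h2).2
  -- cut before the first small letter
  let P : ℕ → List (ℕ × Bool) := fun m => (V m).takeWhile (fun a => k ≤ a.1)
  let R : ℕ → List (ℕ × Bool) := fun m => (V m).dropWhile (fun a => k ≤ a.1)
  have hPR : ∀ m, V m = P m ++ R m := fun m => List.takeWhile_append_dropWhile.symm
  have hPk : ∀ m, ∀ a ∈ P m, k ≤ a.1 := fun m a ha => by
    have := List.mem_takeWhile_imp ha
    simpa using this
  have hR : ∀ m, k ≤ m → ∃ Q, R m = x :: Q := by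
    intro m hm
    have h1 : sm k (V m) = x :: rest := by rw [hV k m hm, hx]
    rw [hPR m, sm_append, sm_eq_nil.2 (hPk m), List.nil_append] at h1
    cases hRm : R m with
    | nil => rw [hRm] at h1; simp [sm] at h1
    | cons y Q =>
      have hy : ¬ k ≤ y.1 := by
        have h3 := List.head?_dropWhile_not (fun a : ℕ × Bool => decide (k ≤ a.1)) (V m)
        have h4 : (V m).dropWhile (fun a : ℕ × Bool => decide (k ≤ a.1)) = y :: Q := hRm
        rw [h4] at h3
        simpa using h3
      rw [hRm, sm_cons_lt (by omega)] at h1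
      have := (List.cons.inj h1).1
      subst this
      exact ⟨Q, rfl⟩
  choose! Q hQ using hR
  have hanti : ∀ m, k ≤ m → ∃ R', P m = sm m (P (m + 1)) ++ R' := by
    intro m hm
    refine ⟨[], ?_⟩
    rw [List.append_nil]
    have h1 : V m = sm m (P (m + 1)) ++ (x :: sm m (Q (m + 1))) := by
      rw [← hV m (m + 1) (Nat.le_succ m), hPR (m + 1), hQ (m + 1) (by omega), sm_append,
        sm_cons_lt (by omega)]
    show (V m).takeWhile (fun a => k ≤ a.1) = _
    rw [h1, List.takeWhile_append_of_pos]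
    · rw [List.takeWhile_cons_of_neg (by simpa using hxk), List.append_nil]
    · intro a ha
      rw [mem_sm] at ha
      simpa using hPk _ a ha.1
  obtain ⟨P', R', hP', hR', hcP, hcR, hV1⟩ := exists_cut hV hPR hanti
  -- split off x
  have hQev : ∀ j, ∃ L, ∀ᶠ m in atTop, sm j (Q m) = L := by
    intro j
    refine ⟨(R' j).drop (sing x j).length, ?_⟩
    filter_upwards [hcR j, eventually_ge_atTop k] with m h1 h2
    rw [hQ m h2] at h1
    have h3 : sm j (x :: Q m) = sing x j ++ sm j (Q m) := by
      rw [show x :: Q m = [x] ++ Q m from rfl, sm_append]; rfl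
    rw [← h1, h3]
    simp
  obtain ⟨Q', hcQ⟩ := exists_conv hQev
  have hR1 : ∀ m, R' m = sing x m ++ Q' m := by
    have h1 : Conv (fun m => sing x m ++ Q m) (fun m => sing x m ++ Q' m) :=
      (sing_coh x).conv.append hcQ
    have h2 : Conv (fun m => sing x m ++ Q m) R' := by
      refine hcR.congr (fun j => ?_)
      filter_upwards [eventually_ge_atTop k] with m hm
      rw [hQ m hm]
      have : sing x m = [x] := by unfold sing; rw [sm_cons_lt (by omega)]; rfl
      rw [this]
      rfl
    intro m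
    exact congrFun (h2.unique h1) m
  obtain ⟨A, T, hA, hT, hP1, hTc, hAl⟩ := exists_term hP' c
  obtain ⟨I, C, hI, hC, hQ1, hIc, hCl⟩ := exists_init hcQ.coh c
  refine ⟨A, fun m => T m ++ (sing x m ++ I m), C, hA, hT.append ((sing_coh x).append hI), hC,
    ?_, ?_, ?_, ?_⟩
  · intro m
    rw [hV1, hP1, hR1, hQ1]
    simp
  · refine ⟨c, fun m a ha => ?_⟩
    rcases List.mem_append.1 ha with ha | ha
    · exact hTc m a ha
    · rcases List.mem_append.1 ha with ha | ha
      · unfold sing at ha
        rw [mem_sm, List.mem_singleton] at ha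
        rw [ha.1]
      · exact hIc m a ha
  · have h1 : V k = A k ++ ((T k ++ (sing x k ++ I k)) ++ C k) := by
      rw [hV1, hP1, hR1, hQ1]
      simp
    have h2 : sing x k = [x] := by unfold sing; rw [sm_cons_lt hxk]; rfl
    rw [h1, h2]
    simp only [List.length_append, List.length_cons, List.length_nil]
    omega
  · refine (Dl_conv k hV).unique ?_
    refine (hA.conv.append (Dl_conv k hC)).congr ?_
    intro j
    filter_upwards [hAl j, hCl j, eventually_ge_atTop k] with m h1 h2 hm
    have hVm : V m = A m ++ ((T m ++ (sing x m ++ I m)) ++ C m) := by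
      rw [hV1, hP1, hR1, hQ1]
      simp
    have hs : sing x m = [x] := by unfold sing; rw [sm_cons_lt (by omega)]; rfl
    have hBc : ∀ a ∈ T m ++ (sing x m ++ I m), col a = c := by
      intro a ha
      rcases List.mem_append.1 ha with ha | ha
      · exact hTc m a ha
      · rcases List.mem_append.1 ha with ha | ha
        · rw [hs, List.mem_singleton] at ha
          rw [ha]
        · exact hIc m a ha
    have hxB : x ∈ T m ++ (sing x m ++ I m) := by
      rw [hs]; simp
    set B := T m ++ (sing x m ++ I m) with hB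
    have hBne : B ≠ [] := List.ne_nil_of_mem hxB
    have hhead : ∀ (L : List (ℕ × Bool)), (∀ a ∈ L, col a = c) → L ≠ [] → ∀ M : List (ℕ × Bool),
        ∀ a, (L ++ M).head? = some a → col a = c := by
      intro L hL hne M a ha
      cases L with
      | nil => exact absurd rfl hne
      | cons y L =>
        simp only [List.cons_append, List.head?_cons, Option.some.injEq] at ha
        subst ha
        exact hL y List.mem_cons_self
    rw [hVm]
    unfold del
    rw [delC_append, delC_append, delC_mono_nil hBc _ _ (Or.inr (Or.inl ⟨x, hxB, hxk⟩)),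
      List.nil_append, sm_append, sm_append, List.append_nil]
    congr 1
    · -- the part A
      have hAk : sm k (A m) = [] := by
        rw [sm_eq_nil]
        intro a ha
        have h3 : a ∈ P' m := by rw [hP1]; exact List.mem_append_left _ ha
        obtain ⟨m', h4⟩ := (hcP m).exists
        rw [← h4, mem_sm] at h3
        exact hPk _ a h3.1
      have h5 : delC k [] (A m) [] = A m := del_of_large hAk
      have h6 := sm_delC_left' (k := k) (j := j) (c := c) (B ++ C m) (A m).reverse []
        (hhead B hBc hBne (C m)) h1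
      rw [← delC_reverse, ← delC_reverse, sm_reverse, sm_reverse] at h6
      have h7 := List.reverse_injective h6
      rw [h5] at h7
      exact h7.symm
    · have h6 := sm_delC_left' (k := k) (j := j) (c := c) (B.reverse ++ (A m).reverse) (C m) []
        (hhead B.reverse (fun a ha => hBc a (List.mem_reverse.1 ha)) (by simpa using hBne) _) h2
      rw [List.append_nil]
      exact h6.symm

/-- A multiplicative function on infinite words which kills the monochromatic words is
invariant under deletion. -/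
theorem map_Dl {Γ : Type*} [Group Γ] (κ : (ℕ → List (ℕ × Bool)) → Γ)
    (hmul : ∀ X Z, Coh X → Coh Z → κ (fun m => X m ++ Z m) = κ X * κ Z)
    (hpure : ∀ X, Coh X → (∃ c, ∀ m, ∀ a ∈ X m, col a = c) → κ X = 1) (k : ℕ)
    {V : ℕ → List (ℕ × Bool)} (hV : Coh V) : κ (Dl k V) = κ V := by
  have key : ∀ n, ∀ V : ℕ → List (ℕ × Bool), Coh V → (V k).length = n → κ (Dl k V) = κ V := by
    intro n
    induction n using Nat.strong_induction_on with
    | _ n ih =>
      intro V hV hn
      by_cases hk : V k = []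
      · have : Dl k V = V := by
          refine (Dl_conv k hV).unique ?_
          refine hV.conv.congr (fun j => ?_)
          filter_upwards [eventually_ge_atTop k] with m hm
          rw [del_of_large (by rw [hV k m hm, hk])]
        rw [this]
      · obtain ⟨A, B, C, hA, hB, hC, hVm, hBc, hlt, hD⟩ := exists_block hV hk
        have hVe : V = fun m => A m ++ (fun m => B m ++ C m) m := funext hVm
        rw [hD, hmul A (Dl k C) hA (Dl_coh k hC), ih _ (by omega) C hC rfl]
        conv_rhs => rw [hVe]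
        rw [hmul A _ hA (hB.append hC), hmul B C hB hC, hpure B hB hBc, one_mul]
  exact key _ V hV rfl

end Pool.Agent.MP3fbd41
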